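import Pool.Agent.Helper14.TK7.CevCore

/-!
# Project TK (levels `3·7^n`): the coefficients at the origin (sums over the torus classes)

The lemmas on digits are copies of the private lemmas of `CevCore.lean`.
-/

set_option autoImplicit false
set_option maxRecDepth 100000

namespace Pool.Agent.Helper14.TK7

open Pool.Agent.Helper84.S7
open Pool.Agent.Helper4.S7 (Tm mulT mulL sclL Gd)
open Pool.Agent.Helper14.TL7 (cO)

/-- The check: the sums of six digits, for the positions of weight at most `n`. -/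
def chkO (n : ℕ) (q : List ℕ) (X S : ℕ) : Bool :=
  (List.range 162).all fun p =>
    if ((p % 81) % 9 + 6 * (p / 81) + (p % 81) / 9 ≤ n ∧ (p / 81 = 0 ∨ (p % 81) % 9 ≠ 0)) then
      decide (((S / X ^ p) % X + (S / X ^ (p + 162)) % X + (S / X ^ (p + 324)) % X + (S / X ^ (p + 486)) % X +
        (S / X ^ (p + 648)) % X + (S / X ^ (p + 810)) % X) % 7 =
          if p / 81 = 0 ∧ (p % 81) % 9 + (p % 81) / 9 = n then q.getD ((p % 81) % 9) 0 else 0) else true

/-! ### Digits -/

private lemma lt_pow (B : ℕ) : ∀ (n : ℕ) (u : ℕ → ℕ), (∀ p, u p < B) →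
    ∑ q ∈ Finset.range n, u q * B ^ q < B ^ n := by
  intro n
  induction n with
  | zero => intro u _; simp
  | succ n ih =>
    intro u hu
    rw [Finset.sum_range_succ]
    have h1 := ih u hu
    have h2 : (u n + 1) * B ^ n ≤ B * B ^ n := Nat.mul_le_mul_right _ (hu n)
    have h3 : B ^ (n + 1) = B * B ^ n := by ring
    rw [h3]
    linarith [add_mul (u n) 1 (B ^ n)]

private lemma dig (B : ℕ) (hB : 0 < B) : ∀ (p n : ℕ) (u : ℕ → ℕ), (∀ q, u q < B) → p < n →
    (∑ q ∈ Finset.range n, u q * B ^ q) / B ^ p % B = u p := by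
  intro p
  induction p with
  | zero =>
    intro n u hu hp
    obtain ⟨n, rfl⟩ : ∃ m, n = m + 1 := ⟨n - 1, by omega⟩
    rw [Finset.sum_range_succ']
    have h1 : ∑ q ∈ Finset.range n, u (q + 1) * B ^ (q + 1) =
        B * ∑ q ∈ Finset.range n, u (q + 1) * B ^ q := by
      rw [Finset.mul_sum]
      exact Finset.sum_congr rfl fun q _ => by ring
    rw [h1, pow_zero, mul_one, Nat.div_one, Nat.mul_add_mod, Nat.mod_eq_of_lt (hu 0)]
  | succ p ih =>
    intro n u hu hp
    obtain ⟨n, rfl⟩ : ∃ m, n = m + 1 := ⟨n - 1, by omega⟩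
    rw [Finset.sum_range_succ']
    have h1 : ∑ q ∈ Finset.range n, u (q + 1) * B ^ (q + 1) =
        B * ∑ q ∈ Finset.range n, u (q + 1) * B ^ q := by
      rw [Finset.mul_sum]
      exact Finset.sum_congr rfl fun q _ => by ring
    have h2 : B ^ (p + 1) = B * B ^ p := by ring
    rw [h1, pow_zero, mul_one, h2, ← Nat.div_div_eq_div_mul, Nat.mul_add_div hB,
      Nat.div_eq_of_lt (hu 0), add_zero]
    exact ih n (fun q => u (q + 1)) (fun q => hu _) (by omega)

private lemma flat (X m : ℕ) (hm : 0 < m) (a b : ℕ → ℕ) (n : ℕ) :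
    (∑ i ∈ Finset.range m, a i * X ^ i) * (∑ j ∈ Finset.range n, b j * (X ^ m) ^ j) =
      ∑ p ∈ Finset.range (m * n), (a (p % m) * b (p / m)) * X ^ p := by
  induction n with
  | zero => simp
  | succ n ih =>
    rw [Finset.sum_range_succ, mul_add, ih, Nat.mul_succ, Finset.sum_range_add, Finset.sum_mul]
    congr 1
    refine Finset.sum_congr rfl fun i hi => ?_
    have hi' := Finset.mem_range.1 hi
    rw [Nat.mul_add_mod, Nat.mod_eq_of_lt hi', Nat.mul_add_div hm, Nat.div_eq_of_lt hi', add_zero,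
      pow_add, pow_mul]
    ring

private lemma trunc (X g : ℕ) (hX : 2 ^ 48 < X) (hg : g < 49) :
    (1 + X) ^ g % X ^ 9 = ∑ i ∈ Finset.range 9, g.choose i * X ^ i := by
  have h1 : (1 + X) ^ g = ∑ i ∈ Finset.range (g + 1), g.choose i * X ^ i := by
    rw [add_comm, add_pow]
    refine Finset.sum_congr rfl fun i _ => ?_
    rw [one_pow, mul_one, mul_comm]
    simp
  have h2 : ∑ i ∈ Finset.range (g + 1), g.choose i * X ^ i =
      ∑ i ∈ Finset.range (9 + 49), g.choose i * X ^ i := by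
    refine Finset.sum_subset (Finset.range_subset_range.2 (by omega)) fun i _ hi => ?_
    have hi' : ¬ i < g + 1 := fun h => hi (Finset.mem_range.2 h)
    rw [Nat.choose_eq_zero_of_lt (by omega), zero_mul]
  have h3 : ∑ i ∈ Finset.range 49, g.choose (9 + i) * X ^ (9 + i) =
      X ^ 9 * ∑ i ∈ Finset.range 49, g.choose (9 + i) * X ^ i := by
    rw [Finset.mul_sum]
    exact Finset.sum_congr rfl fun q _ => by ring
  have h4 : ∀ i, g.choose i < X := fun i =>
    lt_of_le_of_lt ((Nat.choose_le_two_pow g i).trans (Nat.pow_le_pow_right (by norm_num)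
      (by omega))) hX
  rw [h1, h2, Finset.sum_range_add, h3, Nat.add_mul_mod_self_left,
    Nat.mod_eq_of_lt (lt_pow X 9 _ h4)]

/-! ### The digits of the packed number -/

private lemma gE_lt (t : Tm) : gE t < 49 := by
  unfold gE
  omega

private lemma bE_lt (t : Tm) : bE t < 49 := by
  unfold bE
  omega

private lemma mE_lt (t : Tm) : mE t < 7 := by
  unfold mE
  omega

private lemma pt_eq (X : ℕ) (hX : 2 ^ 48 < X) (t : Tm) :
    pt X t = ∑ p ∈ Finset.range 972, ut t p * X ^ p := by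
  have hG := trunc X (gE t) hX (gE_lt t)
  have hX9 : 2 ^ 48 < X ^ 9 := lt_of_lt_of_le hX (Nat.le_self_pow (by norm_num) X)
  have hB := trunc (X ^ 9) (bE t) hX9 (bE_lt t)
  rw [← pow_mul] at hB
  have hK : 1 + mE t * X ^ 81 = ∑ k ∈ Finset.range 2, (mE t).choose k * (X ^ 81) ^ k := by
    rw [Finset.sum_range_succ, Finset.sum_range_one]
    simp
  have hW : (t.1 % 7).toNat * X ^ (162 * (wE t).val) =
      ∑ v ∈ Finset.range 6, (if (wE t).val = v then (t.1 % 7).toNat else 0) * (X ^ 162) ^ v := by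
    rw [Finset.sum_eq_single (wE t).val]
    · rw [if_pos rfl, pow_mul]
    · intro v _ hv
      rw [if_neg (Ne.symm hv), zero_mul]
    · intro h
      exact absurd (Finset.mem_range.2 (wE t).isLt) h
  have f1 := flat X 9 (by norm_num) (fun i => (gE t).choose i) (fun j => (bE t).choose j) 9
  have f2 := flat X 81 (by norm_num) (fun p => (gE t).choose (p % 9) * (bE t).choose (p / 9))
    (fun k => (mE t).choose k) 2
  have f3 := flat X 162 (by norm_num) (fun p => ((gE t).choose ((p % 81) % 9) *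
    (bE t).choose ((p % 81) / 9)) * (mE t).choose (p / 81))
    (fun v => if (wE t).val = v then (t.1 % 7).toNat else 0) 6
  have e1 : pt X t = (((1 + X) ^ gE t % X ^ 9 * ((1 + X ^ 9) ^ bE t % X ^ 81)) *
      (1 + mE t * X ^ 81)) * ((t.1 % 7).toNat * X ^ (162 * (wE t).val)) := by
    unfold pt
    ring
  rw [e1, hG, hK, hW]
  have hB' : (1 + X ^ 9) ^ bE t % X ^ 81 =
      ∑ j ∈ Finset.range 9, (bE t).choose j * (X ^ 9) ^ j := hB
  rw [hB', f1, f2, f3]
  rfl

private lemma Pk_eq (X : ℕ) (hX : 2 ^ 48 < X) (L : List Tm) :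
    Pk X L = ∑ p ∈ Finset.range 972, us L p * X ^ p := by
  induction L with
  | nil => simp [Pk, us]
  | cons t L ih =>
    have h1 : Pk X (t :: L) = pt X t + Pk X L := rfl
    have h2 : ∀ p, us (t :: L) p = ut t p + us L p := fun p => by simp [us]
    rw [h1, ih, pt_eq X hX t, ← Finset.sum_add_distrib]
    exact Finset.sum_congr rfl fun p _ => by rw [h2, add_mul]

private lemma ch_le : ∀ g < 49, ∀ i < 9, Nat.choose g i ≤ 2 ^ 29 := by decide +kernel

private lemma cm_le : ∀ m < 7, ∀ k < 2, Nat.choose m k ≤ 2 ^ 3 := by decide +kernel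

private lemma ut_le (t : Tm) (p : ℕ) : ut t p ≤ 2 ^ 64 := by
  unfold ut
  have h1 := ch_le (gE t) (gE_lt t) (((p % 162) % 81) % 9) (by omega)
  have h2 := ch_le (bE t) (bE_lt t) (((p % 162) % 81) / 9) (by omega)
  have h3 := cm_le (mE t) (mE_lt t) ((p % 162) / 81) (by omega)
  have h4 : (if (wE t).val = p / 162 then (t.1 % 7).toNat else 0) ≤ 2 ^ 3 := by
    split_ifs
    · omega
    · norm_num
  calc _ ≤ (2 ^ 29 * 2 ^ 29) * 2 ^ 3 * 2 ^ 3 :=
        Nat.mul_le_mul (Nat.mul_le_mul (Nat.mul_le_mul h1 h2) h3) h4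
    _ = 2 ^ 64 := by norm_num

private lemma us_le (L : List Tm) (p : ℕ) : us L p ≤ L.length * 2 ^ 64 := by
  induction L with
  | nil => simp [us]
  | cons t L ih =>
    have h2 : us (t :: L) p = ut t p + us L p := by simp [us]
    have h3 := ut_le t p
    rw [h2, List.length_cons, add_mul, one_mul]
    omega

private lemma us_cast (L : List Tm) (w : Fin 6) (i k j : ℕ) (hi : i < 9) (hk : k < 2)
    (hj : j < 9) : ((us L (i + 9 * j + 81 * k + 162 * w.val) : ℕ) : ZMod 7) =
      ((cS L w i k j : ℤ) : ZMod 7) := by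
  have e1 : (((i + 9 * j + 81 * k + 162 * w.val) % 162) % 81) % 9 = i := by omega
  have e2 : (((i + 9 * j + 81 * k + 162 * w.val) % 162) % 81) / 9 = j := by omega
  have e3 : ((i + 9 * j + 81 * k + 162 * w.val) % 162) / 81 = k := by omega
  have e4 : (i + 9 * j + 81 * k + 162 * w.val) / 162 = w.val := by omega
  induction L with
  | nil => simp [us, cS]
  | cons t L ih =>
    have h2 : us (t :: L) (i + 9 * j + 81 * k + 162 * w.val) =
      ut t (i + 9 * j + 81 * k + 162 * w.val) + us L (i + 9 * j + 81 * k + 162 * w.val) := by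
      simp [us]
    have h3 : cS (t :: L) w i k j = (if wE t = w then
        (t.1 : ℤ) * (((gE t).choose i * (mE t).choose k * (bE t).choose j : ℕ) : ℤ) else 0) +
        cS L w i k j := by
      simp [cS]
    have h4 : (((t.1 % 7).toNat : ℕ) : ZMod 7) = ((t.1 : ℤ) : ZMod 7) := by
      have h5 : (((t.1 % 7).toNat : ℕ) : ℤ) = t.1 % 7 :=
        Int.toNat_of_nonneg (Int.emod_nonneg _ (by norm_num))
      have h6 : (((t.1 % 7).toNat : ℕ) : ZMod 7) = ((((t.1 % 7).toNat : ℕ) : ℤ) : ZMod 7) := by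
        push_cast
        rfl
      rw [h6, h5]
      exact ZMod.intCast_mod t.1 7
    rw [h2, h3, Nat.cast_add, Int.cast_add, ih]
    congr 1
    unfold ut
    rw [e1, e2, e3, e4]
    by_cases hw : wE t = w
    · rw [if_pos hw, if_pos (congrArg Fin.val hw)]
      push_cast
      rw [h4]
      ring
    · rw [if_neg hw, if_neg (fun h => hw (Fin.ext h))]
      simp

/-- The certificate of a list at the origin. -/
theorem mainO (L : List Tm) (n : ℕ) (q : List ℕ) (hL : L.length < 60000)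
    (hc : chkO n q (2 ^ 80) (Pk (2 ^ 80) L) = true)
    (i k j : ℕ) (hi : i < 9) (hk : k < 2) (hj : j < 9) (h0 : k = 0 ∨ i ≠ 0) (h8 : i + 6 * k + j ≤ n) :
    (7 : ℤ) ∣ cO L i k j - (if k = 0 ∧ i + j = n then ((q.getD i 0 : ℕ) : ℤ) else 0) := by
  have hu : ∀ q, us L q < 2 ^ 80 := fun q => lt_of_le_of_lt (us_le L q) (by
    have : (L.length : ℕ) * 2 ^ 64 < 60000 * 2 ^ 64 := Nat.mul_lt_mul_of_pos_right hL (by norm_num)
    exact this.trans (by norm_num))
  have hd : ∀ p, p < 972 → Pk (2 ^ 80) L / (2 ^ 80) ^ p % 2 ^ 80 = us L p := by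
    intro p hp
    have h1 := dig (2 ^ 80) (by norm_num) p 972 (us L) hu hp
    rwa [← Pk_eq (2 ^ 80) (by norm_num) L] at h1
  obtain ⟨p, hp⟩ : ∃ p, p = i + 9 * j + 81 * k := ⟨_, rfl⟩
  have h2 := List.all_eq_true.1 hc p (List.mem_range.2 (by omega))
  have e1 : (p % 81) % 9 = i := by omega
  have e2 : (p % 81) / 9 = j := by omega
  have e3 : p / 81 = k := by omega
  rw [if_pos (by rw [e1, e2, e3]; exact ⟨h8, h0⟩), decide_eq_true_eq, hd p (by omega), hd (p + 162) (by omega),
    hd (p + 324) (by omega), hd (p + 486) (by omega), hd (p + 648) (by omega), hd (p + 810) (by omega),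
    e1, e2, e3] at h2
  have hw : ∀ w : Fin 6, ((us L (p + 162 * w.val) : ℕ) : ZMod 7) = ((cS L w i k j : ℤ) : ZMod 7) := by
    intro w
    rw [hp]
    exact us_cast L w i k j hi hk hj
  have h3 : ((cO L i k j : ℤ) : ZMod 7) = ((us L p + us L (p + 162) + us L (p + 324) + us L (p + 486) +
      us L (p + 648) + us L (p + 810) : ℕ) : ZMod 7) := by
    unfold cO
    rw [Fin.sum_univ_six]
    push_cast
    rw [← hw 0, ← hw 1, ← hw 2, ← hw 3, ← hw 4, ← hw 5]
    rfl
  refine (ZMod.intCast_zmod_eq_zero_iff_dvd _ 7).1 ?_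
  rw [Int.cast_sub, h3, ← ZMod.natCast_mod, h2]
  split_ifs <;> simp

/-- The certificate CEO for one pair. -/
theorem ceoOf (c : Fin 8) (f : Fin 4) (q : List ℕ) (hL : (BOK c f).length < 60000)
    (hq : ∀ i < 9, ((q.getD i 0 : ℕ) : ℤ) = qOK c.val f.val i)
    (hc : chkO (nOK c.val) q (2 ^ 80) (Pk (2 ^ 80) (BOK c f)) = true) :
    ∀ t ∈ M9, (t.2.1 = 0 ∨ t.1 ≠ 0) → t.1 + 6 * t.2.1 + t.2.2 ≤ nOK c.val →
      (7 : ℤ) ∣ cO (BOK c f) t.1 t.2.1 t.2.2 -
        (if t.2.1 = 0 ∧ t.1 + t.2.2 = nOK c.val then qOK c.val f.val t.1 else 0) := by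
  intro t ht h0 h8
  obtain ⟨h, _⟩ := Finset.mem_filter.1 ht
  rw [Finset.mem_product, Finset.mem_product, Finset.mem_range, Finset.mem_range,
    Finset.mem_range] at h
  obtain ⟨h1, h2, h3⟩ := h
  have := mainO _ _ _ hL hc t.1 t.2.1 t.2.2 h1 h2 h3 h0 h8
  rwa [hq t.1 h1] at this

end Pool.Agent.Helper14.TK7
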