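import Pool.Agent.Helper14.TK7.LB
import Pool.Agent.Helper76.TK7.UbK
import Pool.Agent.Helper83.TKC.Asm7

/-!
# Project TK: the cores for levels `3·7^n` and the central values of weight two
-/

set_option autoImplicit false

namespace Pool.Agent.Helper14.TK7

open Pool.Agent.Helper14.CV (G0 RootOne Lan)
open Pool.Agent.Helper28.TL (IsNewN)
open Pool.Agent.Helper28.TH (ALPlus)
open Pool.Agent.Helper4.TK (CoreK CoreVK)
open Pool.Agent.Helper76.TK7 (ddK7)

/-- The core for levels `3·7^n`, `n ≥ 3`. -/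
theorem coreK7 : CoreK 7 := Pool.Agent.Helper83.TKC.core7K ddK7 Pool.Agent.Helper76.TK7.ubk7 lbK7

/-- The core for level `147`. -/
theorem coreVK72 : CoreVK 7 2 := Pool.Agent.Helper83.TKC.core72K ddK7 lbK7

/-- Weight `2`, levels `3·7^n`, `n ≥ 0`, `f | W_3 = f`. -/
theorem valK7 (n : ℕ) [NeZero (3 * 7 ^ n)] (f : CuspForm (G0 (3 * 7 ^ n)) 2)
    (hf : IsNewN f) (hal : ALPlus 3 (7 ^ n) f) (hR : RootOne f) : Lan f (1 / 2) ≠ 0 :=
  Pool.Agent.Helper83.TKC.lvalK7 ddK7 Pool.Agent.Helper76.TK7.ubk7 lbK7 n f hf hal hR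

end Pool.Agent.Helper14.TK7
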