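import Pool.Agent.Helper14.TK7.CevCore

/-!
# Project TK (levels `3·7^n`): the certificates of `V`, row 0, columns 0 and 1
-/

set_option autoImplicit false
set_option maxRecDepth 100000

namespace Pool.Agent.Helper14.TK7

/-- The certificate of `V`, row 0, column 0. -/
theorem cev00 : TCeV 0 0 := cevOf 0 0 (by decide +kernel) (by decide +kernel)

/-- The certificate of `V`, row 0, column 1. -/
theorem cev01 : TCeV 0 1 := cevOf 0 1 (by decide +kernel) (by decide +kernel)

end Pool.Agent.Helper14.TK7
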