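import Pool.Agent.Helper14.TK7.CevR

/-!
# Project TK (levels `3·7^n`): the certificates of `V`, row 1, column 0, part b
-/

set_option autoImplicit false
set_option maxRecDepth 100000

namespace Pool.Agent.Helper14.TK7

/-- The coefficients of part b, row 1, column 0. -/
theorem ce10b : ∀ (w : Fin 6) (i k j : ℕ), i < 9 → k < 2 → j < 9 → i + 6 * k + j ≤ 8 →
    ((Pool.Agent.Helper84.S7.cS (PbK 1 0) w i k j : ℤ) : ZMod 7) =
      (((Rb10 / 8 ^ (i + 9 * j + 81 * k + 162 * w.val)) % 8 : ℕ) : ZMod 7) :=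
  coefR (PbK 1 0) Rb10 (by decide +kernel) (by decide +kernel)

end Pool.Agent.Helper14.TK7
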