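import Pool.Agent.Helper14.TK7.M_Ce10a
import Pool.Agent.Helper14.TK7.M_Ce10b
import Pool.Agent.Helper14.TK7.M_Ce20a
import Pool.Agent.Helper14.TK7.M_Ce20b
import Pool.Agent.Helper14.TK7.M_Ce30a
import Pool.Agent.Helper14.TK7.M_Ce30b

/-!
# Project TK (levels `3·7^n`): the certificates of `V` for the three long lists
-/

set_option autoImplicit false
set_option maxRecDepth 100000

namespace Pool.Agent.Helper14.TK7

theorem cev10 : TCeV 1 0 :=
  cevTwo 1 0 (PaK 1 0) (PbK 1 0) Ra10 Rb10 (BVK_two 1 0) ce10a ce10b (by decide +kernel)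

theorem cev20 : TCeV 2 0 :=
  cevTwo 2 0 (PaK 2 0) (PbK 2 0) Ra20 Rb20 (BVK_two 2 0) ce20a ce20b (by decide +kernel)

theorem cev30 : TCeV 3 0 :=
  cevTwo 3 0 (PaK 3 0) (PbK 3 0) Ra30 Rb30 (BVK_two 3 0) ce30a ce30b (by decide +kernel)

end Pool.Agent.Helper14.TK7
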