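import Pool.Agent.Helper14.TK7.CeoCore

/-!
# Project TK (levels `3·7^n`): the finite certificate CEO
-/

set_option autoImplicit false
set_option maxRecDepth 1000000

namespace Pool.Agent.Helper14.TK7

open Pool.Agent.Helper4.S7 Pool.Agent.Helper84.S7

theorem hCeO : TCeO := by
  intro c f
  fin_cases c <;> fin_cases f
  · exact ceoOf 0 0 [1] (by decide +kernel) (by decide +kernel) (by decide +kernel)
  · exact ceoOf 0 1 [] (by decide +kernel) (by decide +kernel) (by decide +kernel)
  · exact ceoOf 0 2 [] (by decide +kernel) (by decide +kernel) (by decide +kernel)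
  · exact ceoOf 0 3 [] (by decide +kernel) (by decide +kernel) (by decide +kernel)
  · exact ceoOf 1 0 [] (by decide +kernel) (by decide +kernel) (by decide +kernel)
  · exact ceoOf 1 1 [1, 2] (by decide +kernel) (by decide +kernel) (by decide +kernel)
  · exact ceoOf 1 2 [] (by decide +kernel) (by decide +kernel) (by decide +kernel)
  · exact ceoOf 1 3 [6, 5] (by decide +kernel) (by decide +kernel) (by decide +kernel)
  · exact ceoOf 2 0 [1] (by decide +kernel) (by decide +kernel) (by decide +kernel)
  · exact ceoOf 2 1 [] (by decide +kernel) (by decide +kernel) (by decide +kernel)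
  · exact ceoOf 2 2 [] (by decide +kernel) (by decide +kernel) (by decide +kernel)
  · exact ceoOf 2 3 [1, 0, 4] (by decide +kernel) (by decide +kernel) (by decide +kernel)
  · exact ceoOf 3 0 [] (by decide +kernel) (by decide +kernel) (by decide +kernel)
  · exact ceoOf 3 1 [1, 0, 0, 1] (by decide +kernel) (by decide +kernel) (by decide +kernel)
  · exact ceoOf 3 2 [] (by decide +kernel) (by decide +kernel) (by decide +kernel)
  · exact ceoOf 3 3 [6, 0, 0, 6] (by decide +kernel) (by decide +kernel) (by decide +kernel)
  · exact ceoOf 4 0 [0, 0, 0, 1] (by decide +kernel) (by decide +kernel) (by decide +kernel)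
  · exact ceoOf 4 1 [] (by decide +kernel) (by decide +kernel) (by decide +kernel)
  · exact ceoOf 4 2 [] (by decide +kernel) (by decide +kernel) (by decide +kernel)
  · exact ceoOf 4 3 [0, 3, 0, 5] (by decide +kernel) (by decide +kernel) (by decide +kernel)
  · exact ceoOf 5 0 [0, 1] (by decide +kernel) (by decide +kernel) (by decide +kernel)
  · exact ceoOf 5 1 [] (by decide +kernel) (by decide +kernel) (by decide +kernel)
  · exact ceoOf 5 2 [] (by decide +kernel) (by decide +kernel) (by decide +kernel)
  · exact ceoOf 5 3 [0, 5, 0, 0, 0, 3] (by decide +kernel) (by decide +kernel) (by decide +kernel)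
  · exact ceoOf 6 0 [0, 0, 0, 0, 0, 1] (by decide +kernel) (by decide +kernel) (by decide +kernel)
  · exact ceoOf 6 1 [] (by decide +kernel) (by decide +kernel) (by decide +kernel)
  · exact ceoOf 6 2 [] (by decide +kernel) (by decide +kernel) (by decide +kernel)
  · exact ceoOf 6 3 [0, 4, 0, 0, 0, 1] (by decide +kernel) (by decide +kernel) (by decide +kernel)
  · exact ceoOf 7 0 [] (by decide +kernel) (by decide +kernel) (by decide +kernel)
  · exact ceoOf 7 1 [1, 1, 0, 0, 0, 0, 4, 2] (by decide +kernel) (by decide +kernel) (by decide +kernel)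
  · exact ceoOf 7 2 [] (by decide +kernel) (by decide +kernel) (by decide +kernel)
  · exact ceoOf 7 3 [6, 6, 0, 0, 0, 0, 3, 5] (by decide +kernel) (by decide +kernel) (by decide +kernel)

end Pool.Agent.Helper14.TK7
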