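import Pool.Agent.Helper14.TK7.HkCore

/-!
# Project TK7: the rows of the Hecke operators `T_31`
-/

set_option autoImplicit false
set_option maxRecDepth 100000

namespace Pool.Agent.Helper14.TK7

open Pool.Agent.Helper84.S7
open Pool.Agent.Helper76.TK7 (edgeK)
open Pool.Agent.Helper14.CV (Tl)
open Pool.Agent.Helper4.TK (SymK)

/-- HK31. -/
theorem hHk31 (hf : THkF) (ht : TTre) (hm : S7Trm) : THk 31 T31K := by
  intro r s G hG i
  rw [Fin.sum_univ_four]
  fin_cases i
  · exact row7 hf ht hm 31 (by norm_num) (by norm_num) (by norm_num)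
      [-15, -14, -13, -12, -11, -10, -9, -8, -7, -6, -5, -4, -3, -2, -1, 0, 1, 2, 3, 4, 5, 6,
       7, 8, 9, 10, 11, 12, 13, 14, 15]
      (by decide +kernel) rfl (by decide +kernel) 1 0 0 1 (Or.inl (by norm_num))
      (Or.inr one_ne_zero) (T31K 0 0) (T31K 0 1) (T31K 0 2) (T31K 0 3) (by decide +kernel) r s G hG
  · exact row7 hf ht hm 31 (by norm_num) (by norm_num) (by norm_num)
      [-15, -14, -13, -12, -11, -10, -9, -8, -7, -6, -5, -4, -3, -2, -1, 0, 1, 2, 3, 4, 5, 6,
       7, 8, 9, 10, 11, 12, 13, 14, 15]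
      (by decide +kernel) rfl (by decide +kernel) 1 3 0 1 (Or.inl (by norm_num))
      (Or.inr one_ne_zero) (T31K 1 0) (T31K 1 1) (T31K 1 2) (T31K 1 3) (by decide +kernel) r s G hG
  · exact row7 hf ht hm 31 (by norm_num) (by norm_num) (by norm_num)
      [-15, -14, -13, -12, -11, -10, -9, -8, -7, -6, -5, -4, -3, -2, -1, 0, 1, 2, 3, 4, 5, 6,
       7, 8, 9, 10, 11, 12, 13, 14, 15]
      (by decide +kernel) rfl (by decide +kernel) 1 2 0 1 (Or.inl (by norm_num))
      (Or.inr one_ne_zero) (T31K 2 0) (T31K 2 1) (T31K 2 2) (T31K 2 3) (by decide +kernel) r s G hG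
  · exact row7 hf ht hm 31 (by norm_num) (by norm_num) (by norm_num)
      [-15, -14, -13, -12, -11, -10, -9, -8, -7, -6, -5, -4, -3, -2, -1, 0, 1, 2, 3, 4, 5, 6,
       7, 8, 9, 10, 11, 12, 13, 14, 15]
      (by decide +kernel) rfl (by decide +kernel) 2 3 0 1 (Or.inl (by norm_num))
      (Or.inr one_ne_zero) (T31K 3 0) (T31K 3 1) (T31K 3 2) (T31K 3 3) (by decide +kernel) r s G hG

end Pool.Agent.Helper14.TK7
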