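import Pool.Agent.Helper14.TK7.HkCore

/-!
# Project TK7: the rows of the Hecke operators `T_43`, part 2
-/

set_option autoImplicit false
set_option maxRecDepth 100000

namespace Pool.Agent.Helper14.TK7

open Pool.Agent.Helper84.S7
open Pool.Agent.Helper76.TK7 (edgeK)
open Pool.Agent.Helper14.CV (Tl)
open Pool.Agent.Helper4.TK (SymK)

/-- Row 2 of `T_43`. -/
theorem hHk43_2 (hf : THkF) (ht : TTre) (hm : S7Trm) (r s : ℕ) (G : ℤ → ℤ → ZMod 7) (hG : SymK 7 r (s + 1) G) :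
    (edgeK 0 1 2 0 1 (Tl 43 (7 ^ r) G) : Fn7 (7 ^ r) (7 ^ s)) =
      opL (T43K 2 0) (pfK G 0) + opL (T43K 2 1) (pfK G 1) + opL (T43K 2 2) (pfK G 2) + opL (T43K 2 3) (pfK G 3) :=
  row7 hf ht hm 43 (by norm_num) (by norm_num) (by norm_num)
      [-21, -20, -19, -18, -17, -16, -15, -14, -13, -12, -11, -10, -9, -8, -7, -6, -5, -4, -3,
       -2, -1, 0, 1, 2, 3, 4, 5, 6, 7, 8, 9, 10, 11, 12, 13, 14, 15, 16, 17, 18, 19, 20,
       21]
      (by decide +kernel) rfl (by decide +kernel) 1 2 0 1 (Or.inl (by norm_num))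
      (Or.inr one_ne_zero) (T43K 2 0) (T43K 2 1) (T43K 2 2) (T43K 2 3) (by decide +kernel) r s G hG

/-- Row 3 of `T_43`. -/
theorem hHk43_3 (hf : THkF) (ht : TTre) (hm : S7Trm) (r s : ℕ) (G : ℤ → ℤ → ZMod 7) (hG : SymK 7 r (s + 1) G) :
    (edgeK 0 2 3 0 1 (Tl 43 (7 ^ r) G) : Fn7 (7 ^ r) (7 ^ s)) =
      opL (T43K 3 0) (pfK G 0) + opL (T43K 3 1) (pfK G 1) + opL (T43K 3 2) (pfK G 2) + opL (T43K 3 3) (pfK G 3) :=
  row7 hf ht hm 43 (by norm_num) (by norm_num) (by norm_num)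
      [-21, -20, -19, -18, -17, -16, -15, -14, -13, -12, -11, -10, -9, -8, -7, -6, -5, -4, -3,
       -2, -1, 0, 1, 2, 3, 4, 5, 6, 7, 8, 9, 10, 11, 12, 13, 14, 15, 16, 17, 18, 19, 20,
       21]
      (by decide +kernel) rfl (by decide +kernel) 2 3 0 1 (Or.inl (by norm_num))
      (Or.inr one_ne_zero) (T43K 3 0) (T43K 3 1) (T43K 3 2) (T43K 3 3) (by decide +kernel) r s G hG

end Pool.Agent.Helper14.TK7
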