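import Pool.Agent.Helper14.TK7.M_Cert
import Pool.Agent.Helper14.TK7.M_CertO
import Pool.Agent.Helper14.TK7.M_CeV0a
import Pool.Agent.Helper14.TK7.M_CeV0b
import Pool.Agent.Helper14.TK7.M_CeV1b
import Pool.Agent.Helper14.TK7.M_CeV1c
import Pool.Agent.Helper14.TK7.M_CeV2b
import Pool.Agent.Helper14.TK7.M_CeV2c
import Pool.Agent.Helper14.TK7.M_CeV2d
import Pool.Agent.Helper14.TK7.M_CeV3b
import Pool.Agent.Helper14.TK7.M_CeV3c
import Pool.Agent.Helper14.TK7.M_CeV3d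
import Pool.Agent.Helper14.TK7.M_CeVL
import Pool.Agent.Helper84.S7.D1
import Pool.Agent.Helper10.S7.M_Pj
import Pool.Agent.Helper9.TL7.M_Ldg
import Pool.Agent.Helper71.TL7.M_Omg
import Pool.Agent.Helper94.TK7.M_PLAK7
import Pool.Agent.Helper46.TK7.M_EDGK7
import Pool.Agent.Helper75.TK7.M_Tre
import Pool.Agent.Helper51.TK7.M_Uni
import Pool.Agent.Helper16.TK7.M_HkB
import Pool.Agent.Helper14.TK7.M_HkA
import Pool.Agent.Helper14.TK7.M_HkB
import Pool.Agent.Helper14.TK7.M_Hk23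
import Pool.Agent.Helper14.TK7.M_Hk29
import Pool.Agent.Helper14.TK7.M_Hk31
import Pool.Agent.Helper14.TK7.M_Hk37a
import Pool.Agent.Helper14.TK7.M_Hk37b
import Pool.Agent.Helper14.TK7.M_Hk41a
import Pool.Agent.Helper14.TK7.M_Hk41b
import Pool.Agent.Helper14.TK7.M_Hk43a
import Pool.Agent.Helper14.TK7.M_Hk43b
import Pool.Agent.Helper14.TK7.M_Hk47a
import Pool.Agent.Helper14.TK7.M_Hk47b
import Pool.Agent.Helper46.TKC.M_Hk
import Pool.Agent.Helper48.TKC.M_HkS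
import Pool.Agent.Helper55.CV.M_Fex
import Pool.Agent.Helper38.CV.M_Far
import Pool.Agent.Helper52.TK7.M_ExA
import Pool.Agent.Helper94.TK7.M_ExB
import Pool.Agent.Helper79.TK7.M_Sol
import Pool.Agent.Helper55.TK7.M_Sta
import Pool.Agent.Helper53.TK7.M_Sur
import Pool.Agent.Helper18.TK7.M_Led
import Pool.Agent.Helper66.TK7.M_Stp
import Pool.Agent.Helper67.TK7.M_Itr
import Pool.Agent.Helper84.TK7.M_Trf
import Pool.Agent.Helper25.TK7.M_Tri
import Pool.Agent.Helper29.TK7.M_Lifp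
import Pool.Agent.Helper33.TK7.M_Unb
import Pool.Agent.Helper21.TK7.M_Cnt
import Pool.Agent.Helper7.TK7.M_LBof
import Pool.Agent.Helper6.TK7.M_Ld
import Pool.Agent.Helper3.TK7.M_Lif

/-!
# Project TK: the lower bound for levels `3·7^n`, `W_3 = +1`
-/

set_option autoImplicit false

namespace Pool.Agent.Helper14.TK7

open Pool.Agent.Helper14.CV (Tl)
open Pool.Agent.Helper84.S7
open Pool.Agent.Helper76.TK7 (edgeK HPlAK HEdgK ddK7)
open Pool.Agent.Helper4.TK (SymK SKHk SKHkS LBK)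

theorem plaT : HPlAK := Pool.Agent.Helper94.TK7.hPlAK

theorem edgT : HEdgK := Pool.Agent.Helper46.TK7.hEdgK plaT

theorem treT : TTre := Pool.Agent.Helper75.TK7.hTre edgT plaT

theorem relT : TRel := Pool.Agent.Helper75.TK7.hRel treT

theorem exT : TEx := hEx (Pool.Agent.Helper52.TK7.hExA Pool.Agent.Helper84.S7.trm)
  (Pool.Agent.Helper94.TK7.hExB plaT Pool.Agent.Helper55.CV.hFex Pool.Agent.Helper38.CV.hFar)

theorem uniT : TUni := Pool.Agent.Helper51.TK7.hUni edgT plaT Pool.Agent.Helper38.CV.hFar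

theorem solT : TSol := Pool.Agent.Helper79.TK7.hSol Pool.Agent.Helper84.S7.trm

theorem lifpT : TLifp := Pool.Agent.Helper29.TK7.hLifp Pool.Agent.Helper84.S7.trm solT

theorem lifT : TLif := Pool.Agent.Helper3.TK7.hLif relT lifpT exT uniT

theorem hkT : SKHk := Pool.Agent.Helper46.TKC.hHk

theorem hksT : SKHkS := Pool.Agent.Helper48.TKC.hHkS Pool.Agent.Helper46.TKC.hHk

theorem hkBT : THkB := Pool.Agent.Helper16.TK7.hHkB hkT hksT

theorem hkFT : THkF := Pool.Agent.Helper16.TK7.hHkF hkBT edgT plaT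

private theorem four (l : ℕ) (T : Fin 4 → Fin 4 → List Pool.Agent.Helper4.S7.Tm)
    (h0 : ∀ (r s : ℕ) (G : ℤ → ℤ → ZMod 7), SymK 7 r (s + 1) G →
      (edgeK 0 1 0 0 1 (Tl l (7 ^ r) G) : Fn7 (7 ^ r) (7 ^ s)) =
        opL (T 0 0) (pfK G 0) + opL (T 0 1) (pfK G 1) + opL (T 0 2) (pfK G 2) + opL (T 0 3) (pfK G 3))
    (h1 : ∀ (r s : ℕ) (G : ℤ → ℤ → ZMod 7), SymK 7 r (s + 1) G →
      (edgeK 0 1 3 0 1 (Tl l (7 ^ r) G) : Fn7 (7 ^ r) (7 ^ s)) =
        opL (T 1 0) (pfK G 0) + opL (T 1 1) (pfK G 1) + opL (T 1 2) (pfK G 2) + opL (T 1 3) (pfK G 3))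
    (h2 : ∀ (r s : ℕ) (G : ℤ → ℤ → ZMod 7), SymK 7 r (s + 1) G →
      (edgeK 0 1 2 0 1 (Tl l (7 ^ r) G) : Fn7 (7 ^ r) (7 ^ s)) =
        opL (T 2 0) (pfK G 0) + opL (T 2 1) (pfK G 1) + opL (T 2 2) (pfK G 2) + opL (T 2 3) (pfK G 3))
    (h3 : ∀ (r s : ℕ) (G : ℤ → ℤ → ZMod 7), SymK 7 r (s + 1) G →
      (edgeK 0 2 3 0 1 (Tl l (7 ^ r) G) : Fn7 (7 ^ r) (7 ^ s)) =
        opL (T 3 0) (pfK G 0) + opL (T 3 1) (pfK G 1) + opL (T 3 2) (pfK G 2) + opL (T 3 3) (pfK G 3)) :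
    THk l T := by
  intro r s G hG i
  rw [Fin.sum_univ_four]
  fin_cases i
  · exact h0 r s G hG
  · exact h1 r s G hG
  · exact h2 r s G hG
  · exact h3 r s G hG

theorem hHk37 : THk 37 T37K := by
  have trm := Pool.Agent.Helper84.S7.trm
  exact four 37 T37K (hHk37_0 hkFT treT trm) (hHk37_1 hkFT treT trm) (hHk37_2 hkFT treT trm)
    (hHk37_3 hkFT treT trm)

theorem hHk41 : THk 41 T41K := by
  have trm := Pool.Agent.Helper84.S7.trm
  exact four 41 T41K (hHk41_0 hkFT treT trm) (hHk41_1 hkFT treT trm) (hHk41_2 hkFT treT trm)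
    (hHk41_3 hkFT treT trm)

theorem hHk43 : THk 43 T43K := by
  have trm := Pool.Agent.Helper84.S7.trm
  exact four 43 T43K (hHk43_0 hkFT treT trm) (hHk43_1 hkFT treT trm) (hHk43_2 hkFT treT trm)
    (hHk43_3 hkFT treT trm)

theorem hHk47 : THk 47 T47K := by
  have trm := Pool.Agent.Helper84.S7.trm
  exact four 47 T47K (hHk47_0 hkFT treT trm) (hHk47_1 hkFT treT trm) (hHk47_2 hkFT treT trm)
    (hHk47_3 hkFT treT trm)

theorem stpT : TStp := by
  have trm := Pool.Agent.Helper84.S7.trm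
  exact Pool.Agent.Helper66.TK7.hStp hkBT
    (hHk2 hkFT treT trm) (hHk5 hkFT treT trm) (hHk11 hkFT treT trm) (hHk13 hkFT treT trm)
    (hHk17 hkFT treT trm) (hHk19 hkFT treT trm) (hHk23 hkFT treT trm) (hHk29 hkFT treT trm)
    (hHk31 hkFT treT trm) hHk37 hHk41 hHk43 hHk47 Pool.Agent.Helper84.S7.opm hCeG plaT

theorem ceV : ∀ i f : Fin 4, TCeV i f := by
  intro i f
  fin_cases i <;> fin_cases f
  · exact cev00
  · exact cev01
  · exact cev02
  · exact cev03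
  · exact cev10
  · exact cev11
  · exact cev12
  · exact cev13
  · exact cev20
  · exact cev21
  · exact cev22
  · exact cev23
  · exact cev30
  · exact cev31
  · exact cev32
  · exact cev33

theorem trfT : TTrf := Pool.Agent.Helper84.TK7.hTrf Pool.Agent.Helper84.S7.low0 Pool.Agent.Helper84.S7.bb

theorem triT : TTri := by
  have trm := Pool.Agent.Helper84.S7.trm
  have low0 := Pool.Agent.Helper84.S7.low0
  have nfa := Pool.Agent.Helper84.S7.nfa
  have nf := Pool.Agent.Helper84.S7.nf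
  have exp := Pool.Agent.Helper84.S7.exp7
  have lw1 := Pool.Agent.Helper84.S7.lw1
  have bb := Pool.Agent.Helper84.S7.bb
  have opm := Pool.Agent.Helper84.S7.opm
  have rll := Pool.Agent.Helper75.TK7.hRll trm
  have ldg := Pool.Agent.Helper9.TL7.hLdg trm low0 nfa exp
  have omg := Pool.Agent.Helper71.TL7.hOmg trm low0 nfa exp
  have ldU := Pool.Agent.Helper6.TK7.hLdU low0 opm rll ldg hCeG hCeU
  have ldV := Pool.Agent.Helper6.TK7.hLdV low0 opm rll ldg hCeG ceV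
  have om := Pool.Agent.Helper6.TK7.hOm low0 opm rll omg hCeG hCeO
  have pjj := Pool.Agent.Helper10.S7.hPj trm low0 nfa nf bb
  have sta := Pool.Agent.Helper55.TK7.hSta low0 nfa lw1 pjj
  have lwd := Pool.Agent.Helper55.TK7.hLwd trm low0 lw1
  have sur := Pool.Agent.Helper53.TK7.hSur trm low0 nfa pjj bb sta lwd
  have led := Pool.Agent.Helper18.TK7.hLed trm low0 nfa pjj bb solT sta lwd sur
  have itr := Pool.Agent.Helper67.TK7.hItr relT stpT low0 ldU ldV om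
  exact Pool.Agent.Helper25.TK7.hTri low0 bb led exT itr trfT

theorem cntT : TCnt := Pool.Agent.Helper21.TK7.hCnt

/-- The lower bound for levels `3·7^n`. -/
theorem lbK7 : LBK 7 4 ddK7 :=
  Pool.Agent.Helper7.TK7.hLBof triT lifT Pool.Agent.Helper33.TK7.hUnb cntT

end Pool.Agent.Helper14.TK7
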