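import Pool.Agent.Helper4.S7.Tm

/-!
# Project TK (levels `3·7^n`): row 3 of `T_19`, row 0 of `T_23`, row 1 of `T_23`

A term `(k, a, b, c, d)` stands for `k` times the operator of `(a b; 7c d)` (`Helper4/S7/Tm.lean`; `mulL`, `sclL`, `Gd` of W7 are used unchanged). `F_f(g) = G(g e_f) - G(g 0)` with `e_0 = ∞`, `e_1 = 1/3`, `e_2 = 1/2`, `e_3 = 2/3`.
The rows of `T_l` are computed with the residues `-(l-1)/2, ..., (l-1)/2` (`0, 1` for `l = 2`).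
-/

set_option autoImplicit false

namespace Pool.Agent.Helper14.TK7

open Pool.Agent.Helper4.S7 (Tm mulT mulL sclL Gd)

/-- Row 3 of `T_19`. -/
def T19K3 : Fin 4 → List Tm
  | 0 => [(-1, 1, -1, 3, -2), (-1, 1, -1, 6, -23), (-1, 1, -1, 9, -44), (-1, 1, -1, 12, -65), (-1, 1, 1, -3, -2), (-1, 1, 12, 0, 19), (-1, 2, 1, -3, -1), (-1, 3, -4, 3, -9), (-1, 3, 1, -12, -9), (-1, 3, 1, -3, 12), (-1, 3, 2, -6, -9),
      (-1, 5, -4, 3, -13), (-1, 6, -7, 3, -15), (-1, 6, -5, 15, -78), (-1, 9, -13, 3, -24), (-1, 10, -9, 3, -17), (-1, 11, 3, -3, -4), (-1, 12, -25, 3, -39), (-1, 13, -17, 3, -26), (-1, 15, 38, 3, 57), (-1, 16, 9, 3, 13),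
      (-1, 18, 5, 3, 9), (-1, 19, 4, 0, 1), (-1, 27, -38, 6, -57), (-1, 27, 5, 3, 6), (-1, 30, 7, -3, -3), (-1, 41, -40, 9, -61), (-1, 57, 38, 12, 57), (-1, 66, -59, 15, -93), (-1, 83, -68, 18, -103), (-1, 99, 38, 21, 57),
      (-1, 141, 38, 30, 57), (1, 1, 0, -3, 19), (1, 1, 0, 0, 19), (1, 1, 0, 3, 19), (1, 1, 0, 6, 19), (1, 1, 0, 9, 19), (1, 1, 0, 12, 19), (1, 2, -1, -3, 20), (1, 3, -2, -12, 75), (1, 3, -2, -3, 33), (1, 3, -1, -6, 33),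
      (1, 3, -1, 3, 12), (1, 5, 1, 3, 8), (1, 6, -1, 3, 6), (1, 6, 1, 15, 27), (1, 9, -4, 3, -3), (1, 10, 1, 3, 4), (1, 11, -8, -3, 17), (1, 12, -1, 3, 3), (1, 13, -4, 3, -5), (1, 15, -7, 3, -6), (1, 16, -7, 3, -8),
      (1, 18, -13, 3, -12), (1, 19, -15, 0, 1), (1, 27, -22, 3, -15), (1, 27, -11, 6, -15), (1, 30, -23, -3, 18), (1, 41, 1, 9, 2), (1, 57, -19, 12, -27), (1, 66, 7, 15, 12), (1, 83, 15, 18, 23), (1, 99, -61, 21, -90),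
      (1, 141, -103, 30, -153)]
  | 1 => [(-1, 3, -4, 3, -9), (-1, 3, -2, 6, -9), (-1, 3, -1, 3, 12), (-1, 3, -1, 12, -9), (-1, 4, -1, -3, 10), (-1, 5, -2, -9, 29), (-1, 9, -4, 3, -3), (-1, 11, -3, 3, -4), (-1, 13, -4, 3, -5), (-1, 15, -7, 3, -6), (-1, 19, -8, 0, 1),
      (-1, 25, -7, 6, -11), (-1, 27, -11, 6, -15), (-1, 31, -13, 6, -17), (-1, 40, -13, 9, -20), (-1, 43, -16, 9, -23), (-1, 57, -19, 12, -27), (-1, 59, -22, 12, -31), (-1, 69, -38, 15, -57), (-1, 111, -38, 24, -57),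
      (-1, 153, -38, 33, -57), (1, 1, 0, -12, 19), (1, 1, 0, -9, 19), (1, 2, -1, 9, -22), (1, 2, -1, 15, -43), (1, 3, 1, -3, 12), (1, 5, -1, -3, 8), (1, 6, -1, -15, 27), (1, 13, -17, 3, -26), (1, 18, 5, 3, 9), (1, 29, 3, 6, 5),
      (1, 55, -31, 12, -47), (1, 71, -11, 15, -16), (1, 97, -45, 21, -68)]
  | 2 => [(-1, 2, -1, 3, -1), (-1, 2, -1, 9, -22), (-1, 2, -1, 15, -43), (-1, 3, -1, -6, 33), (-1, 9, -5, -3, 18), (-1, 15, -8, -3, 15), (-1, 19, -9, 0, 1), (-1, 24, -13, 3, -9), (-1, 39, -25, 3, -12), (-1, 55, -31, 12, -47),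
      (-1, 97, -45, 21, -68), (1, 1, 0, -6, 19), (1, 3, -4, 3, -9), (1, 3, -2, 6, -9), (1, 3, -2, 15, -51), (1, 3, -2, 24, -93), (1, 4, -1, -3, 10), (1, 5, -2, -9, 29), (1, 6, -7, 3, -15), (1, 12, -25, 3, -39),
      (1, 15, -11, 6, -27), (1, 19, -8, 0, 1), (1, 31, -13, 6, -17), (1, 43, -16, 9, -23), (1, 45, -28, 12, -51), (1, 59, -22, 12, -31), (1, 96, -67, 21, -102), (1, 180, -109, 39, -165)]
  | 3 => [(-1, 2, -1, -3, 20), (-1, 3, -2, -12, 75), (-1, 3, -2, -3, 33), (-1, 3, -2, 6, -9), (-1, 3, -2, 15, -51), (-1, 3, -2, 24, -93), (-1, 11, -8, -3, 17), (-1, 15, -11, 6, -27), (-1, 16, -7, 3, -8), (-1, 18, -13, 3, -12),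
      (-1, 19, -15, 0, 1), (-1, 27, -22, 3, -15), (-1, 30, -23, -3, 18), (-1, 45, -28, 12, -51), (-1, 96, -67, 21, -102), (-1, 99, -61, 21, -90), (-1, 141, -103, 30, -153), (-1, 180, -109, 39, -165), (1, 1, -1, 6, -23),
      (1, 1, -1, 9, -44), (1, 1, -1, 12, -65), (1, 1, 12, 0, 19), (1, 5, -4, 3, -13), (1, 6, -5, 15, -78), (1, 9, -13, 3, -24), (1, 9, -5, -3, 18), (1, 10, -9, 3, -17), (1, 15, -8, -3, 15), (1, 19, -9, 0, 1), (1, 24, -13, 3, -9),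
      (1, 39, -25, 3, -12), (1, 41, -40, 9, -61), (1, 66, -59, 15, -93), (1, 83, -68, 18, -103)]

/-- Row 0 of `T_23`. -/
def T23K0 : Fin 4 → List Tm
  | 0 => [(-1, 1, -1, 3, 2), (-1, 1, -1, 6, -19), (-1, 1, -1, 9, -40), (-1, 1, -1, 12, -61), (-1, 1, 1, -3, 2), (-1, 2, 1, -3, 1), (-1, 3, -5, 3, -12), (-1, 3, 1, -24, -33), (-1, 3, 1, -15, -12), (-1, 3, 1, -6, 9), (-1, 3, 2, -3, 9),
      (-1, 4, 1, -9, -10), (-1, 6, -5, 3, -6), (-1, 9, 2, -3, 3), (-1, 10, 3, -3, -4), (-1, 12, 5, -3, -3), (-1, 15, -14, 3, -15), (-1, 33, 8, -3, -3), (1, 1, 0, -3, 23), (1, 1, 0, 0, 23), (1, 1, 0, 3, 23), (1, 1, 0, 6, 23),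
      (1, 1, 0, 9, 23), (1, 1, 0, 12, 23), (1, 2, -1, -3, 22), (1, 3, -2, -24, 135), (1, 3, -2, -15, 93), (1, 3, -2, -6, 51), (1, 3, -2, 3, 9), (1, 3, -1, -3, 30), (1, 4, -3, -9, 53), (1, 6, 1, 3, 15), (1, 9, -7, -3, 24),
      (1, 10, -7, -3, 17), (1, 12, -7, -3, 18), (1, 15, 1, 3, 6), (1, 23, -18, 0, 1), (1, 23, -17, 0, 1), (1, 23, -16, 0, 1), (1, 23, -15, 0, 1), (1, 23, -14, 0, 1), (1, 23, -13, 0, 1), (1, 23, -12, 0, 1), (1, 23, -11, 0, 1),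
      (1, 23, -10, 0, 1), (1, 23, -9, 0, 1), (1, 23, -8, 0, 1), (1, 23, -7, 0, 1), (1, 23, -6, 0, 1), (1, 23, -5, 0, 1), (1, 23, -4, 0, 1), (1, 23, -3, 0, 1), (1, 23, -2, 0, 1), (1, 23, -1, 0, 1), (1, 23, 0, 0, 1),
      (1, 23, 1, 0, 1), (1, 23, 2, 0, 1), (1, 23, 3, 0, 1), (1, 23, 4, 0, 1), (1, 33, -25, -3, 18)]
  | 1 => [(-1, 3, -1, -3, 30), (-1, 3, -1, 6, 9), (-1, 3, -1, 15, -12), (-1, 3, -1, 24, -33), (-1, 4, -1, -3, 11), (-1, 4, -1, 9, -10), (-1, 5, -2, -3, 13), (-1, 9, -2, 3, 3), (-1, 10, -3, 3, -4), (-1, 12, -5, 3, -3), (-1, 23, -9, 0, 1),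
      (-1, 23, -8, 0, 1), (-1, 23, -7, 0, 1), (-1, 23, -6, 0, 1), (-1, 23, -5, 0, 1), (-1, 33, -8, 3, -3), (1, 1, 0, -12, 23), (1, 1, 0, -9, 23), (1, 2, -1, 9, -20), (1, 2, -1, 15, -41), (1, 3, 2, -3, 9), (1, 5, -3, 3, -8),
      (1, 6, -5, 3, -6), (1, 15, -1, -3, 6)]
  | 2 => [(-1, 2, -1, 3, 1), (-1, 2, -1, 9, -20), (-1, 2, -1, 15, -41), (-1, 3, -1, -12, 51), (-1, 5, -3, 3, -8), (-1, 9, -5, -15, 66), (-1, 15, -8, -6, 27), (-1, 23, -11, 0, 1), (-1, 23, -10, 0, 1), (1, 1, 0, -6, 23), (1, 3, -5, 3, -12),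
      (1, 3, -2, 12, -33), (1, 3, -2, 21, -75), (1, 3, -2, 30, -117), (1, 4, -1, -3, 11), (1, 5, -2, -3, 13), (1, 18, -11, 3, -9), (1, 24, -17, 3, -12)]
  | 3 => [(-1, 2, -1, -3, 22), (-1, 3, -2, -24, 135), (-1, 3, -2, -15, 93), (-1, 3, -2, -6, 51), (-1, 3, -2, 3, 9), (-1, 3, -2, 12, -33), (-1, 3, -2, 21, -75), (-1, 3, -2, 30, -117), (-1, 4, -3, -9, 53), (-1, 9, -7, -3, 24),
      (-1, 10, -7, -3, 17), (-1, 12, -7, -3, 18), (-1, 18, -11, 3, -9), (-1, 23, -18, 0, 1), (-1, 23, -17, 0, 1), (-1, 23, -16, 0, 1), (-1, 23, -15, 0, 1), (-1, 23, -14, 0, 1), (-1, 23, -13, 0, 1), (-1, 23, -12, 0, 1),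
      (-1, 24, -17, 3, -12), (-1, 33, -25, -3, 18), (1, 1, -1, 6, -19), (1, 1, -1, 9, -40), (1, 1, -1, 12, -61), (1, 3, -1, -12, 51), (1, 6, -1, -3, 15), (1, 9, -5, -15, 66), (1, 15, -14, 3, -15), (1, 15, -8, -6, 27)]

/-- Row 1 of `T_23`. -/
def T23K1 : Fin 4 → List Tm
  | 0 => [(-1, 1, -2, 3, -19), (-1, 1, -1, 6, -19), (-1, 1, -1, 9, -40), (-1, 1, -1, 12, -61), (-1, 1, 1, -3, 2), (-1, 1, 7, 0, 23), (-1, 2, -3, 3, -20), (-1, 2, 1, -3, 1), (-1, 3, -8, 3, -33), (-1, 3, -4, 6, -33), (-1, 3, 1, -24, -33),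
      (-1, 3, 1, -15, -12), (-1, 3, 1, -6, 9), (-1, 3, 2, -3, 9), (-1, 4, 1, -9, -10), (-1, 6, -23, 3, -69), (-1, 8, 5, 3, 16), (-1, 9, -10, 6, -39), (-1, 9, 2, -3, 3), (-1, 9, 7, 3, 24), (-1, 12, 7, 3, 18), (-1, 13, -12, 6, -37),
      (-1, 15, 23, 6, 69), (-1, 20, -21, 9, -65), (-1, 27, -23, 12, -69), (-1, 33, -28, 15, -87), (-1, 36, 23, 15, 69), (-1, 37, 10, 15, 29), (-1, 41, -35, 18, -107), (-1, 57, 23, 24, 69), (-1, 78, 23, 33, 69),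
      (-1, 99, 23, 42, 69), (1, 1, 0, -3, 23), (1, 1, 0, 0, 23), (1, 1, 0, 3, 23), (1, 1, 0, 6, 23), (1, 1, 0, 9, 23), (1, 1, 0, 12, 23), (1, 2, -1, -3, 22), (1, 2, -1, 3, 1), (1, 3, -2, -24, 135), (1, 3, -2, -15, 93),
      (1, 3, -2, -6, 51), (1, 3, -2, 3, 9), (1, 3, -1, -3, 30), (1, 3, -1, 6, 9), (1, 4, -3, -9, 53), (1, 6, 1, 3, 15), (1, 8, -3, 3, -5), (1, 9, -7, -3, 24), (1, 9, -2, 3, 3), (1, 9, -1, 6, 3), (1, 12, -5, 3, -3),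
      (1, 13, 1, 6, 5), (1, 15, -7, 6, -15), (1, 20, -1, 9, -2), (1, 27, 4, 12, 15), (1, 33, 5, 15, 18), (1, 36, -13, 15, -36), (1, 37, -27, 15, -76), (1, 41, 6, 18, 19), (1, 57, -34, 24, -99), (1, 78, -55, 33, -162),
      (1, 99, -76, 42, -225)]
  | 1 => [(-1, 3, -5, 3, -12), (-1, 3, -1, -3, 30), (-1, 3, -1, 6, 9), (-1, 3, -1, 15, -12), (-1, 3, -1, 24, -33), (-1, 4, -1, 9, -10), (-1, 5, -2, -3, 13), (-1, 8, -3, 3, -5), (-1, 9, -2, 3, 3), (-1, 10, -3, 3, -4), (-1, 12, -5, 3, -3),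
      (-1, 17, -5, 6, -11), (-1, 19, -7, 9, -22), (-1, 22, -7, 9, -19), (-1, 26, -11, 3, -8), (-1, 48, -23, 21, -69), (-1, 69, -23, 30, -69), (-1, 90, -23, 39, -69), (1, 1, 0, -12, 23), (1, 1, 0, -9, 23), (1, 2, -1, 9, -20),
      (1, 2, -1, 15, -41), (1, 8, 5, 3, 16), (1, 9, 7, 3, 24), (1, 13, -12, 6, -37), (1, 17, -9, 9, -32), (1, 29, -2, 12, -5), (1, 34, -19, 15, -58), (1, 39, -4, 15, -9), (1, 50, -9, 21, -26), (1, 55, -26, 24, -79),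
      (1, 76, -33, 33, -100)]
  | 2 => [(-1, 2, -1, 3, 1), (-1, 2, -1, 9, -20), (-1, 2, -1, 15, -41), (-1, 3, -1, -12, 51), (-1, 4, -3, 3, -10), (-1, 5, -3, 3, -8), (-1, 9, -5, -15, 66), (-1, 13, -12, 6, -37), (-1, 15, -8, -6, 27), (-1, 15, -7, 6, -15),
      (-1, 17, -9, 9, -32), (-1, 34, -19, 15, -58), (-1, 36, -13, 15, -36), (-1, 55, -26, 24, -79), (-1, 76, -33, 33, -100), (-1, 96, -53, 39, -150), (1, 1, 0, -6, 23), (1, 3, -5, 3, -12), (1, 3, -2, 12, -33), (1, 3, -2, 21, -75),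
      (1, 3, -2, 30, -117), (1, 5, -2, -3, 13), (1, 6, -1, -3, 15), (1, 10, -3, 3, -4), (1, 17, -5, 6, -11), (1, 22, -7, 9, -19), (1, 26, -11, 3, -8), (1, 33, -28, 15, -87), (1, 75, -49, 33, -150), (1, 117, -70, 51, -213)]
  | 3 => [(-1, 2, -1, -3, 22), (-1, 3, -2, -24, 135), (-1, 3, -2, -15, 93), (-1, 3, -2, -6, 51), (-1, 3, -2, 3, 9), (-1, 3, -2, 12, -33), (-1, 3, -2, 21, -75), (-1, 3, -2, 30, -117), (-1, 4, -3, -9, 53), (-1, 9, -7, -3, 24),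
      (-1, 37, -27, 15, -76), (-1, 57, -34, 24, -99), (-1, 75, -49, 33, -150), (-1, 78, -55, 33, -162), (-1, 99, -76, 42, -225), (-1, 117, -70, 51, -213), (1, 1, -2, 3, -19), (1, 1, -1, 6, -19), (1, 1, -1, 9, -40),
      (1, 1, -1, 12, -61), (1, 1, 7, 0, 23), (1, 2, -3, 3, -20), (1, 3, -8, 3, -33), (1, 3, -4, 6, -33), (1, 3, -1, -12, 51), (1, 9, -10, 6, -39), (1, 9, -5, -15, 66), (1, 13, -12, 6, -37), (1, 15, -8, -6, 27),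
      (1, 20, -21, 9, -65), (1, 41, -35, 18, -107), (1, 96, -53, 39, -150)]

end Pool.Agent.Helper14.TK7
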