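import Pool.Agent.Helper4.S7.Tm

/-!
# Project TK (levels `3·7^n`): row 2 of `T_23`, row 3 of `T_23`

A term `(k, a, b, c, d)` stands for `k` times the operator of `(a b; 7c d)` (`Helper4/S7/Tm.lean`; `mulL`, `sclL`, `Gd` of W7 are used unchanged). `F_f(g) = G(g e_f) - G(g 0)` with `e_0 = ∞`, `e_1 = 1/3`, `e_2 = 1/2`, `e_3 = 2/3`.
The rows of `T_l` are computed with the residues `-(l-1)/2, ..., (l-1)/2` (`0, 1` for `l = 2`).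
-/

set_option autoImplicit false

namespace Pool.Agent.Helper14.TK7

open Pool.Agent.Helper4.S7 (Tm mulT mulL sclL Gd)

/-- Row 2 of `T_23`. -/
def T23K2 : Fin 4 → List Tm
  | 0 => [(-1, 1, -1, 3, 2), (-1, 1, -1, 6, -19), (-1, 1, -1, 9, -40), (-1, 1, -1, 12, -61), (-1, 1, 1, -3, 2), (-1, 1, 11, 0, 23), (-1, 2, 1, -3, 1), (-1, 3, -5, 3, -12), (-1, 3, 1, -24, -33), (-1, 3, 1, -15, -12), (-1, 3, 1, -6, 9),
      (-1, 3, 2, -3, 9), (-1, 4, 1, -9, -10), (-1, 6, -11, 3, -27), (-1, 9, -29, 3, -60), (-1, 9, 2, -3, 3), (-1, 10, -23, 3, -46), (-1, 10, 3, -3, -4), (-1, 11, 23, 3, 46), (-1, 12, 19, 3, 39), (-1, 13, 2, 3, 5),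
      (-1, 16, 5, 3, 8), (-1, 18, 7, 3, 12), (-1, 19, -20, 6, -43), (-1, 23, 5, 0, 1), (-1, 24, 7, 3, 9), (-1, 25, 6, 6, 11), (-1, 27, 8, 6, 15), (-1, 32, 23, 9, 46), (-1, 33, 8, -3, -3), (-1, 36, 7, 3, 6), (-1, 53, 23, 15, 46),
      (-1, 57, 14, 15, 27), (-1, 72, -71, 21, -144), (-1, 74, 23, 21, 46), (-1, 87, 26, 24, 51), (-1, 95, 23, 27, 46), (-1, 135, -113, 39, -228), (1, 1, 0, -3, 23), (1, 1, 0, 0, 23), (1, 1, 0, 3, 23), (1, 1, 0, 6, 23),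
      (1, 1, 0, 9, 23), (1, 1, 0, 12, 23), (1, 2, -1, -3, 22), (1, 3, -2, -24, 135), (1, 3, -2, -15, 93), (1, 3, -2, -6, 51), (1, 3, -2, 3, 9), (1, 3, -1, -3, 30), (1, 4, -3, -9, 53), (1, 6, 1, 3, 15), (1, 9, -7, -3, 24),
      (1, 9, -2, 3, 3), (1, 10, -7, -3, 17), (1, 10, -3, 3, -4), (1, 11, 1, 3, 4), (1, 12, -5, 3, -3), (1, 13, -11, 3, -16), (1, 16, -11, 3, -13), (1, 18, -11, 3, -9), (1, 19, -1, 6, -1), (1, 23, -18, 0, 1), (1, 24, -17, 3, -12),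
      (1, 25, -19, 6, -31), (1, 27, -19, 6, -27), (1, 32, -9, 9, -17), (1, 33, -25, -3, 18), (1, 36, -29, 3, -15), (1, 53, -30, 15, -59), (1, 57, -43, 15, -78), (1, 72, 1, 21, 3), (1, 74, -51, 21, -101), (1, 87, -61, 24, -117),
      (1, 95, -72, 27, -143), (1, 135, 22, 39, 45)]
  | 1 => [(-1, 3, -5, 3, -12), (-1, 3, -1, -3, 30), (-1, 3, -1, 6, 9), (-1, 3, -1, 15, -12), (-1, 3, -1, 24, -33), (-1, 4, -1, -3, 11), (-1, 4, -1, 9, -10), (-1, 5, -2, -3, 13), (-1, 8, -3, 3, -5), (-1, 9, -2, 3, 3), (-1, 10, -3, 3, -4),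
      (-1, 12, -5, 3, -3), (-1, 15, -7, 6, -15), (-1, 17, -5, 6, -11), (-1, 26, -11, 3, -8), (-1, 32, -9, 9, -17), (-1, 43, -10, 12, -19), (-1, 48, -13, 15, -27), (-1, 73, -23, 21, -46), (-1, 81, -25, 24, -51),
      (-1, 85, -31, 24, -61), (-1, 94, -23, 27, -46), (-1, 127, -52, 36, -103), (1, 1, 0, -12, 23), (1, 1, 0, -9, 23), (1, 2, -1, 9, -20), (1, 2, -1, 15, -41), (1, 4, -3, 3, -10), (1, 12, 19, 3, 39), (1, 15, 1, 3, 6),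
      (1, 23, 0, 6, 1), (1, 71, -33, 21, -68), (1, 75, -2, 21, -3), (1, 138, -23, 39, -45)]
  | 2 => [(-1, 2, -1, 3, 1), (-1, 2, -1, 9, -20), (-1, 2, -1, 15, -41), (-1, 3, -1, -12, 51), (-1, 4, -3, 3, -10), (-1, 5, -3, 3, -8), (-1, 9, -5, -15, 66), (-1, 15, -8, -6, 27), (-1, 52, -23, 15, -46), (-1, 54, -13, 15, -24),
      (-1, 71, -33, 21, -68), (-1, 117, -55, 33, -108), (-1, 180, -97, 51, -192), (1, 1, 0, -6, 23), (1, 1, 11, 0, 23), (1, 3, -5, 3, -12), (1, 3, -2, 12, -33), (1, 3, -2, 21, -75), (1, 3, -2, 30, -117), (1, 4, -1, -3, 11),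
      (1, 5, -2, -3, 13), (1, 6, -11, 3, -27), (1, 6, -1, -3, 15), (1, 26, -11, 3, -8), (1, 43, -10, 12, -19), (1, 51, -40, 15, -81), (1, 85, -31, 24, -61), (1, 127, -52, 36, -103)]
  | 3 => [(-1, 2, -1, -3, 22), (-1, 3, -2, -24, 135), (-1, 3, -2, -15, 93), (-1, 3, -2, -6, 51), (-1, 3, -2, 3, 9), (-1, 3, -2, 12, -33), (-1, 3, -2, 21, -75), (-1, 3, -2, 30, -117), (-1, 4, -3, -9, 53), (-1, 9, -7, -3, 24),
      (-1, 10, -7, -3, 17), (-1, 13, -11, 3, -16), (-1, 16, -11, 3, -13), (-1, 18, -11, 3, -9), (-1, 23, -18, 0, 1), (-1, 24, -17, 3, -12), (-1, 25, -19, 6, -31), (-1, 27, -19, 6, -27), (-1, 31, -23, 9, -46),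
      (-1, 33, -25, -3, 18), (-1, 36, -29, 3, -15), (-1, 51, -40, 15, -81), (-1, 53, -30, 15, -59), (-1, 57, -43, 15, -78), (-1, 74, -51, 21, -101), (-1, 87, -61, 24, -117), (-1, 95, -72, 27, -143), (1, 1, -1, 6, -19),
      (1, 1, -1, 9, -40), (1, 1, -1, 12, -61), (1, 3, -1, -12, 51), (1, 9, -29, 3, -60), (1, 9, -5, -15, 66), (1, 15, -8, -6, 27), (1, 19, -20, 6, -43), (1, 54, -13, 15, -24), (1, 72, -71, 21, -144), (1, 117, -55, 33, -108),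
      (1, 135, -113, 39, -228), (1, 180, -97, 51, -192)]

/-- Row 3 of `T_23`. -/
def T23K3 : Fin 4 → List Tm
  | 0 => [(-1, 1, -1, 3, 2), (-1, 1, -1, 6, -19), (-1, 1, -1, 9, -40), (-1, 1, -1, 12, -61), (-1, 1, 1, -3, 2), (-1, 1, 15, 0, 23), (-1, 2, 1, -3, 1), (-1, 3, -5, 3, -12), (-1, 3, 1, -24, -33), (-1, 3, 1, -15, -12), (-1, 3, 1, -6, 9),
      (-1, 3, 2, -3, 9), (-1, 4, 1, -9, -10), (-1, 6, -5, 3, -6), (-1, 9, -11, 3, -18), (-1, 9, 2, -3, 3), (-1, 10, 3, -3, -4), (-1, 11, -10, 3, -17), (-1, 12, -29, 3, -45), (-1, 13, -24, 3, -37), (-1, 15, 46, 3, 69),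
      (-1, 16, 5, 3, 8), (-1, 17, 7, 3, 10), (-1, 18, 7, 3, 12), (-1, 23, 5, 0, 1), (-1, 24, 7, 3, 9), (-1, 27, -46, 6, -69), (-1, 33, 8, -3, -3), (-1, 36, 7, 3, 6), (-1, 44, 15, 9, 22), (-1, 55, -52, 12, -79),
      (-1, 57, 46, 12, 69), (-1, 66, -61, 15, -96), (-1, 97, -80, 21, -121), (-1, 99, 46, 21, 69), (-1, 141, 46, 30, 69), (-1, 183, 46, 39, 69), (1, 1, 0, -3, 23), (1, 1, 0, 0, 23), (1, 1, 0, 3, 23), (1, 1, 0, 6, 23),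
      (1, 1, 0, 9, 23), (1, 1, 0, 12, 23), (1, 2, -1, -3, 22), (1, 3, -2, -24, 135), (1, 3, -2, -15, 93), (1, 3, -2, -6, 51), (1, 3, -2, 3, 9), (1, 3, -1, -3, 30), (1, 4, -3, -9, 53), (1, 6, 1, 3, 15), (1, 9, -7, -3, 24),
      (1, 9, -2, 3, 3), (1, 10, -7, -3, 17), (1, 11, 1, 3, 4), (1, 12, -5, 3, -3), (1, 13, -11, 3, -16), (1, 15, 1, 3, 6), (1, 16, -11, 3, -13), (1, 17, -10, 3, -11), (1, 18, -11, 3, -9), (1, 23, -18, 0, 1), (1, 24, -17, 3, -12),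
      (1, 27, -19, 6, -27), (1, 33, -25, -3, 18), (1, 36, -29, 3, -15), (1, 44, -29, 9, -41), (1, 55, 3, 12, 5), (1, 57, -11, 12, -15), (1, 66, 5, 15, 9), (1, 97, 17, 21, 26), (1, 99, -53, 21, -78), (1, 141, -95, 30, -141),
      (1, 183, -137, 39, -204)]
  | 1 => [(-1, 3, -1, -3, 30), (-1, 3, -1, 6, 9), (-1, 3, -1, 15, -12), (-1, 3, -1, 24, -33), (-1, 4, -1, -3, 11), (-1, 4, -1, 9, -10), (-1, 5, -2, -3, 13), (-1, 9, -2, 3, 3), (-1, 10, -3, 3, -4), (-1, 12, -5, 3, -3), (-1, 26, -11, 3, -8),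
      (-1, 27, -19, 6, -27), (-1, 52, -21, 9, -25), (-1, 68, -19, 15, -29), (-1, 69, -46, 15, -69), (-1, 111, -46, 24, -69), (-1, 115, -46, 24, -67), (-1, 153, -46, 33, -69), (-1, 195, -46, 42, -69), (1, 1, 0, -12, 23),
      (1, 1, 0, -9, 23), (1, 1, 15, 0, 23), (1, 2, -1, 9, -20), (1, 2, -1, 15, -41), (1, 3, 2, -3, 9), (1, 4, -3, 3, -10), (1, 5, -3, 3, -8), (1, 15, -1, -3, 6), (1, 18, 7, 3, 12), (1, 19, -2, 3, -1), (1, 20, -3, 3, -2),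
      (1, 23, -4, 0, 1), (1, 31, -7, 3, -4), (1, 33, -4, 6, -3), (1, 39, -10, 6, -9), (1, 41, -29, 9, -44), (1, 43, 1, 9, 2), (1, 54, -11, 3, -3), (1, 72, -13, 15, -18), (1, 83, -43, 18, -65), (1, 85, -13, 18, -19),
      (1, 125, -57, 27, -86)]
  | 2 => [(-1, 2, -1, 3, 1), (-1, 2, -1, 9, -20), (-1, 2, -1, 15, -41), (-1, 3, -1, -12, 51), (-1, 4, -3, 3, -10), (-1, 5, -3, 3, -8), (-1, 9, -5, -15, 66), (-1, 15, -8, -6, 27), (-1, 23, -11, 0, 1), (-1, 41, -29, 9, -44),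
      (-1, 45, -29, 3, -12), (-1, 78, -43, 15, -57), (-1, 83, -43, 18, -65), (-1, 99, -53, 21, -78), (-1, 117, -61, 24, -87), (-1, 125, -57, 27, -86), (1, 1, 0, -6, 23), (1, 3, -5, 3, -12), (1, 3, -2, 12, -33),
      (1, 3, -2, 21, -75), (1, 3, -2, 30, -117), (1, 4, -1, -3, 11), (1, 5, -2, -3, 13), (1, 6, -1, -3, 15), (1, 12, -29, 3, -45), (1, 26, -11, 3, -8), (1, 27, -19, 6, -27), (1, 29, -4, 6, -5), (1, 52, -21, 9, -25),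
      (1, 69, -46, 15, -69), (1, 96, -71, 21, -108), (1, 115, -46, 24, -67), (1, 180, -113, 39, -171), (1, 264, -155, 57, -234)]
  | 3 => [(-1, 2, -1, -3, 22), (-1, 3, -2, -24, 135), (-1, 3, -2, -15, 93), (-1, 3, -2, -6, 51), (-1, 3, -2, 3, 9), (-1, 3, -2, 12, -33), (-1, 3, -2, 21, -75), (-1, 3, -2, 30, -117), (-1, 4, -3, -9, 53), (-1, 9, -7, -3, 24),
      (-1, 10, -7, -3, 17), (-1, 13, -11, 3, -16), (-1, 16, -11, 3, -13), (-1, 17, -10, 3, -11), (-1, 18, -11, 3, -9), (-1, 23, -18, 0, 1), (-1, 24, -17, 3, -12), (-1, 27, -19, 6, -27), (-1, 33, -25, -3, 18),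
      (-1, 36, -29, 3, -15), (-1, 44, -29, 9, -41), (-1, 69, -46, 15, -69), (-1, 96, -71, 21, -108), (-1, 141, -95, 30, -141), (-1, 180, -113, 39, -171), (-1, 183, -137, 39, -204), (-1, 264, -155, 57, -234), (1, 1, -1, 6, -19),
      (1, 1, -1, 9, -40), (1, 1, -1, 12, -61), (1, 3, -1, -12, 51), (1, 9, -5, -15, 66), (1, 11, -10, 3, -17), (1, 13, -24, 3, -37), (1, 15, -8, -6, 27), (1, 23, -11, 0, 1), (1, 45, -29, 3, -12), (1, 55, -52, 12, -79),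
      (1, 66, -61, 15, -96), (1, 78, -43, 15, -57), (1, 97, -80, 21, -121), (1, 117, -61, 24, -87)]

end Pool.Agent.Helper14.TK7
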