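import Pool.Agent.Helper4.S7.Tm

/-!
# Project TK (levels `3·7^n`): row 2 of `T_29`

A term `(k, a, b, c, d)` stands for `k` times the operator of `(a b; 7c d)` (`Helper4/S7/Tm.lean`; `mulL`, `sclL`, `Gd` of W7 are used unchanged). `F_f(g) = G(g e_f) - G(g 0)` with `e_0 = ∞`, `e_1 = 1/3`, `e_2 = 1/2`, `e_3 = 2/3`.
The rows of `T_l` are computed with the residues `-(l-1)/2, ..., (l-1)/2` (`0, 1` for `l = 2`).
-/

set_option autoImplicit false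

namespace Pool.Agent.Helper14.TK7

open Pool.Agent.Helper4.S7 (Tm mulT mulL sclL Gd)

/-- Row 2 of `T_29`. -/
def T29K2 : Fin 4 → List Tm
  | 0 => [(-1, 1, -2, 3, -13), (-1, 1, -1, 6, -13), (-1, 1, -1, 9, -34), (-1, 1, -1, 12, -55), (-1, 1, -1, 15, -76), (-1, 1, -1, 18, -97), (-1, 1, 1, -3, 8), (-1, 1, 14, 0, 29), (-1, 2, -3, 3, -17), (-1, 2, 1, -3, 4), (-1, 3, -8, 3, -27),
      (-1, 3, -4, 6, -27), (-1, 3, 1, -24, -27), (-1, 3, 1, -15, -6), (-1, 3, 1, -6, 15), (-1, 3, 2, -3, 15), (-1, 4, -5, 3, -19), (-1, 4, 1, -3, 2), (-1, 5, -4, 3, -11), (-1, 6, -11, 3, -24), (-1, 6, -5, 21, -108),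
      (-1, 8, -9, 3, -20), (-1, 9, -35, 3, -72), (-1, 9, 4, -6, -9), (-1, 10, -29, 3, -58), (-1, 11, 29, 3, 58), (-1, 12, 25, 3, 51), (-1, 15, -16, 6, -39), (-1, 19, 5, -3, -4), (-1, 29, 6, 0, 1), (-1, 31, -29, 9, -58),
      (-1, 32, 29, 9, 58), (-1, 39, 7, 3, 6), (-1, 41, -35, 12, -71), (-1, 48, 11, -3, -3), (-1, 51, -46, 15, -93), (-1, 53, 29, 15, 58), (-1, 61, -53, 18, -109), (-1, 72, -77, 21, -156), (-1, 74, 29, 21, 58),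
      (-1, 87, 29, 24, 57), (-1, 95, 29, 27, 58), (-1, 116, 29, 33, 58), (-1, 135, -119, 39, -240), (-1, 198, -161, 57, -324), (1, 1, 0, -3, 29), (1, 1, 0, 0, 29), (1, 1, 0, 3, 29), (1, 1, 0, 6, 29), (1, 1, 0, 9, 29),
      (1, 1, 0, 12, 29), (1, 1, 0, 15, 29), (1, 1, 0, 18, 29), (1, 2, -1, -3, 25), (1, 2, -1, 3, 4), (1, 3, -2, -24, 141), (1, 3, -2, -15, 99), (1, 3, -2, -6, 57), (1, 3, -2, 3, 15), (1, 3, -1, -3, 36), (1, 3, -1, 6, 15),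
      (1, 4, -3, -3, 23), (1, 4, -1, 3, 2), (1, 5, 1, 3, 10), (1, 6, 1, 3, 18), (1, 6, 1, 21, 39), (1, 8, -1, 3, 1), (1, 9, -5, -6, 33), (1, 9, 1, 3, 12), (1, 10, -9, 3, -16), (1, 11, -4, 3, -5), (1, 12, 1, 3, 9),
      (1, 15, -1, 6, 3), (1, 19, -14, -3, 17), (1, 29, -23, 0, 1), (1, 31, 2, 9, 5), (1, 32, -3, 9, -5), (1, 39, -32, 3, -15), (1, 41, 6, 12, 13), (1, 48, -37, -3, 18), (1, 51, 5, 15, 12), (1, 53, -24, 15, -47),
      (1, 61, 8, 18, 17), (1, 72, -5, 21, -9), (1, 74, -45, 21, -89), (1, 87, -58, 24, -111), (1, 95, -66, 27, -131), (1, 116, -87, 33, -173), (1, 135, 16, 39, 33), (1, 198, 37, 57, 75)]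
  | 1 => [(-1, 3, -1, -3, 36), (-1, 3, -1, 6, 15), (-1, 3, -1, 15, -6), (-1, 3, -1, 24, -27), (-1, 4, -1, 3, 2), (-1, 5, -2, -9, 31), (-1, 9, -8, 3, -9), (-1, 9, -4, 6, -9), (-1, 11, -4, 3, -5), (-1, 23, -10, 6, -17), (-1, 29, -12, 0, 1),
      (-1, 73, -29, 21, -58), (-1, 81, -28, 24, -57), (-1, 85, -28, 24, -55), (-1, 94, -29, 27, -58), (-1, 115, -29, 33, -58), (-1, 127, -49, 36, -97), (-1, 169, -70, 48, -139), (1, 1, -1, 6, -13), (1, 1, 0, -18, 29),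
      (1, 1, 0, -15, 29), (1, 1, 0, -12, 29), (1, 1, 1, -3, 8), (1, 2, -1, 9, -17), (1, 2, -1, 15, -38), (1, 2, -1, 21, -59), (1, 3, 1, -6, 15), (1, 5, -4, 3, -11), (1, 5, -1, -3, 10), (1, 6, -11, 3, -24), (1, 6, -1, -21, 39),
      (1, 8, -9, 3, -20), (1, 9, -1, -3, 12), (1, 12, -1, -3, 9), (1, 12, 25, 3, 51), (1, 17, -10, 6, -23), (1, 17, -3, 3, -2), (1, 18, 1, 3, 6), (1, 19, -12, 6, -25), (1, 27, -4, 6, -3), (1, 54, -7, 15, -12),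
      (1, 65, -9, 18, -17), (1, 75, 4, 21, 9), (1, 113, -51, 33, -104), (1, 138, -17, 39, -33), (1, 201, -38, 57, -75)]
  | 2 => [(-1, 2, -1, 3, 4), (-1, 2, -1, 9, -17), (-1, 2, -1, 15, -38), (-1, 2, -1, 21, -59), (-1, 3, -1, -12, 57), (-1, 5, -4, 3, -11), (-1, 8, -9, 3, -20), (-1, 9, -5, -6, 33), (-1, 17, -10, 6, -23), (-1, 19, -12, 6, -25),
      (-1, 24, -13, -3, 15), (-1, 24, -11, 3, -6), (-1, 30, -17, 3, -9), (-1, 52, -29, 15, -58), (-1, 54, -7, 15, -12), (-1, 93, -52, 24, -93), (-1, 113, -51, 33, -104), (-1, 117, -49, 33, -96), (-1, 180, -91, 51, -180),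
      (-1, 243, -133, 69, -264), (1, 1, 0, -9, 29), (1, 1, 14, 0, 29), (1, 3, -4, 6, -27), (1, 3, -2, 12, -27), (1, 3, -2, 21, -69), (1, 3, -2, 30, -111), (1, 3, -2, 39, -153), (1, 3, 2, -3, 15), (1, 5, -2, -9, 31),
      (1, 9, -8, 3, -9), (1, 13, -2, 3, -1), (1, 23, -10, 6, -17), (1, 29, -12, 0, 1), (1, 43, -7, 12, -13), (1, 48, -31, 15, -66), (1, 51, -46, 15, -93), (1, 66, -41, 21, -90), (1, 85, -28, 24, -55), (1, 114, -67, 33, -135),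
      (1, 127, -49, 36, -97), (1, 132, -83, 39, -171), (1, 169, -70, 48, -139)]
  | 3 => [(-1, 2, -1, -3, 25), (-1, 3, -2, -24, 141), (-1, 3, -2, -15, 99), (-1, 3, -2, -6, 57), (-1, 3, -2, 3, 15), (-1, 3, -2, 12, -27), (-1, 3, -2, 21, -69), (-1, 3, -2, 30, -111), (-1, 3, -2, 39, -153), (-1, 4, -3, -3, 23),
      (-1, 10, -9, 3, -16), (-1, 19, -14, -3, 17), (-1, 29, -23, 0, 1), (-1, 39, -32, 3, -15), (-1, 48, -37, -3, 18), (-1, 48, -31, 15, -66), (-1, 53, -24, 15, -47), (-1, 66, -41, 21, -90), (-1, 74, -45, 21, -89),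
      (-1, 87, -58, 24, -111), (-1, 95, -66, 27, -131), (-1, 114, -67, 33, -135), (-1, 116, -87, 33, -173), (-1, 132, -83, 39, -171), (1, 1, -2, 3, -13), (1, 1, -1, 9, -34), (1, 1, -1, 12, -55), (1, 1, -1, 15, -76),
      (1, 1, -1, 18, -97), (1, 1, 0, -6, 29), (1, 2, -3, 3, -17), (1, 3, -8, 3, -27), (1, 3, -1, -12, 57), (1, 4, -5, 3, -19), (1, 5, -4, 3, -11), (1, 6, -5, 21, -108), (1, 6, -1, -3, 18), (1, 8, -9, 3, -20), (1, 9, -35, 3, -72),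
      (1, 15, -16, 6, -39), (1, 15, -2, 3, 3), (1, 24, -13, -3, 15), (1, 24, -11, 3, -6), (1, 30, -17, 3, -9), (1, 41, -35, 12, -71), (1, 54, -7, 15, -12), (1, 61, -53, 18, -109), (1, 72, -77, 21, -156), (1, 93, -52, 24, -93),
      (1, 117, -49, 33, -96), (1, 135, -119, 39, -240), (1, 180, -91, 51, -180), (1, 198, -161, 57, -324), (1, 243, -133, 69, -264)]

end Pool.Agent.Helper14.TK7
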