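import Pool.Agent.Helper4.S7.Tm

/-!
# Project TK (levels `3·7^n`): row 3 of `T_29`, row 0 of `T_31`

A term `(k, a, b, c, d)` stands for `k` times the operator of `(a b; 7c d)` (`Helper4/S7/Tm.lean`; `mulL`, `sclL`, `Gd` of W7 are used unchanged). `F_f(g) = G(g e_f) - G(g 0)` with `e_0 = ∞`, `e_1 = 1/3`, `e_2 = 1/2`, `e_3 = 2/3`.
The rows of `T_l` are computed with the residues `-(l-1)/2, ..., (l-1)/2` (`0, 1` for `l = 2`).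
-/

set_option autoImplicit false

namespace Pool.Agent.Helper14.TK7

open Pool.Agent.Helper4.S7 (Tm mulT mulL sclL Gd)

/-- Row 3 of `T_29`. -/
def T29K3 : Fin 4 → List Tm
  | 0 => [(-1, 1, -2, 3, -13), (-1, 1, -1, 6, -13), (-1, 1, -1, 9, -34), (-1, 1, -1, 12, -55), (-1, 1, -1, 15, -76), (-1, 1, -1, 18, -97), (-1, 1, 1, -3, 8), (-1, 1, 19, 0, 29), (-1, 2, -3, 3, -17), (-1, 2, 1, -3, 4), (-1, 3, -5, 3, -6),
      (-1, 3, -4, 6, -27), (-1, 3, 1, -24, -27), (-1, 3, 1, -15, -6), (-1, 3, 1, -6, 15), (-1, 3, 2, -3, 15), (-1, 4, 1, -3, 2), (-1, 5, -4, 3, -11), (-1, 6, -11, 3, -24), (-1, 6, -5, 21, -108), (-1, 8, -9, 3, -20),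
      (-1, 9, -17, 3, -30), (-1, 9, 4, -6, -9), (-1, 11, -15, 3, -26), (-1, 12, -35, 3, -54), (-1, 13, -28, 3, -43), (-1, 15, -16, 6, -39), (-1, 15, 58, 3, 87), (-1, 16, 7, 3, 11), (-1, 19, 5, -3, -4), (-1, 27, -58, 6, -87),
      (-1, 29, 6, 0, 1), (-1, 33, 10, 3, 9), (-1, 37, -31, 9, -52), (-1, 37, 9, 6, 11), (-1, 39, 7, 3, 6), (-1, 44, 17, 9, 25), (-1, 48, 11, -3, -3), (-1, 55, -56, 12, -85), (-1, 57, 58, 12, 87), (-1, 69, -58, 15, -87),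
      (-1, 78, 17, 15, 24), (-1, 96, -77, 21, -117), (-1, 97, -84, 21, -127), (-1, 99, 58, 21, 87), (-1, 139, -112, 30, -169), (-1, 141, 58, 30, 87), (-1, 150, -127, 33, -195), (-1, 183, 58, 39, 87), (-1, 225, 58, 48, 87),
      (1, 1, 0, -3, 29), (1, 1, 0, 0, 29), (1, 1, 0, 3, 29), (1, 1, 0, 6, 29), (1, 1, 0, 9, 29), (1, 1, 0, 12, 29), (1, 1, 0, 15, 29), (1, 1, 0, 18, 29), (1, 2, -1, -3, 25), (1, 2, -1, 3, 4), (1, 3, -2, -24, 141),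
      (1, 3, -2, -15, 99), (1, 3, -2, -6, 57), (1, 3, -2, 3, 15), (1, 3, -1, -3, 36), (1, 3, -1, 6, 15), (1, 4, -3, -3, 23), (1, 5, 1, 3, 10), (1, 6, 1, 3, 18), (1, 6, 1, 21, 39), (1, 8, -1, 3, 1), (1, 9, -5, -6, 33),
      (1, 9, 1, 3, 12), (1, 11, -4, 3, -5), (1, 12, 1, 3, 9), (1, 13, -2, 3, -1), (1, 15, -2, 3, 3), (1, 15, -1, 6, 3), (1, 16, -9, 3, -10), (1, 19, -14, -3, 17), (1, 27, -4, 6, -3), (1, 29, -23, 0, 1), (1, 33, -23, 3, -12),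
      (1, 37, -28, 6, -31), (1, 37, 6, 9, 11), (1, 39, -32, 3, -15), (1, 44, -27, 9, -38), (1, 48, -37, -3, 18), (1, 55, -1, 12, -1), (1, 57, 1, 12, 3), (1, 69, 11, 15, 18), (1, 78, -61, 15, -81), (1, 96, 19, 21, 30),
      (1, 97, 13, 21, 20), (1, 99, -41, 21, -60), (1, 139, 27, 30, 41), (1, 141, -83, 30, -123), (1, 150, 23, 33, 36), (1, 183, -125, 39, -186), (1, 225, -167, 48, -249)]
  | 1 => [(-1, 3, -1, -3, 36), (-1, 3, -1, 6, 15), (-1, 3, -1, 15, -6), (-1, 3, -1, 24, -27), (-1, 4, -1, 3, 2), (-1, 5, -2, -9, 31), (-1, 9, -8, 3, -9), (-1, 9, -4, 6, -9), (-1, 11, -4, 3, -5), (-1, 12, -11, 3, -12), (-1, 19, -5, 3, -4),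
      (-1, 24, -11, 3, -6), (-1, 29, -12, 0, 1), (-1, 41, -17, 3, -8), (-1, 68, -21, 15, -32), (-1, 71, -28, 15, -41), (-1, 73, -26, 15, -37), (-1, 111, -58, 24, -87), (-1, 153, -58, 33, -87), (-1, 195, -58, 42, -87),
      (-1, 237, -58, 51, -87), (1, 1, -1, 6, -13), (1, 1, 0, -18, 29), (1, 1, 0, -15, 29), (1, 1, 0, -12, 29), (1, 1, 1, -3, 8), (1, 1, 19, 0, 29), (1, 2, -1, 9, -17), (1, 2, -1, 15, -38), (1, 2, -1, 21, -59), (1, 3, 1, -6, 15),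
      (1, 5, -4, 3, -11), (1, 6, -1, -21, 39), (1, 9, -1, -3, 12), (1, 10, -9, 3, -16), (1, 12, -1, -3, 9), (1, 25, -12, 6, -19), (1, 41, -33, 9, -50), (1, 43, 5, 9, 8), (1, 72, -7, 15, -9), (1, 83, -47, 18, -71),
      (1, 85, -9, 18, -13), (1, 102, -11, 21, -15), (1, 125, -61, 27, -92), (1, 127, -23, 27, -34), (1, 167, -75, 36, -113)]
  | 2 => [(-1, 2, -1, 3, 4), (-1, 2, -1, 9, -17), (-1, 2, -1, 15, -38), (-1, 2, -1, 21, -59), (-1, 3, -1, -12, 57), (-1, 5, -4, 3, -11), (-1, 9, -5, -6, 33), (-1, 10, -9, 3, -16), (-1, 16, -9, 3, -10), (-1, 24, -13, -3, 15),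
      (-1, 25, -12, 6, -19), (-1, 29, -14, 0, 1), (-1, 30, -17, 3, -9), (-1, 41, -33, 9, -50), (-1, 54, -35, 3, -12), (-1, 69, -38, 12, -45), (-1, 83, -47, 18, -71), (-1, 99, -41, 21, -60), (-1, 125, -61, 27, -92),
      (-1, 167, -75, 36, -113), (-1, 201, -109, 42, -159), (1, 1, 0, -9, 29), (1, 3, -2, 12, -27), (1, 3, -2, 21, -69), (1, 3, -2, 30, -111), (1, 3, -2, 39, -153), (1, 3, 2, -3, 15), (1, 5, -2, -9, 31), (1, 5, -1, -3, 10),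
      (1, 9, -8, 3, -9), (1, 12, -35, 3, -54), (1, 12, -11, 3, -12), (1, 17, -3, 3, -2), (1, 19, -5, 3, -4), (1, 29, -12, 0, 1), (1, 41, -17, 3, -8), (1, 51, -32, 12, -51), (1, 71, -28, 15, -41), (1, 73, -26, 15, -37),
      (1, 96, -77, 21, -117), (1, 180, -119, 39, -180), (1, 264, -161, 57, -243)]
  | 3 => [(-1, 2, -1, -3, 25), (-1, 3, -2, -24, 141), (-1, 3, -2, -15, 99), (-1, 3, -2, -6, 57), (-1, 3, -2, 3, 15), (-1, 3, -2, 12, -27), (-1, 3, -2, 21, -69), (-1, 3, -2, 30, -111), (-1, 3, -2, 39, -153), (-1, 4, -3, -3, 23),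
      (-1, 19, -14, -3, 17), (-1, 29, -23, 0, 1), (-1, 33, -23, 3, -12), (-1, 37, -28, 6, -31), (-1, 39, -32, 3, -15), (-1, 44, -27, 9, -38), (-1, 48, -37, -3, 18), (-1, 51, -32, 12, -51), (-1, 78, -61, 15, -81),
      (-1, 141, -83, 30, -123), (-1, 180, -119, 39, -180), (-1, 183, -125, 39, -186), (-1, 225, -167, 48, -249), (-1, 264, -161, 57, -243), (1, 1, -2, 3, -13), (1, 1, -1, 9, -34), (1, 1, -1, 12, -55), (1, 1, -1, 15, -76),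
      (1, 1, -1, 18, -97), (1, 1, 0, -6, 29), (1, 2, -3, 3, -17), (1, 3, -4, 6, -27), (1, 3, -1, -12, 57), (1, 5, -4, 3, -11), (1, 6, -11, 3, -24), (1, 6, -5, 21, -108), (1, 6, -1, -3, 18), (1, 8, -9, 3, -20), (1, 9, -17, 3, -30),
      (1, 11, -15, 3, -26), (1, 13, -28, 3, -43), (1, 15, -16, 6, -39), (1, 18, 1, 3, 6), (1, 24, -13, -3, 15), (1, 24, -11, 3, -6), (1, 29, -14, 0, 1), (1, 29, 0, 6, 1), (1, 30, -17, 3, -9), (1, 37, -31, 9, -52),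
      (1, 54, -35, 3, -12), (1, 55, -56, 12, -85), (1, 69, -38, 12, -45), (1, 97, -84, 21, -127), (1, 139, -112, 30, -169), (1, 150, -127, 33, -195), (1, 201, -109, 42, -159)]

/-- Row 0 of `T_31`. -/
def T31K0 : Fin 4 → List Tm
  | 0 => [(-1, 1, -2, 3, -11), (-1, 1, -1, 6, -11), (-1, 1, -1, 9, -32), (-1, 1, -1, 12, -53), (-1, 1, -1, 15, -74), (-1, 1, -1, 18, -95), (-1, 1, 1, -3, 10), (-1, 2, -3, 3, -16), (-1, 2, 1, -3, 5), (-1, 3, -4, 3, 3), (-1, 3, 1, -30, -39),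
      (-1, 3, 1, -21, -18), (-1, 3, 1, -12, 3), (-1, 3, 2, -6, 3), (-1, 3, 4, -3, 3), (-1, 4, 1, -9, -8), (-1, 6, -7, 3, -9), (-1, 6, -5, 15, -72), (-1, 8, 3, -3, -4), (-1, 9, -8, 6, -27), (-1, 12, -13, 3, -15),
      (-1, 15, -13, 3, -12), (-1, 18, 7, -3, -3), (-1, 33, -28, 3, -15), (-1, 39, 10, -3, -3), (1, 1, 0, -3, 31), (1, 1, 0, 0, 31), (1, 1, 0, 3, 31), (1, 1, 0, 6, 31), (1, 1, 0, 9, 31), (1, 1, 0, 12, 31), (1, 1, 0, 15, 31),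
      (1, 1, 0, 18, 31), (1, 2, -1, -3, 26), (1, 2, -1, 3, 5), (1, 3, -2, -30, 171), (1, 3, -2, -21, 129), (1, 3, -2, -12, 87), (1, 3, -2, -3, 45), (1, 3, -1, -6, 45), (1, 3, -1, 3, 24), (1, 4, -3, -9, 55), (1, 6, -1, 3, 12),
      (1, 6, 1, 15, 33), (1, 8, -5, -3, 17), (1, 9, 1, 6, 15), (1, 12, -1, 3, 6), (1, 15, 2, 3, 9), (1, 18, -11, -3, 18), (1, 31, -24, 0, 1), (1, 31, -23, 0, 1), (1, 31, -22, 0, 1), (1, 31, -21, 0, 1), (1, 31, -20, 0, 1),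
      (1, 31, -19, 0, 1), (1, 31, -18, 0, 1), (1, 31, -17, 0, 1), (1, 31, -16, 0, 1), (1, 31, -15, 0, 1), (1, 31, -14, 0, 1), (1, 31, -13, 0, 1), (1, 31, -12, 0, 1), (1, 31, -11, 0, 1), (1, 31, -10, 0, 1), (1, 31, -9, 0, 1),
      (1, 31, -8, 0, 1), (1, 31, -7, 0, 1), (1, 31, -6, 0, 1), (1, 31, -5, 0, 1), (1, 31, -4, 0, 1), (1, 31, -3, 0, 1), (1, 31, -2, 0, 1), (1, 31, -1, 0, 1), (1, 31, 0, 0, 1), (1, 31, 1, 0, 1), (1, 31, 2, 0, 1), (1, 31, 3, 0, 1),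
      (1, 31, 4, 0, 1), (1, 31, 5, 0, 1), (1, 31, 6, 0, 1), (1, 33, 5, 3, 6), (1, 39, -29, -3, 18)]
  | 1 => [(-1, 3, -1, -6, 45), (-1, 3, -1, 3, 24), (-1, 3, -1, 12, 3), (-1, 3, -1, 21, -18), (-1, 3, -1, 30, -39), (-1, 4, -1, -3, 13), (-1, 4, -1, 9, -8), (-1, 5, -2, -6, 23), (-1, 8, -3, 3, -4), (-1, 9, -2, -3, 15), (-1, 18, -7, 3, -3),
      (-1, 31, -13, 0, 1), (-1, 31, -12, 0, 1), (-1, 31, -11, 0, 1), (-1, 31, -10, 0, 1), (-1, 31, -9, 0, 1), (-1, 31, -8, 0, 1), (-1, 31, -7, 0, 1), (-1, 39, -10, 3, -3), (1, 1, -1, 6, -11), (1, 1, 0, -18, 31),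
      (1, 1, 0, -15, 31), (1, 1, 0, -12, 31), (1, 2, -1, 9, -16), (1, 2, -1, 15, -37), (1, 2, -1, 21, -58), (1, 2, 1, -3, 5), (1, 4, -3, 3, -8), (1, 6, -1, -15, 33), (1, 6, 1, -3, 12), (1, 9, -7, 3, -6), (1, 9, -1, -6, 15),
      (1, 12, 1, -3, 6), (1, 15, -2, -3, 9), (1, 25, -11, 3, -8), (1, 33, -5, -3, 6)]
  | 2 => [(-1, 2, -1, 3, 5), (-1, 2, -1, 9, -16), (-1, 2, -1, 15, -37), (-1, 2, -1, 21, -58), (-1, 3, -1, -15, 66), (-1, 4, -3, 3, -8), (-1, 9, -5, -12, 57), (-1, 15, -8, -12, 51), (-1, 25, -11, 3, -8), (-1, 30, -17, -3, 15),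
      (-1, 31, -15, 0, 1), (-1, 31, -14, 0, 1), (1, 1, 0, -9, 31), (1, 1, 1, -3, 10), (1, 3, -2, 15, -39), (1, 3, -2, 24, -81), (1, 3, -2, 33, -123), (1, 3, -2, 42, -165), (1, 4, -1, -3, 13), (1, 5, -2, -6, 23), (1, 6, -7, 3, -9),
      (1, 15, -13, 3, -12), (1, 27, -16, 3, -9), (1, 36, -25, 3, -12)]
  | 3 => [(-1, 2, -1, -3, 26), (-1, 3, -2, -30, 171), (-1, 3, -2, -21, 129), (-1, 3, -2, -12, 87), (-1, 3, -2, -3, 45), (-1, 3, -2, 6, 3), (-1, 3, -2, 15, -39), (-1, 3, -2, 24, -81), (-1, 3, -2, 33, -123), (-1, 3, -2, 42, -165),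
      (-1, 4, -3, -9, 55), (-1, 8, -5, -3, 17), (-1, 9, -7, 3, -6), (-1, 18, -11, -3, 18), (-1, 27, -16, 3, -9), (-1, 31, -24, 0, 1), (-1, 31, -23, 0, 1), (-1, 31, -22, 0, 1), (-1, 31, -21, 0, 1), (-1, 31, -20, 0, 1),
      (-1, 31, -19, 0, 1), (-1, 31, -18, 0, 1), (-1, 31, -17, 0, 1), (-1, 31, -16, 0, 1), (-1, 36, -25, 3, -12), (-1, 39, -29, -3, 18), (1, 1, -2, 3, -11), (1, 1, -1, 9, -32), (1, 1, -1, 12, -53), (1, 1, -1, 15, -74),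
      (1, 1, -1, 18, -95), (1, 1, 0, -6, 31), (1, 2, -3, 3, -16), (1, 3, -1, -15, 66), (1, 6, -5, 15, -72), (1, 9, -8, 6, -27), (1, 9, -5, -12, 57), (1, 9, -2, -3, 15), (1, 12, -13, 3, -15), (1, 15, -8, -12, 51),
      (1, 30, -17, -3, 15), (1, 33, -28, 3, -15)]

end Pool.Agent.Helper14.TK7
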