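import Pool.Agent.Helper4.S7.Tm

/-!
# Project TK (levels `3·7^n`): row 1 of `T_31`

A term `(k, a, b, c, d)` stands for `k` times the operator of `(a b; 7c d)` (`Helper4/S7/Tm.lean`; `mulL`, `sclL`, `Gd` of W7 are used unchanged). `F_f(g) = G(g e_f) - G(g 0)` with `e_0 = ∞`, `e_1 = 1/3`, `e_2 = 1/2`, `e_3 = 2/3`.
The rows of `T_l` are computed with the residues `-(l-1)/2, ..., (l-1)/2` (`0, 1` for `l = 2`).
-/

set_option autoImplicit false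

namespace Pool.Agent.Helper14.TK7

open Pool.Agent.Helper4.S7 (Tm mulT mulL sclL Gd)

/-- Row 1 of `T_31`. -/
def T31K1 : Fin 4 → List Tm
  | 0 => [(-1, 1, -2, 3, -11), (-1, 1, -1, 6, -11), (-1, 1, -1, 9, -32), (-1, 1, -1, 12, -53), (-1, 1, -1, 15, -74), (-1, 1, -1, 18, -95), (-1, 1, 1, -3, 10), (-1, 1, 10, 0, 31), (-1, 2, -3, 3, -16), (-1, 2, 1, -3, 5),
      (-1, 3, -10, 3, -39), (-1, 3, -5, 6, -39), (-1, 3, 1, -30, -39), (-1, 3, 1, -21, -18), (-1, 3, 1, -12, 3), (-1, 3, 1, -3, 24), (-1, 3, 2, -6, 3), (-1, 4, 1, -9, -8), (-1, 5, -6, 3, -19), (-1, 6, -31, 3, -93),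
      (-1, 6, -5, 15, -72), (-1, 8, 5, 3, 17), (-1, 9, -8, 6, -27), (-1, 9, 11, 3, 36), (-1, 11, -12, 6, -43), (-1, 13, -19, 6, -59), (-1, 15, 31, 6, 93), (-1, 20, -17, 9, -52), (-1, 23, 9, 9, 26), (-1, 27, -31, 12, -93),
      (-1, 33, -32, 15, -99), (-1, 34, -33, 15, -101), (-1, 36, 31, 15, 93), (-1, 55, -47, 24, -143), (-1, 57, 31, 24, 93), (-1, 76, -61, 33, -185), (-1, 78, 31, 33, 93), (-1, 87, -73, 39, -228), (-1, 99, 31, 42, 93),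
      (-1, 120, 31, 51, 93), (1, 1, 0, -3, 31), (1, 1, 0, 0, 31), (1, 1, 0, 3, 31), (1, 1, 0, 6, 31), (1, 1, 0, 9, 31), (1, 1, 0, 12, 31), (1, 1, 0, 15, 31), (1, 1, 0, 18, 31), (1, 2, -1, -3, 26), (1, 2, -1, 3, 5),
      (1, 3, -2, -30, 171), (1, 3, -2, -21, 129), (1, 3, -2, -12, 87), (1, 3, -2, -3, 45), (1, 3, -2, 6, 3), (1, 3, -1, -6, 45), (1, 3, -1, 3, 24), (1, 4, -3, -9, 55), (1, 5, -1, 3, 2), (1, 6, -1, 3, 12), (1, 6, 1, 15, 33),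
      (1, 8, -3, 3, -4), (1, 9, -7, 3, -6), (1, 9, 1, 6, 15), (1, 11, -1, 6, -1), (1, 13, -6, 6, -17), (1, 15, 1, 6, 9), (1, 20, 3, 9, 11), (1, 23, -14, 9, -37), (1, 27, -4, 12, -9), (1, 33, 1, 15, 6), (1, 34, 1, 15, 4),
      (1, 36, -5, 15, -12), (1, 55, 8, 24, 25), (1, 57, -26, 24, -75), (1, 76, 15, 33, 46), (1, 78, -47, 33, -138), (1, 87, 14, 39, 45), (1, 99, -68, 42, -201), (1, 120, -89, 51, -264)]
  | 1 => [(-1, 3, -1, -6, 45), (-1, 3, -1, 3, 24), (-1, 3, -1, 12, 3), (-1, 3, -1, 21, -18), (-1, 3, -1, 30, -39), (-1, 4, -1, -3, 13), (-1, 4, -1, 9, -8), (-1, 5, -2, -6, 23), (-1, 6, -7, 3, -9), (-1, 8, -3, 3, -4), (-1, 9, -8, 6, -27),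
      (-1, 9, -2, -3, 15), (-1, 13, -6, 6, -17), (-1, 17, -6, 6, -13), (-1, 29, -12, 9, -25), (-1, 29, -9, 12, -25), (-1, 31, -13, 0, 1), (-1, 47, -13, 21, -40), (-1, 48, -31, 21, -93), (-1, 69, -31, 30, -93),
      (-1, 73, -29, 30, -83), (-1, 90, -31, 39, -93), (-1, 111, -31, 48, -93), (-1, 132, -31, 57, -93), (1, 1, -2, 3, -11), (1, 1, -1, 6, -11), (1, 1, 0, -18, 31), (1, 1, 0, -15, 31), (1, 1, 0, -12, 31), (1, 1, 1, -3, 10),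
      (1, 1, 10, 0, 31), (1, 2, -1, 9, -16), (1, 2, -1, 15, -37), (1, 2, -1, 21, -58), (1, 2, 1, -3, 5), (1, 5, -3, 6, -19), (1, 6, -1, -15, 33), (1, 6, 1, -3, 12), (1, 9, -1, -6, 15), (1, 9, 11, 3, 36), (1, 11, -2, 3, -1),
      (1, 12, -1, 3, 6), (1, 15, -2, -3, 9), (1, 16, -3, 3, -2), (1, 19, -3, 6, -5), (1, 20, -17, 9, -52), (1, 22, 3, 9, 10), (1, 27, -8, 6, -9), (1, 29, -13, 15, -46), (1, 29, -7, 3, -4), (1, 31, -6, 0, 1), (1, 33, -7, 12, -15),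
      (1, 33, -5, -3, 6), (1, 39, -2, 15, -3), (1, 41, -24, 18, -73), (1, 43, -4, 18, -11), (1, 51, -10, 21, -27), (1, 60, -13, 3, -3), (1, 62, -31, 27, -94), (1, 64, -11, 27, -32), (1, 83, -38, 36, -115), (1, 104, -45, 45, -136)]
  | 2 => [(-1, 1, -2, 3, -11), (-1, 2, -1, 3, 5), (-1, 2, -1, 9, -16), (-1, 2, -1, 15, -37), (-1, 2, -1, 21, -58), (-1, 3, -1, -15, 66), (-1, 4, -3, 3, -8), (-1, 5, -6, 3, -19), (-1, 5, -3, 6, -19), (-1, 9, -5, -12, 57),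
      (-1, 12, -1, 3, 6), (-1, 15, -8, -12, 51), (-1, 20, -17, 9, -52), (-1, 29, -13, 15, -46), (-1, 30, -17, -3, 15), (-1, 39, -22, 12, -45), (-1, 41, -24, 18, -73), (-1, 57, -26, 24, -75), (-1, 62, -31, 27, -94),
      (-1, 66, -37, 21, -81), (-1, 83, -38, 36, -115), (-1, 104, -45, 45, -136), (-1, 117, -64, 48, -183), (1, 1, 0, -9, 31), (1, 3, -2, 15, -39), (1, 3, -2, 24, -81), (1, 3, -2, 33, -123), (1, 3, -2, 42, -165),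
      (1, 4, -1, -3, 13), (1, 5, -2, -6, 23), (1, 6, -7, 3, -9), (1, 9, -8, 6, -27), (1, 9, -2, -3, 15), (1, 10, -1, 3, 1), (1, 17, -6, 6, -13), (1, 29, -12, 9, -25), (1, 29, -9, 12, -25), (1, 31, -13, 0, 1),
      (1, 33, -32, 15, -99), (1, 48, -31, 21, -93), (1, 73, -29, 30, -83), (1, 75, -53, 33, -162), (1, 117, -74, 51, -225), (1, 159, -95, 69, -288)]
  | 3 => [(-1, 2, -1, -3, 26), (-1, 3, -2, -30, 171), (-1, 3, -2, -21, 129), (-1, 3, -2, -12, 87), (-1, 3, -2, -3, 45), (-1, 3, -2, 6, 3), (-1, 3, -2, 15, -39), (-1, 3, -2, 24, -81), (-1, 3, -2, 33, -123), (-1, 3, -2, 42, -165),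
      (-1, 4, -3, -9, 55), (-1, 9, -7, 3, -6), (-1, 23, -14, 9, -37), (-1, 48, -31, 21, -93), (-1, 75, -53, 33, -162), (-1, 78, -47, 33, -138), (-1, 99, -68, 42, -201), (-1, 117, -74, 51, -225), (-1, 120, -89, 51, -264),
      (-1, 159, -95, 69, -288), (1, 1, -2, 3, -11), (1, 1, -1, 9, -32), (1, 1, -1, 12, -53), (1, 1, -1, 15, -74), (1, 1, -1, 18, -95), (1, 1, 0, -6, 31), (1, 2, -3, 3, -16), (1, 3, -10, 3, -39), (1, 3, -5, 6, -39),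
      (1, 3, -1, -15, 66), (1, 3, 1, -3, 24), (1, 5, -6, 3, -19), (1, 6, -5, 15, -72), (1, 8, 5, 3, 17), (1, 9, -5, -12, 57), (1, 11, -12, 6, -43), (1, 12, -1, 3, 6), (1, 13, -19, 6, -59), (1, 15, -8, -12, 51),
      (1, 20, -17, 9, -52), (1, 30, -17, -3, 15), (1, 34, -33, 15, -101), (1, 39, -22, 12, -45), (1, 55, -47, 24, -143), (1, 66, -37, 21, -81), (1, 76, -61, 33, -185), (1, 87, -73, 39, -228), (1, 117, -64, 48, -183)]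

end Pool.Agent.Helper14.TK7
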