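import Pool.Agent.Helper4.S7.Tm

/-!
# Project TK (levels `3·7^n`): row 2 of `T_31`

A term `(k, a, b, c, d)` stands for `k` times the operator of `(a b; 7c d)` (`Helper4/S7/Tm.lean`; `mulL`, `sclL`, `Gd` of W7 are used unchanged). `F_f(g) = G(g e_f) - G(g 0)` with `e_0 = ∞`, `e_1 = 1/3`, `e_2 = 1/2`, `e_3 = 2/3`.
The rows of `T_l` are computed with the residues `-(l-1)/2, ..., (l-1)/2` (`0, 1` for `l = 2`).
-/

set_option autoImplicit false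

namespace Pool.Agent.Helper14.TK7

open Pool.Agent.Helper4.S7 (Tm mulT mulL sclL Gd)

/-- Row 2 of `T_31`. -/
def T31K2 : Fin 4 → List Tm
  | 0 => [(-1, 1, -2, 3, -11), (-1, 1, -1, 6, -11), (-1, 1, -1, 9, -32), (-1, 1, -1, 12, -53), (-1, 1, -1, 15, -74), (-1, 1, -1, 18, -95), (-1, 1, 1, -3, 10), (-1, 1, 15, 0, 31), (-1, 2, -3, 3, -16), (-1, 2, 1, -3, 5), (-1, 3, -7, 3, -18),
      (-1, 3, 1, -30, -39), (-1, 3, 1, -21, -18), (-1, 3, 1, -12, 3), (-1, 3, 2, -6, 3), (-1, 3, 4, -3, 3), (-1, 4, 1, -9, -8), (-1, 5, -6, 3, -19), (-1, 6, -13, 3, -30), (-1, 6, -5, 15, -72), (-1, 8, -11, 3, -25),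
      (-1, 9, -34, 3, -69), (-1, 9, -8, 6, -27), (-1, 10, -31, 3, -62), (-1, 11, 31, 3, 62), (-1, 12, 23, 3, 48), (-1, 15, -14, 6, -33), (-1, 17, 5, 3, 8), (-1, 19, -22, 6, -47), (-1, 25, 7, 6, 13), (-1, 31, -31, 9, -62),
      (-1, 32, 31, 9, 62), (-1, 34, 13, 9, 25), (-1, 41, -36, 12, -73), (-1, 45, 23, 12, 45), (-1, 51, -65, 15, -132), (-1, 53, 31, 15, 62), (-1, 54, 13, 15, 27), (-1, 74, 31, 21, 62), (-1, 95, 31, 27, 62),
      (-1, 114, -107, 33, -216), (-1, 116, 31, 33, 62), (-1, 137, 31, 39, 62), (-1, 171, 44, 48, 87), (-1, 177, -149, 51, -300), (1, 1, 0, -3, 31), (1, 1, 0, 0, 31), (1, 1, 0, 3, 31), (1, 1, 0, 6, 31), (1, 1, 0, 9, 31),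
      (1, 1, 0, 12, 31), (1, 1, 0, 15, 31), (1, 1, 0, 18, 31), (1, 2, -1, -3, 26), (1, 2, -1, 3, 5), (1, 3, -2, -30, 171), (1, 3, -2, -21, 129), (1, 3, -2, -12, 87), (1, 3, -2, -3, 45), (1, 3, -1, -6, 45), (1, 3, -1, 3, 24),
      (1, 4, -3, -9, 55), (1, 5, -1, 3, 2), (1, 6, -1, 3, 12), (1, 6, 1, 15, 33), (1, 8, -3, 3, -4), (1, 9, -7, 3, -6), (1, 9, 1, 6, 15), (1, 10, -1, 3, 1), (1, 11, -2, 3, -1), (1, 12, -1, 3, 6), (1, 15, 1, 6, 9),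
      (1, 17, -12, 3, -13), (1, 19, -3, 6, -5), (1, 25, -18, 6, -29), (1, 31, 0, 9, 1), (1, 32, -1, 9, -1), (1, 34, -21, 9, -38), (1, 41, 5, 12, 11), (1, 45, -22, 12, -39), (1, 51, -14, 15, -27), (1, 53, -22, 15, -43),
      (1, 54, -41, 15, -78), (1, 74, -43, 21, -85), (1, 95, -64, 27, -127), (1, 114, 7, 33, 15), (1, 116, -85, 33, -169), (1, 137, -106, 39, -211), (1, 171, -127, 48, -249), (1, 177, 28, 51, 57)]
  | 1 => [(-1, 3, -1, -6, 45), (-1, 3, -1, 3, 24), (-1, 3, -1, 12, 3), (-1, 3, -1, 21, -18), (-1, 3, -1, 30, -39), (-1, 4, -1, -3, 13), (-1, 4, -1, 9, -8), (-1, 5, -2, -6, 23), (-1, 6, -7, 3, -9), (-1, 8, -3, 3, -4), (-1, 9, -2, -3, 15),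
      (-1, 17, -6, 6, -13), (-1, 18, -7, 3, -3), (-1, 29, -12, 9, -25), (-1, 31, -13, 0, 1), (-1, 37, -14, 9, -23), (-1, 39, -22, 12, -45), (-1, 51, -14, 15, -27), (-1, 53, -22, 15, -43), (-1, 73, -31, 21, -62),
      (-1, 85, -27, 24, -53), (-1, 94, -31, 27, -62), (-1, 115, -31, 33, -62), (-1, 127, -48, 36, -95), (-1, 136, -31, 39, -62), (-1, 165, -43, 48, -87), (-1, 169, -69, 48, -137), (1, 1, -2, 3, -11), (1, 1, -1, 6, -11),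
      (1, 1, 0, -18, 31), (1, 1, 0, -15, 31), (1, 1, 0, -12, 31), (1, 1, 1, -3, 10), (1, 2, -1, 9, -16), (1, 2, -1, 15, -37), (1, 2, -1, 21, -58), (1, 2, 1, -3, 5), (1, 3, -7, 3, -18), (1, 6, -1, -15, 33), (1, 6, 1, -3, 12),
      (1, 9, -34, 3, -69), (1, 9, -1, -6, 15), (1, 13, 1, 3, 4), (1, 15, -2, -3, 9), (1, 15, 2, 3, 9), (1, 16, -3, 3, -2), (1, 23, 2, 6, 5), (1, 25, -12, 9, -29), (1, 27, -8, 6, -9), (1, 29, -7, 3, -4), (1, 31, -6, 0, 1),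
      (1, 33, -5, -3, 6), (1, 54, 13, 15, 27), (1, 59, -26, 18, -55), (1, 60, -13, 3, -3), (1, 92, -43, 27, -88), (1, 117, -8, 33, -15), (1, 180, -29, 51, -57)]
  | 2 => [(-1, 1, -2, 3, -11), (-1, 2, -1, 3, 5), (-1, 2, -1, 9, -16), (-1, 2, -1, 15, -37), (-1, 2, -1, 21, -58), (-1, 3, -1, -15, 66), (-1, 4, -3, 3, -8), (-1, 9, -5, -12, 57), (-1, 15, -8, -12, 51), (-1, 25, -12, 9, -29),
      (-1, 27, -8, 6, -9), (-1, 30, -17, -3, 15), (-1, 45, -22, 12, -39), (-1, 52, -31, 15, -62), (-1, 59, -26, 18, -55), (-1, 75, -19, 21, -36), (-1, 92, -43, 27, -88), (-1, 138, -61, 39, -120), (-1, 201, -103, 57, -204),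
      (-1, 264, -145, 75, -288), (1, 1, 0, -9, 31), (1, 1, 15, 0, 31), (1, 3, -2, 15, -39), (1, 3, -2, 24, -81), (1, 3, -2, 33, -123), (1, 3, -2, 42, -165), (1, 4, -1, -3, 13), (1, 5, -2, -6, 23), (1, 6, -13, 3, -30),
      (1, 6, -7, 3, -9), (1, 9, -8, 6, -27), (1, 9, -2, -3, 15), (1, 15, -14, 6, -33), (1, 31, -13, 0, 1), (1, 37, -14, 9, -23), (1, 43, -6, 12, -11), (1, 53, -22, 15, -43), (1, 72, -55, 21, -111), (1, 85, -27, 24, -53),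
      (1, 127, -48, 36, -95), (1, 169, -69, 48, -137), (1, 174, -107, 51, -219)]
  | 3 => [(-1, 2, -1, -3, 26), (-1, 3, -2, -30, 171), (-1, 3, -2, -21, 129), (-1, 3, -2, -12, 87), (-1, 3, -2, -3, 45), (-1, 3, -2, 6, 3), (-1, 3, -2, 15, -39), (-1, 3, -2, 24, -81), (-1, 3, -2, 33, -123), (-1, 3, -2, 42, -165),
      (-1, 4, -3, -9, 55), (-1, 9, -7, 3, -6), (-1, 17, -12, 3, -13), (-1, 25, -18, 6, -29), (-1, 34, -21, 9, -38), (-1, 53, -22, 15, -43), (-1, 54, -41, 15, -78), (-1, 72, -55, 21, -111), (-1, 74, -43, 21, -85),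
      (-1, 95, -64, 27, -127), (-1, 116, -85, 33, -169), (-1, 137, -106, 39, -211), (-1, 171, -127, 48, -249), (-1, 174, -107, 51, -219), (1, 1, -2, 3, -11), (1, 1, -1, 9, -32), (1, 1, -1, 12, -53), (1, 1, -1, 15, -74),
      (1, 1, -1, 18, -95), (1, 1, 0, -6, 31), (1, 2, -3, 3, -16), (1, 3, -1, -15, 66), (1, 5, -6, 3, -19), (1, 6, -5, 15, -72), (1, 8, -11, 3, -25), (1, 9, -5, -12, 57), (1, 12, 23, 3, 48), (1, 15, -8, -12, 51),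
      (1, 18, -7, 3, -3), (1, 19, -22, 6, -47), (1, 27, -8, 6, -9), (1, 30, -17, -3, 15), (1, 41, -36, 12, -73), (1, 51, -65, 15, -132), (1, 75, -19, 21, -36), (1, 114, -107, 33, -216), (1, 138, -61, 39, -120),
      (1, 177, -149, 51, -300), (1, 201, -103, 57, -204), (1, 264, -145, 75, -288)]

end Pool.Agent.Helper14.TK7
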