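import Pool.Agent.Helper4.S7.Tm

/-!
# Project TK (levels `3·7^n`): row 3 of `T_31`

A term `(k, a, b, c, d)` stands for `k` times the operator of `(a b; 7c d)` (`Helper4/S7/Tm.lean`; `mulL`, `sclL`, `Gd` of W7 are used unchanged). `F_f(g) = G(g e_f) - G(g 0)` with `e_0 = ∞`, `e_1 = 1/3`, `e_2 = 1/2`, `e_3 = 2/3`.
The rows of `T_l` are computed with the residues `-(l-1)/2, ..., (l-1)/2` (`0, 1` for `l = 2`).
-/

set_option autoImplicit false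

namespace Pool.Agent.Helper14.TK7

open Pool.Agent.Helper4.S7 (Tm mulT mulL sclL Gd)

/-- Row 3 of `T_31`. -/
def T31K3 : Fin 4 → List Tm
  | 0 => [(-1, 1, -2, 3, -11), (-1, 1, -1, 6, -11), (-1, 1, -1, 9, -32), (-1, 1, -1, 12, -53), (-1, 1, -1, 15, -74), (-1, 1, -1, 18, -95), (-1, 1, 1, -3, 10), (-1, 1, 20, 0, 31), (-1, 2, -3, 3, -16), (-1, 2, 1, -3, 5), (-1, 3, -7, 3, -18),
      (-1, 3, 1, -30, -39), (-1, 3, 1, -21, -18), (-1, 3, 1, -12, 3), (-1, 3, 2, -6, 3), (-1, 3, 4, -3, 3), (-1, 4, 1, -9, -8), (-1, 5, -6, 3, -19), (-1, 6, -7, 3, -9), (-1, 6, -5, 15, -72), (-1, 9, -16, 3, -27),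
      (-1, 9, -8, 6, -27), (-1, 10, -11, 3, -20), (-1, 11, -13, 3, -22), (-1, 12, -37, 3, -57), (-1, 13, -25, 3, -38), (-1, 15, -14, 6, -33), (-1, 15, 62, 3, 93), (-1, 16, 13, 3, 19), (-1, 17, 5, 3, 8), (-1, 18, 11, 3, 18),
      (-1, 23, -21, 6, -37), (-1, 27, -62, 6, -93), (-1, 29, 11, 6, 17), (-1, 33, 19, 6, 27), (-1, 41, -48, 9, -73), (-1, 51, -43, 12, -69), (-1, 57, 62, 12, 93), (-1, 66, -65, 15, -102), (-1, 69, -62, 15, -93),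
      (-1, 83, -76, 18, -115), (-1, 96, -79, 21, -120), (-1, 99, 62, 21, 93), (-1, 100, 27, 21, 40), (-1, 125, -104, 27, -157), (-1, 141, 62, 30, 93), (-1, 183, 62, 39, 93), (-1, 225, 62, 48, 93), (-1, 267, 62, 57, 93),
      (1, 1, 0, -3, 31), (1, 1, 0, 0, 31), (1, 1, 0, 3, 31), (1, 1, 0, 6, 31), (1, 1, 0, 9, 31), (1, 1, 0, 12, 31), (1, 1, 0, 15, 31), (1, 1, 0, 18, 31), (1, 2, -1, -3, 26), (1, 2, -1, 3, 5), (1, 3, -2, -30, 171),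
      (1, 3, -2, -21, 129), (1, 3, -2, -12, 87), (1, 3, -2, -3, 45), (1, 3, -1, -6, 45), (1, 3, -1, 3, 24), (1, 4, -3, -9, 55), (1, 5, -1, 3, 2), (1, 6, -1, 3, 12), (1, 6, 1, 15, 33), (1, 9, -7, 3, -6), (1, 9, 1, 6, 15),
      (1, 10, -1, 3, 1), (1, 11, -2, 3, -1), (1, 12, -1, 3, 6), (1, 13, 1, 3, 4), (1, 15, 1, 6, 9), (1, 15, 2, 3, 9), (1, 16, -3, 3, -2), (1, 17, -12, 3, -13), (1, 18, -7, 3, -3), (1, 23, 2, 6, 5), (1, 27, -8, 6, -9),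
      (1, 29, -18, 6, -25), (1, 33, -14, 6, -15), (1, 41, -7, 9, -10), (1, 51, 8, 12, 15), (1, 57, 5, 12, 9), (1, 66, 1, 15, 3), (1, 69, 7, 15, 12), (1, 83, 7, 18, 11), (1, 96, 17, 21, 27), (1, 99, -37, 21, -54),
      (1, 100, -73, 21, -107), (1, 125, 21, 27, 32), (1, 141, -79, 30, -117), (1, 183, -121, 39, -180), (1, 225, -163, 48, -243), (1, 267, -205, 57, -306)]
  | 1 => [(-1, 3, -1, -6, 45), (-1, 3, -1, 3, 24), (-1, 3, -1, 12, 3), (-1, 3, -1, 21, -18), (-1, 3, -1, 30, -39), (-1, 4, -1, -3, 13), (-1, 4, -1, 9, -8), (-1, 5, -2, -6, 23), (-1, 6, -7, 3, -9), (-1, 8, -3, 3, -4), (-1, 9, -2, -3, 15),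
      (-1, 18, -7, 3, -3), (-1, 19, -6, 3, -5), (-1, 31, -13, 0, 1), (-1, 40, -17, 9, -26), (-1, 85, -36, 18, -53), (-1, 101, -38, 21, -55), (-1, 111, -62, 24, -93), (-1, 153, -62, 33, -93), (-1, 195, -62, 42, -93),
      (-1, 237, -62, 51, -93), (1, 1, -2, 3, -11), (1, 1, -1, 6, -11), (1, 1, 0, -18, 31), (1, 1, 0, -15, 31), (1, 1, 0, -12, 31), (1, 1, 1, -3, 10), (1, 2, -1, 9, -16), (1, 2, -1, 15, -37), (1, 2, -1, 21, -58), (1, 2, 1, -3, 5),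
      (1, 4, -3, 3, -8), (1, 6, -1, -15, 33), (1, 6, 1, -3, 12), (1, 9, -1, -6, 15), (1, 13, -25, 3, -38), (1, 15, -2, -3, 9), (1, 18, 11, 3, 18), (1, 24, -1, 3, 3), (1, 29, -7, 3, -4), (1, 29, 11, 6, 17), (1, 31, -6, 0, 1),
      (1, 31, 0, 6, 1), (1, 33, -5, -3, 6), (1, 38, -21, 9, -34), (1, 39, -5, 6, -3), (1, 55, -39, 12, -59), (1, 60, -13, 3, -3), (1, 71, -3, 15, -4), (1, 72, -5, 15, -6), (1, 97, -53, 21, -80), (1, 113, -17, 24, -25),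
      (1, 139, -67, 30, -101), (1, 155, -31, 33, -46), (1, 181, -81, 39, -122), (1, 186, -31, 39, -45)]
  | 2 => [(-1, 1, -2, 3, -11), (-1, 2, -1, 3, 5), (-1, 2, -1, 9, -16), (-1, 2, -1, 15, -37), (-1, 2, -1, 21, -58), (-1, 3, -1, -15, 66), (-1, 4, -3, 3, -8), (-1, 9, -5, -12, 57), (-1, 15, -8, -12, 51), (-1, 30, -17, -3, 15),
      (-1, 31, -15, 0, 1), (-1, 33, -14, 6, -15), (-1, 38, -21, 9, -34), (-1, 55, -39, 12, -59), (-1, 57, -37, 3, -12), (-1, 78, -41, 15, -54), (-1, 97, -53, 21, -80), (-1, 99, -37, 21, -54), (-1, 139, -67, 30, -101),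
      (-1, 141, -79, 30, -117), (-1, 159, -83, 33, -120), (-1, 181, -81, 39, -122), (1, 1, 0, -9, 31), (1, 3, -7, 3, -18), (1, 3, -2, 15, -39), (1, 3, -2, 24, -81), (1, 3, -2, 33, -123), (1, 3, -2, 42, -165), (1, 4, -1, -3, 13),
      (1, 5, -2, -6, 23), (1, 6, -7, 3, -9), (1, 9, -16, 3, -27), (1, 9, -8, 6, -27), (1, 9, -2, -3, 15), (1, 12, -37, 3, -57), (1, 16, -3, 3, -2), (1, 19, -6, 3, -5), (1, 31, -13, 0, 1), (1, 43, -8, 9, -11),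
      (1, 85, -36, 18, -53), (1, 96, -79, 21, -120), (1, 101, -38, 21, -55), (1, 129, -76, 30, -123), (1, 180, -121, 39, -183), (1, 264, -163, 57, -246), (1, 348, -205, 75, -309)]
  | 3 => [(-1, 2, -1, -3, 26), (-1, 3, -2, -30, 171), (-1, 3, -2, -21, 129), (-1, 3, -2, -12, 87), (-1, 3, -2, -3, 45), (-1, 3, -2, 6, 3), (-1, 3, -2, 15, -39), (-1, 3, -2, 24, -81), (-1, 3, -2, 33, -123), (-1, 3, -2, 42, -165),
      (-1, 4, -3, -9, 55), (-1, 9, -7, 3, -6), (-1, 16, -3, 3, -2), (-1, 17, -12, 3, -13), (-1, 29, -18, 6, -25), (-1, 100, -73, 21, -107), (-1, 129, -76, 30, -123), (-1, 180, -121, 39, -183), (-1, 183, -121, 39, -180),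
      (-1, 225, -163, 48, -243), (-1, 264, -163, 57, -246), (-1, 267, -205, 57, -306), (-1, 348, -205, 75, -309), (1, 1, -2, 3, -11), (1, 1, -1, 9, -32), (1, 1, -1, 12, -53), (1, 1, -1, 15, -74), (1, 1, -1, 18, -95),
      (1, 1, 0, -6, 31), (1, 1, 20, 0, 31), (1, 2, -3, 3, -16), (1, 3, -1, -15, 66), (1, 5, -6, 3, -19), (1, 6, -5, 15, -72), (1, 9, -5, -12, 57), (1, 10, -11, 3, -20), (1, 11, -13, 3, -22), (1, 15, -14, 6, -33),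
      (1, 15, -8, -12, 51), (1, 23, -21, 6, -37), (1, 30, -17, -3, 15), (1, 31, -15, 0, 1), (1, 41, -48, 9, -73), (1, 51, -43, 12, -69), (1, 57, -37, 3, -12), (1, 66, -65, 15, -102), (1, 78, -41, 15, -54), (1, 83, -76, 18, -115),
      (1, 125, -104, 27, -157), (1, 159, -83, 33, -120)]

end Pool.Agent.Helper14.TK7
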