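import Pool.Agent.Helper4.S7.Tm

/-!
# Project TK (levels `3·7^n`): row 0 of `T_37`

A term `(k, a, b, c, d)` stands for `k` times the operator of `(a b; 7c d)` (`Helper4/S7/Tm.lean`; `mulL`, `sclL`, `Gd` of W7 are used unchanged). `F_f(g) = G(g e_f) - G(g 0)` with `e_0 = ∞`, `e_1 = 1/3`, `e_2 = 1/2`, `e_3 = 2/3`.
The rows of `T_l` are computed with the residues `-(l-1)/2, ..., (l-1)/2` (`0, 1` for `l = 2`).
-/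

set_option autoImplicit false

namespace Pool.Agent.Helper14.TK7

open Pool.Agent.Helper4.S7 (Tm mulT mulL sclL Gd)

/-- Row 0 of `T_37`. -/
def T37K0 : Fin 4 → List Tm
  | 0 => [(-1, 1, -2, 3, -5), (-1, 1, -1, 6, -5), (-1, 1, -1, 9, -26), (-1, 1, -1, 12, -47), (-1, 1, -1, 15, -68), (-1, 1, -1, 18, -89), (-1, 1, -1, 21, -110), (-1, 1, 1, -6, -5), (-1, 1, 1, -3, 16), (-1, 2, -3, 3, -13), (-1, 2, 1, -3, 8),
      (-1, 3, -7, 3, -12), (-1, 3, 1, -39, -54), (-1, 3, 1, -30, -33), (-1, 3, 1, -21, -12), (-1, 3, 1, -12, 9), (-1, 3, 2, -6, 9), (-1, 3, 4, -3, 9), (-1, 4, 1, -15, -17), (-1, 4, 1, -3, 4), (-1, 5, 2, -3, -1),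
      (-1, 6, -7, 3, -6), (-1, 6, -5, 15, -69), (-1, 9, -8, 15, -81), (-1, 9, 2, -6, 3), (-1, 9, 4, -3, 3), (-1, 11, -9, 6, -31), (-1, 12, 7, -3, -3), (-1, 15, -16, 3, -15), (-1, 17, 5, -3, -4), (-1, 24, -19, 3, -12),
      (-1, 33, 10, -3, -3), (-1, 36, -31, 3, -15), (-1, 54, 13, -3, -3), (1, 1, 0, -6, 37), (1, 1, 0, -3, 37), (1, 1, 0, 0, 37), (1, 1, 0, 3, 37), (1, 1, 0, 6, 37), (1, 1, 0, 9, 37), (1, 1, 0, 12, 37), (1, 1, 0, 15, 37),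
      (1, 1, 0, 18, 37), (1, 1, 0, 21, 37), (1, 2, -1, -3, 29), (1, 2, -1, 3, 8), (1, 3, -2, -39, 219), (1, 3, -2, -30, 177), (1, 3, -2, -21, 135), (1, 3, -2, -12, 93), (1, 3, -2, -3, 51), (1, 3, -1, -6, 51), (1, 3, -1, 3, 30),
      (1, 4, -3, -15, 88), (1, 4, -3, -3, 25), (1, 5, -3, -3, 20), (1, 6, -1, 3, 15), (1, 6, 1, 15, 36), (1, 9, -7, -6, 45), (1, 9, -5, -3, 24), (1, 9, 1, 15, 24), (1, 11, 2, 6, 11), (1, 12, -5, -3, 18), (1, 15, -1, 3, 6),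
      (1, 17, -12, -3, 17), (1, 24, 5, 3, 9), (1, 33, -23, -3, 18), (1, 36, 5, 3, 6), (1, 37, -29, 0, 1), (1, 37, -28, 0, 1), (1, 37, -27, 0, 1), (1, 37, -26, 0, 1), (1, 37, -25, 0, 1), (1, 37, -24, 0, 1), (1, 37, -23, 0, 1),
      (1, 37, -22, 0, 1), (1, 37, -21, 0, 1), (1, 37, -20, 0, 1), (1, 37, -19, 0, 1), (1, 37, -18, 0, 1), (1, 37, -17, 0, 1), (1, 37, -16, 0, 1), (1, 37, -15, 0, 1), (1, 37, -14, 0, 1), (1, 37, -13, 0, 1), (1, 37, -12, 0, 1),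
      (1, 37, -11, 0, 1), (1, 37, -10, 0, 1), (1, 37, -9, 0, 1), (1, 37, -8, 0, 1), (1, 37, -7, 0, 1), (1, 37, -6, 0, 1), (1, 37, -5, 0, 1), (1, 37, -4, 0, 1), (1, 37, -3, 0, 1), (1, 37, -2, 0, 1), (1, 37, -1, 0, 1),
      (1, 37, 0, 0, 1), (1, 37, 1, 0, 1), (1, 37, 2, 0, 1), (1, 37, 3, 0, 1), (1, 37, 4, 0, 1), (1, 37, 5, 0, 1), (1, 37, 6, 0, 1), (1, 37, 7, 0, 1), (1, 54, -41, -3, 18)]
  | 1 => [(-1, 3, -1, -6, 51), (-1, 3, -1, 3, 30), (-1, 3, -1, 12, 9), (-1, 3, -1, 21, -12), (-1, 3, -1, 30, -33), (-1, 3, -1, 39, -54), (-1, 4, -1, 3, 4), (-1, 4, -1, 15, -17), (-1, 5, -2, -12, 41), (-1, 5, -2, 3, -1), (-1, 9, -4, 3, 3),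
      (-1, 9, -2, 6, 3), (-1, 10, -3, -3, 10), (-1, 11, -4, -3, 11), (-1, 12, -7, 3, -3), (-1, 13, -5, -6, 19), (-1, 17, -5, 3, -4), (-1, 33, -10, 3, -3), (-1, 37, -15, 0, 1), (-1, 37, -14, 0, 1), (-1, 37, -13, 0, 1),
      (-1, 37, -12, 0, 1), (-1, 37, -11, 0, 1), (-1, 37, -10, 0, 1), (-1, 37, -9, 0, 1), (-1, 37, -8, 0, 1), (-1, 54, -13, 3, -3), (1, 1, -2, 3, -5), (1, 1, -1, 9, -26), (1, 1, 0, -21, 37), (1, 1, 0, -18, 37), (1, 1, 0, -15, 37),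
      (1, 2, -1, 9, -13), (1, 2, -1, 15, -34), (1, 2, -1, 21, -55), (1, 2, -1, 27, -76), (1, 2, 1, -3, 8), (1, 3, 4, -3, 9), (1, 6, -7, 3, -6), (1, 6, -1, -15, 36), (1, 9, -1, -15, 24), (1, 11, -2, -6, 11), (1, 15, 1, -3, 6),
      (1, 19, -9, 3, -8), (1, 24, -5, -3, 9), (1, 36, -5, -3, 6)]
  | 2 => [(-1, 1, -1, 9, -26), (-1, 2, -1, 3, 8), (-1, 2, -1, 9, -13), (-1, 2, -1, 15, -34), (-1, 2, -1, 21, -55), (-1, 2, -1, 27, -76), (-1, 3, -1, -15, 72), (-1, 9, -5, -30, 129), (-1, 9, -5, -3, 24), (-1, 12, -5, -3, 18),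
      (-1, 15, -7, -6, 27), (-1, 19, -9, 3, -8), (-1, 27, -14, -3, 15), (-1, 37, -18, 0, 1), (-1, 37, -17, 0, 1), (-1, 37, -16, 0, 1), (1, 1, 0, -12, 37), (1, 1, 0, -9, 37), (1, 3, -7, 3, -12), (1, 3, -2, 15, -33),
      (1, 3, -2, 24, -75), (1, 3, -2, 33, -117), (1, 3, -2, 42, -159), (1, 3, -2, 51, -201), (1, 5, -2, -12, 41), (1, 10, -3, -3, 10), (1, 11, -4, -3, 11), (1, 12, -7, 3, -3), (1, 13, -5, -6, 19), (1, 18, -13, 3, -9),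
      (1, 24, -19, 3, -12), (1, 45, -31, 3, -12)]
  | 3 => [(-1, 2, -1, -3, 29), (-1, 3, -2, -39, 219), (-1, 3, -2, -30, 177), (-1, 3, -2, -21, 135), (-1, 3, -2, -12, 93), (-1, 3, -2, -3, 51), (-1, 3, -2, 6, 9), (-1, 3, -2, 15, -33), (-1, 3, -2, 24, -75), (-1, 3, -2, 33, -117),
      (-1, 3, -2, 42, -159), (-1, 3, -2, 51, -201), (-1, 4, -3, -15, 88), (-1, 4, -3, -3, 25), (-1, 5, -3, -3, 20), (-1, 9, -7, -6, 45), (-1, 12, -7, 3, -3), (-1, 17, -12, -3, 17), (-1, 18, -13, 3, -9), (-1, 33, -23, -3, 18),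
      (-1, 37, -29, 0, 1), (-1, 37, -28, 0, 1), (-1, 37, -27, 0, 1), (-1, 37, -26, 0, 1), (-1, 37, -25, 0, 1), (-1, 37, -24, 0, 1), (-1, 37, -23, 0, 1), (-1, 37, -22, 0, 1), (-1, 37, -21, 0, 1), (-1, 37, -20, 0, 1),
      (-1, 37, -19, 0, 1), (-1, 45, -31, 3, -12), (-1, 54, -41, -3, 18), (1, 1, -1, 9, -26), (1, 1, -1, 12, -47), (1, 1, -1, 15, -68), (1, 1, -1, 18, -89), (1, 1, -1, 21, -110), (1, 1, 1, -3, 16), (1, 2, -3, 3, -13),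
      (1, 3, -1, -15, 72), (1, 6, -5, 15, -69), (1, 6, 1, -3, 15), (1, 9, -8, 15, -81), (1, 9, -5, -30, 129), (1, 11, -9, 6, -31), (1, 15, -16, 3, -15), (1, 15, -7, -6, 27), (1, 27, -14, -3, 15), (1, 36, -31, 3, -15)]

end Pool.Agent.Helper14.TK7
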