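import Pool.Agent.Helper4.S7.Tm

/-!
# Project TK (levels `3·7^n`): row 1 of `T_37`

A term `(k, a, b, c, d)` stands for `k` times the operator of `(a b; 7c d)` (`Helper4/S7/Tm.lean`; `mulL`, `sclL`, `Gd` of W7 are used unchanged). `F_f(g) = G(g e_f) - G(g 0)` with `e_0 = ∞`, `e_1 = 1/3`, `e_2 = 1/2`, `e_3 = 2/3`.
The rows of `T_l` are computed with the residues `-(l-1)/2, ..., (l-1)/2` (`0, 1` for `l = 2`).
-/

set_option autoImplicit false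

namespace Pool.Agent.Helper14.TK7

open Pool.Agent.Helper4.S7 (Tm mulT mulL sclL Gd)

/-- Row 1 of `T_37`. -/
def T37K1 : Fin 4 → List Tm
  | 0 => [(-1, 1, -2, 3, -5), (-1, 1, -1, 6, -5), (-1, 1, -1, 9, -26), (-1, 1, -1, 12, -47), (-1, 1, -1, 15, -68), (-1, 1, -1, 18, -89), (-1, 1, -1, 21, -110), (-1, 1, 1, -6, -5), (-1, 1, 1, -3, 16), (-1, 1, 12, 0, 37),
      (-1, 2, -3, 3, -13), (-1, 2, 1, -3, 8), (-1, 3, -10, 3, -33), (-1, 3, -5, 6, -33), (-1, 3, 1, -39, -54), (-1, 3, 1, -30, -33), (-1, 3, 1, -21, -12), (-1, 3, 1, -12, 9), (-1, 3, 2, -6, 9), (-1, 3, 4, -3, 9),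
      (-1, 4, -5, 3, -17), (-1, 4, 1, -15, -17), (-1, 4, 1, -3, 4), (-1, 5, -7, 3, -22), (-1, 5, 2, -3, -1), (-1, 6, -37, 3, -111), (-1, 6, -5, 15, -69), (-1, 8, 7, 3, 23), (-1, 9, -11, 6, -39), (-1, 9, -8, 15, -81),
      (-1, 9, 2, -6, 3), (-1, 9, 4, -3, 3), (-1, 9, 14, 3, 45), (-1, 10, 3, 3, 10), (-1, 11, -9, 6, -31), (-1, 11, 4, 3, 11), (-1, 12, 5, 3, 18), (-1, 13, -21, 6, -65), (-1, 15, 37, 6, 111), (-1, 17, 6, 6, 17), (-1, 18, 5, 3, 12),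
      (-1, 19, 5, 6, 13), (-1, 20, -19, 9, -58), (-1, 22, 5, 9, 16), (-1, 23, 10, 9, 29), (-1, 27, -37, 12, -111), (-1, 27, 7, 6, 15), (-1, 33, -35, 15, -108), (-1, 33, 14, 12, 39), (-1, 34, -35, 15, -107), (-1, 36, 37, 15, 111),
      (-1, 45, -43, 21, -138), (-1, 55, -49, 24, -149), (-1, 57, 37, 24, 111), (-1, 65, 17, 27, 50), (-1, 76, -63, 33, -191), (-1, 78, 37, 33, 111), (-1, 99, 37, 42, 111), (-1, 120, 37, 51, 111), (-1, 141, 37, 60, 111),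
      (-1, 162, 37, 69, 111), (1, 1, 0, -6, 37), (1, 1, 0, -3, 37), (1, 1, 0, 0, 37), (1, 1, 0, 3, 37), (1, 1, 0, 6, 37), (1, 1, 0, 9, 37), (1, 1, 0, 12, 37), (1, 1, 0, 15, 37), (1, 1, 0, 18, 37), (1, 1, 0, 21, 37),
      (1, 2, -1, -3, 29), (1, 2, -1, 3, 8), (1, 3, -2, -39, 219), (1, 3, -2, -30, 177), (1, 3, -2, -21, 135), (1, 3, -2, -12, 93), (1, 3, -2, -3, 51), (1, 3, -2, 6, 9), (1, 3, -1, -6, 51), (1, 3, -1, 3, 30), (1, 4, -3, -15, 88),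
      (1, 4, -3, -3, 25), (1, 4, -1, 3, 4), (1, 5, -3, -3, 20), (1, 5, -2, 3, -1), (1, 6, -1, 3, 15), (1, 6, 1, 15, 36), (1, 8, -1, 3, 2), (1, 9, -7, -6, 45), (1, 9, -5, -3, 24), (1, 9, -4, 3, 3), (1, 9, -2, 6, 3),
      (1, 9, 1, 15, 24), (1, 10, -7, 3, -11), (1, 11, -7, 3, -10), (1, 11, 2, 6, 11), (1, 12, -7, 3, -3), (1, 13, -8, 6, -23), (1, 15, -8, 6, -15), (1, 17, -11, 6, -25), (1, 18, -13, 3, -9), (1, 19, -14, 6, -29), (1, 20, 1, 9, 5),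
      (1, 22, -17, 9, -47), (1, 23, -13, 9, -34), (1, 27, -20, 6, -27), (1, 27, -10, 12, -27), (1, 33, -19, 12, -45), (1, 33, -2, 15, -3), (1, 34, -1, 15, -2), (1, 36, 1, 15, 6), (1, 45, 2, 21, 9), (1, 55, 6, 24, 19),
      (1, 57, -20, 24, -57), (1, 65, -48, 27, -139), (1, 76, 13, 33, 40), (1, 78, -41, 33, -120), (1, 99, -62, 42, -183), (1, 120, -83, 51, -246), (1, 141, -104, 60, -309), (1, 162, -125, 69, -372)]
  | 1 => [(-1, 3, -7, 3, -12), (-1, 3, -1, -6, 51), (-1, 3, -1, 3, 30), (-1, 3, -1, 12, 9), (-1, 3, -1, 21, -12), (-1, 3, -1, 30, -33), (-1, 3, -1, 39, -54), (-1, 4, -1, 3, 4), (-1, 4, -1, 15, -17), (-1, 5, -2, -12, 41),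
      (-1, 5, -2, 3, -1), (-1, 9, -4, 3, 3), (-1, 9, -2, 6, 3), (-1, 12, -7, 3, -3), (-1, 13, -5, -6, 19), (-1, 27, -10, 12, -27), (-1, 27, -8, 15, -27), (-1, 29, -7, 12, -19), (-1, 40, -17, 3, -8), (-1, 47, -14, 21, -43),
      (-1, 50, -21, 21, -61), (-1, 52, -19, 21, -53), (-1, 69, -37, 30, -111), (-1, 90, -37, 39, -111), (-1, 111, -37, 48, -111), (-1, 132, -37, 57, -111), (-1, 153, -37, 66, -111), (1, 1, -1, 9, -26), (1, 1, 0, -21, 37),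
      (1, 1, 0, -18, 37), (1, 1, 0, -15, 37), (1, 1, 12, 0, 37), (1, 2, -3, 3, -13), (1, 2, -1, 9, -13), (1, 2, -1, 15, -34), (1, 2, -1, 21, -55), (1, 2, -1, 27, -76), (1, 3, -10, 3, -33), (1, 4, -5, 3, -17), (1, 6, -1, -15, 36),
      (1, 6, 1, -3, 15), (1, 9, -1, -15, 24), (1, 9, 14, 3, 45), (1, 11, -2, -6, 11), (1, 13, -3, 3, -2), (1, 15, -1, 3, 6), (1, 20, -19, 9, -58), (1, 22, 5, 9, 16), (1, 24, -5, -3, 9), (1, 31, -16, 15, -53),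
      (1, 41, -26, 18, -79), (1, 43, -2, 18, -5), (1, 51, -7, 21, -18), (1, 62, -33, 27, -100), (1, 64, -9, 27, -26), (1, 81, -11, 33, -30), (1, 83, -40, 36, -121), (1, 85, -16, 36, -47), (1, 104, -47, 45, -142),
      (1, 125, -54, 54, -163)]
  | 2 => [(-1, 1, -1, 9, -26), (-1, 2, -3, 3, -13), (-1, 2, -1, 3, 8), (-1, 2, -1, 9, -13), (-1, 2, -1, 15, -34), (-1, 2, -1, 21, -55), (-1, 2, -1, 27, -76), (-1, 3, -1, -15, 72), (-1, 4, -5, 3, -17), (-1, 9, -5, -30, 129),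
      (-1, 9, -5, -3, 24), (-1, 15, -8, 6, -15), (-1, 20, -19, 9, -58), (-1, 31, -16, 15, -53), (-1, 33, -19, 12, -45), (-1, 39, -22, 3, -9), (-1, 39, -20, 15, -51), (-1, 41, -26, 18, -79), (-1, 54, -25, 21, -66),
      (-1, 57, -32, 15, -57), (-1, 57, -31, 21, -78), (-1, 57, -20, 24, -57), (-1, 62, -33, 27, -100), (-1, 78, -41, 33, -120), (-1, 83, -40, 36, -121), (-1, 104, -47, 45, -142), (-1, 125, -54, 54, -163), (-1, 159, -88, 66, -255),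
      (1, 1, 0, -12, 37), (1, 1, 0, -9, 37), (1, 3, -7, 3, -12), (1, 3, -5, 6, -33), (1, 3, -2, 15, -33), (1, 3, -2, 24, -75), (1, 3, -2, 33, -117), (1, 3, -2, 42, -159), (1, 3, -2, 51, -201), (1, 5, -2, -12, 41),
      (1, 9, -11, 6, -39), (1, 12, -7, 3, -3), (1, 13, -5, -6, 19), (1, 29, -7, 12, -19), (1, 33, -35, 15, -108), (1, 40, -17, 3, -8), (1, 50, -21, 21, -61), (1, 52, -19, 21, -53), (1, 75, -56, 33, -171), (1, 117, -77, 51, -234),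
      (1, 159, -98, 69, -297), (1, 201, -119, 87, -360)]
  | 3 => [(-1, 2, -1, -3, 29), (-1, 3, -2, -39, 219), (-1, 3, -2, -30, 177), (-1, 3, -2, -21, 135), (-1, 3, -2, -12, 93), (-1, 3, -2, -3, 51), (-1, 3, -2, 6, 9), (-1, 3, -2, 15, -33), (-1, 3, -2, 24, -75), (-1, 3, -2, 33, -117),
      (-1, 3, -2, 42, -159), (-1, 3, -2, 51, -201), (-1, 4, -3, -15, 88), (-1, 4, -3, -3, 25), (-1, 5, -3, -3, 20), (-1, 9, -7, -6, 45), (-1, 10, -7, 3, -11), (-1, 11, -7, 3, -10), (-1, 12, -7, 3, -3), (-1, 13, -8, 6, -23),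
      (-1, 17, -11, 6, -25), (-1, 18, -13, 3, -9), (-1, 19, -14, 6, -29), (-1, 22, -17, 9, -47), (-1, 23, -13, 9, -34), (-1, 27, -20, 6, -27), (-1, 48, -37, 21, -111), (-1, 65, -48, 27, -139), (-1, 75, -56, 33, -171),
      (-1, 99, -62, 42, -183), (-1, 117, -77, 51, -234), (-1, 120, -83, 51, -246), (-1, 141, -104, 60, -309), (-1, 159, -98, 69, -297), (-1, 162, -125, 69, -372), (-1, 201, -119, 87, -360), (1, 1, -1, 9, -26), (1, 1, -1, 12, -47),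
      (1, 1, -1, 15, -68), (1, 1, -1, 18, -89), (1, 1, -1, 21, -110), (1, 1, 1, -3, 16), (1, 2, -3, 3, -13), (1, 3, -1, -15, 72), (1, 4, -5, 3, -17), (1, 6, -5, 15, -69), (1, 8, 7, 3, 23), (1, 9, -8, 15, -81),
      (1, 9, -5, -30, 129), (1, 11, -9, 6, -31), (1, 13, -21, 6, -65), (1, 20, -19, 9, -58), (1, 34, -35, 15, -107), (1, 39, -22, 3, -9), (1, 39, -20, 15, -51), (1, 45, -43, 21, -138), (1, 54, -25, 21, -66),
      (1, 55, -49, 24, -149), (1, 57, -32, 15, -57), (1, 57, -31, 21, -78), (1, 76, -63, 33, -191), (1, 159, -88, 66, -255)]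

end Pool.Agent.Helper14.TK7
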