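import Pool.Agent.Helper4.S7.Tm

/-!
# Project TK (levels `3·7^n`): rows of `T_11`

A term `(k, a, b, c, d)` stands for `k` times the operator of `(a b; 7c d)` (`Helper4/S7/Tm.lean`; `mulL`, `sclL`, `Gd` of W7 are used unchanged). `F_f(g) = G(g e_f) - G(g 0)` with `e_0 = ∞`, `e_1 = 1/3`, `e_2 = 1/2`, `e_3 = 2/3`.
The rows of `T_l` are computed with the residues `-(l-1)/2, ..., (l-1)/2` (`0, 1` for `l = 2`).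
-/

set_option autoImplicit false

namespace Pool.Agent.Helper14.TK7

open Pool.Agent.Helper4.S7 (Tm mulT mulL sclL Gd)

/-- The rows of `T_11`: `F_i(T_11 G) = ∑_f (T11K i f) F_f(G)`. -/
def T11K : Fin 4 → Fin 4 → List Tm
  | 0, 0 => [(-1, 1, -1, 3, -10), (-1, 1, -1, 6, -31), (-1, 3, 1, -6, -3), (-1, 3, 2, -3, -3), (-1, 6, -5, 3, -12), (-1, 9, -8, 3, -15), (1, 1, 0, 0, 11), (1, 1, 0, 3, 11), (1, 1, 0, 6, 11), (1, 3, -2, -6, 39), (1, 3, -1, -3, 18),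
      (1, 6, 1, 3, 9), (1, 9, 1, 3, 6), (1, 11, -8, 0, 1), (1, 11, -7, 0, 1), (1, 11, -6, 0, 1), (1, 11, -5, 0, 1), (1, 11, -4, 0, 1), (1, 11, -3, 0, 1), (1, 11, -2, 0, 1), (1, 11, -1, 0, 1), (1, 11, 0, 0, 1), (1, 11, 1, 0, 1),
      (1, 11, 2, 0, 1)]
  | 0, 1 => [(-1, 3, -2, 3, -3), (-1, 3, -1, 6, -3), (-1, 5, -2, -6, 19), (-1, 11, -4, 0, 1), (-1, 11, -3, 0, 1), (1, 1, 0, -6, 11), (1, 2, -1, 3, -5), (1, 2, -1, 9, -26), (1, 6, -1, -3, 9), (1, 9, -1, -3, 6)]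
  | 0, 2 => [(-1, 2, -1, 3, -5), (-1, 2, -1, 9, -26), (-1, 3, -1, -3, 18), (-1, 9, -5, -6, 27), (-1, 11, -5, 0, 1), (1, 1, 0, -3, 11), (1, 3, -2, 3, -3), (1, 3, -2, 12, -45), (1, 5, -2, -6, 19), (1, 6, -5, 3, -12)]
  | 0, 3 => [(-1, 3, -2, -6, 39), (-1, 3, -2, 3, -3), (-1, 3, -2, 12, -45), (-1, 11, -8, 0, 1), (-1, 11, -7, 0, 1), (-1, 11, -6, 0, 1), (1, 1, -1, 3, -10), (1, 1, -1, 6, -31), (1, 9, -8, 3, -15), (1, 9, -5, -6, 27)]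
  | 1, 0 => [(-1, 1, -1, 3, -10), (-1, 1, -1, 6, -31), (-1, 1, 3, 0, 11), (-1, 3, -5, 3, -24), (-1, 3, 1, -6, -3), (-1, 6, -11, 3, -33), (-1, 15, 11, 6, 33), (-1, 20, -17, 9, -53), (-1, 36, 11, 15, 33), (1, 1, 0, 0, 11), (1, 1, 0, 3, 11),
      (1, 1, 0, 6, 11), (1, 3, -2, -6, 39), (1, 3, -2, 3, -3), (1, 6, 1, 3, 9), (1, 15, -4, 6, -9), (1, 20, 3, 9, 10), (1, 36, -25, 15, -72)]
  | 1, 1 => [(-1, 3, -2, 3, -3), (-1, 3, -1, 6, -3), (-1, 5, -2, -6, 19), (-1, 6, -5, 3, -12), (-1, 9, -4, 6, -15), (-1, 17, -7, 3, -8), (-1, 19, -5, 9, -16), (-1, 27, -11, 12, -33), (-1, 48, -11, 21, -33), (1, 1, -1, 3, -10),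
      (1, 1, 0, -6, 11), (1, 2, -1, 3, -5), (1, 2, -1, 9, -26), (1, 6, -1, -3, 9), (1, 8, 1, 3, 4), (1, 9, -1, -3, 6), (1, 9, 1, 3, 6), (1, 11, -2, 0, 1), (1, 13, -8, 6, -25), (1, 13, -3, 3, -4), (1, 24, -5, 3, -3),
      (1, 34, -15, 15, -46)]
  | 1, 2 => [(-1, 1, -1, 3, -10), (-1, 2, -1, 3, -5), (-1, 2, -1, 9, -26), (-1, 3, -1, -3, 18), (-1, 9, -5, -6, 27), (-1, 12, -5, 3, -6), (-1, 13, -8, 6, -25), (-1, 15, -8, 3, -9), (-1, 34, -15, 15, -46), (1, 1, 0, -3, 11), (1, 3, -2, 3, -3),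
      (1, 3, -2, 12, -45), (1, 5, -2, -6, 19), (1, 6, -5, 3, -12), (1, 17, -7, 3, -8), (1, 33, -22, 15, -69)]
  | 1, 3 => [(-1, 3, -2, -6, 39), (-1, 3, -2, 3, -3), (-1, 3, -2, 12, -45), (-1, 33, -22, 15, -69), (-1, 36, -25, 15, -72), (1, 1, -1, 3, -10), (1, 1, -1, 6, -31), (1, 1, 3, 0, 11), (1, 3, -5, 3, -24), (1, 3, -1, -3, 18), (1, 9, -5, -6, 27),
      (1, 12, -5, 3, -6), (1, 15, -8, 3, -9), (1, 20, -17, 9, -53)]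
  | 2, 0 => [(-1, 1, -1, 3, -10), (-1, 1, -1, 6, -31), (-1, 1, 5, 0, 11), (-1, 3, 1, -6, -3), (-1, 6, -5, 3, -12), (-1, 8, -7, 3, -17), (-1, 9, -17, 3, -36), (-1, 10, -11, 3, -22), (-1, 11, 11, 3, 22), (-1, 12, 7, 3, 15),
      (-1, 19, -17, 6, -37), (-1, 32, 11, 9, 22), (-1, 72, -59, 21, -120), (1, 1, 0, 0, 11), (1, 1, 0, 3, 11), (1, 1, 0, 6, 11), (1, 3, -2, -6, 39), (1, 6, 1, 3, 9), (1, 8, 1, 3, 4), (1, 9, 1, 3, 6), (1, 10, -1, 3, -1),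
      (1, 11, 0, 3, 1), (1, 12, -5, 3, -6), (1, 19, 2, 6, 5), (1, 32, -21, 9, -41), (1, 72, 13, 21, 27)]
  | 2, 1 => [(-1, 3, -2, 3, -3), (-1, 3, -1, 6, -3), (-1, 5, -2, -6, 19), (-1, 12, -5, 3, -6), (-1, 17, -7, 3, -8), (-1, 31, -11, 9, -22), (-1, 43, -16, 12, -31), (1, 1, 0, -6, 11), (1, 2, -1, 3, -5), (1, 2, -1, 9, -26), (1, 6, -1, -3, 9),
      (1, 9, -1, -3, 6), (1, 11, -2, 0, 1), (1, 12, 7, 3, 15), (1, 13, -3, 3, -4), (1, 23, -3, 6, -5), (1, 24, -5, 3, -3), (1, 75, -14, 21, -27)]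
  | 2, 2 => [(-1, 2, -1, 3, -5), (-1, 2, -1, 9, -26), (-1, 3, -1, -3, 18), (-1, 9, -5, -6, 27), (-1, 15, -8, 3, -9), (-1, 54, -25, 15, -48), (1, 1, 0, -3, 11), (1, 1, 5, 0, 11), (1, 3, -2, 3, -3), (1, 3, -2, 12, -45), (1, 5, -2, -6, 19),
      (1, 6, -5, 3, -12), (1, 17, -7, 3, -8), (1, 43, -16, 12, -31)]
  | 2, 3 => [(-1, 3, -2, -6, 39), (-1, 3, -2, 3, -3), (-1, 3, -2, 12, -45), (-1, 32, -21, 9, -41), (1, 1, -1, 3, -10), (1, 1, -1, 6, -31), (1, 3, -1, -3, 18), (1, 8, -7, 3, -17), (1, 9, -17, 3, -36), (1, 9, -5, -6, 27), (1, 15, -8, 3, -9),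
      (1, 19, -17, 6, -37), (1, 54, -25, 15, -48), (1, 72, -59, 21, -120)]
  | 3, 0 => [(-1, 1, -1, 3, -10), (-1, 1, -1, 6, -31), (-1, 1, 7, 0, 11), (-1, 3, 1, -6, -3), (-1, 6, -5, 3, -12), (-1, 8, -7, 3, -17), (-1, 9, -8, 3, -15), (-1, 12, -17, 3, -27), (-1, 13, -16, 3, -25), (-1, 15, 22, 3, 33),
      (-1, 27, -22, 6, -33), (-1, 33, 11, 6, 15), (-1, 44, 11, 9, 16), (-1, 57, 22, 12, 33), (-1, 99, 22, 21, 33), (1, 1, 0, 0, 11), (1, 1, 0, 3, 11), (1, 1, 0, 6, 11), (1, 3, -2, -6, 39), (1, 6, 1, 3, 9), (1, 8, 1, 3, 4),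
      (1, 9, 1, 3, 6), (1, 12, -5, 3, -6), (1, 13, -3, 3, -4), (1, 15, -8, 3, -9), (1, 27, 5, 6, 9), (1, 33, -22, 6, -27), (1, 44, -33, 9, -47), (1, 57, -35, 12, -51), (1, 99, -77, 21, -114)]
  | 3, 1 => [(-1, 3, -2, 3, -3), (-1, 3, -1, 6, -3), (-1, 5, -2, -6, 19), (-1, 12, -5, 3, -6), (-1, 17, -7, 3, -8), (-1, 29, -12, 6, -17), (-1, 69, -22, 15, -33), (1, 1, 0, -6, 11), (1, 1, 7, 0, 11), (1, 2, -1, 3, -5), (1, 2, -1, 9, -26),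
      (1, 6, -1, -3, 9), (1, 9, -1, -3, 6), (1, 11, -2, 0, 1), (1, 18, 1, 3, 3), (1, 24, -5, 3, -3), (1, 41, -21, 9, -32), (1, 43, -7, 9, -10)]
  | 3, 2 => [(-1, 2, -1, 3, -5), (-1, 2, -1, 9, -26), (-1, 3, -1, -3, 18), (-1, 9, -5, -6, 27), (-1, 11, -5, 0, 1), (-1, 15, -8, 3, -9), (-1, 27, -17, 3, -12), (-1, 41, -21, 9, -32), (1, 1, 0, -3, 11), (1, 3, -2, 3, -3), (1, 3, -2, 12, -45),
      (1, 5, -2, -6, 19), (1, 6, -5, 3, -12), (1, 9, -8, 3, -15), (1, 12, -17, 3, -27), (1, 17, -7, 3, -8), (1, 29, -12, 6, -17), (1, 96, -59, 21, -90)]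
  | 3, 3 => [(-1, 3, -2, -6, 39), (-1, 3, -2, 3, -3), (-1, 3, -2, 12, -45), (-1, 33, -22, 6, -27), (-1, 44, -33, 9, -47), (-1, 57, -35, 12, -51), (-1, 96, -59, 21, -90), (-1, 99, -77, 21, -114), (1, 1, -1, 3, -10), (1, 1, -1, 6, -31),
      (1, 3, -1, -3, 18), (1, 8, -7, 3, -17), (1, 9, -5, -6, 27), (1, 11, -5, 0, 1), (1, 13, -16, 3, -25), (1, 27, -17, 3, -12)]

end Pool.Agent.Helper14.TK7
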