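import Pool.Agent.Helper4.S7.Tm

/-!
# Project TK (levels `3·7^n`): row 2 of `T_37`

A term `(k, a, b, c, d)` stands for `k` times the operator of `(a b; 7c d)` (`Helper4/S7/Tm.lean`; `mulL`, `sclL`, `Gd` of W7 are used unchanged). `F_f(g) = G(g e_f) - G(g 0)` with `e_0 = ∞`, `e_1 = 1/3`, `e_2 = 1/2`, `e_3 = 2/3`.
The rows of `T_l` are computed with the residues `-(l-1)/2, ..., (l-1)/2` (`0, 1` for `l = 2`).
-/

set_option autoImplicit false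

namespace Pool.Agent.Helper14.TK7

open Pool.Agent.Helper4.S7 (Tm mulT mulL sclL Gd)

/-- Row 2 of `T_37`. -/
def T37K2 : Fin 4 → List Tm
  | 0 => [(-1, 1, -2, 3, -5), (-1, 1, -1, 6, -5), (-1, 1, -1, 9, -26), (-1, 1, -1, 12, -47), (-1, 1, -1, 15, -68), (-1, 1, -1, 18, -89), (-1, 1, -1, 21, -110), (-1, 1, 1, -6, -5), (-1, 1, 1, -3, 16), (-1, 1, 18, 0, 37),
      (-1, 2, -3, 3, -13), (-1, 2, 1, -3, 8), (-1, 3, -7, 3, -12), (-1, 3, -5, 6, -33), (-1, 3, 1, -39, -54), (-1, 3, 1, -30, -33), (-1, 3, 1, -21, -12), (-1, 3, 1, -12, 9), (-1, 3, 2, -6, 9), (-1, 3, 4, -3, 9),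
      (-1, 4, -5, 3, -17), (-1, 4, 1, -15, -17), (-1, 4, 1, -3, 4), (-1, 5, -7, 3, -22), (-1, 5, 2, -3, -1), (-1, 6, -13, 3, -27), (-1, 6, -5, 15, -69), (-1, 8, -9, 3, -19), (-1, 9, -40, 3, -81), (-1, 9, -11, 6, -39),
      (-1, 9, -8, 15, -81), (-1, 9, 2, -6, 3), (-1, 9, 4, -3, 3), (-1, 10, -37, 3, -74), (-1, 11, -9, 6, -31), (-1, 11, 37, 3, 74), (-1, 12, 29, 3, 60), (-1, 13, 10, 3, 19), (-1, 15, 14, 3, 27), (-1, 18, 5, 3, 12),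
      (-1, 27, 7, 6, 15), (-1, 31, -37, 9, -74), (-1, 32, 37, 9, 74), (-1, 41, -39, 12, -79), (-1, 45, 26, 12, 51), (-1, 51, -71, 15, -144), (-1, 53, 37, 15, 74), (-1, 54, 19, 15, 39), (-1, 61, -55, 18, -113),
      (-1, 72, -61, 21, -123), (-1, 74, 37, 21, 74), (-1, 95, 37, 27, 74), (-1, 114, -113, 33, -228), (-1, 116, 37, 33, 74), (-1, 137, 37, 39, 74), (-1, 158, 37, 45, 74), (-1, 171, 47, 48, 93), (-1, 177, -155, 51, -312),
      (-1, 240, -197, 69, -396), (1, 1, 0, -6, 37), (1, 1, 0, -3, 37), (1, 1, 0, 0, 37), (1, 1, 0, 3, 37), (1, 1, 0, 6, 37), (1, 1, 0, 9, 37), (1, 1, 0, 12, 37), (1, 1, 0, 15, 37), (1, 1, 0, 18, 37), (1, 1, 0, 21, 37),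
      (1, 2, -1, -3, 29), (1, 2, -1, 3, 8), (1, 3, -2, -39, 219), (1, 3, -2, -30, 177), (1, 3, -2, -21, 135), (1, 3, -2, -12, 93), (1, 3, -2, -3, 51), (1, 3, -2, 6, 9), (1, 3, -1, -6, 51), (1, 3, -1, 3, 30), (1, 4, -3, -15, 88),
      (1, 4, -3, -3, 25), (1, 4, -1, 3, 4), (1, 5, -3, -3, 20), (1, 5, -2, 3, -1), (1, 6, -1, 3, 15), (1, 6, 1, 15, 36), (1, 8, -1, 3, 2), (1, 9, -7, -6, 45), (1, 9, -5, -3, 24), (1, 9, -4, 3, 3), (1, 9, -2, 6, 3),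
      (1, 9, 1, 15, 24), (1, 10, -7, 3, -11), (1, 11, -7, 3, -10), (1, 11, 2, 6, 11), (1, 12, -7, 3, -3), (1, 13, -3, 3, -2), (1, 15, -1, 3, 6), (1, 18, -13, 3, -9), (1, 27, -20, 6, -27), (1, 31, -6, 9, -11), (1, 32, 5, 9, 11),
      (1, 41, 2, 12, 5), (1, 45, -19, 12, -33), (1, 51, -20, 15, -39), (1, 53, -16, 15, -31), (1, 54, -35, 15, -66), (1, 61, 6, 18, 13), (1, 72, 11, 21, 24), (1, 74, -37, 21, -73), (1, 95, -58, 27, -115), (1, 114, 1, 33, 3),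
      (1, 116, -79, 33, -157), (1, 137, -100, 39, -199), (1, 158, -121, 45, -241), (1, 171, -124, 48, -243), (1, 177, 22, 51, 45), (1, 240, 43, 69, 87)]
  | 1 => [(-1, 3, -7, 3, -12), (-1, 3, -1, -6, 51), (-1, 3, -1, 3, 30), (-1, 3, -1, 12, 9), (-1, 3, -1, 21, -12), (-1, 3, -1, 30, -33), (-1, 3, -1, 39, -54), (-1, 4, -1, 3, 4), (-1, 4, -1, 15, -17), (-1, 5, -2, -12, 41),
      (-1, 5, -2, 3, -1), (-1, 9, -4, 3, 3), (-1, 9, -2, 6, 3), (-1, 11, -4, -3, 11), (-1, 12, -7, 3, -3), (-1, 13, -5, -6, 19), (-1, 15, -8, 6, -15), (-1, 17, -5, 3, -4), (-1, 23, -8, 6, -13), (-1, 25, -11, 6, -17),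
      (-1, 34, -13, 9, -23), (-1, 39, -25, 12, -51), (-1, 40, -17, 3, -8), (-1, 51, -20, 15, -39), (-1, 53, -16, 15, -31), (-1, 58, -23, 15, -41), (-1, 85, -24, 24, -47), (-1, 94, -37, 27, -74), (-1, 115, -37, 33, -74),
      (-1, 127, -45, 36, -89), (-1, 136, -37, 39, -74), (-1, 157, -37, 45, -74), (-1, 165, -46, 48, -93), (-1, 169, -66, 48, -131), (-1, 211, -87, 60, -173), (1, 1, -2, 3, -5), (1, 1, -1, 9, -26), (1, 1, 0, -21, 37),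
      (1, 1, 0, -18, 37), (1, 1, 0, -15, 37), (1, 2, -3, 3, -13), (1, 2, -1, 9, -13), (1, 2, -1, 15, -34), (1, 2, -1, 21, -55), (1, 2, -1, 27, -76), (1, 2, 1, -3, 8), (1, 6, -1, -15, 36), (1, 9, -40, 3, -81), (1, 9, -1, -15, 24),
      (1, 11, -2, -6, 11), (1, 16, -1, 3, 1), (1, 17, -11, 6, -25), (1, 19, -14, 6, -29), (1, 24, -5, -3, 9), (1, 29, -19, 9, -40), (1, 33, -5, 6, -3), (1, 36, -5, -3, 6), (1, 37, -7, 0, 1), (1, 38, -9, 3, -4),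
      (1, 39, -11, 6, -9), (1, 54, 19, 15, 39), (1, 65, -7, 18, -13), (1, 75, -16, 3, -3), (1, 75, -13, 21, -24), (1, 117, -2, 33, -3), (1, 134, -61, 39, -124), (1, 180, -23, 51, -45), (1, 243, -44, 69, -87)]
  | 2 => [(-1, 1, -1, 9, -26), (-1, 2, -3, 3, -13), (-1, 2, -1, 3, 8), (-1, 2, -1, 9, -13), (-1, 2, -1, 15, -34), (-1, 2, -1, 21, -55), (-1, 2, -1, 27, -76), (-1, 3, -1, -15, 72), (-1, 8, -9, 3, -19), (-1, 9, -5, -30, 129),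
      (-1, 9, -5, -3, 24), (-1, 11, -7, 3, -10), (-1, 12, -5, -3, 18), (-1, 15, -7, -6, 27), (-1, 17, -11, 6, -25), (-1, 19, -14, 6, -29), (-1, 27, -13, 3, -6), (-1, 29, -19, 9, -40), (-1, 39, -22, 3, -9), (-1, 45, -19, 12, -33),
      (-1, 51, -25, 12, -39), (-1, 57, -32, 15, -57), (-1, 66, -35, 15, -54), (-1, 73, -37, 21, -74), (-1, 75, -13, 21, -24), (-1, 93, -52, 21, -81), (-1, 134, -61, 39, -124), (-1, 138, -55, 39, -108), (-1, 201, -97, 57, -192),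
      (-1, 264, -139, 75, -276), (-1, 327, -181, 93, -360), (1, 1, 0, -12, 37), (1, 1, 0, -9, 37), (1, 1, 18, 0, 37), (1, 3, -7, 3, -12), (1, 3, -2, 15, -33), (1, 3, -2, 24, -75), (1, 3, -2, 33, -117), (1, 3, -2, 42, -159),
      (1, 3, -2, 51, -201), (1, 5, -2, -12, 41), (1, 6, 1, -3, 15), (1, 11, -4, -3, 11), (1, 12, -7, 3, -3), (1, 13, -5, -6, 19), (1, 13, -3, 3, -2), (1, 17, -5, 3, -4), (1, 23, -8, 6, -13), (1, 25, -11, 6, -17),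
      (1, 34, -13, 9, -23), (1, 39, -25, 12, -51), (1, 40, -17, 3, -8), (1, 43, -3, 12, -5), (1, 58, -23, 15, -41), (1, 69, -43, 21, -90), (1, 72, -61, 21, -123), (1, 85, -24, 24, -47), (1, 93, -55, 30, -123),
      (1, 108, -65, 33, -138), (1, 111, -74, 33, -153), (1, 127, -45, 36, -89), (1, 135, -82, 39, -165), (1, 169, -66, 48, -131), (1, 211, -87, 60, -173)]
  | 3 => [(-1, 2, -1, -3, 29), (-1, 3, -2, -39, 219), (-1, 3, -2, -30, 177), (-1, 3, -2, -21, 135), (-1, 3, -2, -12, 93), (-1, 3, -2, -3, 51), (-1, 3, -2, 6, 9), (-1, 3, -2, 15, -33), (-1, 3, -2, 24, -75), (-1, 3, -2, 33, -117),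
      (-1, 3, -2, 42, -159), (-1, 3, -2, 51, -201), (-1, 4, -3, -15, 88), (-1, 4, -3, -3, 25), (-1, 5, -3, -3, 20), (-1, 9, -7, -6, 45), (-1, 10, -7, 3, -11), (-1, 12, -7, 3, -3), (-1, 13, -3, 3, -2), (-1, 18, -13, 3, -9),
      (-1, 27, -20, 6, -27), (-1, 39, -25, 12, -51), (-1, 52, -37, 15, -74), (-1, 54, -35, 15, -66), (-1, 69, -43, 21, -90), (-1, 74, -37, 21, -73), (-1, 93, -55, 30, -123), (-1, 95, -58, 27, -115), (-1, 108, -65, 33, -138),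
      (-1, 111, -74, 33, -153), (-1, 116, -79, 33, -157), (-1, 135, -82, 39, -165), (-1, 137, -100, 39, -199), (-1, 158, -121, 45, -241), (-1, 171, -124, 48, -243), (1, 1, -1, 9, -26), (1, 1, -1, 12, -47), (1, 1, -1, 15, -68),
      (1, 1, -1, 18, -89), (1, 1, -1, 21, -110), (1, 1, 1, -3, 16), (1, 2, -3, 3, -13), (1, 3, -5, 6, -33), (1, 3, -1, -15, 72), (1, 4, -5, 3, -17), (1, 5, -7, 3, -22), (1, 6, -5, 15, -69), (1, 8, -9, 3, -19), (1, 9, -11, 6, -39),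
      (1, 9, -8, 15, -81), (1, 9, -5, -30, 129), (1, 11, -9, 6, -31), (1, 12, -5, -3, 18), (1, 12, 29, 3, 60), (1, 15, -7, -6, 27), (1, 27, -13, 3, -6), (1, 39, -22, 3, -9), (1, 41, -39, 12, -79), (1, 51, -71, 15, -144),
      (1, 51, -25, 12, -39), (1, 57, -32, 15, -57), (1, 61, -55, 18, -113), (1, 66, -35, 15, -54), (1, 75, -13, 21, -24), (1, 93, -52, 21, -81), (1, 114, -113, 33, -228), (1, 138, -55, 39, -108), (1, 177, -155, 51, -312),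
      (1, 201, -97, 57, -192), (1, 240, -197, 69, -396), (1, 264, -139, 75, -276), (1, 327, -181, 93, -360)]

end Pool.Agent.Helper14.TK7
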