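import Pool.Agent.Helper4.S7.Tm

/-!
# Project TK (levels `3·7^n`): row 3 of `T_37`

A term `(k, a, b, c, d)` stands for `k` times the operator of `(a b; 7c d)` (`Helper4/S7/Tm.lean`; `mulL`, `sclL`, `Gd` of W7 are used unchanged). `F_f(g) = G(g e_f) - G(g 0)` with `e_0 = ∞`, `e_1 = 1/3`, `e_2 = 1/2`, `e_3 = 2/3`.
The rows of `T_l` are computed with the residues `-(l-1)/2, ..., (l-1)/2` (`0, 1` for `l = 2`).
-/

set_option autoImplicit false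

namespace Pool.Agent.Helper14.TK7

open Pool.Agent.Helper4.S7 (Tm mulT mulL sclL Gd)

/-- Row 3 of `T_37`. -/
def T37K3 : Fin 4 → List Tm
  | 0 => [(-1, 1, -2, 3, -5), (-1, 1, -1, 6, -5), (-1, 1, -1, 9, -26), (-1, 1, -1, 12, -47), (-1, 1, -1, 15, -68), (-1, 1, -1, 18, -89), (-1, 1, -1, 21, -110), (-1, 1, 1, -6, -5), (-1, 1, 1, -3, 16), (-1, 1, 24, 0, 37),
      (-1, 2, -3, 3, -13), (-1, 2, 1, -3, 8), (-1, 3, -7, 3, -12), (-1, 3, 1, -39, -54), (-1, 3, 1, -30, -33), (-1, 3, 1, -21, -12), (-1, 3, 1, -12, 9), (-1, 3, 2, -6, 9), (-1, 3, 4, -3, 9), (-1, 4, -5, 3, -17),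
      (-1, 4, 1, -15, -17), (-1, 4, 1, -3, 4), (-1, 5, 2, -3, -1), (-1, 6, -13, 3, -27), (-1, 6, -5, 15, -69), (-1, 8, -9, 3, -19), (-1, 9, -13, 3, -18), (-1, 9, -8, 15, -81), (-1, 9, 2, -6, 3), (-1, 9, 4, -3, 3),
      (-1, 11, -9, 6, -31), (-1, 12, -43, 3, -66), (-1, 13, -29, 3, -44), (-1, 15, 74, 3, 111), (-1, 16, 15, 3, 22), (-1, 17, 5, -3, -4), (-1, 18, 5, 3, 12), (-1, 20, 3, 3, 5), (-1, 23, 7, 3, 8), (-1, 27, -74, 6, -111),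
      (-1, 29, 15, 6, 23), (-1, 37, 8, 0, 1), (-1, 41, -52, 9, -79), (-1, 54, 13, -3, -3), (-1, 57, 11, 3, 6), (-1, 57, 74, 12, 111), (-1, 69, -74, 15, -111), (-1, 78, 19, 15, 27), (-1, 83, -80, 18, -121), (-1, 96, -85, 21, -129),
      (-1, 99, 74, 21, 111), (-1, 100, 29, 21, 43), (-1, 125, -108, 27, -163), (-1, 141, 74, 30, 111), (-1, 150, -131, 33, -201), (-1, 167, -136, 36, -205), (-1, 183, 74, 39, 111), (-1, 225, 74, 48, 111), (-1, 267, 74, 57, 111),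
      (-1, 309, 74, 66, 111), (1, 1, 0, -6, 37), (1, 1, 0, -3, 37), (1, 1, 0, 0, 37), (1, 1, 0, 3, 37), (1, 1, 0, 6, 37), (1, 1, 0, 9, 37), (1, 1, 0, 12, 37), (1, 1, 0, 15, 37), (1, 1, 0, 18, 37), (1, 1, 0, 21, 37),
      (1, 2, -1, -3, 29), (1, 2, -1, 3, 8), (1, 3, -2, -39, 219), (1, 3, -2, -30, 177), (1, 3, -2, -21, 135), (1, 3, -2, -12, 93), (1, 3, -2, -3, 51), (1, 3, -1, -6, 51), (1, 3, -1, 3, 30), (1, 4, -3, -15, 88), (1, 4, -3, -3, 25),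
      (1, 4, -1, 3, 4), (1, 5, -3, -3, 20), (1, 6, -1, 3, 15), (1, 6, 1, 15, 36), (1, 8, -1, 3, 2), (1, 9, -7, -6, 45), (1, 9, -5, -3, 24), (1, 9, -4, 3, 3), (1, 9, 1, 15, 24), (1, 11, 2, 6, 11), (1, 12, -7, 3, -3),
      (1, 13, -3, 3, -2), (1, 15, -1, 3, 6), (1, 16, -1, 3, 1), (1, 17, -12, -3, 17), (1, 18, -13, 3, -9), (1, 20, -17, 3, -16), (1, 23, -16, 3, -13), (1, 27, -20, 6, -27), (1, 29, -14, 6, -19), (1, 37, -29, 0, 1),
      (1, 41, -11, 9, -16), (1, 54, -41, -3, 18), (1, 57, -46, 3, -15), (1, 57, -40, 12, -57), (1, 69, -5, 15, -6), (1, 78, -59, 15, -78), (1, 83, 3, 18, 5), (1, 96, 11, 21, 18), (1, 99, -25, 21, -36), (1, 100, -71, 21, -104),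
      (1, 125, 17, 27, 26), (1, 141, -67, 30, -99), (1, 150, 19, 33, 30), (1, 167, 31, 36, 47), (1, 183, -109, 39, -162), (1, 225, -151, 48, -225), (1, 267, -193, 57, -288), (1, 309, -235, 66, -351)]
  | 1 => [(-1, 3, -7, 3, -12), (-1, 3, -1, -6, 51), (-1, 3, -1, 3, 30), (-1, 3, -1, 12, 9), (-1, 3, -1, 21, -12), (-1, 3, -1, 30, -33), (-1, 3, -1, 39, -54), (-1, 4, -1, 3, 4), (-1, 4, -1, 15, -17), (-1, 5, -2, -12, 41),
      (-1, 5, -2, 3, -1), (-1, 9, -4, 3, 3), (-1, 9, -2, 6, 3), (-1, 10, -3, -3, 10), (-1, 11, -4, -3, 11), (-1, 12, -7, 3, -3), (-1, 13, -5, -6, 19), (-1, 15, -8, 6, -15), (-1, 17, -5, 3, -4), (-1, 22, -7, 3, -5),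
      (-1, 23, -8, 6, -13), (-1, 25, -11, 6, -17), (-1, 27, -20, 6, -27), (-1, 27, -13, 3, -6), (-1, 31, -9, 6, -11), (-1, 40, -17, 3, -8), (-1, 41, -11, 9, -16), (-1, 47, -17, 9, -22), (-1, 51, -25, 12, -39),
      (-1, 59, -24, 9, -25), (-1, 59, -18, 12, -25), (-1, 85, -32, 18, -47), (-1, 99, -25, 21, -36), (-1, 111, -74, 24, -111), (-1, 124, -33, 27, -50), (-1, 153, -74, 33, -111), (-1, 185, -74, 39, -109), (-1, 195, -74, 42, -111),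
      (-1, 237, -74, 51, -111), (-1, 279, -74, 60, -111), (-1, 321, -74, 69, -111), (1, 1, -2, 3, -5), (1, 1, -1, 9, -26), (1, 1, 0, -21, 37), (1, 1, 0, -18, 37), (1, 1, 0, -15, 37), (1, 2, -1, 9, -13), (1, 2, -1, 15, -34),
      (1, 2, -1, 21, -55), (1, 2, -1, 27, -76), (1, 2, 1, -3, 8), (1, 6, -1, -15, 36), (1, 9, -1, -15, 24), (1, 11, -2, -6, 11), (1, 13, -29, 3, -44), (1, 24, -5, -3, 9), (1, 29, 15, 6, 23), (1, 33, -5, 6, -3), (1, 36, -5, -3, 6),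
      (1, 37, -7, 0, 1), (1, 38, -9, 3, -4), (1, 39, -11, 6, -9), (1, 55, -43, 12, -65), (1, 64, -29, 15, -47), (1, 71, 1, 15, 2), (1, 72, 1, 15, 3), (1, 75, -16, 3, -3), (1, 97, -57, 21, -86), (1, 102, -7, 21, -9),
      (1, 113, -13, 24, -19), (1, 139, -71, 30, -107), (1, 155, -27, 33, -40), (1, 181, -85, 39, -128), (1, 223, -99, 48, -149)]
  | 2 => [(-1, 1, -1, 9, -26), (-1, 2, -1, 3, 8), (-1, 2, -1, 9, -13), (-1, 2, -1, 15, -34), (-1, 2, -1, 21, -55), (-1, 2, -1, 27, -76), (-1, 3, -1, -15, 72), (-1, 9, -5, -30, 129), (-1, 9, -5, -3, 24), (-1, 10, -7, 3, -11),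
      (-1, 11, -7, 3, -10), (-1, 12, -5, -3, 18), (-1, 15, -7, -6, 27), (-1, 27, -14, -3, 15), (-1, 29, -14, 6, -19), (-1, 33, -5, 6, -3), (-1, 37, -18, 0, 1), (-1, 39, -22, 3, -9), (-1, 40, -19, 9, -29), (-1, 55, -43, 12, -65),
      (-1, 64, -29, 15, -47), (-1, 66, -43, 3, -12), (-1, 97, -57, 21, -86), (-1, 139, -71, 30, -107), (-1, 141, -67, 30, -99), (-1, 181, -85, 39, -128), (-1, 223, -99, 48, -149), (-1, 243, -131, 51, -192), (1, 1, 0, -12, 37),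
      (1, 1, 0, -9, 37), (1, 3, -7, 3, -12), (1, 3, -2, 15, -33), (1, 3, -2, 24, -75), (1, 3, -2, 33, -117), (1, 3, -2, 42, -159), (1, 3, -2, 51, -201), (1, 5, -2, -12, 41), (1, 6, 1, -3, 15), (1, 10, -3, -3, 10),
      (1, 11, -4, -3, 11), (1, 12, -43, 3, -66), (1, 12, -7, 3, -3), (1, 13, -5, -6, 19), (1, 17, -5, 3, -4), (1, 22, -7, 3, -5), (1, 27, -20, 6, -27), (1, 31, -9, 6, -11), (1, 39, -25, 12, -51), (1, 40, -17, 3, -8),
      (1, 43, -4, 9, -5), (1, 47, -17, 9, -22), (1, 59, -24, 9, -25), (1, 59, -18, 12, -25), (1, 85, -32, 18, -47), (1, 96, -85, 21, -129), (1, 99, -59, 24, -99), (1, 111, -74, 24, -111), (1, 180, -127, 39, -192),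
      (1, 185, -74, 39, -109), (1, 264, -169, 57, -255), (1, 348, -211, 75, -318), (1, 432, -253, 93, -381)]
  | 3 => [(-1, 2, -1, -3, 29), (-1, 3, -2, -39, 219), (-1, 3, -2, -30, 177), (-1, 3, -2, -21, 135), (-1, 3, -2, -12, 93), (-1, 3, -2, -3, 51), (-1, 3, -2, 6, 9), (-1, 3, -2, 15, -33), (-1, 3, -2, 24, -75), (-1, 3, -2, 33, -117),
      (-1, 3, -2, 42, -159), (-1, 3, -2, 51, -201), (-1, 4, -3, -15, 88), (-1, 4, -3, -3, 25), (-1, 5, -3, -3, 20), (-1, 9, -7, -6, 45), (-1, 12, -7, 3, -3), (-1, 17, -12, -3, 17), (-1, 18, -13, 3, -9), (-1, 20, -17, 3, -16),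
      (-1, 23, -16, 3, -13), (-1, 27, -20, 6, -27), (-1, 37, -29, 0, 1), (-1, 39, -25, 12, -51), (-1, 54, -41, -3, 18), (-1, 57, -46, 3, -15), (-1, 57, -40, 12, -57), (-1, 78, -59, 15, -78), (-1, 99, -59, 24, -99),
      (-1, 100, -71, 21, -104), (-1, 111, -74, 24, -111), (-1, 180, -127, 39, -192), (-1, 183, -109, 39, -162), (-1, 225, -151, 48, -225), (-1, 264, -169, 57, -255), (-1, 267, -193, 57, -288), (-1, 309, -235, 66, -351),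
      (-1, 348, -211, 75, -318), (-1, 432, -253, 93, -381), (1, 1, -1, 9, -26), (1, 1, -1, 12, -47), (1, 1, -1, 15, -68), (1, 1, -1, 18, -89), (1, 1, -1, 21, -110), (1, 1, 1, -3, 16), (1, 1, 24, 0, 37), (1, 2, -3, 3, -13),
      (1, 3, -1, -15, 72), (1, 4, -5, 3, -17), (1, 6, -13, 3, -27), (1, 6, -5, 15, -69), (1, 8, -9, 3, -19), (1, 9, -8, 15, -81), (1, 9, -5, -30, 129), (1, 11, -9, 6, -31), (1, 12, -5, -3, 18), (1, 15, -7, -6, 27),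
      (1, 18, 5, 3, 12), (1, 27, -14, -3, 15), (1, 27, -13, 3, -6), (1, 33, -5, 6, -3), (1, 37, -18, 0, 1), (1, 39, -22, 3, -9), (1, 41, -52, 9, -79), (1, 66, -43, 3, -12), (1, 83, -80, 18, -121), (1, 125, -108, 27, -163),
      (1, 150, -131, 33, -201), (1, 167, -136, 36, -205), (1, 243, -131, 51, -192)]

end Pool.Agent.Helper14.TK7
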