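import Pool.Agent.Helper4.S7.Tm

/-!
# Project TK (levels `3·7^n`): row 0 of `T_41`

A term `(k, a, b, c, d)` stands for `k` times the operator of `(a b; 7c d)` (`Helper4/S7/Tm.lean`; `mulL`, `sclL`, `Gd` of W7 are used unchanged). `F_f(g) = G(g e_f) - G(g 0)` with `e_0 = ∞`, `e_1 = 1/3`, `e_2 = 1/2`, `e_3 = 2/3`.
The rows of `T_l` are computed with the residues `-(l-1)/2, ..., (l-1)/2` (`0, 1` for `l = 2`).
-/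

set_option autoImplicit false

namespace Pool.Agent.Helper14.TK7

open Pool.Agent.Helper4.S7 (Tm mulT mulL sclL Gd)

/-- Row 0 of `T_41`. -/
def T41K0 : Fin 4 → List Tm
  | 0 => [(-1, 1, -2, 3, -1), (-1, 1, -1, 6, -1), (-1, 1, -1, 9, -22), (-1, 1, -1, 12, -43), (-1, 1, -1, 15, -64), (-1, 1, -1, 18, -85), (-1, 1, -1, 21, -106), (-1, 1, -1, 24, -127), (-1, 1, 1, -6, -1), (-1, 1, 2, -3, -1),
      (-1, 2, -3, 3, -11), (-1, 2, 1, -9, -11), (-1, 2, 1, -3, 10), (-1, 3, -8, 3, -15), (-1, 3, -4, 6, -15), (-1, 3, 1, -42, -57), (-1, 3, 1, -33, -36), (-1, 3, 1, -24, -15), (-1, 3, 1, -15, 6), (-1, 3, 1, -6, 27),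
      (-1, 3, 2, -12, -15), (-1, 3, 5, -3, 6), (-1, 4, -5, 3, -16), (-1, 4, 1, -15, -16), (-1, 4, 1, -3, 5), (-1, 6, -5, 3, 3), (-1, 6, -5, 21, -102), (-1, 6, 5, -3, 3), (-1, 9, -11, 3, -12), (-1, 9, 2, -3, 9),
      (-1, 11, 3, -3, -2), (-1, 12, -11, 3, -9), (-1, 15, 4, -6, -3), (-1, 15, 8, -3, -3), (-1, 16, 5, -3, -4), (-1, 24, -23, 3, -15), (-1, 36, 11, -3, -3), (-1, 45, -38, 3, -15), (-1, 57, 14, -3, -3), (1, 1, 0, -6, 41),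
      (1, 1, 0, -3, 41), (1, 1, 0, 0, 41), (1, 1, 0, 3, 41), (1, 1, 0, 6, 41), (1, 1, 0, 9, 41), (1, 1, 0, 12, 41), (1, 1, 0, 15, 41), (1, 1, 0, 18, 41), (1, 1, 0, 21, 41), (1, 1, 0, 24, 41), (1, 2, -1, -9, 52),
      (1, 2, -1, -3, 31), (1, 2, -1, 3, 10), (1, 3, -2, -42, 237), (1, 3, -2, -33, 195), (1, 3, -2, -24, 153), (1, 3, -2, -15, 111), (1, 3, -2, -6, 69), (1, 3, -2, 3, 27), (1, 3, -1, -12, 69), (1, 3, -1, -3, 48),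
      (1, 3, -1, 6, 27), (1, 4, -3, -15, 89), (1, 4, -3, -3, 26), (1, 4, -1, 3, 5), (1, 6, -1, -3, 24), (1, 6, 1, 3, 24), (1, 6, 1, 21, 45), (1, 9, -7, -3, 30), (1, 9, -2, 3, 9), (1, 11, -8, -3, 19), (1, 12, 1, 3, 12),
      (1, 15, -11, -6, 39), (1, 15, -7, -3, 18), (1, 16, -11, -3, 17), (1, 24, 1, 3, 6), (1, 36, -25, -3, 18), (1, 41, -32, 0, 1), (1, 41, -31, 0, 1), (1, 41, -30, 0, 1), (1, 41, -29, 0, 1), (1, 41, -28, 0, 1), (1, 41, -27, 0, 1),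
      (1, 41, -26, 0, 1), (1, 41, -25, 0, 1), (1, 41, -24, 0, 1), (1, 41, -23, 0, 1), (1, 41, -22, 0, 1), (1, 41, -21, 0, 1), (1, 41, -20, 0, 1), (1, 41, -19, 0, 1), (1, 41, -18, 0, 1), (1, 41, -17, 0, 1), (1, 41, -16, 0, 1),
      (1, 41, -15, 0, 1), (1, 41, -14, 0, 1), (1, 41, -13, 0, 1), (1, 41, -12, 0, 1), (1, 41, -11, 0, 1), (1, 41, -10, 0, 1), (1, 41, -9, 0, 1), (1, 41, -8, 0, 1), (1, 41, -7, 0, 1), (1, 41, -6, 0, 1), (1, 41, -5, 0, 1),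
      (1, 41, -4, 0, 1), (1, 41, -3, 0, 1), (1, 41, -2, 0, 1), (1, 41, -1, 0, 1), (1, 41, 0, 0, 1), (1, 41, 1, 0, 1), (1, 41, 2, 0, 1), (1, 41, 3, 0, 1), (1, 41, 4, 0, 1), (1, 41, 5, 0, 1), (1, 41, 6, 0, 1), (1, 41, 7, 0, 1),
      (1, 41, 8, 0, 1), (1, 45, 7, 3, 6), (1, 57, -43, -3, 18)]
  | 1 => [(-1, 3, -2, 12, -15), (-1, 3, -1, -3, 48), (-1, 3, -1, 6, 27), (-1, 3, -1, 15, 6), (-1, 3, -1, 24, -15), (-1, 3, -1, 33, -36), (-1, 3, -1, 42, -57), (-1, 4, -1, 3, 5), (-1, 4, -1, 15, -16), (-1, 5, -2, -21, 67),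
      (-1, 5, -2, -6, 25), (-1, 8, -3, -3, 13), (-1, 9, -2, 3, 9), (-1, 11, -4, -6, 19), (-1, 11, -3, 3, -2), (-1, 15, -8, 3, -3), (-1, 15, -4, 6, -3), (-1, 16, -5, 3, -4), (-1, 19, -8, -3, 11), (-1, 23, -9, -3, 10),
      (-1, 36, -11, 3, -3), (-1, 41, -17, 0, 1), (-1, 41, -16, 0, 1), (-1, 41, -15, 0, 1), (-1, 41, -14, 0, 1), (-1, 41, -13, 0, 1), (-1, 41, -12, 0, 1), (-1, 41, -11, 0, 1), (-1, 41, -10, 0, 1), (-1, 41, -9, 0, 1),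
      (-1, 57, -14, 3, -3), (1, 1, -1, 9, -22), (1, 1, 0, -24, 41), (1, 1, 0, -21, 41), (1, 1, 0, -18, 41), (1, 1, 0, -15, 41), (1, 2, -1, 15, -32), (1, 2, -1, 21, -53), (1, 2, -1, 27, -74), (1, 2, -1, 33, -95), (1, 3, 1, -6, 27),
      (1, 3, 5, -3, 6), (1, 4, 1, -3, 5), (1, 5, -3, 6, -17), (1, 6, -1, -21, 45), (1, 8, -5, 3, -8), (1, 9, 2, -3, 9), (1, 12, -1, -3, 12), (1, 16, -7, 9, -25), (1, 24, -1, -3, 6), (1, 29, -13, 3, -8), (1, 45, -7, -3, 6)]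
  | 2 => [(-1, 1, -1, 9, -22), (-1, 2, -1, 3, 10), (-1, 2, -1, 9, -11), (-1, 2, -1, 15, -32), (-1, 2, -1, 21, -53), (-1, 2, -1, 27, -74), (-1, 2, -1, 33, -95), (-1, 3, -1, -21, 90), (-1, 3, -1, -12, 69), (-1, 3, 1, -6, 27),
      (-1, 5, -3, 6, -17), (-1, 8, -5, 3, -8), (-1, 9, -5, -42, 177), (-1, 9, -5, -15, 72), (-1, 9, -4, -12, 51), (-1, 15, -7, -3, 18), (-1, 16, -7, 9, -25), (-1, 18, -7, -3, 15), (-1, 29, -13, 3, -8), (-1, 39, -22, -3, 15),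
      (-1, 41, -20, 0, 1), (-1, 41, -19, 0, 1), (-1, 41, -18, 0, 1), (1, 1, 0, -12, 41), (1, 1, 0, -9, 41), (1, 2, 1, -3, 10), (1, 3, -4, 6, -15), (1, 3, -2, 12, -15), (1, 3, -2, 21, -57), (1, 3, -2, 30, -99),
      (1, 3, -2, 39, -141), (1, 3, -2, 48, -183), (1, 3, -2, 57, -225), (1, 5, -2, -21, 67), (1, 5, -2, -6, 25), (1, 8, -3, -3, 13), (1, 9, -11, 3, -12), (1, 11, -4, -6, 19), (1, 12, -11, 3, -9), (1, 12, -7, 15, -51),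
      (1, 18, -11, 3, -6), (1, 19, -8, -3, 11), (1, 23, -9, -3, 10), (1, 30, -23, 3, -12), (1, 33, -20, 3, -9), (1, 51, -35, 3, -12)]
  | 3 => [(-1, 2, -1, -9, 52), (-1, 2, -1, -3, 31), (-1, 3, -2, -42, 237), (-1, 3, -2, -33, 195), (-1, 3, -2, -24, 153), (-1, 3, -2, -15, 111), (-1, 3, -2, -6, 69), (-1, 3, -2, 3, 27), (-1, 3, -2, 12, -15), (-1, 3, -2, 21, -57),
      (-1, 3, -2, 30, -99), (-1, 3, -2, 39, -141), (-1, 3, -2, 48, -183), (-1, 3, -2, 57, -225), (-1, 4, -3, -15, 89), (-1, 4, -3, -3, 26), (-1, 9, -7, -3, 30), (-1, 11, -8, -3, 19), (-1, 12, -7, 15, -51), (-1, 15, -11, -6, 39),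
      (-1, 16, -11, -3, 17), (-1, 18, -11, 3, -6), (-1, 30, -23, 3, -12), (-1, 33, -20, 3, -9), (-1, 36, -25, -3, 18), (-1, 41, -32, 0, 1), (-1, 41, -31, 0, 1), (-1, 41, -30, 0, 1), (-1, 41, -29, 0, 1), (-1, 41, -28, 0, 1),
      (-1, 41, -27, 0, 1), (-1, 41, -26, 0, 1), (-1, 41, -25, 0, 1), (-1, 41, -24, 0, 1), (-1, 41, -23, 0, 1), (-1, 41, -22, 0, 1), (-1, 41, -21, 0, 1), (-1, 51, -35, 3, -12), (-1, 57, -43, -3, 18), (1, 1, -1, 9, -22),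
      (1, 1, -1, 12, -43), (1, 1, -1, 15, -64), (1, 1, -1, 18, -85), (1, 1, -1, 21, -106), (1, 1, -1, 24, -127), (1, 2, -3, 3, -11), (1, 3, -8, 3, -15), (1, 3, -1, -21, 90), (1, 3, 1, -6, 27), (1, 4, -5, 3, -16),
      (1, 6, -5, 21, -102), (1, 9, -5, -42, 177), (1, 9, -5, -15, 72), (1, 9, -4, -12, 51), (1, 18, -7, -3, 15), (1, 24, -23, 3, -15), (1, 39, -22, -3, 15), (1, 45, -38, 3, -15)]

end Pool.Agent.Helper14.TK7
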