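import Pool.Agent.Helper4.S7.Tm

/-!
# Project TK (levels `3·7^n`): row 1 of `T_41`

A term `(k, a, b, c, d)` stands for `k` times the operator of `(a b; 7c d)` (`Helper4/S7/Tm.lean`; `mulL`, `sclL`, `Gd` of W7 are used unchanged). `F_f(g) = G(g e_f) - G(g 0)` with `e_0 = ∞`, `e_1 = 1/3`, `e_2 = 1/2`, `e_3 = 2/3`.
The rows of `T_l` are computed with the residues `-(l-1)/2, ..., (l-1)/2` (`0, 1` for `l = 2`).
-/

set_option autoImplicit false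

namespace Pool.Agent.Helper14.TK7

open Pool.Agent.Helper4.S7 (Tm mulT mulL sclL Gd)

/-- Row 1 of `T_41`. -/
def T41K1 : Fin 4 → List Tm
  | 0 => [(-1, 1, -3, 3, -22), (-1, 1, -1, 6, -1), (-1, 1, -1, 9, -22), (-1, 1, -1, 12, -43), (-1, 1, -1, 15, -64), (-1, 1, -1, 18, -85), (-1, 1, -1, 21, -106), (-1, 1, -1, 24, -127), (-1, 1, 1, -6, -1), (-1, 1, 1, -3, 20),
      (-1, 1, 13, 0, 41), (-1, 2, -3, 3, -11), (-1, 2, 1, -9, -11), (-1, 2, 1, -3, 10), (-1, 3, -11, 3, -36), (-1, 3, -4, 6, -15), (-1, 3, 1, -42, -57), (-1, 3, 1, -33, -36), (-1, 3, 1, -24, -15), (-1, 3, 1, -15, 6),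
      (-1, 3, 1, -6, 27), (-1, 3, 2, -12, -15), (-1, 3, 2, -3, 27), (-1, 4, -5, 3, -16), (-1, 4, 1, -15, -16), (-1, 4, 1, -3, 5), (-1, 5, -6, 3, -17), (-1, 6, -41, 3, -123), (-1, 6, -5, 21, -102), (-1, 8, 11, 3, 34),
      (-1, 9, -10, 6, -33), (-1, 9, 2, -3, 9), (-1, 9, 16, 3, 51), (-1, 11, 3, -3, -2), (-1, 13, -18, 6, -55), (-1, 13, 3, 3, 8), (-1, 15, 4, -6, -3), (-1, 15, 7, 3, 18), (-1, 15, 41, 6, 123), (-1, 18, 7, 3, 15),
      (-1, 19, 4, 6, 11), (-1, 20, -27, 9, -83), (-1, 27, -41, 12, -123), (-1, 30, 7, 3, 9), (-1, 31, 8, 12, 23), (-1, 33, -37, 15, -114), (-1, 36, 41, 15, 123), (-1, 37, 13, 15, 38), (-1, 41, -41, 18, -125),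
      (-1, 45, -44, 21, -141), (-1, 48, -41, 21, -123), (-1, 54, 19, 21, 54), (-1, 57, 41, 24, 123), (-1, 62, -55, 27, -167), (-1, 78, 41, 33, 123), (-1, 79, 20, 33, 59), (-1, 83, -69, 36, -209), (-1, 99, 41, 42, 123),
      (-1, 120, 41, 51, 123), (-1, 141, 41, 60, 123), (-1, 162, 41, 69, 123), (-1, 183, 41, 78, 123), (1, 1, 0, -6, 41), (1, 1, 0, -3, 41), (1, 1, 0, 0, 41), (1, 1, 0, 3, 41), (1, 1, 0, 6, 41), (1, 1, 0, 9, 41), (1, 1, 0, 12, 41),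
      (1, 1, 0, 15, 41), (1, 1, 0, 18, 41), (1, 1, 0, 21, 41), (1, 1, 0, 24, 41), (1, 2, -1, -9, 52), (1, 2, -1, -3, 31), (1, 2, -1, 3, 10), (1, 3, -2, -42, 237), (1, 3, -2, -33, 195), (1, 3, -2, -24, 153), (1, 3, -2, -15, 111),
      (1, 3, -2, -6, 69), (1, 3, -2, 3, 27), (1, 3, -1, -12, 69), (1, 3, -1, -3, 48), (1, 3, -1, 6, 27), (1, 4, -3, -15, 89), (1, 4, -3, -3, 26), (1, 4, -1, 3, 5), (1, 5, -1, 3, 4), (1, 6, 1, 3, 24), (1, 6, 1, 21, 45),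
      (1, 8, -5, 3, -8), (1, 9, -7, -3, 30), (1, 9, -2, 3, 9), (1, 9, -1, 6, 9), (1, 11, -8, -3, 19), (1, 13, -10, 3, -13), (1, 13, -5, 6, -13), (1, 15, -11, -6, 39), (1, 15, -8, 3, -3), (1, 15, -4, 6, -3), (1, 18, -11, 3, -6),
      (1, 19, -15, 6, -31), (1, 20, -7, 9, -20), (1, 27, -14, 12, -39), (1, 30, -23, 3, -12), (1, 31, -23, 12, -61), (1, 33, -4, 15, -9), (1, 36, 5, 15, 18), (1, 37, -24, 15, -67), (1, 41, 0, 18, 1), (1, 45, 1, 21, 6),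
      (1, 48, 7, 21, 24), (1, 54, -35, 21, -93), (1, 57, -16, 24, -45), (1, 62, 7, 27, 22), (1, 78, -37, 33, -108), (1, 79, -59, 33, -172), (1, 83, 14, 36, 43), (1, 99, -58, 42, -171), (1, 120, -79, 51, -234),
      (1, 141, -100, 60, -297), (1, 162, -121, 69, -360), (1, 183, -142, 78, -423)]
  | 1 => [(-1, 3, -4, 6, -15), (-1, 3, -2, 12, -15), (-1, 3, -1, -3, 48), (-1, 3, -1, 6, 27), (-1, 3, -1, 15, 6), (-1, 3, -1, 24, -15), (-1, 3, -1, 33, -36), (-1, 3, -1, 42, -57), (-1, 4, -1, 3, 5), (-1, 4, -1, 15, -16),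
      (-1, 5, -2, -21, 67), (-1, 5, -2, -6, 25), (-1, 8, -3, -3, 13), (-1, 9, -2, 3, 9), (-1, 11, -4, -6, 19), (-1, 11, -3, 3, -2), (-1, 13, -5, 6, -13), (-1, 15, -8, 3, -3), (-1, 15, -4, 6, -3), (-1, 17, -6, 3, -5),
      (-1, 18, -11, 3, -6), (-1, 19, -8, -3, 11), (-1, 20, -7, 9, -20), (-1, 23, -9, -3, 10), (-1, 27, -14, 12, -39), (-1, 43, -15, 18, -43), (-1, 57, -16, 24, -45), (-1, 61, -17, 27, -52), (-1, 69, -41, 30, -123),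
      (-1, 80, -31, 33, -89), (-1, 90, -41, 39, -123), (-1, 111, -41, 48, -123), (-1, 132, -41, 57, -123), (-1, 153, -41, 66, -123), (-1, 174, -41, 75, -123), (1, 1, -1, 9, -22), (1, 1, 0, -24, 41), (1, 1, 0, -21, 41),
      (1, 1, 0, -18, 41), (1, 1, 0, -15, 41), (1, 2, -1, 15, -32), (1, 2, -1, 21, -53), (1, 2, -1, 27, -74), (1, 2, -1, 33, -95), (1, 2, 1, -3, 10), (1, 3, -11, 3, -36), (1, 3, 1, -6, 27), (1, 4, 1, -3, 5), (1, 5, -3, 6, -17),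
      (1, 6, -1, -21, 45), (1, 8, 11, 3, 34), (1, 9, 16, 3, 51), (1, 11, -7, 6, -23), (1, 12, -1, -3, 12), (1, 12, 1, 3, 12), (1, 13, -18, 6, -55), (1, 16, -7, 9, -25), (1, 29, 4, 12, 13), (1, 33, -10, 6, -9), (1, 33, -5, 12, -9),
      (1, 34, -25, 15, -76), (1, 37, -9, 3, -4), (1, 41, -8, 0, 1), (1, 43, -19, 21, -64), (1, 45, -7, -3, 6), (1, 50, -3, 21, -8), (1, 51, -5, 21, -12), (1, 55, -32, 24, -97), (1, 71, -10, 30, -29), (1, 76, -39, 33, -118),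
      (1, 78, -17, 3, -3), (1, 81, -10, 33, -27), (1, 92, -17, 39, -50), (1, 97, -46, 42, -139), (1, 118, -53, 51, -160), (1, 139, -60, 60, -181)]
  | 2 => [(-1, 1, -1, 9, -22), (-1, 2, -3, 3, -11), (-1, 2, -1, 3, 10), (-1, 2, -1, 9, -11), (-1, 2, -1, 15, -32), (-1, 2, -1, 21, -53), (-1, 2, -1, 27, -74), (-1, 2, -1, 33, -95), (-1, 3, -1, -21, 90), (-1, 3, -1, -12, 69),
      (-1, 4, -5, 3, -16), (-1, 5, -3, 6, -17), (-1, 8, -5, 3, -8), (-1, 9, -5, -42, 177), (-1, 9, -5, -15, 72), (-1, 9, -4, -12, 51), (-1, 11, -7, 6, -23), (-1, 12, 1, 3, 12), (-1, 15, -7, -3, 18), (-1, 16, -7, 9, -25),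
      (-1, 19, -10, 9, -31), (-1, 34, -25, 15, -76), (-1, 39, -22, -3, 15), (-1, 39, -19, 15, -48), (-1, 43, -19, 21, -64), (-1, 55, -32, 24, -97), (-1, 57, -32, 12, -45), (-1, 76, -39, 33, -118), (-1, 78, -37, 33, -108),
      (-1, 97, -46, 42, -139), (-1, 99, -58, 42, -171), (-1, 117, -62, 48, -177), (-1, 118, -53, 51, -160), (-1, 139, -60, 60, -181), (1, 1, 0, -12, 41), (1, 1, 0, -9, 41), (1, 3, -4, 6, -15), (1, 3, -2, 12, -15),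
      (1, 3, -2, 21, -57), (1, 3, -2, 30, -99), (1, 3, -2, 39, -141), (1, 3, -2, 48, -183), (1, 3, -2, 57, -225), (1, 5, -2, -21, 67), (1, 5, -2, -6, 25), (1, 8, -3, -3, 13), (1, 11, -4, -6, 19), (1, 11, -3, 3, -2),
      (1, 12, -7, 15, -51), (1, 17, -6, 3, -5), (1, 17, -3, 6, -5), (1, 18, -11, 3, -6), (1, 19, -8, -3, 11), (1, 22, -1, 9, -1), (1, 23, -9, -3, 10), (1, 33, -37, 15, -114), (1, 43, -15, 18, -43), (1, 69, -41, 30, -123),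
      (1, 75, -58, 33, -177), (1, 80, -31, 33, -89), (1, 117, -79, 51, -240), (1, 159, -100, 69, -303), (1, 201, -121, 87, -366), (1, 243, -142, 105, -429)]
  | 3 => [(-1, 2, -1, -9, 52), (-1, 2, -1, -3, 31), (-1, 3, -2, -42, 237), (-1, 3, -2, -33, 195), (-1, 3, -2, -24, 153), (-1, 3, -2, -15, 111), (-1, 3, -2, -6, 69), (-1, 3, -2, 3, 27), (-1, 3, -2, 12, -15), (-1, 3, -2, 21, -57),
      (-1, 3, -2, 30, -99), (-1, 3, -2, 39, -141), (-1, 3, -2, 48, -183), (-1, 3, -2, 57, -225), (-1, 4, -3, -15, 89), (-1, 4, -3, -3, 26), (-1, 9, -7, -3, 30), (-1, 11, -8, -3, 19), (-1, 12, -7, 15, -51), (-1, 13, -10, 3, -13),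
      (-1, 15, -11, -6, 39), (-1, 18, -11, 3, -6), (-1, 19, -15, 6, -31), (-1, 30, -23, 3, -12), (-1, 31, -23, 12, -61), (-1, 37, -24, 15, -67), (-1, 54, -35, 21, -93), (-1, 69, -41, 30, -123), (-1, 75, -58, 33, -177),
      (-1, 79, -59, 33, -172), (-1, 117, -79, 51, -240), (-1, 120, -79, 51, -234), (-1, 141, -100, 60, -297), (-1, 159, -100, 69, -303), (-1, 162, -121, 69, -360), (-1, 183, -142, 78, -423), (-1, 201, -121, 87, -366),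
      (-1, 243, -142, 105, -429), (1, 1, -3, 3, -22), (1, 1, -1, 9, -22), (1, 1, -1, 12, -43), (1, 1, -1, 15, -64), (1, 1, -1, 18, -85), (1, 1, -1, 21, -106), (1, 1, -1, 24, -127), (1, 1, 1, -3, 20), (1, 1, 13, 0, 41),
      (1, 2, -3, 3, -11), (1, 3, -1, -21, 90), (1, 3, 2, -3, 27), (1, 4, -5, 3, -16), (1, 6, -5, 21, -102), (1, 6, -1, -3, 24), (1, 9, -5, -42, 177), (1, 9, -5, -15, 72), (1, 9, -4, -12, 51), (1, 10, -1, 3, 2), (1, 12, 1, 3, 12),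
      (1, 15, -7, -3, 18), (1, 20, -27, 9, -83), (1, 39, -22, -3, 15), (1, 39, -19, 15, -48), (1, 41, -41, 18, -125), (1, 45, -44, 21, -141), (1, 57, -32, 12, -45), (1, 62, -55, 27, -167), (1, 83, -69, 36, -209),
      (1, 117, -62, 48, -177)]

end Pool.Agent.Helper14.TK7
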