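import Pool.Agent.Helper4.S7.Tm

/-!
# Project TK (levels `3·7^n`): row 3 of `T_41`

A term `(k, a, b, c, d)` stands for `k` times the operator of `(a b; 7c d)` (`Helper4/S7/Tm.lean`; `mulL`, `sclL`, `Gd` of W7 are used unchanged). `F_f(g) = G(g e_f) - G(g 0)` with `e_0 = ∞`, `e_1 = 1/3`, `e_2 = 1/2`, `e_3 = 2/3`.
The rows of `T_l` are computed with the residues `-(l-1)/2, ..., (l-1)/2` (`0, 1` for `l = 2`).
-/

set_option autoImplicit false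

namespace Pool.Agent.Helper14.TK7

open Pool.Agent.Helper4.S7 (Tm mulT mulL sclL Gd)

/-- Row 3 of `T_41`. -/
def T41K3 : Fin 4 → List Tm
  | 0 => [(-1, 1, -2, 3, -1), (-1, 1, -1, 6, -1), (-1, 1, -1, 9, -22), (-1, 1, -1, 12, -43), (-1, 1, -1, 15, -64), (-1, 1, -1, 18, -85), (-1, 1, -1, 21, -106), (-1, 1, -1, 24, -127), (-1, 1, 1, -6, -1), (-1, 1, 2, -3, -1),
      (-1, 1, 27, 0, 41), (-1, 2, -3, 3, -11), (-1, 2, 1, -9, -11), (-1, 2, 1, -3, 10), (-1, 3, -8, 3, -15), (-1, 3, -4, 6, -15), (-1, 3, 1, -42, -57), (-1, 3, 1, -33, -36), (-1, 3, 1, -24, -15), (-1, 3, 1, -15, 6),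
      (-1, 3, 1, -6, 27), (-1, 3, 2, -12, -15), (-1, 3, 5, -3, 6), (-1, 4, -5, 3, -16), (-1, 4, 1, -15, -16), (-1, 4, 1, -3, 5), (-1, 5, -6, 3, -17), (-1, 6, -11, 3, -18), (-1, 6, -5, 21, -102), (-1, 6, 5, -3, 3),
      (-1, 9, -20, 3, -33), (-1, 9, -10, 6, -33), (-1, 9, 2, -3, 9), (-1, 10, -11, 3, -19), (-1, 11, -14, 3, -23), (-1, 11, 3, -3, -2), (-1, 12, -47, 3, -72), (-1, 13, -36, 3, -55), (-1, 15, 4, -6, -3), (-1, 15, 82, 3, 123),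
      (-1, 16, 11, 3, 17), (-1, 17, 11, 3, 16), (-1, 18, 7, 3, 15), (-1, 19, 8, 3, 11), (-1, 25, -23, 6, -37), (-1, 27, -82, 6, -123), (-1, 29, 8, 6, 13), (-1, 30, 7, 3, 9), (-1, 33, 23, 6, 33), (-1, 39, 11, 6, 15),
      (-1, 41, -41, 9, -62), (-1, 43, 13, 9, 20), (-1, 44, 21, 9, 31), (-1, 51, -47, 12, -75), (-1, 55, -64, 12, -97), (-1, 57, 82, 12, 123), (-1, 69, -82, 15, -123), (-1, 96, -89, 21, -135), (-1, 97, -92, 21, -139),
      (-1, 99, 82, 21, 123), (-1, 128, 35, 27, 52), (-1, 139, -120, 30, -181), (-1, 141, 82, 30, 123), (-1, 150, -133, 33, -204), (-1, 181, -148, 39, -223), (-1, 183, 82, 39, 123), (-1, 225, 82, 48, 123), (-1, 267, 82, 57, 123),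
      (-1, 309, 82, 66, 123), (-1, 351, 82, 75, 123), (1, 1, 0, -6, 41), (1, 1, 0, -3, 41), (1, 1, 0, 0, 41), (1, 1, 0, 3, 41), (1, 1, 0, 6, 41), (1, 1, 0, 9, 41), (1, 1, 0, 12, 41), (1, 1, 0, 15, 41), (1, 1, 0, 18, 41),
      (1, 1, 0, 21, 41), (1, 1, 0, 24, 41), (1, 2, -1, -9, 52), (1, 2, -1, -3, 31), (1, 2, -1, 3, 10), (1, 3, -2, -42, 237), (1, 3, -2, -33, 195), (1, 3, -2, -24, 153), (1, 3, -2, -15, 111), (1, 3, -2, -6, 69), (1, 3, -2, 3, 27),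
      (1, 3, -1, -12, 69), (1, 3, -1, -3, 48), (1, 3, -1, 6, 27), (1, 4, -3, -15, 89), (1, 4, -3, -3, 26), (1, 4, -1, 3, 5), (1, 5, -1, 3, 4), (1, 6, -1, -3, 24), (1, 6, 1, 3, 24), (1, 6, 1, 21, 45), (1, 9, -7, -3, 30),
      (1, 9, -2, 3, 9), (1, 9, -1, 6, 9), (1, 10, -1, 3, 2), (1, 11, -8, -3, 19), (1, 11, -3, 3, -2), (1, 12, 1, 3, 12), (1, 13, -10, 3, -13), (1, 15, -11, -6, 39), (1, 15, -8, 3, -3), (1, 16, -5, 3, -4), (1, 17, -6, 3, -5),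
      (1, 18, -11, 3, -6), (1, 19, -11, 3, -10), (1, 25, 2, 6, 5), (1, 27, -1, 6, 3), (1, 29, -21, 6, -29), (1, 30, -23, 3, -12), (1, 33, -10, 6, -9), (1, 39, -28, 6, -27), (1, 41, 0, 9, 1), (1, 43, -30, 9, -43),
      (1, 44, -23, 9, -32), (1, 51, 4, 12, 9), (1, 55, -9, 12, -13), (1, 57, -32, 12, -45), (1, 69, -13, 15, -18), (1, 96, 7, 21, 12), (1, 97, 5, 21, 8), (1, 99, -17, 21, -24), (1, 128, -93, 27, -137), (1, 139, 19, 30, 29),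
      (1, 141, -59, 30, -87), (1, 150, 17, 33, 27), (1, 181, 33, 39, 50), (1, 183, -101, 39, -150), (1, 225, -143, 48, -213), (1, 267, -185, 57, -276), (1, 309, -227, 66, -339), (1, 351, -269, 75, -402)]
  | 1 => [(-1, 3, -2, 12, -15), (-1, 3, -1, -3, 48), (-1, 3, -1, 6, 27), (-1, 3, -1, 15, 6), (-1, 3, -1, 24, -15), (-1, 3, -1, 33, -36), (-1, 3, -1, 42, -57), (-1, 4, -1, 3, 5), (-1, 4, -1, 15, -16), (-1, 5, -2, -21, 67),
      (-1, 5, -2, -6, 25), (-1, 8, -3, -3, 13), (-1, 9, -11, 3, -12), (-1, 9, -2, 3, 9), (-1, 11, -4, -6, 19), (-1, 11, -3, 3, -2), (-1, 12, -11, 3, -9), (-1, 15, -8, 3, -3), (-1, 15, -4, 6, -3), (-1, 16, -5, 3, -4),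
      (-1, 17, -6, 3, -5), (-1, 18, -11, 3, -6), (-1, 19, -8, -3, 11), (-1, 23, -9, -3, 10), (-1, 23, -7, 6, -11), (-1, 41, -17, 0, 1), (-1, 50, -21, 3, -8), (-1, 53, -15, 12, -23), (-1, 61, -23, 12, -31), (-1, 68, -25, 15, -38),
      (-1, 71, -20, 15, -29), (-1, 93, -35, 21, -54), (-1, 113, -48, 24, -71), (-1, 115, -42, 24, -61), (-1, 152, -39, 33, -59), (-1, 153, -82, 33, -123), (-1, 195, -82, 42, -123), (-1, 237, -82, 51, -123),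
      (-1, 279, -82, 60, -123), (-1, 321, -82, 69, -123), (-1, 363, -82, 78, -123), (1, 1, -1, 9, -22), (1, 1, 0, -24, 41), (1, 1, 0, -21, 41), (1, 1, 0, -18, 41), (1, 1, 0, -15, 41), (1, 1, 27, 0, 41), (1, 2, -3, 3, -11),
      (1, 2, -1, 15, -32), (1, 2, -1, 21, -53), (1, 2, -1, 27, -74), (1, 2, -1, 33, -95), (1, 2, 1, -3, 10), (1, 3, 1, -6, 27), (1, 4, 1, -3, 5), (1, 5, -3, 6, -17), (1, 6, -1, -21, 45), (1, 10, -11, 3, -19), (1, 12, -1, -3, 12),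
      (1, 16, -7, 9, -25), (1, 20, -1, 3, 1), (1, 22, -3, 3, -1), (1, 24, 1, 3, 6), (1, 27, -2, 3, 3), (1, 37, -9, 3, -4), (1, 41, -41, 9, -62), (1, 41, -8, 0, 1), (1, 43, 13, 9, 20), (1, 45, -7, -3, 6), (1, 72, 5, 15, 9),
      (1, 78, -17, 3, -3), (1, 83, -55, 18, -83), (1, 85, -1, 18, -1), (1, 102, -5, 21, -6), (1, 125, -69, 27, -104), (1, 127, -15, 27, -22), (1, 167, -83, 36, -125), (1, 169, -29, 36, -43), (1, 209, -97, 45, -146),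
      (1, 251, -111, 54, -167)]
  | 2 => [(-1, 1, -1, 9, -22), (-1, 2, -3, 3, -11), (-1, 2, -1, 3, 10), (-1, 2, -1, 9, -11), (-1, 2, -1, 15, -32), (-1, 2, -1, 21, -53), (-1, 2, -1, 27, -74), (-1, 2, -1, 33, -95), (-1, 3, -1, -21, 90), (-1, 3, -1, -12, 69),
      (-1, 5, -3, 6, -17), (-1, 8, -5, 3, -8), (-1, 9, -5, -42, 177), (-1, 9, -5, -15, 72), (-1, 9, -4, -12, 51), (-1, 10, -11, 3, -19), (-1, 15, -7, -3, 18), (-1, 16, -7, 9, -25), (-1, 39, -22, -3, 15), (-1, 41, -41, 9, -62),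
      (-1, 41, -20, 0, 1), (-1, 57, -32, 12, -45), (-1, 72, -47, 3, -12), (-1, 83, -55, 18, -83), (-1, 111, -62, 21, -81), (-1, 125, -69, 27, -104), (-1, 141, -59, 30, -87), (-1, 159, -79, 33, -114), (-1, 167, -83, 36, -125),
      (-1, 183, -101, 39, -150), (-1, 209, -97, 45, -146), (-1, 251, -111, 54, -167), (-1, 369, -205, 78, -303), (1, 1, 0, -12, 41), (1, 1, 0, -9, 41), (1, 3, -4, 6, -15), (1, 3, -2, 12, -15), (1, 3, -2, 21, -57),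
      (1, 3, -2, 30, -99), (1, 3, -2, 39, -141), (1, 3, -2, 48, -183), (1, 3, -2, 57, -225), (1, 5, -2, -21, 67), (1, 5, -2, -6, 25), (1, 8, -3, -3, 13), (1, 9, -20, 3, -33), (1, 9, -11, 3, -12), (1, 11, -14, 3, -23),
      (1, 11, -4, -6, 19), (1, 12, -47, 3, -72), (1, 12, -11, 3, -9), (1, 12, -7, 15, -51), (1, 17, -6, 3, -5), (1, 18, -11, 3, -6), (1, 19, -8, -3, 11), (1, 23, -9, -3, 10), (1, 41, -17, 0, 1), (1, 45, -32, 12, -57),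
      (1, 50, -21, 3, -8), (1, 57, -37, 15, -66), (1, 61, -23, 12, -31), (1, 71, -20, 15, -29), (1, 78, -47, 21, -87), (1, 96, -89, 21, -135), (1, 113, -48, 24, -71), (1, 115, -42, 24, -61), (1, 180, -131, 39, -198),
      (1, 264, -173, 57, -261), (1, 348, -215, 75, -324), (1, 432, -257, 93, -387)]
  | 3 => [(-1, 2, -1, -9, 52), (-1, 2, -1, -3, 31), (-1, 3, -2, -42, 237), (-1, 3, -2, -33, 195), (-1, 3, -2, -24, 153), (-1, 3, -2, -15, 111), (-1, 3, -2, -6, 69), (-1, 3, -2, 3, 27), (-1, 3, -2, 12, -15), (-1, 3, -2, 21, -57),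
      (-1, 3, -2, 30, -99), (-1, 3, -2, 39, -141), (-1, 3, -2, 48, -183), (-1, 3, -2, 57, -225), (-1, 4, -3, -15, 89), (-1, 4, -3, -3, 26), (-1, 9, -7, -3, 30), (-1, 11, -8, -3, 19), (-1, 12, -7, 15, -51), (-1, 13, -10, 3, -13),
      (-1, 15, -11, -6, 39), (-1, 17, -6, 3, -5), (-1, 18, -11, 3, -6), (-1, 19, -11, 3, -10), (-1, 29, -21, 6, -29), (-1, 30, -23, 3, -12), (-1, 39, -28, 6, -27), (-1, 43, -30, 9, -43), (-1, 44, -23, 9, -32),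
      (-1, 45, -32, 12, -57), (-1, 57, -37, 15, -66), (-1, 78, -47, 21, -87), (-1, 111, -82, 24, -123), (-1, 128, -93, 27, -137), (-1, 180, -131, 39, -198), (-1, 225, -143, 48, -213), (-1, 264, -173, 57, -261),
      (-1, 267, -185, 57, -276), (-1, 309, -227, 66, -339), (-1, 348, -215, 75, -324), (-1, 351, -269, 75, -402), (-1, 432, -257, 93, -387), (1, 1, -1, 9, -22), (1, 1, -1, 12, -43), (1, 1, -1, 15, -64), (1, 1, -1, 18, -85),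
      (1, 1, -1, 21, -106), (1, 1, -1, 24, -127), (1, 2, -3, 3, -11), (1, 3, -1, -21, 90), (1, 4, -5, 3, -16), (1, 5, -6, 3, -17), (1, 6, -5, 21, -102), (1, 9, -10, 6, -33), (1, 9, -5, -42, 177), (1, 9, -5, -15, 72),
      (1, 9, -4, -12, 51), (1, 10, -11, 3, -19), (1, 13, -36, 3, -55), (1, 15, -7, -3, 18), (1, 18, 7, 3, 15), (1, 25, -23, 6, -37), (1, 29, 8, 6, 13), (1, 39, -22, -3, 15), (1, 41, -41, 9, -62), (1, 41, -20, 0, 1),
      (1, 51, -47, 12, -75), (1, 55, -64, 12, -97), (1, 72, -47, 3, -12), (1, 97, -92, 21, -139), (1, 111, -62, 21, -81), (1, 139, -120, 30, -181), (1, 150, -133, 33, -204), (1, 159, -79, 33, -114), (1, 181, -148, 39, -223),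
      (1, 369, -205, 78, -303)]

end Pool.Agent.Helper14.TK7
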