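import Pool.Agent.Helper4.S7.Tm

/-!
# Project TK (levels `3·7^n`): row 0 of `T_43`

A term `(k, a, b, c, d)` stands for `k` times the operator of `(a b; 7c d)` (`Helper4/S7/Tm.lean`; `mulL`, `sclL`, `Gd` of W7 are used unchanged). `F_f(g) = G(g e_f) - G(g 0)` with `e_0 = ∞`, `e_1 = 1/3`, `e_2 = 1/2`, `e_3 = 2/3`.
The rows of `T_l` are computed with the residues `-(l-1)/2, ..., (l-1)/2` (`0, 1` for `l = 2`).
-/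

set_option autoImplicit false

namespace Pool.Agent.Helper14.TK7

open Pool.Agent.Helper4.S7 (Tm mulT mulL sclL Gd)

/-- Row 0 of `T_43`. -/
def T43K0 : Fin 4 → List Tm
  | 0 => [(-1, 1, -2, 3, 1), (-1, 1, -1, 6, 1), (-1, 1, -1, 9, -20), (-1, 1, -1, 12, -41), (-1, 1, -1, 15, -62), (-1, 1, -1, 18, -83), (-1, 1, -1, 21, -104), (-1, 1, -1, 24, -125), (-1, 1, -1, 27, -146), (-1, 1, 1, -6, 1),
      (-1, 1, 2, -3, 1), (-1, 2, -3, 3, -10), (-1, 2, 1, -9, -10), (-1, 2, 1, -3, 11), (-1, 3, -7, 3, -6), (-1, 3, -5, 6, -27), (-1, 3, 1, -39, -48), (-1, 3, 1, -30, -27), (-1, 3, 1, -21, -6), (-1, 3, 1, -12, 15),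
      (-1, 3, 2, -6, 15), (-1, 3, 4, -3, 15), (-1, 4, 1, -9, -5), (-1, 5, -4, 6, -25), (-1, 5, 3, -3, -4), (-1, 6, -7, 3, -3), (-1, 6, -5, 15, -66), (-1, 6, -5, 33, -171), (-1, 6, 7, -3, -3), (-1, 8, -7, 3, -13),
      (-1, 9, -10, 3, -9), (-1, 9, 5, -6, -9), (-1, 10, 3, -3, -2), (-1, 12, -13, 3, -12), (-1, 15, 4, -3, 3), (-1, 18, -19, 3, -15), (-1, 26, 7, -3, -4), (-1, 27, 10, -3, -3), (-1, 39, -34, 3, -15), (-1, 48, 13, -3, -3),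
      (-1, 69, 16, -3, -3), (1, 1, 0, -6, 43), (1, 1, 0, -3, 43), (1, 1, 0, 0, 43), (1, 1, 0, 3, 43), (1, 1, 0, 6, 43), (1, 1, 0, 9, 43), (1, 1, 0, 12, 43), (1, 1, 0, 15, 43), (1, 1, 0, 18, 43), (1, 1, 0, 21, 43),
      (1, 1, 0, 24, 43), (1, 1, 0, 27, 43), (1, 2, -1, -9, 53), (1, 2, -1, -3, 32), (1, 2, -1, 3, 11), (1, 3, -2, -39, 225), (1, 3, -2, -30, 183), (1, 3, -2, -21, 141), (1, 3, -2, -12, 99), (1, 3, -2, -3, 57), (1, 3, -2, 6, 15),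
      (1, 3, -1, -6, 57), (1, 3, -1, 3, 36), (1, 4, -3, -9, 58), (1, 5, -2, -3, 17), (1, 5, 1, 6, 17), (1, 6, -1, 3, 18), (1, 6, 1, -3, 18), (1, 6, 1, 15, 39), (1, 6, 1, 33, 60), (1, 8, 1, 3, 8), (1, 9, -4, -6, 33),
      (1, 9, -1, 3, 12), (1, 10, -7, -3, 19), (1, 12, -1, 3, 9), (1, 15, -11, -3, 24), (1, 18, -1, 3, 6), (1, 26, -19, -3, 17), (1, 27, -17, -3, 18), (1, 39, 5, 3, 6), (1, 43, -34, 0, 1), (1, 43, -33, 0, 1), (1, 43, -32, 0, 1),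
      (1, 43, -31, 0, 1), (1, 43, -30, 0, 1), (1, 43, -29, 0, 1), (1, 43, -28, 0, 1), (1, 43, -27, 0, 1), (1, 43, -26, 0, 1), (1, 43, -25, 0, 1), (1, 43, -24, 0, 1), (1, 43, -23, 0, 1), (1, 43, -22, 0, 1), (1, 43, -21, 0, 1),
      (1, 43, -20, 0, 1), (1, 43, -19, 0, 1), (1, 43, -18, 0, 1), (1, 43, -17, 0, 1), (1, 43, -16, 0, 1), (1, 43, -15, 0, 1), (1, 43, -14, 0, 1), (1, 43, -13, 0, 1), (1, 43, -12, 0, 1), (1, 43, -11, 0, 1), (1, 43, -10, 0, 1),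
      (1, 43, -9, 0, 1), (1, 43, -8, 0, 1), (1, 43, -7, 0, 1), (1, 43, -6, 0, 1), (1, 43, -5, 0, 1), (1, 43, -4, 0, 1), (1, 43, -3, 0, 1), (1, 43, -2, 0, 1), (1, 43, -1, 0, 1), (1, 43, 0, 0, 1), (1, 43, 1, 0, 1), (1, 43, 2, 0, 1),
      (1, 43, 3, 0, 1), (1, 43, 4, 0, 1), (1, 43, 5, 0, 1), (1, 43, 6, 0, 1), (1, 43, 7, 0, 1), (1, 43, 8, 0, 1), (1, 48, -35, -3, 18), (1, 69, -53, -3, 18)]
  | 1 => [(-1, 3, -1, -6, 57), (-1, 3, -1, 3, 36), (-1, 3, -1, 12, 15), (-1, 3, -1, 21, -6), (-1, 3, -1, 30, -27), (-1, 3, -1, 39, -48), (-1, 4, -1, -3, 16), (-1, 4, -1, 9, -5), (-1, 5, -2, -18, 59), (-1, 5, -2, -3, 17),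
      (-1, 8, -3, -9, 29), (-1, 9, -5, 6, -9), (-1, 10, -3, 3, -2), (-1, 15, -4, 3, 3), (-1, 19, -7, -3, 10), (-1, 26, -7, 3, -4), (-1, 27, -10, 3, -3), (-1, 43, -18, 0, 1), (-1, 43, -17, 0, 1), (-1, 43, -16, 0, 1),
      (-1, 43, -15, 0, 1), (-1, 43, -14, 0, 1), (-1, 43, -13, 0, 1), (-1, 43, -12, 0, 1), (-1, 43, -11, 0, 1), (-1, 43, -10, 0, 1), (-1, 43, -9, 0, 1), (-1, 48, -13, 3, -3), (-1, 69, -16, 3, -3), (1, 1, -1, 9, -20),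
      (1, 1, 0, -27, 43), (1, 1, 0, -24, 43), (1, 1, 0, -21, 43), (1, 1, 0, -18, 43), (1, 1, 0, -15, 43), (1, 2, -1, 15, -31), (1, 2, -1, 21, -52), (1, 2, -1, 27, -73), (1, 2, -1, 33, -94), (1, 3, -7, 3, -6), (1, 3, 2, -6, 15),
      (1, 4, -3, 3, -5), (1, 5, -1, -6, 17), (1, 6, -1, -33, 60), (1, 6, -1, -15, 39), (1, 8, -1, -3, 8), (1, 9, 1, -3, 12), (1, 12, 1, -3, 9), (1, 13, -7, 3, -8), (1, 18, 1, -3, 6), (1, 34, -15, 3, -8), (1, 39, -5, -3, 6)]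
  | 2 => [(-1, 2, -1, 3, 11), (-1, 2, -1, 9, -10), (-1, 2, -1, 15, -31), (-1, 2, -1, 21, -52), (-1, 2, -1, 27, -73), (-1, 2, -1, 33, -94), (-1, 3, -1, -24, 99), (-1, 3, -1, -15, 78), (-1, 4, -3, 3, -5), (-1, 5, -3, 3, -4),
      (-1, 9, -5, -21, 96), (-1, 9, -4, -6, 33), (-1, 13, -7, 3, -8), (-1, 15, -8, -21, 87), (-1, 24, -11, -3, 15), (-1, 34, -15, 3, -8), (-1, 43, -21, 0, 1), (-1, 43, -20, 0, 1), (-1, 43, -19, 0, 1), (-1, 45, -26, -3, 15),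
      (1, 1, 0, -12, 43), (1, 2, -3, 3, -10), (1, 3, -2, 15, -27), (1, 3, -2, 24, -69), (1, 3, -2, 33, -111), (1, 3, -2, 42, -153), (1, 3, -2, 51, -195), (1, 3, -2, 60, -237), (1, 4, -1, -3, 16), (1, 5, -2, -18, 59),
      (1, 5, -2, -3, 17), (1, 8, -3, -9, 29), (1, 9, -10, 3, -9), (1, 12, -13, 3, -12), (1, 18, -11, 15, -57), (1, 19, -7, -3, 10), (1, 27, -16, 12, -45), (1, 30, -19, 3, -9), (1, 33, -25, 3, -12), (1, 54, -37, 3, -12)]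
  | 3 => [(-1, 2, -1, -9, 53), (-1, 2, -1, -3, 32), (-1, 3, -2, -39, 225), (-1, 3, -2, -30, 183), (-1, 3, -2, -21, 141), (-1, 3, -2, -12, 99), (-1, 3, -2, -3, 57), (-1, 3, -2, 6, 15), (-1, 3, -2, 15, -27), (-1, 3, -2, 24, -69),
      (-1, 3, -2, 33, -111), (-1, 3, -2, 42, -153), (-1, 3, -2, 51, -195), (-1, 3, -2, 60, -237), (-1, 4, -3, -9, 58), (-1, 5, -2, -3, 17), (-1, 10, -7, -3, 19), (-1, 15, -11, -3, 24), (-1, 18, -11, 15, -57),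
      (-1, 26, -19, -3, 17), (-1, 27, -17, -3, 18), (-1, 27, -16, 12, -45), (-1, 30, -19, 3, -9), (-1, 33, -25, 3, -12), (-1, 43, -34, 0, 1), (-1, 43, -33, 0, 1), (-1, 43, -32, 0, 1), (-1, 43, -31, 0, 1), (-1, 43, -30, 0, 1),
      (-1, 43, -29, 0, 1), (-1, 43, -28, 0, 1), (-1, 43, -27, 0, 1), (-1, 43, -26, 0, 1), (-1, 43, -25, 0, 1), (-1, 43, -24, 0, 1), (-1, 43, -23, 0, 1), (-1, 43, -22, 0, 1), (-1, 48, -35, -3, 18), (-1, 54, -37, 3, -12),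
      (-1, 69, -53, -3, 18), (1, 1, -1, 12, -41), (1, 1, -1, 15, -62), (1, 1, -1, 18, -83), (1, 1, -1, 21, -104), (1, 1, -1, 24, -125), (1, 1, -1, 27, -146), (1, 1, 0, -9, 43), (1, 2, 1, -3, 11), (1, 3, -5, 6, -27),
      (1, 3, -1, -24, 99), (1, 3, -1, -15, 78), (1, 3, 4, -3, 15), (1, 5, -4, 6, -25), (1, 6, -5, 15, -66), (1, 6, -5, 33, -171), (1, 8, -7, 3, -13), (1, 9, -5, -21, 96), (1, 15, -8, -21, 87), (1, 18, -19, 3, -15),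
      (1, 24, -11, -3, 15), (1, 39, -34, 3, -15), (1, 45, -26, -3, 15)]

end Pool.Agent.Helper14.TK7
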