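import Pool.Agent.Helper4.S7.Tm

/-!
# Project TK (levels `3·7^n`): row 1 of `T_43`

A term `(k, a, b, c, d)` stands for `k` times the operator of `(a b; 7c d)` (`Helper4/S7/Tm.lean`; `mulL`, `sclL`, `Gd` of W7 are used unchanged). `F_f(g) = G(g e_f) - G(g 0)` with `e_0 = ∞`, `e_1 = 1/3`, `e_2 = 1/2`, `e_3 = 2/3`.
The rows of `T_l` are computed with the residues `-(l-1)/2, ..., (l-1)/2` (`0, 1` for `l = 2`).
-/

set_option autoImplicit false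

namespace Pool.Agent.Helper14.TK7

open Pool.Agent.Helper4.S7 (Tm mulT mulL sclL Gd)

/-- Row 1 of `T_43`. -/
def T43K1 : Fin 4 → List Tm
  | 0 => [(-1, 1, -3, 3, -20), (-1, 1, -1, 6, 1), (-1, 1, -1, 9, -20), (-1, 1, -1, 12, -41), (-1, 1, -1, 15, -62), (-1, 1, -1, 18, -83), (-1, 1, -1, 21, -104), (-1, 1, -1, 24, -125), (-1, 1, -1, 27, -146), (-1, 1, 1, -6, 1),
      (-1, 1, 1, -3, 22), (-1, 1, 14, 0, 43), (-1, 2, -3, 3, -10), (-1, 2, 1, -9, -10), (-1, 2, 1, -3, 11), (-1, 3, -13, 3, -48), (-1, 3, -5, 6, -27), (-1, 3, 1, -39, -48), (-1, 3, 1, -30, -27), (-1, 3, 1, -21, -6),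
      (-1, 3, 1, -12, 15), (-1, 3, 2, -6, 15), (-1, 3, 4, -3, 15), (-1, 4, -7, 3, -26), (-1, 4, 1, -9, -5), (-1, 5, -8, 3, -25), (-1, 5, -4, 6, -25), (-1, 6, -43, 3, -129), (-1, 6, -5, 15, -66), (-1, 6, -5, 33, -171),
      (-1, 8, 9, 3, 29), (-1, 9, -14, 6, -51), (-1, 9, 17, 3, 54), (-1, 10, 3, -3, -2), (-1, 12, 11, 3, 30), (-1, 13, -23, 6, -71), (-1, 15, 4, -3, 3), (-1, 15, 43, 6, 129), (-1, 20, -21, 9, -64), (-1, 22, 7, 9, 22),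
      (-1, 23, 5, 6, 11), (-1, 23, 11, 9, 32), (-1, 27, -43, 12, -129), (-1, 33, -38, 15, -117), (-1, 33, 8, 3, 9), (-1, 34, -37, 15, -113), (-1, 36, -31, 21, -123), (-1, 36, 43, 15, 129), (-1, 37, -30, 18, -101),
      (-1, 48, -43, 21, -129), (-1, 55, -51, 24, -155), (-1, 57, 43, 24, 129), (-1, 65, 18, 27, 53), (-1, 75, -59, 33, -180), (-1, 76, -65, 33, -197), (-1, 78, 43, 33, 129), (-1, 87, -76, 39, -237), (-1, 97, -79, 42, -239),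
      (-1, 99, 43, 42, 129), (-1, 120, 43, 51, 129), (-1, 141, 43, 60, 129), (-1, 162, 43, 69, 129), (-1, 183, 43, 78, 129), (1, 1, 0, -6, 43), (1, 1, 0, -3, 43), (1, 1, 0, 0, 43), (1, 1, 0, 3, 43), (1, 1, 0, 6, 43),
      (1, 1, 0, 9, 43), (1, 1, 0, 12, 43), (1, 1, 0, 15, 43), (1, 1, 0, 18, 43), (1, 1, 0, 21, 43), (1, 1, 0, 24, 43), (1, 1, 0, 27, 43), (1, 2, -1, -9, 53), (1, 2, -1, -3, 32), (1, 2, -1, 3, 11), (1, 3, -2, -39, 225),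
      (1, 3, -2, -30, 183), (1, 3, -2, -21, 141), (1, 3, -2, -12, 99), (1, 3, -2, -3, 57), (1, 3, -2, 6, 15), (1, 3, -1, -6, 57), (1, 3, -1, 3, 36), (1, 4, -3, -9, 58), (1, 4, -3, 3, -5), (1, 5, -3, 3, -4), (1, 5, 1, 6, 17),
      (1, 6, -1, 3, 18), (1, 6, 1, 15, 39), (1, 6, 1, 33, 60), (1, 8, 1, 3, 8), (1, 9, -5, 6, -9), (1, 9, -1, 3, 12), (1, 10, -7, -3, 19), (1, 12, -1, 3, 9), (1, 13, -10, 6, -29), (1, 15, -11, -3, 24), (1, 15, -2, 6, 3),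
      (1, 20, -1, 9, -1), (1, 22, -15, 9, -41), (1, 23, -18, 6, -31), (1, 23, -12, 9, -31), (1, 27, -16, 12, -45), (1, 33, -25, 3, -12), (1, 33, -5, 15, -12), (1, 34, -3, 15, -8), (1, 36, -29, 15, -81), (1, 36, 5, 21, 24),
      (1, 37, 7, 18, 25), (1, 48, 5, 21, 18), (1, 55, 4, 24, 13), (1, 57, -14, 24, -39), (1, 65, -47, 27, -136), (1, 75, 16, 33, 51), (1, 76, 11, 33, 34), (1, 78, -35, 33, -102), (1, 87, 11, 39, 36), (1, 97, 18, 42, 55),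
      (1, 99, -56, 42, -165), (1, 120, -77, 51, -228), (1, 141, -98, 60, -291), (1, 162, -119, 69, -354), (1, 183, -140, 78, -417)]
  | 1 => [(-1, 3, -1, -6, 57), (-1, 3, -1, 3, 36), (-1, 3, -1, 12, 15), (-1, 3, -1, 21, -6), (-1, 3, -1, 30, -27), (-1, 3, -1, 39, -48), (-1, 4, -1, -3, 16), (-1, 4, -1, 9, -5), (-1, 5, -2, -18, 59), (-1, 5, -2, -3, 17),
      (-1, 8, -3, -9, 29), (-1, 9, -5, 6, -9), (-1, 10, -3, 3, -2), (-1, 16, -5, 9, -17), (-1, 17, -5, 9, -16), (-1, 19, -6, 6, -11), (-1, 25, -11, 9, -26), (-1, 26, -11, 9, -25), (-1, 27, -16, 12, -45), (-1, 31, -12, 9, -23),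
      (-1, 31, -9, 12, -23), (-1, 47, -15, 21, -46), (-1, 50, -19, 21, -55), (-1, 57, -14, 24, -39), (-1, 69, -43, 30, -129), (-1, 90, -43, 39, -129), (-1, 94, -37, 39, -107), (-1, 111, -43, 48, -129), (-1, 132, -43, 57, -129),
      (-1, 153, -43, 66, -129), (-1, 174, -43, 75, -129), (1, 1, -1, 9, -20), (1, 1, 0, -27, 43), (1, 1, 0, -24, 43), (1, 1, 0, -21, 43), (1, 1, 0, -18, 43), (1, 1, 0, -15, 43), (1, 1, 14, 0, 43), (1, 2, -1, 15, -31),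
      (1, 2, -1, 21, -52), (1, 2, -1, 27, -73), (1, 2, -1, 33, -94), (1, 2, 1, -3, 11), (1, 5, -1, -6, 17), (1, 6, -1, -33, 60), (1, 6, -1, -15, 39), (1, 8, -1, -3, 8), (1, 9, 17, 3, 54), (1, 11, -1, 3, 2), (1, 17, -8, 12, -37),
      (1, 17, 1, 6, 5), (1, 18, -1, 3, 6), (1, 20, -21, 9, -64), (1, 22, 7, 9, 22), (1, 27, -5, 6, -3), (1, 39, 1, 15, 6), (1, 41, -28, 18, -85), (1, 43, 0, 18, 1), (1, 51, -4, 21, -9), (1, 62, -35, 27, -106),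
      (1, 64, -7, 27, -20), (1, 83, -42, 36, -127), (1, 85, -14, 36, -41), (1, 104, -49, 45, -148), (1, 106, -21, 45, -62), (1, 123, -20, 51, -57), (1, 125, -56, 54, -169), (1, 146, -63, 63, -190)]
  | 2 => [(-1, 2, -1, 3, 11), (-1, 2, -1, 9, -10), (-1, 2, -1, 15, -31), (-1, 2, -1, 21, -52), (-1, 2, -1, 27, -73), (-1, 2, -1, 33, -94), (-1, 2, 1, -3, 11), (-1, 3, -1, -24, 99), (-1, 3, -1, -15, 78), (-1, 4, -3, 3, -5),
      (-1, 5, -3, 3, -4), (-1, 9, -5, -21, 96), (-1, 9, -4, -6, 33), (-1, 11, -6, 6, -19), (-1, 15, -8, -21, 87), (-1, 15, -4, 3, 3), (-1, 17, -8, 12, -37), (-1, 24, -13, 3, -6), (-1, 41, -28, 18, -85), (-1, 45, -26, -3, 15),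
      (-1, 62, -35, 27, -106), (-1, 78, -35, 33, -102), (-1, 83, -42, 36, -127), (-1, 96, -49, 39, -138), (-1, 99, -56, 42, -165), (-1, 104, -49, 45, -148), (-1, 125, -56, 54, -169), (-1, 146, -63, 63, -190), (1, 1, 0, -12, 43),
      (1, 3, -5, 6, -27), (1, 3, -2, 15, -27), (1, 3, -2, 24, -69), (1, 3, -2, 33, -111), (1, 3, -2, 42, -153), (1, 3, -2, 51, -195), (1, 3, -2, 60, -237), (1, 4, -1, -3, 16), (1, 5, -2, -18, 59), (1, 5, -2, -3, 17),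
      (1, 6, 1, -3, 18), (1, 8, -3, -9, 29), (1, 9, -7, 12, -51), (1, 10, -3, 3, -2), (1, 18, -11, 15, -57), (1, 19, -6, 6, -11), (1, 24, -17, 15, -69), (1, 25, -11, 9, -26), (1, 26, -11, 9, -25), (1, 27, -16, 12, -45),
      (1, 29, -5, 12, -13), (1, 31, -12, 9, -23), (1, 31, -9, 12, -23), (1, 33, -38, 15, -117), (1, 50, -19, 21, -55), (1, 57, -34, 30, -123), (1, 69, -43, 30, -129), (1, 75, -59, 33, -180), (1, 94, -37, 39, -107),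
      (1, 117, -80, 51, -243), (1, 159, -101, 69, -306), (1, 201, -122, 87, -369), (1, 243, -143, 105, -432)]
  | 3 => [(-1, 2, -1, -9, 53), (-1, 2, -1, -3, 32), (-1, 3, -2, -39, 225), (-1, 3, -2, -30, 183), (-1, 3, -2, -21, 141), (-1, 3, -2, -12, 99), (-1, 3, -2, -3, 57), (-1, 3, -2, 6, 15), (-1, 3, -2, 15, -27), (-1, 3, -2, 24, -69),
      (-1, 3, -2, 33, -111), (-1, 3, -2, 42, -153), (-1, 3, -2, 51, -195), (-1, 3, -2, 60, -237), (-1, 4, -3, -9, 58), (-1, 9, -7, 12, -51), (-1, 10, -7, -3, 19), (-1, 13, -10, 6, -29), (-1, 15, -11, -3, 24),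
      (-1, 18, -11, 15, -57), (-1, 22, -15, 9, -41), (-1, 23, -18, 6, -31), (-1, 23, -12, 9, -31), (-1, 24, -17, 15, -69), (-1, 27, -16, 12, -45), (-1, 33, -25, 3, -12), (-1, 36, -29, 15, -81), (-1, 57, -34, 30, -123),
      (-1, 65, -47, 27, -136), (-1, 69, -43, 30, -129), (-1, 117, -80, 51, -243), (-1, 120, -77, 51, -228), (-1, 141, -98, 60, -291), (-1, 159, -101, 69, -306), (-1, 162, -119, 69, -354), (-1, 183, -140, 78, -417),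
      (-1, 201, -122, 87, -369), (-1, 243, -143, 105, -432), (1, 1, -3, 3, -20), (1, 1, -1, 12, -41), (1, 1, -1, 15, -62), (1, 1, -1, 18, -83), (1, 1, -1, 21, -104), (1, 1, -1, 24, -125), (1, 1, -1, 27, -146), (1, 1, 0, -9, 43),
      (1, 1, 1, -3, 22), (1, 2, 1, -3, 11), (1, 3, -13, 3, -48), (1, 3, -1, -24, 99), (1, 3, -1, -15, 78), (1, 4, -7, 3, -26), (1, 5, -4, 6, -25), (1, 6, -5, 15, -66), (1, 6, -5, 33, -171), (1, 8, 9, 3, 29), (1, 9, -14, 6, -51),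
      (1, 9, -5, -21, 96), (1, 9, -4, -6, 33), (1, 13, -23, 6, -71), (1, 15, -8, -21, 87), (1, 15, -4, 3, 3), (1, 24, -13, 3, -6), (1, 34, -37, 15, -113), (1, 36, -31, 21, -123), (1, 37, -30, 18, -101), (1, 45, -26, -3, 15),
      (1, 55, -51, 24, -155), (1, 76, -65, 33, -197), (1, 87, -76, 39, -237), (1, 96, -49, 39, -138), (1, 97, -79, 42, -239)]

end Pool.Agent.Helper14.TK7
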