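import Pool.Agent.Helper4.S7.Tm

/-!
# Project TK (levels `3·7^n`): row 2 of `T_43`

A term `(k, a, b, c, d)` stands for `k` times the operator of `(a b; 7c d)` (`Helper4/S7/Tm.lean`; `mulL`, `sclL`, `Gd` of W7 are used unchanged). `F_f(g) = G(g e_f) - G(g 0)` with `e_0 = ∞`, `e_1 = 1/3`, `e_2 = 1/2`, `e_3 = 2/3`.
The rows of `T_l` are computed with the residues `-(l-1)/2, ..., (l-1)/2` (`0, 1` for `l = 2`).
-/

set_option autoImplicit false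

namespace Pool.Agent.Helper14.TK7

open Pool.Agent.Helper4.S7 (Tm mulT mulL sclL Gd)

/-- Row 2 of `T_43`. -/
def T43K2 : Fin 4 → List Tm
  | 0 => [(-1, 1, -3, 3, -20), (-1, 1, -1, 6, 1), (-1, 1, -1, 9, -20), (-1, 1, -1, 12, -41), (-1, 1, -1, 15, -62), (-1, 1, -1, 18, -83), (-1, 1, -1, 21, -104), (-1, 1, -1, 24, -125), (-1, 1, -1, 27, -146), (-1, 1, 1, -6, 1),
      (-1, 1, 2, -3, 1), (-1, 1, 21, 0, 43), (-1, 2, -3, 3, -10), (-1, 2, 1, -9, -10), (-1, 2, 1, -3, 11), (-1, 3, -10, 3, -27), (-1, 3, -5, 6, -27), (-1, 3, 1, -39, -48), (-1, 3, 1, -30, -27), (-1, 3, 1, -21, -6),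
      (-1, 3, 1, -12, 15), (-1, 3, 2, -6, 15), (-1, 3, 4, -3, 15), (-1, 4, 1, -9, -5), (-1, 5, -4, 6, -25), (-1, 6, -19, 3, -45), (-1, 6, -5, 15, -66), (-1, 6, -5, 33, -171), (-1, 8, -7, 3, -13), (-1, 9, -46, 3, -93),
      (-1, 9, 5, -6, -9), (-1, 10, -43, 3, -86), (-1, 10, 3, -3, -2), (-1, 11, 43, 3, 86), (-1, 12, 35, 3, 72), (-1, 13, 6, 3, 13), (-1, 15, -17, 6, -39), (-1, 15, 4, -3, 3), (-1, 15, 11, 3, 24), (-1, 17, -16, 6, -37),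
      (-1, 17, 2, 3, 5), (-1, 19, -25, 6, -53), (-1, 23, 5, 6, 11), (-1, 26, 7, -3, -4), (-1, 29, -26, 9, -55), (-1, 31, -43, 9, -86), (-1, 32, 43, 9, 86), (-1, 33, -31, 12, -75), (-1, 33, 8, 3, 9), (-1, 41, -42, 12, -85),
      (-1, 43, 9, 0, 1), (-1, 45, 29, 12, 57), (-1, 48, -41, 15, -87), (-1, 51, -77, 15, -156), (-1, 52, -43, 15, -86), (-1, 53, 43, 15, 86), (-1, 54, 25, 15, 51), (-1, 60, 11, 3, 6), (-1, 69, 16, -3, -3), (-1, 72, -67, 21, -135),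
      (-1, 74, 43, 21, 86), (-1, 78, 23, 21, 45), (-1, 95, 43, 27, 86), (-1, 103, -88, 30, -179), (-1, 114, -119, 33, -240), (-1, 116, 43, 33, 86), (-1, 137, 43, 39, 86), (-1, 158, 43, 45, 86), (-1, 171, 50, 48, 99),
      (-1, 177, -161, 51, -324), (-1, 179, 43, 51, 86), (-1, 240, -203, 69, -408), (-1, 303, -245, 87, -492), (1, 1, 0, -6, 43), (1, 1, 0, -3, 43), (1, 1, 0, 0, 43), (1, 1, 0, 3, 43), (1, 1, 0, 6, 43), (1, 1, 0, 9, 43),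
      (1, 1, 0, 12, 43), (1, 1, 0, 15, 43), (1, 1, 0, 18, 43), (1, 1, 0, 21, 43), (1, 1, 0, 24, 43), (1, 1, 0, 27, 43), (1, 2, -1, -9, 53), (1, 2, -1, -3, 32), (1, 2, -1, 3, 11), (1, 3, -2, -39, 225), (1, 3, -2, -30, 183),
      (1, 3, -2, -21, 141), (1, 3, -2, -12, 99), (1, 3, -2, -3, 57), (1, 3, -2, 6, 15), (1, 3, -1, -6, 57), (1, 3, -1, 3, 36), (1, 4, -3, -9, 58), (1, 5, 1, 6, 17), (1, 6, -1, 3, 18), (1, 6, 1, 15, 39), (1, 6, 1, 33, 60),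
      (1, 8, 1, 3, 8), (1, 9, -4, -6, 33), (1, 9, -1, 3, 12), (1, 10, -7, -3, 19), (1, 10, -3, 3, -2), (1, 11, -1, 3, 2), (1, 12, -1, 3, 9), (1, 13, -7, 3, -8), (1, 15, -11, -3, 24), (1, 15, -4, 3, 3), (1, 15, -2, 6, 3),
      (1, 17, -15, 3, -16), (1, 17, 1, 6, 5), (1, 19, -6, 6, -11), (1, 23, -18, 6, -31), (1, 26, -19, -3, 17), (1, 29, 3, 9, 8), (1, 31, -12, 9, -23), (1, 32, -21, 9, -40), (1, 33, -25, 3, -12), (1, 33, 2, 12, 9),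
      (1, 41, -1, 12, -1), (1, 43, -34, 0, 1), (1, 45, -16, 12, -27), (1, 48, 7, 15, 18), (1, 51, -26, 15, -51), (1, 52, 9, 15, 19), (1, 53, -10, 15, -19), (1, 54, -29, 15, -54), (1, 60, -49, 3, -15), (1, 69, -53, -3, 18),
      (1, 72, 5, 21, 12), (1, 74, -31, 21, -61), (1, 78, -55, 21, -102), (1, 95, -52, 27, -103), (1, 103, 15, 30, 31), (1, 114, -5, 33, -9), (1, 116, -73, 33, -145), (1, 137, -94, 39, -187), (1, 158, -115, 45, -229),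
      (1, 171, -121, 48, -237), (1, 177, 16, 51, 33), (1, 179, -136, 51, -271), (1, 240, 37, 69, 75), (1, 303, 58, 87, 117)]
  | 1 => [(-1, 3, -1, -6, 57), (-1, 3, -1, 3, 36), (-1, 3, -1, 12, 15), (-1, 3, -1, 21, -6), (-1, 3, -1, 30, -27), (-1, 3, -1, 39, -48), (-1, 4, -1, -3, 16), (-1, 4, -1, 9, -5), (-1, 5, -2, -18, 59), (-1, 5, -2, -3, 17),
      (-1, 8, -3, -9, 29), (-1, 9, -10, 3, -9), (-1, 9, -5, 6, -9), (-1, 10, -3, 3, -2), (-1, 15, -4, 3, 3), (-1, 19, -7, -3, 10), (-1, 19, -6, 6, -11), (-1, 24, -13, 3, -6), (-1, 29, -10, 6, -13), (-1, 31, -12, 9, -23),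
      (-1, 43, -18, 0, 1), (-1, 45, -16, 12, -27), (-1, 51, -26, 15, -51), (-1, 69, -22, 21, -45), (-1, 74, -31, 21, -61), (-1, 85, -21, 24, -41), (-1, 115, -43, 33, -86), (-1, 127, -42, 36, -83), (-1, 136, -43, 39, -86),
      (-1, 157, -43, 45, -86), (-1, 165, -49, 48, -99), (-1, 169, -63, 48, -125), (-1, 178, -43, 51, -86), (-1, 211, -84, 60, -167), (-1, 253, -105, 72, -209), (1, 1, -1, 9, -20), (1, 1, 0, -27, 43), (1, 1, 0, -24, 43),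
      (1, 1, 0, -21, 43), (1, 1, 0, -18, 43), (1, 1, 0, -15, 43), (1, 2, -3, 3, -10), (1, 2, -1, 15, -31), (1, 2, -1, 21, -52), (1, 2, -1, 27, -73), (1, 2, -1, 33, -94), (1, 2, 1, -3, 11), (1, 3, 2, -6, 15), (1, 3, 4, -3, 15),
      (1, 5, -1, -6, 17), (1, 6, -1, -33, 60), (1, 6, -1, -15, 39), (1, 8, -1, -3, 8), (1, 9, -46, 3, -93), (1, 9, 1, -3, 12), (1, 11, -6, 6, -19), (1, 15, 11, 3, 24), (1, 18, -1, 3, 6), (1, 20, -3, 3, -1), (1, 23, 5, 6, 11),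
      (1, 25, -4, 6, -5), (1, 27, -5, 6, -3), (1, 34, -5, 9, -8), (1, 46, -21, 15, -47), (1, 47, -21, 15, -46), (1, 51, -7, 12, -9), (1, 54, 25, 15, 51), (1, 57, -11, 15, -18), (1, 71, -37, 21, -76), (1, 75, -7, 21, -12),
      (1, 107, -16, 30, -31), (1, 117, 4, 33, 9), (1, 176, -79, 51, -160), (1, 180, -17, 51, -33), (1, 243, -38, 69, -75), (1, 306, -59, 87, -117)]
  | 2 => [(-1, 2, -1, 3, 11), (-1, 2, -1, 9, -10), (-1, 2, -1, 15, -31), (-1, 2, -1, 21, -52), (-1, 2, -1, 27, -73), (-1, 2, -1, 33, -94), (-1, 2, 1, -3, 11), (-1, 3, -1, -24, 99), (-1, 3, -1, -15, 78), (-1, 4, -3, 3, -5),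
      (-1, 5, -3, 3, -4), (-1, 9, -5, -21, 96), (-1, 9, -4, -6, 33), (-1, 11, -6, 6, -19), (-1, 13, -7, 3, -8), (-1, 15, -8, -21, 87), (-1, 27, -5, 6, -3), (-1, 45, -26, -3, 15), (-1, 46, -21, 15, -47), (-1, 47, -21, 15, -46),
      (-1, 54, -29, 15, -54), (-1, 71, -37, 21, -76), (-1, 73, -43, 21, -86), (-1, 75, -7, 21, -12), (-1, 94, -43, 27, -86), (-1, 138, -49, 39, -96), (-1, 176, -79, 51, -160), (-1, 201, -91, 57, -180), (-1, 264, -133, 75, -264),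
      (-1, 327, -175, 93, -348), (-1, 390, -217, 111, -432), (1, 1, 0, -12, 43), (1, 1, 21, 0, 43), (1, 3, -10, 3, -27), (1, 3, -5, 6, -27), (1, 3, -2, 15, -27), (1, 3, -2, 24, -69), (1, 3, -2, 33, -111), (1, 3, -2, 42, -153),
      (1, 3, -2, 51, -195), (1, 3, -2, 60, -237), (1, 4, -1, -3, 16), (1, 5, -2, -18, 59), (1, 5, -2, -3, 17), (1, 6, 1, -3, 18), (1, 8, -3, -9, 29), (1, 9, -10, 3, -9), (1, 15, -17, 6, -39), (1, 18, -11, 15, -57),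
      (1, 19, -7, -3, 10), (1, 27, -16, 12, -45), (1, 29, -10, 6, -13), (1, 43, -18, 0, 1), (1, 43, 0, 12, 1), (1, 48, -41, 15, -87), (1, 72, -67, 21, -135), (1, 74, -31, 21, -61), (1, 85, -21, 24, -41), (1, 127, -42, 36, -83),
      (1, 135, -88, 39, -177), (1, 169, -63, 48, -125), (1, 211, -84, 60, -167), (1, 237, -146, 69, -297), (1, 253, -105, 72, -209)]
  | 3 => [(-1, 2, -1, -9, 53), (-1, 2, -1, -3, 32), (-1, 3, -2, -39, 225), (-1, 3, -2, -30, 183), (-1, 3, -2, -21, 141), (-1, 3, -2, -12, 99), (-1, 3, -2, -3, 57), (-1, 3, -2, 6, 15), (-1, 3, -2, 15, -27), (-1, 3, -2, 24, -69),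
      (-1, 3, -2, 33, -111), (-1, 3, -2, 42, -153), (-1, 3, -2, 51, -195), (-1, 3, -2, 60, -237), (-1, 4, -3, -9, 58), (-1, 10, -7, -3, 19), (-1, 15, -11, -3, 24), (-1, 17, -15, 3, -16), (-1, 18, -11, 15, -57),
      (-1, 23, -18, 6, -31), (-1, 26, -19, -3, 17), (-1, 27, -16, 12, -45), (-1, 32, -21, 9, -40), (-1, 33, -25, 3, -12), (-1, 39, -28, 12, -57), (-1, 43, -34, 0, 1), (-1, 60, -49, 3, -15), (-1, 69, -53, -3, 18),
      (-1, 74, -31, 21, -61), (-1, 78, -55, 21, -102), (-1, 95, -52, 27, -103), (-1, 116, -73, 33, -145), (-1, 135, -88, 39, -177), (-1, 137, -94, 39, -187), (-1, 158, -115, 45, -229), (-1, 171, -121, 48, -237),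
      (-1, 179, -136, 51, -271), (-1, 237, -146, 69, -297), (1, 1, -3, 3, -20), (1, 1, -1, 12, -41), (1, 1, -1, 15, -62), (1, 1, -1, 18, -83), (1, 1, -1, 21, -104), (1, 1, -1, 24, -125), (1, 1, -1, 27, -146), (1, 1, 0, -9, 43),
      (1, 2, 1, -3, 11), (1, 3, -1, -24, 99), (1, 3, -1, -15, 78), (1, 5, -4, 6, -25), (1, 6, -19, 3, -45), (1, 6, -5, 15, -66), (1, 6, -5, 33, -171), (1, 9, -5, -21, 96), (1, 12, 35, 3, 72), (1, 15, -8, -21, 87),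
      (1, 17, -16, 6, -37), (1, 19, -25, 6, -53), (1, 24, -13, 3, -6), (1, 27, -5, 6, -3), (1, 29, -26, 9, -55), (1, 33, -31, 12, -75), (1, 41, -42, 12, -85), (1, 45, -26, -3, 15), (1, 51, -77, 15, -156), (1, 75, -7, 21, -12),
      (1, 103, -88, 30, -179), (1, 114, -119, 33, -240), (1, 138, -49, 39, -96), (1, 177, -161, 51, -324), (1, 201, -91, 57, -180), (1, 240, -203, 69, -408), (1, 264, -133, 75, -264), (1, 303, -245, 87, -492),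
      (1, 327, -175, 93, -348), (1, 390, -217, 111, -432)]

end Pool.Agent.Helper14.TK7
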