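import Pool.Agent.Helper4.S7.Tm

/-!
# Project TK (levels `3·7^n`): row 3 of `T_43`

A term `(k, a, b, c, d)` stands for `k` times the operator of `(a b; 7c d)` (`Helper4/S7/Tm.lean`; `mulL`, `sclL`, `Gd` of W7 are used unchanged). `F_f(g) = G(g e_f) - G(g 0)` with `e_0 = ∞`, `e_1 = 1/3`, `e_2 = 1/2`, `e_3 = 2/3`.
The rows of `T_l` are computed with the residues `-(l-1)/2, ..., (l-1)/2` (`0, 1` for `l = 2`).
-/

set_option autoImplicit false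

namespace Pool.Agent.Helper14.TK7

open Pool.Agent.Helper4.S7 (Tm mulT mulL sclL Gd)

/-- Row 3 of `T_43`. -/
def T43K3 : Fin 4 → List Tm
  | 0 => [(-1, 1, -2, 3, 1), (-1, 1, -1, 6, 1), (-1, 1, -1, 9, -20), (-1, 1, -1, 12, -41), (-1, 1, -1, 15, -62), (-1, 1, -1, 18, -83), (-1, 1, -1, 21, -104), (-1, 1, -1, 24, -125), (-1, 1, -1, 27, -146), (-1, 1, 1, -6, 1),
      (-1, 1, 2, -3, 1), (-1, 1, 28, 0, 43), (-1, 2, -3, 3, -10), (-1, 2, 1, -9, -10), (-1, 2, 1, -3, 11), (-1, 3, -10, 3, -27), (-1, 3, -5, 6, -27), (-1, 3, 1, -39, -48), (-1, 3, 1, -30, -27), (-1, 3, 1, -21, -6),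
      (-1, 3, 1, -12, 15), (-1, 3, 2, -6, 15), (-1, 3, 4, -3, 15), (-1, 4, 1, -9, -5), (-1, 5, -4, 6, -25), (-1, 6, -13, 3, -24), (-1, 6, -5, 15, -66), (-1, 6, -5, 33, -171), (-1, 8, -7, 3, -13), (-1, 9, -19, 3, -30),
      (-1, 9, 5, -6, -9), (-1, 10, -13, 3, -23), (-1, 10, 3, -3, -2), (-1, 11, -12, 3, -19), (-1, 12, -49, 3, -75), (-1, 13, -33, 3, -50), (-1, 15, -17, 6, -39), (-1, 15, 4, -3, 3), (-1, 15, 86, 3, 129), (-1, 16, 17, 3, 25),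
      (-1, 17, 2, 3, 5), (-1, 18, 17, 3, 27), (-1, 19, 7, 3, 10), (-1, 24, 11, 3, 15), (-1, 25, -29, 6, -47), (-1, 26, 7, -3, -4), (-1, 27, -86, 6, -129), (-1, 29, 19, 6, 29), (-1, 30, 11, 3, 12), (-1, 31, 13, 6, 19),
      (-1, 33, 8, 3, 9), (-1, 41, -56, 9, -85), (-1, 43, 9, 0, 1), (-1, 45, 13, 6, 15), (-1, 46, 11, 9, 16), (-1, 47, 12, 9, 17), (-1, 55, -47, 12, -71), (-1, 57, 86, 12, 129), (-1, 60, 11, 3, 6), (-1, 66, -71, 15, -111),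
      (-1, 69, -86, 15, -129), (-1, 69, 16, -3, -3), (-1, 83, -84, 18, -127), (-1, 96, -91, 21, -138), (-1, 99, 86, 21, 129), (-1, 100, 31, 21, 46), (-1, 125, -112, 27, -169), (-1, 141, 86, 30, 129), (-1, 167, -140, 36, -211),
      (-1, 183, 86, 39, 129), (-1, 209, -168, 45, -253), (-1, 225, 86, 48, 129), (-1, 234, -197, 51, -300), (-1, 267, 86, 57, 129), (-1, 309, 86, 66, 129), (-1, 351, 86, 75, 129), (1, 1, 0, -6, 43), (1, 1, 0, -3, 43),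
      (1, 1, 0, 0, 43), (1, 1, 0, 3, 43), (1, 1, 0, 6, 43), (1, 1, 0, 9, 43), (1, 1, 0, 12, 43), (1, 1, 0, 15, 43), (1, 1, 0, 18, 43), (1, 1, 0, 21, 43), (1, 1, 0, 24, 43), (1, 1, 0, 27, 43), (1, 2, -1, -9, 53),
      (1, 2, -1, -3, 32), (1, 2, -1, 3, 11), (1, 3, -2, -39, 225), (1, 3, -2, -30, 183), (1, 3, -2, -21, 141), (1, 3, -2, -12, 99), (1, 3, -2, -3, 57), (1, 3, -2, 6, 15), (1, 3, -1, -6, 57), (1, 3, -1, 3, 36), (1, 4, -3, -9, 58),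
      (1, 5, 1, 6, 17), (1, 6, -1, 3, 18), (1, 6, 1, 15, 39), (1, 6, 1, 33, 60), (1, 8, 1, 3, 8), (1, 9, -4, -6, 33), (1, 9, -1, 3, 12), (1, 10, -7, -3, 19), (1, 10, -3, 3, -2), (1, 11, -1, 3, 2), (1, 12, -1, 3, 9),
      (1, 13, -7, 3, -8), (1, 15, -11, -3, 24), (1, 15, -4, 3, 3), (1, 15, -2, 6, 3), (1, 16, 1, 3, 4), (1, 17, -15, 3, -16), (1, 18, -1, 3, 6), (1, 19, -12, 3, -11), (1, 24, -13, 3, -6), (1, 25, -4, 6, -5), (1, 26, -19, -3, 17),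
      (1, 27, -5, 6, -3), (1, 29, -10, 6, -13), (1, 30, -19, 3, -9), (1, 31, -18, 6, -23), (1, 33, -25, 3, -12), (1, 41, -15, 9, -22), (1, 43, -34, 0, 1), (1, 45, -32, 6, -27), (1, 46, -35, 9, -47), (1, 47, -35, 9, -46),
      (1, 55, 8, 12, 13), (1, 57, -28, 12, -39), (1, 60, -49, 3, -15), (1, 66, -5, 15, -6), (1, 69, -53, -3, 18), (1, 69, -17, 15, -24), (1, 83, -1, 18, -1), (1, 96, 5, 21, 9), (1, 99, -13, 21, -18), (1, 100, -69, 21, -101),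
      (1, 125, 13, 27, 20), (1, 141, -55, 30, -81), (1, 167, 27, 36, 41), (1, 183, -97, 39, -144), (1, 209, 41, 45, 62), (1, 225, -139, 48, -207), (1, 234, 37, 51, 57), (1, 267, -181, 57, -270), (1, 309, -223, 66, -333),
      (1, 351, -265, 75, -396)]
  | 1 => [(-1, 3, -1, -6, 57), (-1, 3, -1, 3, 36), (-1, 3, -1, 12, 15), (-1, 3, -1, 21, -6), (-1, 3, -1, 30, -27), (-1, 3, -1, 39, -48), (-1, 4, -1, -3, 16), (-1, 4, -1, 9, -5), (-1, 5, -2, -18, 59), (-1, 5, -2, -3, 17),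
      (-1, 8, -3, -9, 29), (-1, 9, -10, 3, -9), (-1, 9, -5, 6, -9), (-1, 10, -3, 3, -2), (-1, 12, -13, 3, -12), (-1, 15, -4, 3, 3), (-1, 19, -7, -3, 10), (-1, 19, -6, 6, -11), (-1, 24, -13, 3, -6), (-1, 29, -10, 6, -13),
      (-1, 37, -16, 6, -17), (-1, 41, -15, 9, -22), (-1, 43, -18, 0, 1), (-1, 55, -23, 3, -8), (-1, 69, -17, 15, -24), (-1, 73, -31, 15, -44), (-1, 85, -28, 18, -41), (-1, 124, -35, 27, -53), (-1, 143, -54, 30, -79),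
      (-1, 153, -86, 33, -129), (-1, 195, -86, 42, -129), (-1, 237, -86, 51, -129), (-1, 279, -86, 60, -129), (-1, 321, -86, 69, -129), (-1, 363, -86, 78, -129), (1, 1, -1, 9, -20), (1, 1, 0, -27, 43), (1, 1, 0, -24, 43),
      (1, 1, 0, -21, 43), (1, 1, 0, -18, 43), (1, 1, 0, -15, 43), (1, 2, -3, 3, -10), (1, 2, -1, 15, -31), (1, 2, -1, 21, -52), (1, 2, -1, 27, -73), (1, 2, -1, 33, -94), (1, 2, 1, -3, 11), (1, 3, 2, -6, 15), (1, 4, -3, 3, -5),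
      (1, 5, -1, -6, 17), (1, 6, -1, -33, 60), (1, 6, -1, -15, 39), (1, 8, -7, 3, -13), (1, 8, -1, -3, 8), (1, 9, 1, -3, 12), (1, 11, -12, 3, -19), (1, 11, -6, 6, -19), (1, 13, -33, 3, -50), (1, 18, 17, 3, 27), (1, 20, -3, 3, -1),
      (1, 22, -1, 3, 1), (1, 29, 19, 6, 29), (1, 33, 4, 6, 9), (1, 38, -23, 9, -37), (1, 39, -5, -3, 6), (1, 43, -8, 0, 1), (1, 47, -11, 3, -4), (1, 51, -14, 6, -9), (1, 55, -47, 12, -71), (1, 71, 5, 15, 8), (1, 72, 7, 15, 12),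
      (1, 89, -18, 18, -25), (1, 90, -19, 3, -3), (1, 97, -61, 21, -92), (1, 111, -19, 21, -24), (1, 113, -9, 24, -13), (1, 139, -75, 30, -113), (1, 155, -23, 33, -34), (1, 156, -35, 33, -51), (1, 181, -89, 39, -134),
      (1, 186, -25, 39, -36), (1, 197, -37, 42, -55), (1, 223, -103, 48, -155), (1, 265, -117, 57, -176)]
  | 2 => [(-1, 2, -1, 3, 11), (-1, 2, -1, 9, -10), (-1, 2, -1, 15, -31), (-1, 2, -1, 21, -52), (-1, 2, -1, 27, -73), (-1, 2, -1, 33, -94), (-1, 2, 1, -3, 11), (-1, 3, -1, -24, 99), (-1, 3, -1, -15, 78), (-1, 4, -3, 3, -5),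
      (-1, 5, -3, 3, -4), (-1, 8, -7, 3, -13), (-1, 9, -5, -21, 96), (-1, 9, -4, -6, 33), (-1, 11, -12, 3, -19), (-1, 11, -6, 6, -19), (-1, 13, -7, 3, -8), (-1, 15, -8, -21, 87), (-1, 27, -10, 3, -3), (-1, 38, -23, 9, -37),
      (-1, 39, -17, 6, -15), (-1, 40, -21, 9, -32), (-1, 43, -21, 0, 1), (-1, 45, -26, -3, 15), (-1, 51, -28, 3, -9), (-1, 55, -47, 12, -71), (-1, 57, -28, 12, -39), (-1, 75, -49, 3, -12), (-1, 97, -61, 21, -92),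
      (-1, 102, -55, 21, -78), (-1, 117, -53, 24, -75), (-1, 120, -67, 21, -81), (-1, 139, -75, 30, -113), (-1, 141, -55, 30, -81), (-1, 181, -89, 39, -134), (-1, 183, -97, 39, -144), (-1, 223, -103, 48, -155),
      (-1, 265, -117, 57, -176), (-1, 327, -179, 69, -264), (1, 1, 0, -12, 43), (1, 3, -5, 6, -27), (1, 3, -2, 15, -27), (1, 3, -2, 24, -69), (1, 3, -2, 33, -111), (1, 3, -2, 42, -153), (1, 3, -2, 51, -195), (1, 3, -2, 60, -237),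
      (1, 3, 4, -3, 15), (1, 4, -1, -3, 16), (1, 5, -2, -18, 59), (1, 5, -2, -3, 17), (1, 6, -13, 3, -24), (1, 6, 1, -3, 18), (1, 8, -3, -9, 29), (1, 9, -10, 3, -9), (1, 12, -49, 3, -75), (1, 12, -13, 3, -12), (1, 17, 2, 3, 5),
      (1, 18, -11, 15, -57), (1, 19, -7, -3, 10), (1, 27, -16, 12, -45), (1, 37, -16, 6, -17), (1, 43, -18, 0, 1), (1, 55, -23, 3, -8), (1, 73, -31, 15, -44), (1, 85, -28, 18, -41), (1, 96, -91, 21, -138), (1, 143, -54, 30, -79),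
      (1, 180, -133, 39, -201), (1, 264, -175, 57, -264), (1, 348, -217, 75, -327), (1, 432, -259, 93, -390)]
  | 3 => [(-1, 2, -1, -9, 53), (-1, 2, -1, -3, 32), (-1, 3, -2, -39, 225), (-1, 3, -2, -30, 183), (-1, 3, -2, -21, 141), (-1, 3, -2, -12, 99), (-1, 3, -2, -3, 57), (-1, 3, -2, 6, 15), (-1, 3, -2, 15, -27), (-1, 3, -2, 24, -69),
      (-1, 3, -2, 33, -111), (-1, 3, -2, 42, -153), (-1, 3, -2, 51, -195), (-1, 3, -2, 60, -237), (-1, 4, -3, -9, 58), (-1, 10, -7, -3, 19), (-1, 15, -11, -3, 24), (-1, 17, -15, 3, -16), (-1, 18, -11, 15, -57),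
      (-1, 19, -12, 3, -11), (-1, 26, -19, -3, 17), (-1, 27, -16, 12, -45), (-1, 30, -19, 3, -9), (-1, 31, -18, 6, -23), (-1, 33, -25, 3, -12), (-1, 43, -34, 0, 1), (-1, 45, -32, 6, -27), (-1, 46, -35, 9, -47),
      (-1, 47, -35, 9, -46), (-1, 60, -49, 3, -15), (-1, 69, -53, -3, 18), (-1, 100, -69, 21, -101), (-1, 111, -86, 24, -129), (-1, 180, -133, 39, -201), (-1, 225, -139, 48, -207), (-1, 264, -175, 57, -264),
      (-1, 267, -181, 57, -270), (-1, 309, -223, 66, -333), (-1, 348, -217, 75, -327), (-1, 351, -265, 75, -396), (-1, 432, -259, 93, -390), (1, 1, -1, 12, -41), (1, 1, -1, 15, -62), (1, 1, -1, 18, -83), (1, 1, -1, 21, -104),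
      (1, 1, -1, 24, -125), (1, 1, -1, 27, -146), (1, 1, 0, -9, 43), (1, 1, 28, 0, 43), (1, 2, 1, -3, 11), (1, 3, -10, 3, -27), (1, 3, -1, -24, 99), (1, 3, -1, -15, 78), (1, 5, -4, 6, -25), (1, 6, -5, 15, -66),
      (1, 6, -5, 33, -171), (1, 8, -7, 3, -13), (1, 9, -5, -21, 96), (1, 10, -13, 3, -23), (1, 11, -12, 3, -19), (1, 15, -17, 6, -39), (1, 15, -8, -21, 87), (1, 25, -29, 6, -47), (1, 27, -10, 3, -3), (1, 39, -17, 6, -15),
      (1, 41, -56, 9, -85), (1, 43, -21, 0, 1), (1, 43, 0, 9, 1), (1, 45, -26, -3, 15), (1, 51, -28, 3, -9), (1, 55, -47, 12, -71), (1, 66, -71, 15, -111), (1, 75, -49, 3, -12), (1, 83, -84, 18, -127), (1, 102, -55, 21, -78),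
      (1, 117, -53, 24, -75), (1, 120, -67, 21, -81), (1, 125, -112, 27, -169), (1, 167, -140, 36, -211), (1, 209, -168, 45, -253), (1, 234, -197, 51, -300), (1, 327, -179, 69, -264)]

end Pool.Agent.Helper14.TK7
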