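import Pool.Agent.Helper4.S7.Tm

/-!
# Project TK (levels `3·7^n`): rows of `T_13`

A term `(k, a, b, c, d)` stands for `k` times the operator of `(a b; 7c d)` (`Helper4/S7/Tm.lean`; `mulL`, `sclL`, `Gd` of W7 are used unchanged). `F_f(g) = G(g e_f) - G(g 0)` with `e_0 = ∞`, `e_1 = 1/3`, `e_2 = 1/2`, `e_3 = 2/3`.
The rows of `T_l` are computed with the residues `-(l-1)/2, ..., (l-1)/2` (`0, 1` for `l = 2`).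
-/

set_option autoImplicit false

namespace Pool.Agent.Helper14.TK7

open Pool.Agent.Helper4.S7 (Tm mulT mulL sclL Gd)

/-- The rows of `T_13`: `F_i(T_13 G) = ∑_f (T13K i f) F_f(G)`. -/
def T13K : Fin 4 → Fin 4 → List Tm
  | 0, 0 => [(-1, 1, -1, 3, -8), (-1, 1, -1, 6, -29), (-1, 2, 1, -3, -4), (-1, 3, -4, 3, -15), (-1, 3, 1, -12, -15), (-1, 3, 1, -3, 6), (-1, 4, 1, -3, -2), (-1, 15, 4, -3, -3), (1, 1, 0, 0, 13), (1, 1, 0, 3, 13), (1, 1, 0, 6, 13),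
      (1, 2, -1, -3, 17), (1, 3, -2, -12, 69), (1, 3, -2, -3, 27), (1, 3, -1, 3, 6), (1, 4, -3, -3, 19), (1, 13, -10, 0, 1), (1, 13, -9, 0, 1), (1, 13, -8, 0, 1), (1, 13, -7, 0, 1), (1, 13, -6, 0, 1), (1, 13, -5, 0, 1),
      (1, 13, -4, 0, 1), (1, 13, -3, 0, 1), (1, 13, -2, 0, 1), (1, 13, -1, 0, 1), (1, 13, 0, 0, 1), (1, 13, 1, 0, 1), (1, 13, 2, 0, 1), (1, 15, -11, -3, 18)]
  | 0, 1 => [(-1, 3, -1, 3, 6), (-1, 3, -1, 12, -15), (-1, 4, -1, 3, -2), (-1, 5, -2, -3, 11), (-1, 13, -5, 0, 1), (-1, 13, -4, 0, 1), (-1, 13, -3, 0, 1), (-1, 15, -4, 3, -3), (1, 1, -1, 3, -8), (1, 1, 0, -6, 13), (1, 2, -1, 9, -25),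
      (1, 3, 1, -3, 6)]
  | 0, 2 => [(-1, 1, -1, 3, -8), (-1, 2, -1, 3, -4), (-1, 2, -1, 9, -25), (-1, 3, -1, -6, 27), (-1, 9, -5, -12, 51), (-1, 13, -6, 0, 1), (1, 1, 0, -3, 13), (1, 3, -2, 6, -15), (1, 3, -2, 15, -57), (1, 5, -2, -3, 11), (1, 9, -7, 3, -12),
      (1, 12, -7, 3, -9)]
  | 0, 3 => [(-1, 2, -1, -3, 17), (-1, 3, -2, -12, 69), (-1, 3, -2, -3, 27), (-1, 3, -2, 6, -15), (-1, 3, -2, 15, -57), (-1, 4, -3, -3, 19), (-1, 9, -7, 3, -12), (-1, 12, -7, 3, -9), (-1, 13, -10, 0, 1), (-1, 13, -9, 0, 1),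
      (-1, 13, -8, 0, 1), (-1, 13, -7, 0, 1), (-1, 15, -11, -3, 18), (1, 1, -1, 3, -8), (1, 1, -1, 6, -29), (1, 3, -4, 3, -15), (1, 3, -1, -6, 27), (1, 9, -5, -12, 51)]
  | 1, 0 => [(-1, 1, -1, 3, -8), (-1, 1, -1, 6, -29), (-1, 1, 4, 0, 13), (-1, 3, -4, 3, -15), (-1, 3, 1, -12, -15), (-1, 3, 1, -3, 6), (-1, 4, 1, -3, -2), (-1, 6, -13, 3, -39), (-1, 9, -8, 6, -33), (-1, 9, 2, 3, 9), (-1, 12, 5, 3, 12),
      (-1, 13, -13, 6, -41), (-1, 15, 13, 6, 39), (-1, 23, 6, 9, 17), (-1, 36, 13, 15, 39), (-1, 57, 13, 24, 39), (1, 1, 0, 0, 13), (1, 1, 0, 3, 13), (1, 1, 0, 6, 13), (1, 3, -2, -12, 69), (1, 3, -2, -3, 27), (1, 3, -1, 3, 6),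
      (1, 4, -3, -3, 19), (1, 6, -1, 3, 3), (1, 9, -7, 3, -12), (1, 9, 1, 6, 9), (1, 12, -7, 3, -9), (1, 13, 0, 6, 1), (1, 15, -2, 6, -3), (1, 23, -17, 9, -46), (1, 36, -23, 15, -66), (1, 57, -44, 24, -129)]
  | 1, 1 => [(-1, 3, -1, 3, 6), (-1, 3, -1, 12, -15), (-1, 4, -1, 3, -2), (-1, 5, -2, -3, 11), (-1, 10, -3, 3, -5), (-1, 27, -13, 12, -39), (-1, 48, -13, 21, -39), (1, 1, -1, 3, -8), (1, 1, 0, -6, 13), (1, 1, 4, 0, 13), (1, 2, -1, 9, -25),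
      (1, 3, -4, 3, -15), (1, 9, 2, 3, 9), (1, 20, -11, 9, -34), (1, 22, -3, 9, -8), (1, 41, -18, 18, -55)]
  | 1, 2 => [(-1, 1, -1, 3, -8), (-1, 2, -1, 3, -4), (-1, 2, -1, 9, -25), (-1, 3, -1, -6, 27), (-1, 5, -3, 3, -10), (-1, 9, -5, -12, 51), (-1, 20, -11, 9, -34), (-1, 41, -18, 18, -55), (1, 1, 0, -3, 13), (1, 3, -2, 6, -15),
      (1, 3, -2, 15, -57), (1, 5, -2, -3, 11), (1, 8, -1, 3, -1), (1, 10, -3, 3, -5), (1, 33, -23, 15, -72), (1, 75, -44, 33, -135)]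
  | 1, 3 => [(-1, 3, -2, -12, 69), (-1, 3, -2, -3, 27), (-1, 3, -2, 6, -15), (-1, 3, -2, 15, -57), (-1, 4, -3, -3, 19), (-1, 9, -7, 3, -12), (-1, 12, -7, 3, -9), (-1, 23, -17, 9, -46), (-1, 33, -23, 15, -72), (-1, 36, -23, 15, -66),
      (-1, 57, -44, 24, -129), (-1, 75, -44, 33, -135), (1, 1, -1, 3, -8), (1, 1, -1, 6, -29), (1, 3, -1, -6, 27), (1, 9, -8, 6, -33), (1, 9, -5, -12, 51), (1, 13, -13, 6, -41)]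
  | 2, 0 => [(-1, 1, -1, 3, -8), (-1, 1, -1, 6, -29), (-1, 1, 6, 0, 13), (-1, 2, 1, -3, -4), (-1, 3, -4, 3, -15), (-1, 3, 1, -12, -15), (-1, 3, 1, -3, 6), (-1, 4, 1, -3, -2), (-1, 6, -7, 3, -18), (-1, 9, -16, 3, -33), (-1, 10, -13, 3, -26),
      (-1, 11, 13, 3, 26), (-1, 12, 5, 3, 12), (-1, 13, 3, 0, 1), (-1, 15, 4, -3, -3), (-1, 24, 5, 3, 6), (-1, 32, 13, 9, 26), (-1, 45, 14, 12, 27), (-1, 51, -47, 15, -96), (-1, 53, 13, 15, 26), (1, 1, 0, 0, 13), (1, 1, 0, 3, 13),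
      (1, 1, 0, 6, 13), (1, 2, -1, -3, 17), (1, 3, -2, -12, 69), (1, 3, -2, -3, 27), (1, 3, -1, 3, 6), (1, 4, -3, -3, 19), (1, 6, -1, 3, 3), (1, 9, -7, 3, -12), (1, 10, -3, 3, -5), (1, 11, -9, 3, -16), (1, 12, -7, 3, -9),
      (1, 13, -10, 0, 1), (1, 15, -11, -3, 18), (1, 24, -19, 3, -15), (1, 32, -19, 9, -37), (1, 45, -31, 12, -57), (1, 51, 4, 15, 9), (1, 53, -40, 15, -79)]
  | 2, 1 => [(-1, 3, -1, 3, 6), (-1, 3, -1, 12, -15), (-1, 4, -1, 3, -2), (-1, 5, -2, -3, 11), (-1, 9, -7, 3, -12), (-1, 10, -3, 3, -5), (-1, 22, -9, 3, -8), (-1, 31, -13, 9, -26), (-1, 39, -13, 12, -27), (-1, 43, -15, 12, -29),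
      (-1, 52, -13, 15, -26), (1, 1, -1, 3, -8), (1, 1, 0, -6, 13), (1, 2, -1, 9, -25), (1, 5, -3, 3, -10), (1, 9, -16, 3, -33), (1, 17, -8, 6, -19), (1, 54, -5, 15, -9)]
  | 2, 2 => [(-1, 1, -1, 3, -8), (-1, 2, -1, 3, -4), (-1, 2, -1, 9, -25), (-1, 3, -1, -6, 27), (-1, 5, -3, 3, -10), (-1, 9, -5, -12, 51), (-1, 17, -8, 6, -19), (-1, 75, -37, 21, -72), (1, 1, 0, -3, 13), (1, 1, 6, 0, 13), (1, 3, -4, 3, -15),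
      (1, 3, -2, 6, -15), (1, 3, -2, 15, -57), (1, 5, -2, -3, 11), (1, 6, -7, 3, -18), (1, 9, -7, 3, -12), (1, 22, -9, 3, -8), (1, 43, -15, 12, -29)]
  | 2, 3 => [(-1, 2, -1, -3, 17), (-1, 3, -2, -12, 69), (-1, 3, -2, -3, 27), (-1, 3, -2, 6, -15), (-1, 3, -2, 15, -57), (-1, 4, -3, -3, 19), (-1, 9, -7, 3, -12), (-1, 11, -9, 3, -16), (-1, 12, -7, 3, -9), (-1, 13, -10, 0, 1),
      (-1, 15, -11, -3, 18), (-1, 24, -19, 3, -15), (-1, 32, -19, 9, -37), (-1, 45, -31, 12, -57), (-1, 53, -40, 15, -79), (1, 1, -1, 3, -8), (1, 1, -1, 6, -29), (1, 3, -1, -6, 27), (1, 9, -5, -12, 51), (1, 12, 5, 3, 12),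
      (1, 51, -47, 15, -96), (1, 75, -37, 21, -72)]
  | 3, 0 => [(-1, 1, -1, 3, -8), (-1, 1, -1, 6, -29), (-1, 1, 8, 0, 13), (-1, 2, 1, -3, -4), (-1, 3, -4, 3, -15), (-1, 3, 1, -12, -15), (-1, 3, 1, -3, 6), (-1, 4, 1, -3, -2), (-1, 6, -7, 3, -18), (-1, 12, -19, 3, -30), (-1, 13, -13, 3, -20),
      (-1, 13, 3, 0, 1), (-1, 15, 4, -3, -3), (-1, 15, 26, 3, 39), (-1, 16, 7, 3, 10), (-1, 24, 5, 3, 6), (-1, 27, -26, 6, -39), (-1, 41, -36, 9, -55), (-1, 57, 26, 12, 39), (-1, 99, 26, 21, 39), (1, 1, 0, 0, 13),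
      (1, 1, 0, 3, 13), (1, 1, 0, 6, 13), (1, 2, -1, -3, 17), (1, 3, -2, -12, 69), (1, 3, -2, -3, 27), (1, 3, -1, 3, 6), (1, 4, -3, -3, 19), (1, 6, -1, 3, 3), (1, 12, -7, 3, -9), (1, 13, -10, 0, 1), (1, 13, 0, 3, 1),
      (1, 15, -11, -3, 18), (1, 15, -4, 3, -3), (1, 16, -9, 3, -11), (1, 24, -19, 3, -15), (1, 27, 1, 6, 3), (1, 41, 5, 9, 8), (1, 57, -31, 12, -45), (1, 99, -73, 21, -108)]
  | 3, 1 => [(-1, 3, -1, 3, 6), (-1, 3, -1, 12, -15), (-1, 4, -1, 3, -2), (-1, 5, -2, -3, 11), (-1, 9, -7, 3, -12), (-1, 12, -7, 3, -9), (-1, 13, -5, 0, 1), (-1, 15, -4, 3, -3), (-1, 18, -7, 3, -6), (-1, 22, -9, 3, -8), (-1, 40, -11, 9, -17),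
      (-1, 69, -26, 15, -39), (-1, 111, -26, 24, -39), (1, 1, -1, 3, -8), (1, 1, 0, -6, 13), (1, 2, -1, 9, -25), (1, 3, 1, -3, 6), (1, 13, -13, 3, -20), (1, 13, -2, 0, 1), (1, 23, -5, 3, -4), (1, 29, -1, 6, -1),
      (1, 33, -8, 6, -9), (1, 36, -7, 3, -3), (1, 55, -27, 12, -41)]
  | 3, 2 => [(-1, 1, -1, 3, -8), (-1, 2, -1, 3, -4), (-1, 2, -1, 9, -25), (-1, 3, -1, -6, 27), (-1, 9, -5, -12, 51), (-1, 13, -13, 3, -20), (-1, 13, -6, 0, 1), (-1, 30, -19, 3, -12), (-1, 55, -27, 12, -41), (-1, 57, -31, 12, -45),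
      (-1, 117, -65, 24, -93), (1, 1, 0, -3, 13), (1, 3, -4, 3, -15), (1, 3, -2, 6, -15), (1, 3, -2, 15, -57), (1, 5, -2, -3, 11), (1, 9, -7, 3, -12), (1, 12, -19, 3, -30), (1, 12, -7, 3, -9), (1, 13, -5, 0, 1),
      (1, 22, -9, 3, -8), (1, 96, -61, 21, -93)]
  | 3, 3 => [(-1, 2, -1, -3, 17), (-1, 3, -2, -12, 69), (-1, 3, -2, -3, 27), (-1, 3, -2, 6, -15), (-1, 3, -2, 15, -57), (-1, 4, -3, -3, 19), (-1, 9, -7, 3, -12), (-1, 12, -7, 3, -9), (-1, 13, -10, 0, 1), (-1, 15, -11, -3, 18),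
      (-1, 16, -9, 3, -11), (-1, 24, -19, 3, -15), (-1, 96, -61, 21, -93), (-1, 99, -73, 21, -108), (1, 1, -1, 3, -8), (1, 1, -1, 6, -29), (1, 1, 8, 0, 13), (1, 3, -1, -6, 27), (1, 6, -7, 3, -18), (1, 9, -5, -12, 51),
      (1, 13, -13, 3, -20), (1, 13, -6, 0, 1), (1, 18, -7, 3, -6), (1, 30, -19, 3, -12), (1, 41, -36, 9, -55), (1, 117, -65, 24, -93)]

end Pool.Agent.Helper14.TK7
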