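import Pool.Agent.Helper4.S7.Tm

/-!
# Project TK (levels `3·7^n`): row 0 of `T_47`

A term `(k, a, b, c, d)` stands for `k` times the operator of `(a b; 7c d)` (`Helper4/S7/Tm.lean`; `mulL`, `sclL`, `Gd` of W7 are used unchanged). `F_f(g) = G(g e_f) - G(g 0)` with `e_0 = ∞`, `e_1 = 1/3`, `e_2 = 1/2`, `e_3 = 2/3`.
The rows of `T_l` are computed with the residues `-(l-1)/2, ..., (l-1)/2` (`0, 1` for `l = 2`).
-/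

set_option autoImplicit false

namespace Pool.Agent.Helper14.TK7

open Pool.Agent.Helper4.S7 (Tm mulT mulL sclL Gd)

/-- Row 0 of `T_47`. -/
def T47K0 : Fin 4 → List Tm
  | 0 => [(-1, 1, -3, 3, -16), (-1, 1, -1, 6, 5), (-1, 1, -1, 9, -16), (-1, 1, -1, 12, -37), (-1, 1, -1, 15, -58), (-1, 1, -1, 18, -79), (-1, 1, -1, 21, -100), (-1, 1, -1, 24, -121), (-1, 1, -1, 27, -142), (-1, 1, -1, 30, -163),
      (-1, 1, 1, -6, 5), (-1, 1, 2, -3, 5), (-1, 2, -3, 3, -8), (-1, 2, 1, -9, -8), (-1, 2, 1, -3, 13), (-1, 3, -8, 3, -9), (-1, 3, -4, 6, -9), (-1, 3, 1, -42, -51), (-1, 3, 1, -33, -30), (-1, 3, 1, -24, -9), (-1, 3, 1, -15, 12),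
      (-1, 3, 2, -12, -9), (-1, 3, 4, -6, -9), (-1, 3, 5, -3, 12), (-1, 4, 1, -9, -4), (-1, 4, 3, -3, -4), (-1, 5, -4, 9, -41), (-1, 5, 2, -3, 1), (-1, 6, -11, 3, -15), (-1, 6, -5, 21, -99), (-1, 6, -5, 39, -204),
      (-1, 6, 5, -3, 6), (-1, 8, 3, -3, -2), (-1, 9, -8, 3, -3), (-1, 9, 4, -6, -3), (-1, 9, 8, -3, -3), (-1, 12, 5, -3, 3), (-1, 15, -13, 6, -27), (-1, 18, -17, 3, -12), (-1, 25, 7, -3, -4), (-1, 27, -26, 3, -15),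
      (-1, 30, 11, -3, -3), (-1, 48, -41, 3, -15), (-1, 51, 14, -3, -3), (-1, 72, 17, -3, -3), (1, 1, 0, -6, 47), (1, 1, 0, -3, 47), (1, 1, 0, 0, 47), (1, 1, 0, 3, 47), (1, 1, 0, 6, 47), (1, 1, 0, 9, 47), (1, 1, 0, 12, 47),
      (1, 1, 0, 15, 47), (1, 1, 0, 18, 47), (1, 1, 0, 21, 47), (1, 1, 0, 24, 47), (1, 1, 0, 27, 47), (1, 1, 0, 30, 47), (1, 2, -1, -9, 55), (1, 2, -1, -3, 34), (1, 2, -1, 3, 13), (1, 3, -2, -42, 243), (1, 3, -2, -33, 201),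
      (1, 3, -2, -24, 159), (1, 3, -2, -15, 117), (1, 3, -2, -6, 75), (1, 3, -2, 3, 33), (1, 3, -1, -12, 75), (1, 3, -1, -3, 54), (1, 3, -1, 6, 33), (1, 4, -3, -9, 59), (1, 4, -1, -3, 17), (1, 5, -3, -3, 22), (1, 5, 1, 9, 22),
      (1, 6, -1, -3, 27), (1, 6, 1, 3, 27), (1, 6, 1, 21, 48), (1, 6, 1, 39, 69), (1, 8, -5, -3, 19), (1, 9, -5, -6, 39), (1, 9, -1, -3, 18), (1, 9, 1, 3, 18), (1, 12, -7, -3, 24), (1, 15, 2, 6, 15), (1, 18, 1, 3, 9),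
      (1, 25, -18, -3, 17), (1, 27, 1, 3, 6), (1, 30, -19, -3, 18), (1, 47, -37, 0, 1), (1, 47, -36, 0, 1), (1, 47, -35, 0, 1), (1, 47, -34, 0, 1), (1, 47, -33, 0, 1), (1, 47, -32, 0, 1), (1, 47, -31, 0, 1), (1, 47, -30, 0, 1),
      (1, 47, -29, 0, 1), (1, 47, -28, 0, 1), (1, 47, -27, 0, 1), (1, 47, -26, 0, 1), (1, 47, -25, 0, 1), (1, 47, -24, 0, 1), (1, 47, -23, 0, 1), (1, 47, -22, 0, 1), (1, 47, -21, 0, 1), (1, 47, -20, 0, 1), (1, 47, -19, 0, 1),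
      (1, 47, -18, 0, 1), (1, 47, -17, 0, 1), (1, 47, -16, 0, 1), (1, 47, -15, 0, 1), (1, 47, -14, 0, 1), (1, 47, -13, 0, 1), (1, 47, -12, 0, 1), (1, 47, -11, 0, 1), (1, 47, -10, 0, 1), (1, 47, -9, 0, 1), (1, 47, -8, 0, 1),
      (1, 47, -7, 0, 1), (1, 47, -6, 0, 1), (1, 47, -5, 0, 1), (1, 47, -4, 0, 1), (1, 47, -3, 0, 1), (1, 47, -2, 0, 1), (1, 47, -1, 0, 1), (1, 47, 0, 0, 1), (1, 47, 1, 0, 1), (1, 47, 2, 0, 1), (1, 47, 3, 0, 1), (1, 47, 4, 0, 1),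
      (1, 47, 5, 0, 1), (1, 47, 6, 0, 1), (1, 47, 7, 0, 1), (1, 47, 8, 0, 1), (1, 47, 9, 0, 1), (1, 48, 7, 3, 6), (1, 51, -37, -3, 18), (1, 72, -55, -3, 18)]
  | 1 => [(-1, 3, -2, 12, -9), (-1, 3, -1, -3, 54), (-1, 3, -1, 6, 33), (-1, 3, -1, 15, 12), (-1, 3, -1, 24, -9), (-1, 3, -1, 33, -30), (-1, 3, -1, 42, -51), (-1, 4, -1, -3, 17), (-1, 4, -1, 9, -4), (-1, 5, -2, -27, 85),
      (-1, 5, -2, -12, 43), (-1, 5, -2, 3, 1), (-1, 8, -3, 3, -2), (-1, 9, -4, 6, -3), (-1, 10, -3, -3, 11), (-1, 11, -3, -3, 10), (-1, 12, -5, 3, 3), (-1, 15, -4, -3, 15), (-1, 25, -7, 3, -4), (-1, 30, -11, 3, -3),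
      (-1, 47, -20, 0, 1), (-1, 47, -19, 0, 1), (-1, 47, -18, 0, 1), (-1, 47, -17, 0, 1), (-1, 47, -16, 0, 1), (-1, 47, -15, 0, 1), (-1, 47, -14, 0, 1), (-1, 47, -13, 0, 1), (-1, 47, -12, 0, 1), (-1, 47, -11, 0, 1),
      (-1, 47, -10, 0, 1), (-1, 51, -14, 3, -3), (-1, 72, -17, 3, -3), (1, 1, -1, 9, -16), (1, 1, 0, -30, 47), (1, 1, 0, -27, 47), (1, 1, 0, -24, 47), (1, 1, 0, -21, 47), (1, 1, 0, -18, 47), (1, 1, 2, -3, 5), (1, 2, -3, 3, -8),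
      (1, 2, -1, 15, -29), (1, 2, -1, 21, -50), (1, 2, -1, 27, -71), (1, 2, -1, 33, -92), (1, 2, -1, 39, -113), (1, 3, 5, -3, 12), (1, 5, -1, -9, 22), (1, 6, -1, -39, 69), (1, 6, -1, -21, 48), (1, 6, 5, -3, 6),
      (1, 15, -11, 3, -6), (1, 15, -2, -6, 15), (1, 18, -1, -3, 9), (1, 23, -11, 3, -8), (1, 27, -1, -3, 6), (1, 44, -19, 3, -8), (1, 48, -7, -3, 6)]
  | 2 => [(-1, 2, -1, 3, 13), (-1, 2, -1, 9, -8), (-1, 2, -1, 15, -29), (-1, 2, -1, 21, -50), (-1, 2, -1, 27, -71), (-1, 2, -1, 33, -92), (-1, 2, -1, 39, -113), (-1, 3, -1, -21, 96), (-1, 3, -1, -12, 75), (-1, 4, -3, 3, -4),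
      (-1, 9, -5, -33, 144), (-1, 9, -5, -6, 39), (-1, 15, -8, -24, 99), (-1, 23, -11, 3, -8), (-1, 27, -14, -6, 27), (-1, 36, -19, -3, 15), (-1, 44, -19, 3, -8), (-1, 47, -23, 0, 1), (-1, 47, -22, 0, 1), (-1, 47, -21, 0, 1),
      (1, 1, 0, -15, 47), (1, 1, 0, -12, 47), (1, 3, -8, 3, -9), (1, 3, -2, 12, -9), (1, 3, -2, 21, -51), (1, 3, -2, 30, -93), (1, 3, -2, 39, -135), (1, 3, -2, 48, -177), (1, 3, -2, 57, -219), (1, 3, -2, 66, -261),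
      (1, 4, -1, -3, 17), (1, 5, -2, -27, 85), (1, 5, -2, -12, 43), (1, 10, -3, -3, 11), (1, 11, -3, -3, 10), (1, 18, -17, 3, -12), (1, 24, -17, 3, -9), (1, 27, -16, 15, -57), (1, 39, -29, 3, -12), (1, 60, -41, 3, -12)]
  | 3 => [(-1, 2, -1, -9, 55), (-1, 2, -1, -3, 34), (-1, 3, -2, -42, 243), (-1, 3, -2, -33, 201), (-1, 3, -2, -24, 159), (-1, 3, -2, -15, 117), (-1, 3, -2, -6, 75), (-1, 3, -2, 3, 33), (-1, 3, -2, 12, -9), (-1, 3, -2, 21, -51),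
      (-1, 3, -2, 30, -93), (-1, 3, -2, 39, -135), (-1, 3, -2, 48, -177), (-1, 3, -2, 57, -219), (-1, 3, -2, 66, -261), (-1, 4, -3, -9, 59), (-1, 4, -1, -3, 17), (-1, 5, -3, -3, 22), (-1, 8, -5, -3, 19), (-1, 12, -7, -3, 24),
      (-1, 15, -11, 3, -6), (-1, 24, -17, 3, -9), (-1, 25, -18, -3, 17), (-1, 27, -16, 15, -57), (-1, 30, -19, -3, 18), (-1, 39, -29, 3, -12), (-1, 47, -37, 0, 1), (-1, 47, -36, 0, 1), (-1, 47, -35, 0, 1), (-1, 47, -34, 0, 1),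
      (-1, 47, -33, 0, 1), (-1, 47, -32, 0, 1), (-1, 47, -31, 0, 1), (-1, 47, -30, 0, 1), (-1, 47, -29, 0, 1), (-1, 47, -28, 0, 1), (-1, 47, -27, 0, 1), (-1, 47, -26, 0, 1), (-1, 47, -25, 0, 1), (-1, 47, -24, 0, 1),
      (-1, 51, -37, -3, 18), (-1, 60, -41, 3, -12), (-1, 72, -55, -3, 18), (1, 1, -3, 3, -16), (1, 1, -1, 12, -37), (1, 1, -1, 15, -58), (1, 1, -1, 18, -79), (1, 1, -1, 21, -100), (1, 1, -1, 24, -121), (1, 1, -1, 27, -142),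
      (1, 1, -1, 30, -163), (1, 1, 0, -9, 47), (1, 2, 1, -3, 13), (1, 3, -1, -21, 96), (1, 5, -4, 9, -41), (1, 6, -11, 3, -15), (1, 6, -5, 21, -99), (1, 6, -5, 39, -204), (1, 9, -5, -33, 144), (1, 15, -13, 6, -27),
      (1, 15, -8, -24, 99), (1, 15, -4, -3, 15), (1, 27, -26, 3, -15), (1, 27, -14, -6, 27), (1, 36, -19, -3, 15), (1, 48, -41, 3, -15)]

end Pool.Agent.Helper14.TK7
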