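import Pool.Agent.Helper4.S7.Tm

/-!
# Project TK (levels `3·7^n`): row 1 of `T_47`

A term `(k, a, b, c, d)` stands for `k` times the operator of `(a b; 7c d)` (`Helper4/S7/Tm.lean`; `mulL`, `sclL`, `Gd` of W7 are used unchanged). `F_f(g) = G(g e_f) - G(g 0)` with `e_0 = ∞`, `e_1 = 1/3`, `e_2 = 1/2`, `e_3 = 2/3`.
The rows of `T_l` are computed with the residues `-(l-1)/2, ..., (l-1)/2` (`0, 1` for `l = 2`).
-/

set_option autoImplicit false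

namespace Pool.Agent.Helper14.TK7

open Pool.Agent.Helper4.S7 (Tm mulT mulL sclL Gd)

/-- Row 1 of `T_47`. -/
def T47K1 : Fin 4 → List Tm
  | 0 => [(-1, 1, -3, 3, -16), (-1, 1, -1, 6, 5), (-1, 1, -1, 9, -16), (-1, 1, -1, 12, -37), (-1, 1, -1, 15, -58), (-1, 1, -1, 18, -79), (-1, 1, -1, 21, -100), (-1, 1, -1, 24, -121), (-1, 1, -1, 27, -142), (-1, 1, -1, 30, -163),
      (-1, 1, 1, -6, 5), (-1, 1, 2, -3, 5), (-1, 1, 15, 0, 47), (-1, 2, -3, 3, -8), (-1, 2, 1, -9, -8), (-1, 2, 1, -3, 13), (-1, 3, -14, 3, -51), (-1, 3, -4, 6, -9), (-1, 3, 1, -42, -51), (-1, 3, 1, -33, -30), (-1, 3, 1, -24, -9),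
      (-1, 3, 1, -15, 12), (-1, 3, 1, -6, 33), (-1, 3, 2, -12, -9), (-1, 3, 5, -3, 12), (-1, 4, -7, 3, -25), (-1, 4, 1, -9, -4), (-1, 5, -7, 3, -20), (-1, 5, -4, 9, -41), (-1, 5, 2, -3, 1), (-1, 6, -47, 3, -141),
      (-1, 6, -5, 21, -99), (-1, 6, -5, 39, -204), (-1, 8, 3, -3, -2), (-1, 8, 13, 3, 40), (-1, 9, -13, 6, -45), (-1, 9, 4, -6, -3), (-1, 9, 19, 3, 60), (-1, 10, 3, 3, 11), (-1, 11, 3, 3, 10), (-1, 12, 5, -3, 3),
      (-1, 12, 7, 3, 24), (-1, 13, -20, 6, -61), (-1, 15, 4, 3, 15), (-1, 15, 47, 6, 141), (-1, 19, 5, 3, 8), (-1, 20, -29, 9, -89), (-1, 23, -20, 12, -71), (-1, 23, 4, 9, 13), (-1, 23, 6, 6, 13), (-1, 24, 7, 3, 12),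
      (-1, 25, 6, 9, 17), (-1, 27, -47, 12, -141), (-1, 29, 6, 12, 19), (-1, 31, 7, 6, 11), (-1, 33, -40, 15, -123), (-1, 33, 16, 12, 45), (-1, 36, 47, 15, 141), (-1, 37, 14, 15, 41), (-1, 39, 10, 3, 9), (-1, 41, -43, 18, -131),
      (-1, 48, -47, 21, -141), (-1, 48, 11, 15, 27), (-1, 54, 11, 15, 24), (-1, 57, 13, 21, 36), (-1, 57, 47, 24, 141), (-1, 62, -57, 27, -173), (-1, 75, -61, 33, -186), (-1, 78, 47, 33, 141), (-1, 79, 21, 33, 62),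
      (-1, 83, -71, 36, -215), (-1, 87, -77, 39, -240), (-1, 99, 47, 42, 141), (-1, 104, -85, 45, -257), (-1, 120, 47, 51, 141), (-1, 141, 47, 60, 141), (-1, 162, 47, 69, 141), (-1, 183, 47, 78, 141), (-1, 204, 47, 87, 141),
      (1, 1, 0, -6, 47), (1, 1, 0, -3, 47), (1, 1, 0, 0, 47), (1, 1, 0, 3, 47), (1, 1, 0, 6, 47), (1, 1, 0, 9, 47), (1, 1, 0, 12, 47), (1, 1, 0, 15, 47), (1, 1, 0, 18, 47), (1, 1, 0, 21, 47), (1, 1, 0, 24, 47), (1, 1, 0, 27, 47),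
      (1, 1, 0, 30, 47), (1, 2, -1, -9, 55), (1, 2, -1, -3, 34), (1, 2, -1, 3, 13), (1, 3, -2, -42, 243), (1, 3, -2, -33, 201), (1, 3, -2, -24, 159), (1, 3, -2, -15, 117), (1, 3, -2, -6, 75), (1, 3, -2, 3, 33),
      (1, 3, -1, -12, 75), (1, 3, -1, -3, 54), (1, 3, -1, 6, 33), (1, 4, -3, -9, 59), (1, 4, -3, 3, -4), (1, 5, -3, -3, 22), (1, 5, -2, 3, 1), (1, 5, 1, 9, 22), (1, 6, 1, 3, 27), (1, 6, 1, 21, 48), (1, 6, 1, 39, 69),
      (1, 8, -5, -3, 19), (1, 8, -3, 3, -2), (1, 9, -5, -6, 39), (1, 9, -4, 6, -3), (1, 9, 1, 3, 18), (1, 10, -7, 3, -10), (1, 11, -8, 3, -11), (1, 12, -7, -3, 24), (1, 12, -5, 3, 3), (1, 13, -7, 6, -19), (1, 15, -11, 3, -6),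
      (1, 15, 2, 6, 15), (1, 19, -14, 3, -13), (1, 20, -9, 9, -26), (1, 23, -19, 9, -50), (1, 23, -17, 6, -29), (1, 23, 3, 12, 13), (1, 24, -17, 3, -9), (1, 25, -19, 9, -46), (1, 27, -20, 12, -57), (1, 29, -23, 12, -65),
      (1, 31, -24, 6, -31), (1, 33, -17, 12, -39), (1, 33, -7, 15, -18), (1, 36, -25, 15, -69), (1, 37, -23, 15, -64), (1, 39, -29, 3, -12), (1, 41, -2, 18, -5), (1, 48, -37, 15, -78), (1, 48, 1, 21, 6), (1, 54, -43, 15, -81),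
      (1, 57, -44, 21, -111), (1, 57, -10, 24, -27), (1, 62, 5, 27, 16), (1, 75, 14, 33, 45), (1, 78, -31, 33, -90), (1, 79, -58, 33, -169), (1, 83, 12, 36, 37), (1, 87, 10, 39, 33), (1, 99, -52, 42, -153), (1, 104, 19, 45, 58),
      (1, 120, -73, 51, -216), (1, 141, -94, 60, -279), (1, 162, -115, 69, -342), (1, 183, -136, 78, -405), (1, 204, -157, 87, -468)]
  | 1 => [(-1, 3, -8, 3, -9), (-1, 3, -2, 12, -9), (-1, 3, -1, -3, 54), (-1, 3, -1, 6, 33), (-1, 3, -1, 15, 12), (-1, 3, -1, 24, -9), (-1, 3, -1, 33, -30), (-1, 3, -1, 42, -51), (-1, 4, -1, -3, 17), (-1, 4, -1, 9, -4),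
      (-1, 5, -2, -27, 85), (-1, 5, -2, -12, 43), (-1, 5, -2, 3, 1), (-1, 8, -3, 3, -2), (-1, 9, -4, 6, -3), (-1, 11, -4, 6, -11), (-1, 12, -5, 3, 3), (-1, 15, -4, -3, 15), (-1, 17, -8, 6, -17), (-1, 19, -7, 6, -13),
      (-1, 20, -9, 9, -26), (-1, 25, -8, 12, -25), (-1, 26, -9, 9, -20), (-1, 31, -12, 12, -31), (-1, 43, -13, 18, -37), (-1, 47, -20, 0, 1), (-1, 59, -21, 24, -59), (-1, 61, -18, 27, -55), (-1, 64, -27, 27, -79),
      (-1, 90, -47, 39, -141), (-1, 111, -47, 48, -141), (-1, 132, -47, 57, -141), (-1, 153, -47, 66, -141), (-1, 174, -47, 75, -141), (-1, 195, -47, 84, -141), (1, 1, -3, 3, -16), (1, 1, -1, 9, -16), (1, 1, 0, -30, 47),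
      (1, 1, 0, -27, 47), (1, 1, 0, -24, 47), (1, 1, 0, -21, 47), (1, 1, 0, -18, 47), (1, 2, -1, 15, -29), (1, 2, -1, 21, -50), (1, 2, -1, 27, -71), (1, 2, -1, 33, -92), (1, 2, -1, 39, -113), (1, 2, 1, -3, 13), (1, 5, -1, -9, 22),
      (1, 6, -1, -39, 69), (1, 6, -1, -21, 48), (1, 8, 13, 3, 40), (1, 9, 19, 3, 60), (1, 10, 3, 3, 11), (1, 13, -20, 6, -61), (1, 13, -1, 3, 2), (1, 15, -2, -6, 15), (1, 16, -3, 3, -1), (1, 17, -11, 9, -38), (1, 29, 6, 12, 19),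
      (1, 34, -27, 15, -82), (1, 39, 2, 15, 9), (1, 50, -1, 21, -2), (1, 51, -2, 21, -3), (1, 55, -34, 24, -103), (1, 71, -8, 30, -23), (1, 76, -41, 33, -124), (1, 92, -15, 39, -44), (1, 97, -48, 42, -145), (1, 113, -22, 48, -65),
      (1, 118, -55, 51, -166), (1, 123, -19, 51, -54), (1, 139, -62, 60, -187), (1, 160, -69, 69, -208)]
  | 2 => [(-1, 1, -3, 3, -16), (-1, 2, -1, 3, 13), (-1, 2, -1, 9, -8), (-1, 2, -1, 15, -29), (-1, 2, -1, 21, -50), (-1, 2, -1, 27, -71), (-1, 2, -1, 33, -92), (-1, 2, -1, 39, -113), (-1, 2, 1, -3, 13), (-1, 3, -1, -21, 96),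
      (-1, 3, -1, -12, 75), (-1, 4, -3, 3, -4), (-1, 9, -5, -33, 144), (-1, 9, -5, -6, 39), (-1, 10, -7, 3, -10), (-1, 13, -7, 6, -19), (-1, 15, -8, -24, 99), (-1, 17, -11, 9, -38), (-1, 19, -11, 9, -34), (-1, 27, -14, -6, 27),
      (-1, 27, -13, 6, -15), (-1, 33, -17, 12, -39), (-1, 34, -27, 15, -82), (-1, 45, -26, 3, -9), (-1, 51, -29, 12, -45), (-1, 54, -23, 21, -60), (-1, 55, -34, 24, -103), (-1, 76, -41, 33, -124), (-1, 78, -31, 33, -90),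
      (-1, 97, -48, 42, -145), (-1, 99, -52, 42, -153), (-1, 118, -55, 51, -166), (-1, 139, -62, 60, -187), (-1, 159, -86, 66, -249), (-1, 160, -69, 69, -208), (1, 1, 0, -15, 47), (1, 1, 0, -12, 47), (1, 3, -8, 3, -9),
      (1, 3, -2, 12, -9), (1, 3, -2, 21, -51), (1, 3, -2, 30, -93), (1, 3, -2, 39, -135), (1, 3, -2, 48, -177), (1, 3, -2, 57, -219), (1, 3, -2, 66, -261), (1, 4, -7, 3, -25), (1, 4, -1, -3, 17), (1, 5, -2, -27, 85),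
      (1, 5, -2, -12, 43), (1, 9, -13, 6, -45), (1, 9, -1, -3, 18), (1, 15, -4, -3, 15), (1, 17, -8, 6, -17), (1, 19, -7, 6, -13), (1, 26, -9, 9, -20), (1, 27, -16, 15, -57), (1, 31, -12, 12, -31), (1, 33, -40, 15, -123),
      (1, 36, -23, 21, -90), (1, 43, -13, 18, -37), (1, 47, -20, 0, 1), (1, 59, -21, 24, -59), (1, 64, -27, 27, -79), (1, 75, -61, 33, -186), (1, 117, -82, 51, -249), (1, 159, -103, 69, -312), (1, 201, -124, 87, -375),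
      (1, 243, -145, 105, -438)]
  | 3 => [(-1, 2, -1, -9, 55), (-1, 2, -1, -3, 34), (-1, 3, -2, -42, 243), (-1, 3, -2, -33, 201), (-1, 3, -2, -24, 159), (-1, 3, -2, -15, 117), (-1, 3, -2, -6, 75), (-1, 3, -2, 3, 33), (-1, 3, -2, 12, -9), (-1, 3, -2, 21, -51),
      (-1, 3, -2, 30, -93), (-1, 3, -2, 39, -135), (-1, 3, -2, 48, -177), (-1, 3, -2, 57, -219), (-1, 3, -2, 66, -261), (-1, 4, -3, -9, 59), (-1, 5, -3, -3, 22), (-1, 8, -5, -3, 19), (-1, 11, -8, 3, -11), (-1, 12, -7, -3, 24),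
      (-1, 15, -11, 3, -6), (-1, 19, -14, 3, -13), (-1, 23, -19, 9, -50), (-1, 23, -17, 6, -29), (-1, 24, -17, 3, -9), (-1, 25, -19, 9, -46), (-1, 27, -20, 12, -57), (-1, 27, -16, 15, -57), (-1, 29, -23, 12, -65),
      (-1, 31, -24, 6, -31), (-1, 36, -25, 15, -69), (-1, 36, -23, 21, -90), (-1, 37, -23, 15, -64), (-1, 39, -29, 3, -12), (-1, 48, -37, 15, -78), (-1, 54, -43, 15, -81), (-1, 57, -44, 21, -111), (-1, 69, -47, 30, -141),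
      (-1, 79, -58, 33, -169), (-1, 117, -82, 51, -249), (-1, 120, -73, 51, -216), (-1, 141, -94, 60, -279), (-1, 159, -103, 69, -312), (-1, 162, -115, 69, -342), (-1, 183, -136, 78, -405), (-1, 201, -124, 87, -375),
      (-1, 204, -157, 87, -468), (-1, 243, -145, 105, -438), (1, 1, -3, 3, -16), (1, 1, -1, 12, -37), (1, 1, -1, 15, -58), (1, 1, -1, 18, -79), (1, 1, -1, 21, -100), (1, 1, -1, 24, -121), (1, 1, -1, 27, -142),
      (1, 1, -1, 30, -163), (1, 1, 0, -9, 47), (1, 1, 15, 0, 47), (1, 2, 1, -3, 13), (1, 3, -14, 3, -51), (1, 3, -1, -21, 96), (1, 3, 1, -6, 33), (1, 5, -4, 9, -41), (1, 6, -5, 21, -99), (1, 6, -5, 39, -204), (1, 6, -1, -3, 27),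
      (1, 9, -5, -33, 144), (1, 15, -8, -24, 99), (1, 20, -29, 9, -89), (1, 22, 1, 9, 5), (1, 23, -20, 12, -71), (1, 27, -14, -6, 27), (1, 27, -13, 6, -15), (1, 41, -43, 18, -131), (1, 45, -26, 3, -9), (1, 51, -29, 12, -45),
      (1, 54, -23, 21, -60), (1, 62, -57, 27, -173), (1, 83, -71, 36, -215), (1, 87, -77, 39, -240), (1, 104, -85, 45, -257), (1, 159, -86, 66, -249)]

end Pool.Agent.Helper14.TK7
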