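import Pool.Agent.Helper4.S7.Tm

/-!
# Project TK (levels `3·7^n`): row 2 of `T_47`

A term `(k, a, b, c, d)` stands for `k` times the operator of `(a b; 7c d)` (`Helper4/S7/Tm.lean`; `mulL`, `sclL`, `Gd` of W7 are used unchanged). `F_f(g) = G(g e_f) - G(g 0)` with `e_0 = ∞`, `e_1 = 1/3`, `e_2 = 1/2`, `e_3 = 2/3`.
The rows of `T_l` are computed with the residues `-(l-1)/2, ..., (l-1)/2` (`0, 1` for `l = 2`).
-/

set_option autoImplicit false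

namespace Pool.Agent.Helper14.TK7

open Pool.Agent.Helper4.S7 (Tm mulT mulL sclL Gd)

/-- Row 2 of `T_47`. -/
def T47K2 : Fin 4 → List Tm
  | 0 => [(-1, 1, -3, 3, -16), (-1, 1, -1, 6, 5), (-1, 1, -1, 9, -16), (-1, 1, -1, 12, -37), (-1, 1, -1, 15, -58), (-1, 1, -1, 18, -79), (-1, 1, -1, 21, -100), (-1, 1, -1, 24, -121), (-1, 1, -1, 27, -142), (-1, 1, -1, 30, -163),
      (-1, 1, 1, -6, 5), (-1, 1, 2, -3, 5), (-1, 1, 23, 0, 47), (-1, 2, -3, 3, -8), (-1, 2, 1, -9, -8), (-1, 2, 1, -3, 13), (-1, 3, -11, 3, -30), (-1, 3, -4, 6, -9), (-1, 3, 1, -42, -51), (-1, 3, 1, -33, -30), (-1, 3, 1, -24, -9),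
      (-1, 3, 1, -15, 12), (-1, 3, 1, -6, 33), (-1, 3, 2, -12, -9), (-1, 3, 5, -3, 12), (-1, 4, 1, -9, -4), (-1, 5, -7, 3, -20), (-1, 5, -4, 9, -41), (-1, 5, 2, -3, 1), (-1, 6, -17, 3, -36), (-1, 6, -5, 21, -99),
      (-1, 6, -5, 39, -204), (-1, 6, 5, -3, 6), (-1, 8, -11, 3, -23), (-1, 8, 3, -3, -2), (-1, 9, -53, 3, -108), (-1, 9, 4, -6, -3), (-1, 10, -47, 3, -94), (-1, 11, 47, 3, 94), (-1, 12, 5, -3, 3), (-1, 12, 43, 3, 87),
      (-1, 13, 12, 3, 23), (-1, 15, -13, 6, -27), (-1, 15, 4, 3, 15), (-1, 19, -26, 6, -55), (-1, 19, 5, 3, 8), (-1, 23, 6, 6, 13), (-1, 24, 7, 3, 12), (-1, 25, 9, 6, 17), (-1, 27, 14, 6, 27), (-1, 31, -47, 9, -94),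
      (-1, 31, 7, 6, 11), (-1, 32, 47, 9, 94), (-1, 37, 11, 9, 20), (-1, 39, 10, 3, 9), (-1, 41, -44, 12, -89), (-1, 45, 16, 12, 33), (-1, 51, -64, 15, -129), (-1, 52, -47, 15, -94), (-1, 53, 47, 15, 94), (-1, 54, 11, 15, 24),
      (-1, 72, -95, 21, -192), (-1, 74, 47, 21, 94), (-1, 75, 22, 21, 45), (-1, 87, 38, 24, 75), (-1, 95, 47, 27, 94), (-1, 103, -89, 30, -181), (-1, 116, 47, 33, 94), (-1, 120, 29, 33, 57), (-1, 135, -137, 39, -276),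
      (-1, 137, 47, 39, 94), (-1, 158, 47, 45, 94), (-1, 179, 47, 51, 94), (-1, 198, -179, 57, -360), (-1, 200, 47, 57, 94), (-1, 213, 59, 60, 117), (-1, 261, -221, 75, -444), (-1, 324, -263, 93, -528), (1, 1, 0, -6, 47),
      (1, 1, 0, -3, 47), (1, 1, 0, 0, 47), (1, 1, 0, 3, 47), (1, 1, 0, 6, 47), (1, 1, 0, 9, 47), (1, 1, 0, 12, 47), (1, 1, 0, 15, 47), (1, 1, 0, 18, 47), (1, 1, 0, 21, 47), (1, 1, 0, 24, 47), (1, 1, 0, 27, 47), (1, 1, 0, 30, 47),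
      (1, 2, -1, -9, 55), (1, 2, -1, -3, 34), (1, 2, -1, 3, 13), (1, 3, -2, -42, 243), (1, 3, -2, -33, 201), (1, 3, -2, -24, 159), (1, 3, -2, -15, 117), (1, 3, -2, -6, 75), (1, 3, -2, 3, 33), (1, 3, -1, -12, 75),
      (1, 3, -1, -3, 54), (1, 3, -1, 6, 33), (1, 4, -3, -9, 59), (1, 5, -3, -3, 22), (1, 5, -2, 3, 1), (1, 5, 1, 9, 22), (1, 6, -1, -3, 27), (1, 6, 1, 3, 27), (1, 6, 1, 21, 48), (1, 6, 1, 39, 69), (1, 8, -5, -3, 19),
      (1, 8, -3, 3, -2), (1, 9, -5, -6, 39), (1, 9, 1, 3, 18), (1, 10, -7, 3, -10), (1, 11, -8, 3, -11), (1, 12, -7, -3, 24), (1, 12, -5, 3, 3), (1, 13, -1, 3, 2), (1, 15, -11, 3, -6), (1, 15, 2, 6, 15), (1, 19, -14, 3, -13),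
      (1, 19, -7, 6, -13), (1, 23, -17, 6, -29), (1, 24, -17, 3, -9), (1, 25, -16, 6, -25), (1, 27, -13, 6, -15), (1, 31, -24, 6, -31), (1, 31, -16, 9, -31), (1, 32, -17, 9, -32), (1, 37, -26, 9, -43), (1, 39, -29, 3, -12),
      (1, 41, -3, 12, -5), (1, 45, -29, 12, -51), (1, 51, -13, 15, -24), (1, 52, 5, 15, 11), (1, 53, -6, 15, -11), (1, 54, -43, 15, -81), (1, 72, -23, 21, -45), (1, 74, -27, 21, -53), (1, 75, -53, 21, -102), (1, 87, -49, 24, -93),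
      (1, 95, -48, 27, -95), (1, 103, 14, 30, 29), (1, 116, -69, 33, -137), (1, 120, -91, 33, -174), (1, 135, -2, 39, -3), (1, 137, -90, 39, -179), (1, 158, -111, 45, -221), (1, 179, -132, 51, -263), (1, 198, 19, 57, 39),
      (1, 200, -153, 57, -305), (1, 213, -154, 60, -303), (1, 261, 40, 75, 81), (1, 324, 61, 93, 123)]
  | 1 => [(-1, 3, -8, 3, -9), (-1, 3, -2, 12, -9), (-1, 3, -1, -3, 54), (-1, 3, -1, 6, 33), (-1, 3, -1, 15, 12), (-1, 3, -1, 24, -9), (-1, 3, -1, 33, -30), (-1, 3, -1, 42, -51), (-1, 4, -1, -3, 17), (-1, 4, -1, 9, -4),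
      (-1, 5, -2, -27, 85), (-1, 5, -2, -12, 43), (-1, 5, -2, 3, 1), (-1, 8, -3, 3, -2), (-1, 9, -4, 6, -3), (-1, 11, -4, 6, -11), (-1, 12, -5, 3, 3), (-1, 15, -13, 6, -27), (-1, 15, -4, -3, 15), (-1, 17, -8, 6, -17),
      (-1, 19, -7, 6, -13), (-1, 20, -7, 3, -5), (-1, 26, -9, 9, -20), (-1, 34, -11, 9, -19), (-1, 39, -17, 12, -33), (-1, 46, -19, 9, -25), (-1, 47, -20, 0, 1), (-1, 51, -13, 15, -24), (-1, 72, -23, 21, -45),
      (-1, 74, -27, 21, -53), (-1, 81, -37, 24, -75), (-1, 85, -19, 24, -37), (-1, 111, -28, 33, -57), (-1, 115, -47, 33, -94), (-1, 127, -40, 36, -79), (-1, 136, -47, 39, -94), (-1, 157, -47, 45, -94), (-1, 169, -61, 48, -121),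
      (-1, 178, -47, 51, -94), (-1, 199, -47, 57, -94), (-1, 207, -58, 60, -117), (-1, 211, -82, 60, -163), (-1, 253, -103, 72, -205), (1, 1, -1, 9, -16), (1, 1, 0, -30, 47), (1, 1, 0, -27, 47), (1, 1, 0, -24, 47),
      (1, 1, 0, -21, 47), (1, 1, 0, -18, 47), (1, 1, 2, -3, 5), (1, 2, -1, 15, -29), (1, 2, -1, 21, -50), (1, 2, -1, 27, -71), (1, 2, -1, 33, -92), (1, 2, -1, 39, -113), (1, 5, -1, -9, 22), (1, 6, -17, 3, -36),
      (1, 6, -1, -39, 69), (1, 6, -1, -21, 48), (1, 12, 43, 3, 87), (1, 13, -7, 6, -19), (1, 15, -2, -6, 15), (1, 18, 1, 3, 9), (1, 23, 6, 6, 13), (1, 29, -21, 9, -44), (1, 45, -13, 6, -9), (1, 46, -11, 3, -4), (1, 47, -9, 0, 1),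
      (1, 48, -7, -3, 6), (1, 51, -64, 15, -129), (1, 59, -28, 18, -59), (1, 61, -27, 18, -55), (1, 75, 22, 21, 45), (1, 93, -20, 3, -3), (1, 107, -15, 30, -29), (1, 134, -63, 39, -128), (1, 138, 1, 39, 3), (1, 201, -20, 57, -39),
      (1, 264, -41, 75, -81), (1, 327, -62, 93, -123)]
  | 2 => [(-1, 2, -1, 3, 13), (-1, 2, -1, 9, -8), (-1, 2, -1, 15, -29), (-1, 2, -1, 21, -50), (-1, 2, -1, 27, -71), (-1, 2, -1, 33, -92), (-1, 2, -1, 39, -113), (-1, 3, -1, -21, 96), (-1, 3, -1, -12, 75), (-1, 4, -3, 3, -4),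
      (-1, 9, -5, -33, 144), (-1, 9, -5, -6, 39), (-1, 10, -7, 3, -10), (-1, 13, -7, 6, -19), (-1, 15, -8, -24, 99), (-1, 27, -14, -6, 27), (-1, 27, -13, 6, -15), (-1, 29, -21, 9, -44), (-1, 31, -16, 9, -31), (-1, 45, -26, 3, -9),
      (-1, 51, -29, 12, -45), (-1, 59, -28, 18, -59), (-1, 61, -27, 18, -55), (-1, 73, -47, 21, -94), (-1, 87, -49, 24, -93), (-1, 93, -49, 24, -87), (-1, 94, -47, 27, -94), (-1, 111, -53, 30, -99), (-1, 117, -31, 33, -60),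
      (-1, 134, -63, 39, -128), (-1, 180, -73, 51, -144), (-1, 243, -115, 69, -228), (-1, 306, -157, 87, -312), (-1, 369, -199, 105, -396), (-1, 432, -241, 123, -480), (1, 1, 0, -15, 47), (1, 1, 0, -12, 47), (1, 1, 23, 0, 47),
      (1, 3, -11, 3, -30), (1, 3, -8, 3, -9), (1, 3, -2, 12, -9), (1, 3, -2, 21, -51), (1, 3, -2, 30, -93), (1, 3, -2, 39, -135), (1, 3, -2, 48, -177), (1, 3, -2, 57, -219), (1, 3, -2, 66, -261), (1, 4, -1, -3, 17),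
      (1, 5, -2, -27, 85), (1, 5, -2, -12, 43), (1, 9, -1, -3, 18), (1, 15, -13, 6, -27), (1, 15, -4, -3, 15), (1, 16, -3, 3, -1), (1, 20, -7, 3, -5), (1, 27, -20, 12, -57), (1, 27, -16, 15, -57), (1, 34, -11, 9, -19),
      (1, 43, 2, 12, 5), (1, 46, -19, 9, -25), (1, 47, -20, 0, 1), (1, 48, -37, 15, -78), (1, 74, -27, 21, -53), (1, 85, -19, 24, -37), (1, 114, -85, 33, -171), (1, 127, -40, 36, -79), (1, 132, -89, 39, -183),
      (1, 169, -61, 48, -121), (1, 177, -106, 51, -213), (1, 211, -82, 60, -163), (1, 253, -103, 72, -205), (1, 321, -194, 93, -393)]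
  | 3 => [(-1, 2, -1, -9, 55), (-1, 2, -1, -3, 34), (-1, 3, -2, -42, 243), (-1, 3, -2, -33, 201), (-1, 3, -2, -24, 159), (-1, 3, -2, -15, 117), (-1, 3, -2, -6, 75), (-1, 3, -2, 3, 33), (-1, 3, -2, 12, -9), (-1, 3, -2, 21, -51),
      (-1, 3, -2, 30, -93), (-1, 3, -2, 39, -135), (-1, 3, -2, 48, -177), (-1, 3, -2, 57, -219), (-1, 3, -2, 66, -261), (-1, 4, -3, -9, 59), (-1, 5, -3, -3, 22), (-1, 8, -5, -3, 19), (-1, 11, -8, 3, -11), (-1, 12, -7, -3, 24),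
      (-1, 15, -11, 3, -6), (-1, 19, -14, 3, -13), (-1, 23, -17, 6, -29), (-1, 24, -17, 3, -9), (-1, 25, -16, 6, -25), (-1, 27, -20, 12, -57), (-1, 27, -16, 15, -57), (-1, 31, -24, 6, -31), (-1, 32, -17, 9, -32),
      (-1, 37, -26, 9, -43), (-1, 39, -29, 3, -12), (-1, 45, -29, 12, -51), (-1, 48, -37, 15, -78), (-1, 54, -43, 15, -81), (-1, 74, -27, 21, -53), (-1, 75, -53, 21, -102), (-1, 95, -48, 27, -95), (-1, 114, -85, 33, -171),
      (-1, 116, -69, 33, -137), (-1, 120, -91, 33, -174), (-1, 132, -89, 39, -183), (-1, 137, -90, 39, -179), (-1, 158, -111, 45, -221), (-1, 177, -106, 51, -213), (-1, 179, -132, 51, -263), (-1, 200, -153, 57, -305),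
      (-1, 213, -154, 60, -303), (-1, 321, -194, 93, -393), (1, 1, -3, 3, -16), (1, 1, -1, 12, -37), (1, 1, -1, 15, -58), (1, 1, -1, 18, -79), (1, 1, -1, 21, -100), (1, 1, -1, 24, -121), (1, 1, -1, 27, -142), (1, 1, -1, 30, -163),
      (1, 1, 0, -9, 47), (1, 2, 1, -3, 13), (1, 3, -1, -21, 96), (1, 3, 1, -6, 33), (1, 5, -7, 3, -20), (1, 5, -4, 9, -41), (1, 6, -5, 21, -99), (1, 6, -5, 39, -204), (1, 9, -53, 3, -108), (1, 9, -5, -33, 144),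
      (1, 15, -8, -24, 99), (1, 15, 4, 3, 15), (1, 19, -26, 6, -55), (1, 27, -14, -6, 27), (1, 41, -44, 12, -89), (1, 45, -26, 3, -9), (1, 51, -29, 12, -45), (1, 54, 11, 15, 24), (1, 72, -95, 21, -192), (1, 93, -49, 24, -87),
      (1, 103, -89, 30, -181), (1, 111, -53, 30, -99), (1, 117, -31, 33, -60), (1, 135, -137, 39, -276), (1, 180, -73, 51, -144), (1, 198, -179, 57, -360), (1, 243, -115, 69, -228), (1, 261, -221, 75, -444),
      (1, 306, -157, 87, -312), (1, 324, -263, 93, -528), (1, 369, -199, 105, -396), (1, 432, -241, 123, -480)]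

end Pool.Agent.Helper14.TK7
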