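import Pool.Agent.Helper4.S7.Tm

/-!
# Project TK (levels `3·7^n`): row 3 of `T_47`

A term `(k, a, b, c, d)` stands for `k` times the operator of `(a b; 7c d)` (`Helper4/S7/Tm.lean`; `mulL`, `sclL`, `Gd` of W7 are used unchanged). `F_f(g) = G(g e_f) - G(g 0)` with `e_0 = ∞`, `e_1 = 1/3`, `e_2 = 1/2`, `e_3 = 2/3`.
The rows of `T_l` are computed with the residues `-(l-1)/2, ..., (l-1)/2` (`0, 1` for `l = 2`).
-/

set_option autoImplicit false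

namespace Pool.Agent.Helper14.TK7

open Pool.Agent.Helper4.S7 (Tm mulT mulL sclL Gd)

/-- Row 3 of `T_47`. -/
def T47K3 : Fin 4 → List Tm
  | 0 => [(-1, 1, -3, 3, -16), (-1, 1, -1, 6, 5), (-1, 1, -1, 9, -16), (-1, 1, -1, 12, -37), (-1, 1, -1, 15, -58), (-1, 1, -1, 18, -79), (-1, 1, -1, 21, -100), (-1, 1, -1, 24, -121), (-1, 1, -1, 27, -142), (-1, 1, -1, 30, -163),
      (-1, 1, 1, -6, 5), (-1, 1, 2, -3, 5), (-1, 1, 31, 0, 47), (-1, 2, -3, 3, -8), (-1, 2, 1, -9, -8), (-1, 2, 1, -3, 13), (-1, 3, -8, 3, -9), (-1, 3, -4, 6, -9), (-1, 3, 1, -42, -51), (-1, 3, 1, -33, -30), (-1, 3, 1, -24, -9),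
      (-1, 3, 1, -15, 12), (-1, 3, 2, -12, -9), (-1, 3, 4, -6, -9), (-1, 3, 5, -3, 12), (-1, 4, 1, -9, -4), (-1, 5, -7, 3, -20), (-1, 5, -4, 9, -41), (-1, 5, 2, -3, 1), (-1, 6, -11, 3, -15), (-1, 6, -5, 21, -99),
      (-1, 6, -5, 39, -204), (-1, 6, 5, -3, 6), (-1, 8, -11, 3, -23), (-1, 8, 3, -3, -2), (-1, 9, -17, 3, -24), (-1, 9, 4, -6, -3), (-1, 11, -19, 3, -32), (-1, 12, -53, 3, -81), (-1, 12, 5, -3, 3), (-1, 13, -40, 3, -61),
      (-1, 15, -13, 6, -27), (-1, 15, 94, 3, 141), (-1, 16, 13, 3, 20), (-1, 18, 19, 3, 30), (-1, 19, 5, 3, 8), (-1, 22, 3, 3, 5), (-1, 24, 7, 3, 12), (-1, 25, 7, -3, -4), (-1, 27, -94, 6, -141), (-1, 29, 12, 6, 19),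
      (-1, 31, 7, 6, 11), (-1, 39, 10, 3, 9), (-1, 41, -45, 9, -68), (-1, 43, 17, 9, 26), (-1, 44, 23, 9, 34), (-1, 47, 10, 0, 1), (-1, 55, -68, 12, -103), (-1, 57, 94, 12, 141), (-1, 59, 17, 12, 25), (-1, 66, -73, 15, -114),
      (-1, 69, -94, 15, -141), (-1, 69, 13, 3, 6), (-1, 72, 17, -3, -3), (-1, 96, -95, 21, -144), (-1, 97, -96, 21, -145), (-1, 99, 94, 21, 141), (-1, 111, -94, 24, -141), (-1, 128, 37, 27, 55), (-1, 139, -124, 30, -187),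
      (-1, 141, 94, 30, 141), (-1, 181, -152, 39, -229), (-1, 183, 94, 39, 141), (-1, 223, -180, 48, -271), (-1, 225, 94, 48, 141), (-1, 234, -199, 51, -303), (-1, 267, 94, 57, 141), (-1, 309, 94, 66, 141), (-1, 351, 94, 75, 141),
      (-1, 393, 94, 84, 141), (1, 1, 0, -6, 47), (1, 1, 0, -3, 47), (1, 1, 0, 0, 47), (1, 1, 0, 3, 47), (1, 1, 0, 6, 47), (1, 1, 0, 9, 47), (1, 1, 0, 12, 47), (1, 1, 0, 15, 47), (1, 1, 0, 18, 47), (1, 1, 0, 21, 47),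
      (1, 1, 0, 24, 47), (1, 1, 0, 27, 47), (1, 1, 0, 30, 47), (1, 2, -1, -9, 55), (1, 2, -1, -3, 34), (1, 2, -1, 3, 13), (1, 3, -2, -42, 243), (1, 3, -2, -33, 201), (1, 3, -2, -24, 159), (1, 3, -2, -15, 117), (1, 3, -2, -6, 75),
      (1, 3, -2, 3, 33), (1, 3, -1, -12, 75), (1, 3, -1, -3, 54), (1, 3, -1, 6, 33), (1, 4, -3, -9, 59), (1, 5, -3, -3, 22), (1, 5, -2, 3, 1), (1, 5, 1, 9, 22), (1, 6, -1, -3, 27), (1, 6, 1, 3, 27), (1, 6, 1, 21, 48),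
      (1, 6, 1, 39, 69), (1, 8, -5, -3, 19), (1, 8, -3, 3, -2), (1, 9, -5, -6, 39), (1, 9, 1, 3, 18), (1, 11, -8, 3, -11), (1, 12, -7, -3, 24), (1, 12, -5, 3, 3), (1, 13, -1, 3, 2), (1, 15, -11, 3, -6), (1, 15, 2, 6, 15),
      (1, 16, -3, 3, -1), (1, 18, 1, 3, 9), (1, 19, -14, 3, -13), (1, 22, -19, 3, -16), (1, 24, -17, 3, -9), (1, 25, -18, -3, 17), (1, 27, -13, 6, -15), (1, 29, -17, 6, -23), (1, 31, -24, 6, -31), (1, 39, -29, 3, -12),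
      (1, 41, -4, 9, -5), (1, 43, -26, 9, -37), (1, 44, -21, 9, -29), (1, 47, -37, 0, 1), (1, 55, -13, 12, -19), (1, 57, -20, 12, -27), (1, 59, -42, 12, -59), (1, 66, -7, 15, -9), (1, 69, -56, 3, -15), (1, 69, -25, 15, -36),
      (1, 72, -55, -3, 18), (1, 96, 1, 21, 3), (1, 97, 1, 21, 2), (1, 99, -5, 21, -6), (1, 111, 17, 24, 27), (1, 128, -91, 27, -134), (1, 139, 15, 30, 23), (1, 141, -47, 30, -69), (1, 181, 29, 39, 44), (1, 183, -89, 39, -132),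
      (1, 223, 43, 48, 65), (1, 225, -131, 48, -195), (1, 234, 35, 51, 54), (1, 267, -173, 57, -258), (1, 309, -215, 66, -321), (1, 351, -257, 75, -384), (1, 393, -299, 84, -447)]
  | 1 => [(-1, 3, -8, 3, -9), (-1, 3, -2, 12, -9), (-1, 3, -1, -3, 54), (-1, 3, -1, 6, 33), (-1, 3, -1, 15, 12), (-1, 3, -1, 24, -9), (-1, 3, -1, 33, -30), (-1, 3, -1, 42, -51), (-1, 4, -1, -3, 17), (-1, 4, -1, 9, -4),
      (-1, 5, -2, -27, 85), (-1, 5, -2, -12, 43), (-1, 5, -2, 3, 1), (-1, 8, -3, 3, -2), (-1, 9, -4, 6, -3), (-1, 10, -3, -3, 11), (-1, 11, -4, 6, -11), (-1, 12, -5, 3, 3), (-1, 15, -4, -3, 15), (-1, 19, -7, 6, -13),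
      (-1, 20, -7, 3, -5), (-1, 27, -13, 6, -15), (-1, 38, -11, 9, -17), (-1, 40, -9, 9, -13), (-1, 46, -19, 9, -25), (-1, 47, -20, 0, 1), (-1, 50, -19, 9, -23), (-1, 51, -29, 12, -45), (-1, 51, -13, 15, -24),
      (-1, 55, -13, 12, -19), (-1, 57, -20, 12, -27), (-1, 57, -16, 15, -27), (-1, 68, -27, 15, -41), (-1, 69, -25, 15, -36), (-1, 71, -16, 15, -23), (-1, 73, -22, 15, -31), (-1, 90, -23, 21, -36), (-1, 113, -44, 24, -65),
      (-1, 141, -47, 30, -69), (-1, 152, -41, 33, -62), (-1, 153, -94, 33, -141), (-1, 195, -94, 42, -141), (-1, 199, -78, 42, -115), (-1, 237, -94, 51, -141), (-1, 279, -94, 60, -141), (-1, 321, -94, 69, -141),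
      (-1, 363, -94, 78, -141), (-1, 405, -94, 87, -141), (1, 1, -1, 9, -16), (1, 1, 0, -30, 47), (1, 1, 0, -27, 47), (1, 1, 0, -24, 47), (1, 1, 0, -21, 47), (1, 1, 0, -18, 47), (1, 1, 2, -3, 5), (1, 1, 31, 0, 47),
      (1, 2, -1, 15, -29), (1, 2, -1, 21, -50), (1, 2, -1, 27, -71), (1, 2, -1, 33, -92), (1, 2, -1, 39, -113), (1, 5, -1, -9, 22), (1, 6, -1, -39, 69), (1, 6, -1, -21, 48), (1, 13, -7, 6, -19), (1, 15, -2, -6, 15),
      (1, 18, 19, 3, 30), (1, 25, -16, 6, -25), (1, 27, 1, 3, 6), (1, 33, -1, 6, 3), (1, 41, -45, 9, -68), (1, 43, 17, 9, 26), (1, 45, -13, 6, -9), (1, 46, -11, 3, -4), (1, 47, -9, 0, 1), (1, 48, -7, -3, 6), (1, 61, -10, 12, -13),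
      (1, 72, 11, 15, 18), (1, 83, -59, 18, -89), (1, 85, 3, 18, 5), (1, 92, -41, 21, -65), (1, 93, -20, 3, -3), (1, 125, -73, 27, -110), (1, 127, -11, 27, -16), (1, 156, -31, 33, -45), (1, 167, -87, 36, -131),
      (1, 169, -25, 36, -37), (1, 186, -23, 39, -33), (1, 209, -101, 45, -152), (1, 211, -39, 45, -58), (1, 251, -115, 54, -173), (1, 293, -129, 63, -194)]
  | 2 => [(-1, 2, -1, 3, 13), (-1, 2, -1, 9, -8), (-1, 2, -1, 15, -29), (-1, 2, -1, 21, -50), (-1, 2, -1, 27, -71), (-1, 2, -1, 33, -92), (-1, 2, -1, 39, -113), (-1, 3, -1, -21, 96), (-1, 3, -1, -12, 75), (-1, 4, -3, 3, -4),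
      (-1, 9, -5, -33, 144), (-1, 9, -5, -6, 39), (-1, 10, -7, 3, -10), (-1, 13, -7, 6, -19), (-1, 15, -8, -24, 99), (-1, 25, -16, 6, -25), (-1, 27, -14, -6, 27), (-1, 33, -1, 6, 3), (-1, 36, -17, 3, -6), (-1, 45, -26, 3, -9),
      (-1, 47, -23, 0, 1), (-1, 78, -37, 15, -48), (-1, 81, -53, 3, -12), (-1, 81, -43, 15, -54), (-1, 83, -59, 18, -89), (-1, 92, -41, 21, -65), (-1, 102, -53, 21, -75), (-1, 125, -73, 27, -110), (-1, 167, -87, 36, -131),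
      (-1, 183, -89, 39, -132), (-1, 209, -101, 45, -152), (-1, 225, -131, 48, -195), (-1, 243, -127, 51, -186), (-1, 251, -115, 54, -173), (-1, 293, -129, 63, -194), (1, 1, 0, -15, 47), (1, 1, 0, -12, 47), (1, 3, -8, 3, -9),
      (1, 3, -2, 12, -9), (1, 3, -2, 21, -51), (1, 3, -2, 30, -93), (1, 3, -2, 39, -135), (1, 3, -2, 48, -177), (1, 3, -2, 57, -219), (1, 3, -2, 66, -261), (1, 4, -1, -3, 17), (1, 5, -2, -27, 85), (1, 5, -2, -12, 43),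
      (1, 9, -1, -3, 18), (1, 10, -3, -3, 11), (1, 12, -53, 3, -81), (1, 15, -13, 6, -27), (1, 15, -4, -3, 15), (1, 20, -7, 3, -5), (1, 27, -16, 15, -57), (1, 45, -29, 12, -51), (1, 46, -19, 9, -25), (1, 47, -20, 0, 1),
      (1, 50, -19, 9, -23), (1, 71, -16, 15, -23), (1, 73, -22, 15, -31), (1, 87, -56, 21, -93), (1, 93, -56, 21, -87), (1, 96, -95, 21, -144), (1, 113, -44, 24, -65), (1, 153, -94, 33, -141), (1, 180, -137, 39, -207),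
      (1, 199, -78, 42, -115), (1, 264, -179, 57, -270), (1, 348, -221, 75, -333), (1, 432, -263, 93, -396), (1, 516, -305, 111, -459)]
  | 3 => [(-1, 2, -1, -9, 55), (-1, 2, -1, -3, 34), (-1, 3, -2, -42, 243), (-1, 3, -2, -33, 201), (-1, 3, -2, -24, 159), (-1, 3, -2, -15, 117), (-1, 3, -2, -6, 75), (-1, 3, -2, 3, 33), (-1, 3, -2, 12, -9), (-1, 3, -2, 21, -51),
      (-1, 3, -2, 30, -93), (-1, 3, -2, 39, -135), (-1, 3, -2, 48, -177), (-1, 3, -2, 57, -219), (-1, 3, -2, 66, -261), (-1, 4, -3, -9, 59), (-1, 5, -3, -3, 22), (-1, 8, -5, -3, 19), (-1, 11, -8, 3, -11), (-1, 12, -7, -3, 24),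
      (-1, 15, -11, 3, -6), (-1, 19, -14, 3, -13), (-1, 22, -19, 3, -16), (-1, 24, -17, 3, -9), (-1, 25, -18, -3, 17), (-1, 27, -16, 15, -57), (-1, 29, -17, 6, -23), (-1, 31, -24, 6, -31), (-1, 39, -29, 3, -12),
      (-1, 43, -26, 9, -37), (-1, 44, -21, 9, -29), (-1, 45, -29, 12, -51), (-1, 47, -37, 0, 1), (-1, 59, -42, 12, -59), (-1, 69, -56, 3, -15), (-1, 72, -55, -3, 18), (-1, 87, -56, 21, -93), (-1, 93, -56, 21, -87),
      (-1, 128, -91, 27, -134), (-1, 153, -94, 33, -141), (-1, 180, -137, 39, -207), (-1, 264, -179, 57, -270), (-1, 267, -173, 57, -258), (-1, 309, -215, 66, -321), (-1, 348, -221, 75, -333), (-1, 351, -257, 75, -384),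
      (-1, 393, -299, 84, -447), (-1, 432, -263, 93, -396), (-1, 516, -305, 111, -459), (1, 1, -3, 3, -16), (1, 1, -1, 12, -37), (1, 1, -1, 15, -58), (1, 1, -1, 18, -79), (1, 1, -1, 21, -100), (1, 1, -1, 24, -121),
      (1, 1, -1, 27, -142), (1, 1, -1, 30, -163), (1, 1, 0, -9, 47), (1, 2, 1, -3, 13), (1, 3, -1, -21, 96), (1, 5, -7, 3, -20), (1, 5, -4, 9, -41), (1, 6, -5, 21, -99), (1, 6, -5, 39, -204), (1, 8, -11, 3, -23),
      (1, 9, -5, -33, 144), (1, 11, -19, 3, -32), (1, 13, -40, 3, -61), (1, 15, -8, -24, 99), (1, 17, 1, 3, 4), (1, 27, -14, -6, 27), (1, 29, 12, 6, 19), (1, 33, -1, 6, 3), (1, 36, -17, 3, -6), (1, 45, -26, 3, -9),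
      (1, 47, -23, 0, 1), (1, 55, -68, 12, -103), (1, 66, -73, 15, -114), (1, 78, -37, 15, -48), (1, 81, -53, 3, -12), (1, 81, -43, 15, -54), (1, 97, -96, 21, -145), (1, 102, -53, 21, -75), (1, 139, -124, 30, -187),
      (1, 181, -152, 39, -229), (1, 223, -180, 48, -271), (1, 234, -199, 51, -303), (1, 243, -127, 51, -186)]

end Pool.Agent.Helper14.TK7
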