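import Pool.Agent.Helper4.S7.Tm

/-!
# Project TK (levels `3·7^n`): multipliers for row 2 of `V`

A term `(k, a, b, c, d)` stands for `k` times the operator of `(a b; 7c d)` (`Helper4/S7/Tm.lean`; `mulL`, `sclL`, `Gd` of W7 are used unchanged). `F_f(g) = G(g e_f) - G(g 0)` with `e_0 = ∞`, `e_1 = 1/3`, `e_2 = 1/2`, `e_3 = 2/3`.
The rows of `T_l` are computed with the residues `-(l-1)/2, ..., (l-1)/2` (`0, 1` for `l = 2`).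
-/

set_option autoImplicit false

namespace Pool.Agent.Helper14.TK7

open Pool.Agent.Helper4.S7 (Tm mulT mulL sclL Gd)

/-- Multipliers of the relations for row 2 of `V`. -/
def MVK2 : Fin 4 → List Tm
  | 0 => [(-3, 1, -1, 3, -1), (-3, 1, 2, -1, -5), (-3, 2, 3, 2, -6), (-3, 3, 1, 0, -1), (-3, 4, -2, 1, -1), (-3, 4, 3, 1, -4), (-2, 1, 3, -1, 5), (-2, 1, 3, 3, -6), (-2, 2, 3, 2, 3), (-2, 3, 1, 3, 6), (-2, 3, 2, 0, 1), (-2, 4, -3, -1, 2),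
      (-2, 6, -1, -1, 6), (-2, 6, -1, 1, 6), (-1, 2, 1, 3, 1), (-1, 4, -3, -2, 4), (-1, 5, 2, 2, 4), (-1, 6, -2, -1, 3), (1, 1, 1, 1, 2), (1, 3, 2, -1, 3), (1, 4, -2, -2, -5), (1, 4, -1, 0, -5), (1, 5, -2, -3, -3),
      (1, 6, -2, 0, 1), (1, 6, 2, 1, -5), (2, 1, -2, -2, 5), (2, 2, 1, 3, -2), (2, 2, 2, 3, -4), (2, 3, 0, -1, -3), (2, 4, -1, 3, -1), (2, 5, -3, 2, 5), (2, 5, -1, 1, 1), (2, 6, -1, -3, 2), (2, 6, 0, 1, 1), (3, 1, -3, -2, 3),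
      (3, 1, 1, 0, 6), (3, 1, 3, -2, -3), (3, 5, -3, 0, 2), (3, 6, 0, 1, 2), (3, 6, 1, 3, -6), (3, 6, 1, 3, -2), (3, 6, 2, -2, -1)]
  | 1 => [(-3, 1, -3, -3, -4), (-3, 1, -1, -2, -2), (-3, 2, -3, 1, -4), (-3, 2, 0, -1, -5), (-3, 3, -3, -1, -4), (-3, 3, -2, 0, -2), (-3, 3, -2, 0, 4), (-3, 3, 0, -2, 3), (-3, 3, 0, 2, -3), (-3, 3, 3, 0, -2), (-3, 4, -3, 0, -3),
      (-3, 4, 1, -2, -3), (-3, 4, 2, 0, 1), (-3, 5, -3, -3, 5), (-3, 5, -1, 1, 5), (-3, 5, 1, 1, -2), (-3, 5, 2, 3, -4), (-3, 6, -3, -3, 2), (-3, 6, -1, 3, -3), (-3, 6, 1, 0, -3), (-2, 1, -1, -1, -6), (-2, 1, 1, 0, -2),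
      (-2, 2, -3, -1, -5), (-2, 2, -1, 1, 2), (-2, 3, 0, -3, 5), (-2, 3, 0, -1, -6), (-2, 4, -3, 1, -3), (-2, 4, -2, 1, 4), (-2, 4, -2, 3, 3), (-2, 5, -3, 1, 5), (-2, 5, -2, -2, 6), (-2, 5, -1, 1, -5), (-2, 6, 2, -3, 2),
      (-2, 6, 3, 1, -4), (-1, 1, -3, 2, -4), (-1, 2, -2, -3, 1), (-1, 3, -3, -2, 3), (-1, 3, -2, -2, -3), (-1, 3, -2, -2, -1), (-1, 3, -1, 1, -6), (-1, 3, 0, -3, -5), (-1, 3, 0, -1, 1), (-1, 3, 1, 3, -5), (-1, 4, -2, 0, 5),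
      (-1, 4, -1, -2, 3), (-1, 4, 1, -1, -4), (-1, 4, 1, 2, 2), (-1, 5, -3, 0, -6), (-1, 5, -2, -3, -5), (-1, 5, -1, -3, -5), (-1, 6, -3, -1, 6), (-1, 6, -3, 1, -2), (-1, 6, -2, -1, 2), (-1, 6, 0, -1, -5), (1, 1, -2, -3, -6),
      (1, 1, 0, 0, -2), (1, 1, 1, -3, -5), (1, 1, 2, 0, 5), (1, 1, 2, 2, 2), (1, 2, -1, 1, -3), (1, 2, -1, 1, -1), (1, 2, 1, 1, -5), (1, 2, 1, 3, -2), (1, 4, -2, -2, -1), (1, 4, 0, 3, -2), (1, 4, 1, -1, -3), (1, 4, 1, 2, 3),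
      (1, 5, -1, -1, -3), (1, 5, -1, 1, -1), (1, 5, -1, 3, -5), (1, 5, 1, 2, 1), (1, 5, 1, 3, -5), (1, 5, 2, 3, 6), (1, 6, -2, 1, -5), (1, 6, -1, -2, -5), (1, 6, 1, 0, -5), (1, 6, 2, -1, -4), (1, 6, 2, 1, 2), (2, 1, -2, 1, -4),
      (2, 1, -1, -2, -5), (2, 1, 3, 3, -2), (2, 2, -2, -2, -3), (2, 2, -1, 2, -2), (2, 2, 2, -3, -3), (2, 2, 3, 0, -1), (2, 3, -1, 1, -1), (2, 3, 2, 0, -6), (2, 4, -1, -1, 6), (2, 4, 0, 2, 5), (2, 4, 2, -1, -5), (2, 5, -2, 1, -4),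
      (2, 5, -1, 2, -5), (2, 5, 2, 0, -1), (2, 5, 2, 1, 1), (2, 5, 3, -3, -3), (3, 1, -2, 0, 4), (3, 1, -1, -1, -1), (3, 1, 1, -1, -2), (3, 1, 3, -1, -3), (3, 1, 3, 0, 2), (3, 2, -2, -1, 6), (3, 2, -1, 1, 1), (3, 2, 0, -2, -5),
      (3, 2, 1, -2, 2), (3, 3, -2, 1, -4), (3, 3, -2, 2, 2), (3, 3, -1, -3, -4), (3, 3, 2, -1, 2), (3, 3, 3, -1, 2), (3, 3, 3, -1, 5), (3, 4, 0, -1, 4), (3, 4, 1, 0, 4), (3, 4, 3, 0, -3), (3, 4, 3, 1, -5), (3, 5, -3, 1, 4),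
      (3, 5, -1, 3, 4), (3, 5, 2, 2, 2), (3, 6, -3, 1, 2), (3, 6, 1, -3, -1), (3, 6, 1, 3, 4), (3, 6, 2, -1, 5)]
  | 2 => [(-3, 1, -1, -1, 3), (-3, 1, -1, 0, -4), (-3, 1, 1, -1, 4), (-3, 1, 1, 3, 2), (-3, 1, 2, -3, 5), (-3, 1, 2, 1, 6), (-3, 2, 0, -2, 1), (-3, 2, 0, 2, 3), (-3, 2, 3, 2, -2), (-3, 3, -3, -3, 4), (-3, 3, -2, 0, -2), (-3, 3, -2, 2, 6),
      (-3, 3, 1, 0, 5), (-3, 4, -1, 1, 3), (-3, 4, -1, 2, 6), (-3, 4, 2, -1, 3), (-3, 4, 3, 3, -6), (-3, 5, -3, 1, 4), (-3, 5, -2, 3, -5), (-3, 5, 0, 3, 1), (-3, 5, 2, 3, 5), (-3, 5, 3, -3, -4), (-3, 5, 3, 2, -5),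
      (-3, 6, -3, -1, -2), (-3, 6, -2, 1, -3), (-3, 6, 1, 0, 2), (-3, 6, 2, -3, 1), (-3, 6, 2, 1, 3), (-3, 6, 3, -3, -1), (-2, 1, -3, -3, 1), (-2, 1, 1, 2, -4), (-2, 2, -3, -3, 6), (-2, 2, -3, 1, 3), (-2, 2, 0, -3, -3),
      (-2, 2, 0, -2, -3), (-2, 2, 1, 0, -3), (-2, 2, 2, 3, -5), (-2, 3, -3, 2, -4), (-2, 3, -3, 2, 3), (-2, 3, -3, 3, 1), (-2, 3, 1, -3, -6), (-2, 3, 1, 0, 3), (-2, 4, 0, -3, 3), (-2, 4, 1, -2, -4), (-2, 5, 1, -1, -6),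
      (-2, 5, 1, -1, -2), (-2, 5, 3, 0, 4), (-2, 6, -3, -1, -6), (-2, 6, -1, 1, -1), (-2, 6, 0, 0, 5), (-2, 6, 0, 1, -6), (-2, 6, 1, -2, -6), (-2, 6, 1, -2, 4), (-2, 6, 2, -1, -3), (-2, 6, 2, 2, 1), (-1, 1, -3, -2, -6),
      (-1, 1, 1, -3, -3), (-1, 1, 1, -2, 4), (-1, 2, 0, -1, 4), (-1, 2, 0, 0, -1), (-1, 2, 0, 0, 5), (-1, 2, 0, 1, -2), (-1, 2, 0, 3, 2), (-1, 2, 2, 1, 1), (-1, 2, 3, 3, -1), (-1, 3, -2, -3, -1), (-1, 3, -1, 2, -5),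
      (-1, 3, 1, 1, 2), (-1, 4, -2, 1, 6), (-1, 4, 1, 2, -2), (-1, 5, -3, 1, 6), (-1, 5, -3, 3, 1), (-1, 5, -2, 3, -2), (-1, 5, 1, -2, -3), (-1, 6, -1, 0, 4), (-1, 6, 1, -2, 6), (-1, 6, 2, 2, -5), (1, 1, -3, -2, 3),
      (1, 1, 0, 1, -6), (1, 1, 2, 3, -5), (1, 2, 1, 0, 6), (1, 2, 2, -1, 1), (1, 3, -1, 1, 6), (1, 4, 2, 1, -5), (1, 4, 2, 1, 4), (1, 5, -2, 1, -6), (1, 5, 0, 2, 3), (1, 5, 1, -1, -5), (1, 5, 2, 1, 4), (1, 6, -1, -1, -5),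
      (1, 6, -1, 3, 5), (1, 6, 0, -1, 2), (2, 1, -3, 3, -2), (2, 1, 1, 0, 2), (2, 1, 3, -2, -4), (2, 2, -3, -3, 1), (2, 2, 1, -2, -5), (2, 2, 1, 2, 4), (2, 3, -3, -3, -4), (2, 3, 1, 3, 6), (2, 4, -2, 1, 3), (2, 5, -3, -1, 1),
      (2, 5, -2, 0, -1), (2, 5, -1, -2, -5), (2, 6, -3, 3, 5), (2, 6, -2, 1, -4), (2, 6, 3, 1, -4), (3, 1, -2, 1, 2), (3, 1, -1, 1, -1), (3, 1, -1, 2, 2), (3, 1, 1, 2, 1), (3, 1, 2, -1, -3), (3, 1, 2, 2, -4), (3, 1, 2, 3, -6),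
      (3, 2, -3, 1, 4), (3, 2, -1, -3, -6), (3, 2, 0, -2, 3), (3, 2, 3, -2, 4), (3, 3, 0, -1, -6), (3, 3, 1, -3, -1), (3, 3, 3, 2, -4), (3, 3, 3, 2, 4), (3, 4, -1, 1, 1), (3, 4, 0, 0, -5), (3, 4, 2, 2, 3), (3, 5, -2, 2, -5),
      (3, 5, -2, 2, -2), (3, 6, -3, -3, 4), (3, 6, -3, 3, -2), (3, 6, -2, 3, -1), (3, 6, 3, -1, -5), (3, 6, 3, 0, 2)]
  | 3 => [(-3, 2, 2, -2, -3), (-3, 5, 2, 2, 3), (-2, 1, -3, -2, -4), (-2, 1, -2, -1, -5), (-2, 3, -1, -2, 6), (-2, 4, -2, 3, -2), (-2, 6, 2, -3, 5), (-1, 2, -1, -3, 1), (-1, 3, -3, 1, -2), (-1, 3, 3, -2, 5), (-1, 4, -2, -3, 2),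
      (-1, 5, 0, 0, -2), (-1, 5, 1, 1, 4), (-1, 6, 3, -2, -4), (1, 1, -1, -1, -2), (1, 2, -2, 3, 2), (1, 4, -1, -3, 3), (1, 5, 3, 0, -6), (1, 6, -2, 3, -4), (2, 2, 1, 1, 2), (2, 3, 2, -1, 3), (2, 4, -1, 0, -1), (2, 5, 0, 3, -2),
      (3, 1, -2, -3, 6), (3, 3, -1, -3, 3), (3, 4, -3, 3, 6), (3, 4, 2, 1, 4), (3, 5, -2, -1, -6), (3, 5, 0, 2, -4), (3, 6, -3, -2, 1), (3, 6, 3, 1, -5)]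

end Pool.Agent.Helper14.TK7
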