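import Pool.Agent.Helper4.S7.Tm

/-!
# Project TK (levels `3·7^n`): row 1 of `T_17`, row 2 of `T_17`, row 3 of `T_17`

A term `(k, a, b, c, d)` stands for `k` times the operator of `(a b; 7c d)` (`Helper4/S7/Tm.lean`; `mulL`, `sclL`, `Gd` of W7 are used unchanged). `F_f(g) = G(g e_f) - G(g 0)` with `e_0 = ∞`, `e_1 = 1/3`, `e_2 = 1/2`, `e_3 = 2/3`.
The rows of `T_l` are computed with the residues `-(l-1)/2, ..., (l-1)/2` (`0, 1` for `l = 2`).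
-/

set_option autoImplicit false

namespace Pool.Agent.Helper14.TK7

open Pool.Agent.Helper4.S7 (Tm mulT mulL sclL Gd)

/-- Row 1 of `T_17`. -/
def T17K1 : Fin 4 → List Tm
  | 0 => [(-1, 1, -1, 3, -4), (-1, 1, -1, 6, -25), (-1, 1, -1, 9, -46), (-1, 1, 5, 0, 17), (-1, 2, 1, -3, -2), (-1, 3, -5, 3, -18), (-1, 3, 1, -15, -18), (-1, 3, 1, -6, 3), (-1, 3, 2, -3, 3), (-1, 4, -5, 3, -22), (-1, 4, 1, -3, -1),
      (-1, 6, -17, 3, -51), (-1, 8, 3, 3, 10), (-1, 9, 4, 3, 15), (-1, 10, 3, 3, 8), (-1, 15, 4, 3, 9), (-1, 15, 17, 6, 51), (-1, 20, -19, 9, -59), (-1, 36, 17, 15, 51), (-1, 41, -33, 18, -101), (-1, 45, -38, 21, -123),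
      (-1, 57, 17, 24, 51), (1, 1, 0, 0, 17), (1, 1, 0, 3, 17), (1, 1, 0, 6, 17), (1, 1, 0, 9, 17), (1, 2, -1, -3, 19), (1, 3, -2, -15, 87), (1, 3, -2, -6, 45), (1, 3, -2, 3, 3), (1, 3, -1, -3, 24), (1, 4, -3, -3, 20),
      (1, 4, -1, 3, -1), (1, 6, 1, 3, 12), (1, 8, -5, 3, -11), (1, 9, -5, 3, -6), (1, 10, -7, 3, -13), (1, 15, -11, 3, -12), (1, 15, 2, 6, 9), (1, 20, 1, 9, 4), (1, 36, -19, 15, -54), (1, 41, 8, 18, 25), (1, 45, 7, 21, 24),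
      (1, 57, -40, 24, -117)]
  | 1 => [(-1, 3, -1, -3, 24), (-1, 3, -1, 6, 3), (-1, 3, -1, 15, -18), (-1, 4, -1, 3, -1), (-1, 5, -2, 3, -5), (-1, 6, -5, 3, -9), (-1, 8, -3, -3, 10), (-1, 9, -5, 3, -6), (-1, 17, -7, 0, 1), (-1, 19, -6, 9, -19), (-1, 22, -9, 9, -25),
      (-1, 27, -17, 12, -51), (-1, 38, -15, 15, -41), (-1, 48, -17, 21, -51), (-1, 69, -17, 30, -51), (1, 1, 0, -9, 17), (1, 1, 0, -6, 17), (1, 2, -1, 9, -23), (1, 3, -5, 3, -18), (1, 6, -1, -3, 12), (1, 8, 3, 3, 10),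
      (1, 9, 4, 3, 15), (1, 13, -10, 6, -31), (1, 29, -4, 12, -11), (1, 34, -17, 15, -52), (1, 55, -24, 24, -73)]
  | 2 => [(-1, 2, -1, 3, -2), (-1, 2, -1, 9, -23), (-1, 13, -10, 6, -31), (-1, 34, -17, 15, -52), (-1, 36, -19, 15, -54), (-1, 54, -29, 21, -78), (-1, 55, -24, 24, -73), (1, 3, -2, 12, -39), (1, 3, -2, 21, -81), (1, 6, -5, 3, -9),
      (1, 8, -3, -3, 10), (1, 9, -7, 6, -27), (1, 17, -7, 0, 1), (1, 22, -9, 9, -25), (1, 27, -17, 12, -51), (1, 33, -25, 15, -78), (1, 38, -15, 15, -41), (1, 75, -46, 33, -141)]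
  | 3 => [(-1, 2, -1, -3, 19), (-1, 3, -2, -15, 87), (-1, 3, -2, -6, 45), (-1, 3, -2, 3, 3), (-1, 3, -2, 12, -39), (-1, 3, -2, 21, -81), (-1, 4, -3, -3, 20), (-1, 8, -5, 3, -11), (-1, 9, -7, 6, -27), (-1, 10, -7, 3, -13),
      (-1, 15, -11, 3, -12), (-1, 27, -17, 12, -51), (-1, 33, -25, 15, -78), (-1, 57, -40, 24, -117), (-1, 75, -46, 33, -141), (1, 1, -1, 6, -25), (1, 1, -1, 9, -46), (1, 1, 0, -3, 17), (1, 1, 5, 0, 17), (1, 4, -5, 3, -22),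
      (1, 20, -19, 9, -59), (1, 41, -33, 18, -101), (1, 45, -38, 21, -123), (1, 54, -29, 21, -78)]

/-- Row 2 of `T_17`. -/
def T17K2 : Fin 4 → List Tm
  | 0 => [(-1, 1, -1, 3, -4), (-1, 1, -1, 6, -25), (-1, 1, -1, 9, -46), (-1, 1, 8, 0, 17), (-1, 2, 1, -3, -2), (-1, 3, -5, 3, -18), (-1, 3, 1, -15, -18), (-1, 3, 1, -6, 3), (-1, 3, 2, -3, 3), (-1, 4, 1, -3, -1), (-1, 6, -5, 3, -9),
      (-1, 9, -23, 3, -48), (-1, 10, -17, 3, -34), (-1, 11, 17, 3, 34), (-1, 12, 13, 3, 27), (-1, 13, 6, 3, 11), (-1, 15, -13, 6, -33), (-1, 15, 4, 3, 9), (-1, 32, 17, 9, 34), (-1, 53, 17, 15, 34), (-1, 72, -65, 21, -132),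
      (-1, 74, 17, 21, 34), (-1, 87, 23, 24, 45), (1, 1, 0, 0, 17), (1, 1, 0, 3, 17), (1, 1, 0, 6, 17), (1, 1, 0, 9, 17), (1, 2, -1, -3, 19), (1, 3, -2, -15, 87), (1, 3, -2, -6, 45), (1, 3, -2, 3, 3), (1, 3, -1, -3, 24),
      (1, 4, -3, -3, 20), (1, 6, 1, 3, 12), (1, 9, -5, 3, -6), (1, 10, -7, 3, -13), (1, 11, -5, 3, -8), (1, 12, 1, 3, 6), (1, 13, -7, 3, -10), (1, 15, -11, 3, -12), (1, 15, 2, 6, 9), (1, 32, -15, 9, -29), (1, 53, -36, 15, -71),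
      (1, 72, 7, 21, 15), (1, 74, -57, 21, -113), (1, 87, -64, 24, -123)]
  | 1 => [(-1, 3, -1, -3, 24), (-1, 3, -1, 6, 3), (-1, 3, -1, 15, -18), (-1, 4, -1, 3, -1), (-1, 6, -5, 3, -9), (-1, 8, -3, -3, 10), (-1, 9, -5, 3, -6), (-1, 17, -7, 0, 1), (-1, 43, -13, 12, -25), (-1, 52, -17, 15, -34),
      (-1, 73, -17, 21, -34), (-1, 81, -22, 24, -45), (-1, 85, -34, 24, -67), (1, 1, 0, -9, 17), (1, 1, 0, -6, 17), (1, 2, -1, 9, -23), (1, 6, -1, -3, 12), (1, 12, -1, -3, 6), (1, 12, 13, 3, 27), (1, 17, -3, 0, 1),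
      (1, 19, -9, 6, -19), (1, 22, -5, 3, -4), (1, 27, -7, 6, -9), (1, 29, -15, 9, -32), (1, 39, -8, 3, -3), (1, 75, -8, 21, -15)]
  | 2 => [(-1, 2, -1, 3, -2), (-1, 2, -1, 9, -23), (-1, 8, -5, 3, -11), (-1, 9, -4, -3, 15), (-1, 11, -5, 3, -8), (-1, 19, -9, 6, -19), (-1, 29, -15, 9, -32), (-1, 31, -17, 9, -34), (-1, 54, -19, 15, -36), (-1, 117, -61, 33, -120),
      (1, 1, 8, 0, 17), (1, 3, -5, 3, -18), (1, 3, -2, 12, -39), (1, 3, -2, 21, -81), (1, 6, -5, 3, -9), (1, 8, -3, -3, 10), (1, 9, -7, 6, -27), (1, 17, -7, 0, 1), (1, 43, -13, 12, -25), (1, 51, -34, 15, -69),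
      (1, 69, -44, 21, -93), (1, 85, -34, 24, -67)]
  | 3 => [(-1, 2, -1, -3, 19), (-1, 3, -2, -15, 87), (-1, 3, -2, -6, 45), (-1, 3, -2, 3, 3), (-1, 3, -2, 12, -39), (-1, 3, -2, 21, -81), (-1, 4, -3, -3, 20), (-1, 9, -7, 6, -27), (-1, 10, -7, 3, -13), (-1, 13, -7, 3, -10),
      (-1, 15, -11, 3, -12), (-1, 32, -15, 9, -29), (-1, 51, -34, 15, -69), (-1, 53, -36, 15, -71), (-1, 69, -44, 21, -93), (-1, 74, -57, 21, -113), (-1, 87, -64, 24, -123), (1, 1, -1, 6, -25), (1, 1, -1, 9, -46),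
      (1, 1, 0, -3, 17), (1, 9, -23, 3, -48), (1, 9, -4, -3, 15), (1, 15, -13, 6, -33), (1, 54, -19, 15, -36), (1, 72, -65, 21, -132), (1, 117, -61, 33, -120)]

/-- Row 3 of `T_17`. -/
def T17K3 : Fin 4 → List Tm
  | 0 => [(-1, 1, -1, 3, -4), (-1, 1, -1, 6, -25), (-1, 1, -1, 9, -46), (-1, 1, 1, -3, -4), (-1, 1, 11, 0, 17), (-1, 2, 1, -3, -2), (-1, 3, -5, 3, -18), (-1, 3, 1, -15, -18), (-1, 3, 1, -6, 3), (-1, 3, 2, -3, 3), (-1, 4, 1, -3, -1),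
      (-1, 6, -5, 3, -9), (-1, 12, -23, 3, -36), (-1, 13, -20, 3, -31), (-1, 15, 34, 3, 51), (-1, 16, 3, 3, 5), (-1, 17, 4, 0, 1), (-1, 18, 5, -3, -3), (-1, 27, -34, 6, -51), (-1, 33, 7, 3, 6), (-1, 44, 13, 9, 19),
      (-1, 55, -48, 12, -73), (-1, 57, 34, 12, 51), (-1, 99, 34, 21, 51), (-1, 141, 34, 30, 51), (1, 1, 0, -3, 17), (1, 1, 0, 0, 17), (1, 1, 0, 3, 17), (1, 1, 0, 6, 17), (1, 1, 0, 9, 17), (1, 2, -1, -3, 19), (1, 3, -2, -15, 87),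
      (1, 3, -2, -6, 45), (1, 3, -2, 3, 3), (1, 3, -1, -3, 24), (1, 4, -3, -3, 20), (1, 6, 1, 3, 12), (1, 12, 1, 3, 6), (1, 13, -7, 3, -10), (1, 15, -11, 3, -12), (1, 16, -13, 3, -16), (1, 17, -13, 0, 1), (1, 18, -13, -3, 18),
      (1, 27, -7, 6, -9), (1, 33, -26, 3, -15), (1, 44, -31, 9, -44), (1, 55, 7, 12, 11), (1, 57, -23, 12, -33), (1, 99, -65, 21, -96), (1, 141, -107, 30, -159)]
  | 1 => [(-1, 3, -1, -3, 24), (-1, 3, -1, 6, 3), (-1, 3, -1, 15, -18), (-1, 4, -1, 3, -1), (-1, 6, -5, 3, -9), (-1, 8, -3, -3, 10), (-1, 9, -5, 3, -6), (-1, 17, -7, 0, 1), (-1, 18, -5, 3, -3), (-1, 29, -8, 6, -11), (-1, 31, -10, 6, -13),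
      (-1, 69, -34, 15, -51), (-1, 111, -34, 24, -51), (1, 1, 0, -9, 17), (1, 1, 0, -6, 17), (1, 1, 11, 0, 17), (1, 2, -1, 9, -23), (1, 6, -1, -3, 12), (1, 8, -5, 3, -11), (1, 10, -7, 3, -13), (1, 12, -1, -3, 6),
      (1, 17, -3, 0, 1), (1, 17, 0, 3, 1), (1, 22, -5, 3, -4), (1, 39, -8, 3, -3), (1, 41, -25, 9, -38), (1, 43, -3, 9, -4), (1, 83, -39, 18, -59), (1, 85, -17, 18, -25), (1, 102, -17, 21, -24)]
  | 2 => [(-1, 2, -1, 3, -2), (-1, 2, -1, 9, -23), (-1, 8, -5, 3, -11), (-1, 9, -4, -3, 15), (-1, 10, -7, 3, -13), (-1, 11, -5, 3, -8), (-1, 13, -7, 3, -10), (-1, 17, -8, 0, 1), (-1, 27, -14, 3, -9), (-1, 33, -13, 6, -15),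
      (-1, 36, -23, 3, -12), (-1, 41, -25, 9, -38), (-1, 57, -23, 12, -33), (-1, 83, -39, 18, -59), (1, 3, -2, 12, -39), (1, 3, -2, 21, -81), (1, 6, -5, 3, -9), (1, 8, -3, -3, 10), (1, 12, -23, 3, -36), (1, 17, -7, 0, 1),
      (1, 29, -8, 6, -11), (1, 31, -10, 6, -13), (1, 96, -65, 21, -99), (1, 180, -107, 39, -162)]
  | 3 => [(-1, 2, -1, -3, 19), (-1, 3, -2, -15, 87), (-1, 3, -2, -6, 45), (-1, 3, -2, 3, 3), (-1, 3, -2, 12, -39), (-1, 3, -2, 21, -81), (-1, 4, -3, -3, 20), (-1, 15, -11, 3, -12), (-1, 16, -13, 3, -16), (-1, 17, -13, 0, 1),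
      (-1, 18, -13, -3, 18), (-1, 33, -26, 3, -15), (-1, 44, -31, 9, -44), (-1, 96, -65, 21, -99), (-1, 99, -65, 21, -96), (-1, 141, -107, 30, -159), (-1, 180, -107, 39, -162), (1, 1, -1, 6, -25), (1, 1, -1, 9, -46),
      (1, 3, -5, 3, -18), (1, 9, -4, -3, 15), (1, 13, -20, 3, -31), (1, 17, -8, 0, 1), (1, 18, -5, 3, -3), (1, 27, -14, 3, -9), (1, 33, -13, 6, -15), (1, 36, -23, 3, -12), (1, 55, -48, 12, -73)]

end Pool.Agent.Helper14.TK7
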