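import Pool.Agent.Helper4.S7.Tm

/-!
# Project TK (levels `3·7^n`): row 0 of `T_19`, row 1 of `T_19`, row 2 of `T_19`

A term `(k, a, b, c, d)` stands for `k` times the operator of `(a b; 7c d)` (`Helper4/S7/Tm.lean`; `mulL`, `sclL`, `Gd` of W7 are used unchanged). `F_f(g) = G(g e_f) - G(g 0)` with `e_0 = ∞`, `e_1 = 1/3`, `e_2 = 1/2`, `e_3 = 2/3`.
The rows of `T_l` are computed with the residues `-(l-1)/2, ..., (l-1)/2` (`0, 1` for `l = 2`).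
-/

set_option autoImplicit false

namespace Pool.Agent.Helper14.TK7

open Pool.Agent.Helper4.S7 (Tm mulT mulL sclL Gd)

/-- Row 0 of `T_19`. -/
def T19K0 : Fin 4 → List Tm
  | 0 => [(-1, 1, -1, 3, -2), (-1, 1, -1, 6, -23), (-1, 1, -1, 9, -44), (-1, 1, -1, 12, -65), (-1, 1, 1, -3, -2), (-1, 2, 1, -3, -1), (-1, 3, -4, 3, -9), (-1, 3, 1, -12, -9), (-1, 3, 1, -3, 12), (-1, 3, 2, -6, -9), (-1, 5, -4, 3, -13),
      (-1, 6, -7, 3, -15), (-1, 6, -5, 15, -78), (-1, 9, 4, -3, -3), (-1, 11, 3, -3, -4), (-1, 30, 7, -3, -3), (1, 1, 0, -3, 19), (1, 1, 0, 0, 19), (1, 1, 0, 3, 19), (1, 1, 0, 6, 19), (1, 1, 0, 9, 19), (1, 1, 0, 12, 19),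
      (1, 2, -1, -3, 20), (1, 3, -2, -12, 75), (1, 3, -2, -3, 33), (1, 3, -1, -6, 33), (1, 3, -1, 3, 12), (1, 5, 1, 3, 8), (1, 6, -1, 3, 6), (1, 6, 1, 15, 27), (1, 9, -5, -3, 18), (1, 11, -8, -3, 17), (1, 19, -15, 0, 1),
      (1, 19, -14, 0, 1), (1, 19, -13, 0, 1), (1, 19, -12, 0, 1), (1, 19, -11, 0, 1), (1, 19, -10, 0, 1), (1, 19, -9, 0, 1), (1, 19, -8, 0, 1), (1, 19, -7, 0, 1), (1, 19, -6, 0, 1), (1, 19, -5, 0, 1), (1, 19, -4, 0, 1),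
      (1, 19, -3, 0, 1), (1, 19, -2, 0, 1), (1, 19, -1, 0, 1), (1, 19, 0, 0, 1), (1, 19, 1, 0, 1), (1, 19, 2, 0, 1), (1, 19, 3, 0, 1), (1, 30, -23, -3, 18)]
  | 1 => [(-1, 3, -2, 6, -9), (-1, 3, -1, 3, 12), (-1, 3, -1, 12, -9), (-1, 4, -1, -3, 10), (-1, 5, -2, -9, 29), (-1, 9, -4, 3, -3), (-1, 11, -3, 3, -4), (-1, 19, -8, 0, 1), (-1, 19, -7, 0, 1), (-1, 19, -6, 0, 1), (-1, 19, -5, 0, 1),
      (-1, 19, -4, 0, 1), (-1, 30, -7, 3, -3), (1, 1, 0, -12, 19), (1, 1, 0, -9, 19), (1, 2, -1, 9, -22), (1, 2, -1, 15, -43), (1, 3, 1, -3, 12), (1, 5, -1, -3, 8), (1, 6, -1, -15, 27), (1, 6, 1, -3, 6), (1, 16, -7, 3, -8)]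
  | 2 => [(-1, 2, -1, 3, -1), (-1, 2, -1, 9, -22), (-1, 2, -1, 15, -43), (-1, 3, -1, -6, 33), (-1, 9, -5, -3, 18), (-1, 15, -8, -3, 15), (-1, 16, -7, 3, -8), (-1, 19, -9, 0, 1), (1, 1, 0, -6, 19), (1, 3, -4, 3, -9), (1, 3, -2, 6, -9),
      (1, 3, -2, 15, -51), (1, 3, -2, 24, -93), (1, 4, -1, -3, 10), (1, 5, -2, -9, 29), (1, 18, -13, 3, -12)]
  | 3 => [(-1, 2, -1, -3, 20), (-1, 3, -2, -12, 75), (-1, 3, -2, -3, 33), (-1, 3, -2, 6, -9), (-1, 3, -2, 15, -51), (-1, 3, -2, 24, -93), (-1, 11, -8, -3, 17), (-1, 18, -13, 3, -12), (-1, 19, -15, 0, 1), (-1, 19, -14, 0, 1),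
      (-1, 19, -13, 0, 1), (-1, 19, -12, 0, 1), (-1, 19, -11, 0, 1), (-1, 19, -10, 0, 1), (-1, 30, -23, -3, 18), (1, 1, -1, 6, -23), (1, 1, -1, 9, -44), (1, 1, -1, 12, -65), (1, 5, -4, 3, -13), (1, 6, -7, 3, -15),
      (1, 6, -5, 15, -78), (1, 15, -8, -3, 15)]

/-- Row 1 of `T_19`. -/
def T19K1 : Fin 4 → List Tm
  | 0 => [(-1, 1, -1, 3, -2), (-1, 1, -1, 6, -23), (-1, 1, -1, 9, -44), (-1, 1, -1, 12, -65), (-1, 1, 1, -3, -2), (-1, 1, 6, 0, 19), (-1, 2, 1, -3, -1), (-1, 3, -7, 3, -30), (-1, 3, 1, -12, -9), (-1, 3, 1, -3, 12), (-1, 3, 2, -6, -9),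
      (-1, 5, -4, 3, -13), (-1, 6, -19, 3, -57), (-1, 6, -5, 15, -78), (-1, 8, 1, 3, 5), (-1, 9, 5, 3, 18), (-1, 11, 3, -3, -4), (-1, 13, -15, 6, -47), (-1, 15, 19, 6, 57), (-1, 17, 4, 6, 11), (-1, 18, 5, 3, 9), (-1, 19, 4, 0, 1),
      (-1, 23, 7, 9, 20), (-1, 27, 5, 3, 6), (-1, 30, 7, -3, -3), (-1, 34, -29, 15, -89), (-1, 36, 19, 15, 57), (-1, 57, 19, 24, 57), (-1, 78, 19, 33, 57), (1, 1, 0, -3, 19), (1, 1, 0, 0, 19), (1, 1, 0, 3, 19), (1, 1, 0, 6, 19),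
      (1, 1, 0, 9, 19), (1, 1, 0, 12, 19), (1, 2, -1, -3, 20), (1, 3, -2, -12, 75), (1, 3, -2, -3, 33), (1, 3, -1, -6, 33), (1, 3, -1, 3, 12), (1, 5, 1, 3, 8), (1, 6, -1, 3, 6), (1, 6, 1, 15, 27), (1, 8, -7, 3, -16),
      (1, 9, -4, 3, -3), (1, 11, -8, -3, 17), (1, 13, -2, 6, -5), (1, 15, -11, 6, -27), (1, 17, -13, 6, -31), (1, 18, -13, 3, -12), (1, 19, -15, 0, 1), (1, 23, -16, 9, -43), (1, 27, -22, 3, -15), (1, 30, -23, -3, 18),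
      (1, 34, 5, 15, 16), (1, 36, -17, 15, -48), (1, 57, -38, 24, -111), (1, 78, -59, 33, -174)]
  | 1 => [(-1, 3, -4, 3, -9), (-1, 3, -2, 6, -9), (-1, 3, -1, 3, 12), (-1, 3, -1, 12, -9), (-1, 5, -2, -9, 29), (-1, 9, -4, 3, -3), (-1, 19, -8, 0, 1), (-1, 48, -19, 21, -57), (-1, 69, -19, 30, -57), (1, 1, 0, -12, 19), (1, 1, 0, -9, 19),
      (1, 1, 6, 0, 19), (1, 2, -1, 9, -22), (1, 2, -1, 15, -43), (1, 3, 1, -3, 12), (1, 4, -3, 3, -11), (1, 5, -1, -3, 8), (1, 6, -1, -15, 27), (1, 9, 5, 3, 18), (1, 12, -1, 3, 3), (1, 20, -13, 9, -40), (1, 22, -1, 9, -2),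
      (1, 39, -5, 15, -12), (1, 41, -20, 18, -61), (1, 43, -8, 18, -23), (1, 62, -27, 27, -82)]
  | 2 => [(-1, 2, -1, 3, -1), (-1, 2, -1, 9, -22), (-1, 2, -1, 15, -43), (-1, 3, -1, -6, 33), (-1, 4, -3, 3, -11), (-1, 5, -4, 3, -13), (-1, 9, -5, -3, 18), (-1, 15, -8, -3, 15), (-1, 15, -7, 3, -6), (-1, 20, -13, 9, -40),
      (-1, 24, -13, 3, -9), (-1, 33, -16, 12, -39), (-1, 36, -17, 15, -48), (-1, 41, -20, 18, -61), (-1, 62, -27, 27, -82), (1, 1, 0, -6, 19), (1, 3, -4, 3, -9), (1, 3, -2, 6, -9), (1, 3, -2, 15, -51), (1, 3, -2, 24, -93),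
      (1, 5, -2, -9, 29), (1, 19, -8, 0, 1), (1, 33, -26, 15, -81), (1, 75, -47, 33, -144)]
  | 3 => [(-1, 2, -1, -3, 20), (-1, 3, -2, -12, 75), (-1, 3, -2, -3, 33), (-1, 3, -2, 6, -9), (-1, 3, -2, 15, -51), (-1, 3, -2, 24, -93), (-1, 8, -7, 3, -16), (-1, 11, -8, -3, 17), (-1, 15, -11, 6, -27), (-1, 17, -13, 6, -31),
      (-1, 18, -13, 3, -12), (-1, 19, -15, 0, 1), (-1, 23, -16, 9, -43), (-1, 27, -22, 3, -15), (-1, 27, -19, 12, -57), (-1, 30, -23, -3, 18), (-1, 33, -26, 15, -81), (-1, 57, -38, 24, -111), (-1, 75, -47, 33, -144),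
      (-1, 78, -59, 33, -174), (1, 1, -1, 6, -23), (1, 1, -1, 9, -44), (1, 1, -1, 12, -65), (1, 3, -7, 3, -30), (1, 5, -4, 3, -13), (1, 6, -5, 15, -78), (1, 8, 1, 3, 5), (1, 9, -5, -3, 18), (1, 13, -15, 6, -47),
      (1, 15, -8, -3, 15), (1, 15, -7, 3, -6), (1, 24, -13, 3, -9), (1, 33, -16, 12, -39), (1, 34, -29, 15, -89)]

/-- Row 2 of `T_19`. -/
def T19K2 : Fin 4 → List Tm
  | 0 => [(-1, 1, -1, 3, -2), (-1, 1, -1, 6, -23), (-1, 1, -1, 9, -44), (-1, 1, -1, 12, -65), (-1, 1, 1, -3, -2), (-1, 1, 9, 0, 19), (-1, 2, 1, -3, -1), (-1, 3, -4, 3, -9), (-1, 3, 1, -12, -9), (-1, 3, 1, -3, 12), (-1, 3, 2, -6, -9),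
      (-1, 5, -4, 3, -13), (-1, 6, -7, 3, -15), (-1, 6, -5, 15, -78), (-1, 9, -22, 3, -45), (-1, 10, -19, 3, -38), (-1, 11, 3, -3, -4), (-1, 11, 19, 3, 38), (-1, 12, 11, 3, 24), (-1, 15, 8, 3, 15), (-1, 18, 5, 3, 9),
      (-1, 19, -19, 6, -41), (-1, 19, 4, 0, 1), (-1, 27, 5, 3, 6), (-1, 30, 7, -3, -3), (-1, 32, 19, 9, 38), (-1, 45, 17, 12, 33), (-1, 51, -53, 15, -108), (-1, 53, 19, 15, 38), (-1, 74, 19, 21, 38), (-1, 114, -95, 33, -192),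
      (1, 1, 0, -3, 19), (1, 1, 0, 0, 19), (1, 1, 0, 3, 19), (1, 1, 0, 6, 19), (1, 1, 0, 9, 19), (1, 1, 0, 12, 19), (1, 2, -1, -3, 20), (1, 3, -2, -12, 75), (1, 3, -2, -3, 33), (1, 3, -1, -6, 33), (1, 3, -1, 3, 12),
      (1, 5, 1, 3, 8), (1, 6, -1, 3, 6), (1, 6, 1, 15, 27), (1, 9, -4, 3, -3), (1, 10, 1, 3, 4), (1, 11, -8, -3, 17), (1, 11, -3, 3, -4), (1, 12, -1, 3, 3), (1, 15, -7, 3, -6), (1, 18, -13, 3, -12), (1, 19, -15, 0, 1),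
      (1, 19, 0, 6, 1), (1, 27, -22, 3, -15), (1, 30, -23, -3, 18), (1, 32, -13, 9, -25), (1, 45, -28, 12, -51), (1, 51, -2, 15, -3), (1, 53, -34, 15, -67), (1, 74, -55, 21, -109), (1, 114, 19, 33, 39)]
  | 1 => [(-1, 3, -4, 3, -9), (-1, 3, -2, 6, -9), (-1, 3, -1, 3, 12), (-1, 3, -1, 12, -9), (-1, 4, -1, -3, 10), (-1, 5, -2, -9, 29), (-1, 9, -4, 3, -3), (-1, 11, -3, 3, -4), (-1, 13, -4, 3, -5), (-1, 15, -7, 3, -6), (-1, 19, -8, 0, 1),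
      (-1, 32, -13, 9, -25), (-1, 39, -16, 12, -33), (-1, 43, -12, 12, -23), (-1, 52, -19, 15, -38), (-1, 73, -19, 21, -38), (-1, 85, -33, 24, -65), (1, 1, 0, -12, 19), (1, 1, 0, -9, 19), (1, 2, -1, 9, -22), (1, 2, -1, 15, -43),
      (1, 3, 1, -3, 12), (1, 4, -3, 3, -11), (1, 5, -1, -3, 8), (1, 6, -1, -15, 27), (1, 8, -7, 3, -16), (1, 9, -22, 3, -45), (1, 23, -1, 6, -1), (1, 54, 1, 15, 3), (1, 117, -20, 33, -39)]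
  | 2 => [(-1, 2, -1, 3, -1), (-1, 2, -1, 9, -22), (-1, 2, -1, 15, -43), (-1, 3, -1, -6, 33), (-1, 4, -3, 3, -11), (-1, 8, -7, 3, -16), (-1, 9, -5, -3, 18), (-1, 15, -8, -3, 15), (-1, 24, -13, 3, -9), (-1, 27, -11, 6, -15),
      (-1, 31, -19, 9, -38), (-1, 51, -28, 12, -45), (-1, 75, -31, 21, -60), (-1, 138, -73, 39, -144), (1, 1, 0, -6, 19), (1, 1, 9, 0, 19), (1, 3, -4, 3, -9), (1, 3, -2, 6, -9), (1, 3, -2, 15, -51), (1, 3, -2, 24, -93),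
      (1, 4, -1, -3, 10), (1, 5, -2, -9, 29), (1, 13, -4, 3, -5), (1, 15, -11, 6, -27), (1, 19, -8, 0, 1), (1, 32, -13, 9, -25), (1, 43, -12, 12, -23), (1, 72, -43, 21, -87), (1, 85, -33, 24, -65), (1, 111, -68, 33, -141)]
  | 3 => [(-1, 2, -1, -3, 20), (-1, 3, -2, -12, 75), (-1, 3, -2, -3, 33), (-1, 3, -2, 6, -9), (-1, 3, -2, 15, -51), (-1, 3, -2, 24, -93), (-1, 11, -8, -3, 17), (-1, 15, -11, 6, -27), (-1, 18, -13, 3, -12), (-1, 19, -15, 0, 1),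
      (-1, 27, -22, 3, -15), (-1, 30, -23, -3, 18), (-1, 32, -13, 9, -25), (-1, 45, -28, 12, -51), (-1, 53, -34, 15, -67), (-1, 72, -43, 21, -87), (-1, 74, -55, 21, -109), (-1, 111, -68, 33, -141), (1, 1, -1, 6, -23),
      (1, 1, -1, 9, -44), (1, 1, -1, 12, -65), (1, 5, -4, 3, -13), (1, 6, -5, 15, -78), (1, 9, -5, -3, 18), (1, 12, 11, 3, 24), (1, 15, -8, -3, 15), (1, 19, -19, 6, -41), (1, 24, -13, 3, -9), (1, 27, -11, 6, -15),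
      (1, 51, -53, 15, -108), (1, 51, -28, 12, -45), (1, 75, -31, 21, -60), (1, 114, -95, 33, -192), (1, 138, -73, 39, -144)]

end Pool.Agent.Helper14.TK7
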