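import Pool.Agent.Helper14.TK7.Lists1
import Pool.Agent.Helper14.TK7.Lists2
import Pool.Agent.Helper14.TK7.Lists3
import Pool.Agent.Helper14.TK7.Lists4
import Pool.Agent.Helper14.TK7.Lists5
import Pool.Agent.Helper14.TK7.Lists6
import Pool.Agent.Helper14.TK7.Lists7
import Pool.Agent.Helper14.TK7.Lists8
import Pool.Agent.Helper14.TK7.Lists9
import Pool.Agent.Helper14.TK7.Lists10
import Pool.Agent.Helper14.TK7.Lists11
import Pool.Agent.Helper14.TK7.Lists12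
import Pool.Agent.Helper14.TK7.Lists13
import Pool.Agent.Helper14.TK7.Lists14
import Pool.Agent.Helper14.TK7.Lists15
import Pool.Agent.Helper14.TK7.Lists16
import Pool.Agent.Helper14.TK7.Lists17
import Pool.Agent.Helper14.TK7.Lists18
import Pool.Agent.Helper14.TK7.Lists19
import Pool.Agent.Helper14.TK7.Lists20
import Pool.Agent.Helper14.TK7.Lists21
import Pool.Agent.Helper14.TK7.Lists22
import Pool.Agent.Helper14.TK7.Lists23
import Pool.Agent.Helper14.TK7.Lists24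
import Pool.Agent.Helper14.TK7.Lists25
import Pool.Agent.Helper14.TK7.Lists26
import Pool.Agent.Helper14.TK7.Lists27
import Pool.Agent.Helper14.TK7.Lists28
import Pool.Agent.Helper14.TK7.Lists29
import Pool.Agent.Helper14.TK7.Lists30
import Pool.Agent.Helper14.TK7.Lists31
import Pool.Agent.Helper14.TK7.Lists32
import Pool.Agent.Helper14.TK7.Lists33

/-!
# Project TK (levels `3·7^n`): the lists of the operators

Matrices of lists are indexed by `Fin 4` (four plane functions); there are four relations.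
-/

set_option autoImplicit false

namespace Pool.Agent.Helper14.TK7

open Pool.Agent.Helper4.S7 (Tm mulT mulL sclL Gd)

/-- Product of two matrices of lists. -/
def mm4 (A B : Fin 4 → Fin 4 → List Tm) (i f : Fin 4) : List Tm :=
  mulL (A i 0) (B 0 f) ++ mulL (A i 1) (B 1 f) ++ mulL (A i 2) (B 2 f) ++ mulL (A i 3) (B 3 f)

/-- `c` times the identity matrix. -/
def id4 (c : ℤ) (i f : Fin 4) : List Tm := if i = f then [(c, 1, 0, 0, 1)] else []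

/-- The rows of `T_17`. -/
def T17K (i : Fin 4) : Fin 4 → List Tm :=
  if i = 0 then T17K0 else if i = 1 then T17K1 else if i = 2 then T17K2 else T17K3

/-- The rows of `T_19`. -/
def T19K (i : Fin 4) : Fin 4 → List Tm :=
  if i = 0 then T19K0 else if i = 1 then T19K1 else if i = 2 then T19K2 else T19K3

/-- The rows of `T_23`. -/
def T23K (i : Fin 4) : Fin 4 → List Tm :=
  if i = 0 then T23K0 else if i = 1 then T23K1 else if i = 2 then T23K2 else T23K3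

/-- The rows of `T_29`. -/
def T29K (i : Fin 4) : Fin 4 → List Tm :=
  if i = 0 then T29K0 else if i = 1 then T29K1 else if i = 2 then T29K2 else T29K3

/-- The rows of `T_31`. -/
def T31K (i : Fin 4) : Fin 4 → List Tm :=
  if i = 0 then T31K0 else if i = 1 then T31K1 else if i = 2 then T31K2 else T31K3

/-- The rows of `T_37`. -/
def T37K (i : Fin 4) : Fin 4 → List Tm :=
  if i = 0 then T37K0 else if i = 1 then T37K1 else if i = 2 then T37K2 else T37K3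

/-- The rows of `T_41`. -/
def T41K (i : Fin 4) : Fin 4 → List Tm :=
  if i = 0 then T41K0 else if i = 1 then T41K1 else if i = 2 then T41K2 else T41K3

/-- The rows of `T_43`. -/
def T43K (i : Fin 4) : Fin 4 → List Tm :=
  if i = 0 then T43K0 else if i = 1 then T43K1 else if i = 2 then T43K2 else T43K3

/-- The rows of `T_47`. -/
def T47K (i : Fin 4) : Fin 4 → List Tm :=
  if i = 0 then T47K0 else if i = 1 then T47K1 else if i = 2 then T47K2 else T47K3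

/-- Multipliers of the relations for `V` (row, relation). -/
def MVK (i : Fin 4) : Fin 4 → List Tm :=
  if i = 0 then MVK0 else if i = 1 then MVK1 else if i = 2 then MVK2 else MVK3

/-- The rows of `C = 2 T_2 + 5 T_11 + 5 T_17 + 2 T_2²`. -/
def TcK (i f : Fin 4) : List Tm :=
  sclL 2 (T2K i f) ++ sclL 5 (T11K i f) ++ sclL 5 (T17K i f) ++ sclL 2 (mm4 T2K T2K i f)

/-- The rows of `A = T_2 + 3 T_5 + 2 T_11 + 6 T_13 + 4 T_17 + 4 T_19 + T_29 + 6 T_37 + T_2 C + 6 T_5²`. -/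
def TaK (i f : Fin 4) : List Tm :=
  T2K i f ++ sclL 3 (T5K i f) ++ sclL 2 (T11K i f) ++ sclL 6 (T13K i f) ++ sclL 4 (T17K i f) ++
    sclL 4 (T19K i f) ++ T29K i f ++ sclL 6 (T37K i f) ++ mm4 T2K TcK i f ++ sclL 6 (mm4 T5K T5K i f)

/-- The rows of `B = T_5 + 4 T_11 + 2 T_13 + T_31`. -/
def TbK (i f : Fin 4) : List Tm :=
  T5K i f ++ sclL 4 (T11K i f) ++ sclL 2 (T13K i f) ++ T31K i f

/-- The rows of `U = 4 + 2 T_2 + 5 T_11 + 4 T_13 + 6 T_19 + 3 T_23 + T_41 + 6 T_2² + 5 T_2 T_5`. -/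
def ULK (i f : Fin 4) : List Tm :=
  id4 4 i f ++ sclL 2 (T2K i f) ++ sclL 5 (T11K i f) ++ sclL 4 (T13K i f) ++ sclL 6 (T19K i f) ++
    sclL 3 (T23K i f) ++ T41K i f ++ sclL 6 (mm4 T2K T2K i f) ++ sclL 5 (mm4 T2K T5K i f)

/-- The rows of `V = 2 T_2 + 4 T_5 + 5 T_13 + 2 T_17 + 5 T_19 + 6 T_23 + 6 T_29 + 2 T_31 + 4 T_37 + T_41 + 2 T_43 + 5 T_47 + T_2 A + T_5 B + 4 T_11²`. -/
def VLK (i f : Fin 4) : List Tm :=
  sclL 2 (T2K i f) ++ sclL 4 (T5K i f) ++ sclL 5 (T13K i f) ++ sclL 2 (T17K i f) ++ sclL 5 (T19K i f) ++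
    sclL 6 (T23K i f) ++ sclL 6 (T29K i f) ++ sclL 2 (T31K i f) ++ sclL 4 (T37K i f) ++ T41K i f ++
    sclL 2 (T43K i f) ++ sclL 5 (T47K i f) ++ mm4 T2K TaK i f ++ mm4 T5K TbK i f ++ sclL 4 (mm4 T11K T11K i f)

/-- The first row of the operator `O_c` at the origin: `1`, `2 + 4 T_2`, `1 + 5 T_2 T_5`, `1 + 5 T_2 + 2 T_5 + 3 T_11 + 3 T_2²`, `6 + T_11 + 4 T_29 + 3 T_2 T_5 + 3 T_2³`,
`2 + T_2 + 6 T_5 + T_11 + 6 T_17 + 3 T_19 + 4 T_29 + 2 T_31 + 3 T_37 + 3 T_2 T_5 + 5 T_2 T_11 + 4 T_2³`, `4 + 5 T_2 + 3 T_5 + 4 T_13 + 4 T_19 + 3 T_23 + T_29 + 3 T_37 + 5 T_2² + 2 T_2 T_23 + 4 T_2³`,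
`4 + 5 T_2 + 3 T_5 + 3 T_11 + 6 T_13 + 2 T_17 + 2 T_23 + 4 T_29 + 3 T_31 + 4 T_2² + 3 T_2 T_13 + 5 T_2 T_17 + 6 T_2 T_19 + 5 T_2² T_5`. -/
def OLK (c : Fin 8) (f : Fin 4) : List Tm :=
  if c = 0 then id4 1 0 f
  else if c = 1 then id4 2 0 f ++ sclL 4 (T2K 0 f)
  else if c = 2 then id4 1 0 f ++ sclL 5 (mm4 T2K T5K 0 f)
  else if c = 3 then id4 1 0 f ++ sclL 5 (T2K 0 f) ++ sclL 2 (T5K 0 f) ++ sclL 3 (T11K 0 f) ++ sclL 3 (mm4 T2K T2K 0 f)
  else if c = 4 then id4 6 0 f ++ T11K 0 f ++ sclL 4 (T29K 0 f) ++ sclL 3 (mm4 T2K T5K 0 f) ++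
    sclL 3 (mm4 T2K (mm4 T2K T2K) 0 f)
  else if c = 5 then id4 2 0 f ++ T2K 0 f ++ sclL 6 (T5K 0 f) ++ T11K 0 f ++ sclL 6 (T17K 0 f) ++ sclL 3 (T19K 0 f) ++
    sclL 4 (T29K 0 f) ++ sclL 2 (T31K 0 f) ++ sclL 3 (T37K 0 f) ++ sclL 3 (mm4 T2K T5K 0 f) ++
    sclL 5 (mm4 T2K T11K 0 f) ++ sclL 4 (mm4 T2K (mm4 T2K T2K) 0 f)
  else if c = 6 then id4 4 0 f ++ sclL 5 (T2K 0 f) ++ sclL 3 (T5K 0 f) ++ sclL 4 (T13K 0 f) ++ sclL 4 (T19K 0 f) ++
    sclL 3 (T23K 0 f) ++ T29K 0 f ++ sclL 3 (T37K 0 f) ++ sclL 5 (mm4 T2K T2K 0 f) ++ sclL 2 (mm4 T2K T23K 0 f) ++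
    sclL 4 (mm4 T2K (mm4 T2K T2K) 0 f)
  else id4 4 0 f ++ sclL 5 (T2K 0 f) ++ sclL 3 (T5K 0 f) ++ sclL 3 (T11K 0 f) ++ sclL 6 (T13K 0 f) ++ sclL 2 (T17K 0 f) ++
    sclL 2 (T23K 0 f) ++ sclL 4 (T29K 0 f) ++ sclL 3 (T31K 0 f) ++ sclL 4 (mm4 T2K T2K 0 f) ++ sclL 3 (mm4 T2K T13K 0 f) ++
    sclL 5 (mm4 T2K T17K 0 f) ++ sclL 6 (mm4 T2K T19K 0 f) ++ sclL 5 (mm4 T2K (mm4 T2K T5K) 0 f)

/-- A row of lists minus multiples of the relations. -/
def sbK (L : Fin 4 → List Tm) (M : Fin 4 → List Tm) (f : Fin 4) : List Tm :=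
  L f ++ sclL (-1) (mulL (M 0) (relK 0 f) ++ mulL (M 1) (relK 1 f) ++ mulL (M 2) (relK 2 f) ++ mulL (M 3) (relK 3 f))

/-- `U` minus multiples of the relations. -/
def BUK (i : Fin 4) : Fin 4 → List Tm := sbK (ULK i) (MUK i)

/-- `V` minus multiples of the relations. -/
def BVK (i : Fin 4) : Fin 4 → List Tm := sbK (VLK i) (MVK i)

/-- `O_c` minus multiples of the relations. -/
def BOK (c : Fin 8) : Fin 4 → List Tm := sbK (OLK c) (MOK c)

end Pool.Agent.Helper14.TK7
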