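import Pool.Agent.Helper4.S7.Tm

/-!
# Project TK (levels `3·7^n`): the relations, multipliers for `U`, rows of `T_2`, rows of `T_5`, multipliers at the origin

A term `(k, a, b, c, d)` stands for `k` times the operator of `(a b; 7c d)` (`Helper4/S7/Tm.lean`; `mulL`, `sclL`, `Gd` of W7 are used unchanged). `F_f(g) = G(g e_f) - G(g 0)` with `e_0 = ∞`, `e_1 = 1/3`, `e_2 = 1/2`, `e_3 = 2/3`.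
The rows of `T_l` are computed with the residues `-(l-1)/2, ..., (l-1)/2` (`0, 1` for `l = 2`).
-/

set_option autoImplicit false

namespace Pool.Agent.Helper14.TK7

open Pool.Agent.Helper4.S7 (Tm mulT mulL sclL Gd)

/-- The four relations as rows of lists (relation, function). -/
def relK : Fin 4 → Fin 4 → List Tm
  | 0, 0 => []
  | 0, 1 => [(1, 1, 0, 0, 1), (1, 3, -1, 3, -6), (1, 4, -1, 3, -5), (1, 5, -1, 3, -4), (1, 6, -1, 3, -3), (1, 9, -2, 6, -9)]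
  | 0, 2 => []
  | 0, 3 => []
  | 1, 0 => []
  | 1, 1 => [(-1, 1, 0, 0, 1), (-1, 9, -4, 3, -9)]
  | 1, 2 => [(1, 1, 0, 0, 1), (1, 9, -4, 3, -9)]
  | 1, 3 => []
  | 2, 0 => []
  | 2, 1 => []
  | 2, 2 => [(-1, 1, 0, 0, 1), (-1, 12, -7, 3, -12)]
  | 2, 3 => [(1, 1, 0, 0, 1), (1, 12, -7, 3, -12)]
  | 3, 0 => [(-1, 1, 1, 0, 1), (-1, 15, 2, 3, 3), (-1, 16, 3, 3, 4), (-1, 17, 4, 3, 5), (-1, 18, 5, 3, 6), (-1, 33, 7, 6, 9), (1, 1, 0, 0, 1), (1, 15, -13, 3, -18), (1, 16, -13, 3, -17), (1, 17, -13, 3, -16), (1, 18, -13, 3, -15),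
      (1, 33, -26, 6, -33)]
  | 3, 1 => []
  | 3, 2 => []
  | 3, 3 => [(-1, 1, 0, 0, 1), (-1, 15, -13, 3, -18), (-1, 16, -13, 3, -17), (-1, 17, -13, 3, -16), (-1, 18, -13, 3, -15), (-1, 33, -26, 6, -33)]

/-- Multipliers of the relations for `U` (row, relation). -/
def MUK : Fin 4 → Fin 4 → List Tm
  | 0, 0 => [(-2, 4, 2, -1, 5), (-1, 6, -1, 2, 4), (1, 3, 2, 2, 6), (1, 5, 1, 1, -3)]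
  | 0, 1 => [(-3, 3, -3, 0, 2), (-3, 3, -2, 2, -1), (-3, 4, 2, 0, 1), (-3, 5, -2, -1, 5), (-1, 1, -2, 0, -3), (-1, 3, -3, 2, 4), (1, 1, 0, 0, -1), (1, 6, -1, 2, 1), (1, 6, 1, 3, -1), (2, 3, 0, 2, 1), (2, 5, -2, -2, 1), (2, 6, -1, 3, 4),
      (3, 2, 1, 1, 6), (3, 3, -3, 1, 4), (3, 6, -3, 0, -2), (3, 6, -3, 1, -2)]
  | 0, 2 => [(-3, 2, 3, -3, 1), (-3, 4, 3, 3, 4), (-2, 1, 3, 1, -6), (-2, 5, 1, -1, -6), (-1, 4, -1, 1, -2), (-1, 5, -3, 3, 2), (1, 2, -3, -3, 3), (3, 2, 0, -2, -1), (3, 5, -2, 1, -4), (3, 6, 3, 0, -1)]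
  | 0, 3 => [(1, 2, -1, 1, -2)]
  | 1, 0 => [(1, 1, 1, -2, 3), (1, 2, 3, 2, 4), (1, 4, 2, 1, 1), (3, 3, 2, -2, 2)]
  | 1, 1 => [(-3, 2, -2, 2, -1), (-3, 2, 1, -1, 5), (-3, 4, 2, 3, -3), (-3, 5, 2, 0, -1), (-2, 2, -1, -1, -3), (-2, 5, -2, 2, -4), (-1, 4, 0, 2, 5), (-1, 4, 2, 1, 2), (1, 2, -2, 3, -3), (1, 4, 3, 0, 4), (1, 5, -2, -3, 2), (1, 5, 3, -3, -5),
      (2, 1, -1, 2, -1), (2, 1, 2, 1, -2), (2, 5, 2, 1, 4), (3, 3, 1, 0, 5)]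
  | 1, 2 => [(-3, 1, -2, 1, 3), (-3, 4, 0, 0, 5), (-3, 5, -3, 0, -6), (-3, 5, 3, -1, -3), (-2, 2, 3, 1, 4), (-1, 1, -3, -2, -6), (-1, 4, -1, 3, -6), (1, 2, 3, -3, 2), (3, 1, 0, 0, 4), (3, 2, -2, 1, 5), (3, 4, 3, 0, -2)]
  | 1, 3 => [(-2, 4, 3, 2, 4), (2, 5, 1, 0, -5)]
  | 2, 0 => [(1, 1, 0, 3, -3), (2, 1, 3, -3, -5), (3, 4, 3, 1, 1)]
  | 2, 1 => [(-3, 4, -2, 1, 4), (-3, 6, 1, -1, 6), (-2, 2, 0, -2, -5), (-2, 3, 2, 2, -2), (-2, 6, 3, 0, 2), (-1, 4, -1, -3, 6), (-1, 6, -2, 3, 2), (1, 1, -1, 3, -1), (2, 3, -3, 0, 5), (3, 1, -2, 1, 6), (3, 3, 0, -2, -5), (3, 5, -2, -3, 1)]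
  | 2, 2 => [(-3, 4, 3, 0, -2), (-2, 2, 2, 3, 6), (-2, 3, 3, 2, -2), (-2, 4, 3, 3, 2), (-1, 1, -1, 0, 6), (-1, 4, -3, 1, 4), (2, 1, -1, 2, -4), (2, 1, -1, 3, -2), (2, 6, -3, 1, -6), (2, 6, -2, 3, -6), (3, 5, -2, -2, 2), (3, 6, -3, -2, -1),
      (3, 6, 3, 2, 2)]
  | 2, 3 => [(-2, 4, 3, 3, 3), (3, 1, 2, 1, -1)]
  | 3, 0 => [(-3, 1, 1, -1, 4), (-3, 2, 3, 1, -3), (-3, 6, 3, -3, 2), (-1, 6, -1, -2, 1), (3, 3, 1, -2, 1)]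
  | 3, 1 => [(-3, 1, -3, 3, -1), (-3, 2, -1, 1, -1), (-2, 1, -2, -1, 1), (-2, 2, -1, 1, -5), (-2, 2, 3, -3, -3), (-2, 3, 2, -3, -5), (-1, 3, -3, -1, 2), (-1, 4, 3, -3, -3), (-1, 6, 3, -2, -1), (1, 3, 3, 1, 1), (1, 5, -1, -1, 1),
      (1, 6, -2, 3, 2), (2, 1, 2, 0, 5), (2, 5, 2, -2, 3), (3, 2, 2, -3, -4)]
  | 3, 2 => [(-3, 1, 1, -1, -5), (-3, 5, -2, 0, -6), (-2, 3, -2, -1, 2), (-2, 3, 2, 3, -3), (-1, 3, 2, 2, 6), (-1, 5, 3, 2, 4), (-1, 6, -2, 1, -3), (2, 2, -3, -2, -5), (2, 2, 0, 1, -6), (2, 5, 2, 0, -2), (3, 1, 0, -2, 6), (3, 5, 2, 0, -3)]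
  | 3, 3 => [(1, 4, -1, 0, -3)]

/-- The rows of `T_2`: `F_i(T_2 G) = ∑_f (T2K i f) F_f(G)`. -/
def T2K : Fin 4 → Fin 4 → List Tm
  | 0, 0 => [(1, 1, 0, 0, 2), (1, 2, -1, 0, 1), (1, 2, 0, 0, 1)]
  | 0, 1 => []
  | 0, 2 => [(-1, 2, -1, 0, 1)]
  | 0, 3 => []
  | 1, 0 => []
  | 1, 1 => [(-1, 6, -2, 3, -6)]
  | 1, 2 => [(-1, 2, -1, 0, 1)]
  | 1, 3 => [(1, 1, 0, 0, 2), (1, 2, -1, 0, 1)]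
  | 2, 0 => [(-1, 1, 1, 0, 2), (-1, 9, -8, 3, -18), (1, 1, 0, 0, 2), (1, 9, 1, 3, 3)]
  | 2, 1 => [(1, 2, 0, 0, 1), (1, 12, -2, 3, -3)]
  | 2, 2 => [(-1, 2, -1, 0, 1)]
  | 2, 3 => [(1, 2, -1, 0, 1), (1, 9, -8, 3, -18)]
  | 3, 0 => [(-1, 1, 1, 0, 2), (-1, 2, 1, 0, 1), (-1, 15, 4, 3, 6), (1, 1, 0, 0, 2), (1, 2, -1, 0, 1), (1, 15, -11, 3, -15)]
  | 3, 1 => [(1, 1, 1, 0, 2), (1, 2, 0, 0, 1)]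
  | 3, 2 => [(-1, 2, -1, 0, 1)]
  | 3, 3 => [(-1, 15, -11, 3, -15)]

/-- The rows of `T_5`: `F_i(T_5 G) = ∑_f (T5K i f) F_f(G)`. -/
def T5K : Fin 4 → Fin 4 → List Tm
  | 0, 0 => [(-1, 1, -1, 3, -16), (-1, 6, -5, 3, -15), (1, 1, 0, 0, 5), (1, 1, 0, 3, 5), (1, 5, -3, 0, 1), (1, 5, -2, 0, 1), (1, 5, -1, 0, 1), (1, 5, 0, 0, 1), (1, 5, 1, 0, 1), (1, 6, 1, 3, 6)]
  | 0, 1 => [(-1, 5, -2, 0, 1), (1, 1, 0, -3, 5), (1, 2, -1, 3, -8), (1, 6, -1, -3, 6)]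
  | 0, 2 => [(-1, 2, -1, 3, -8), (1, 3, -2, 3, -9)]
  | 0, 3 => [(-1, 3, -2, 3, -9), (-1, 5, -3, 0, 1), (1, 1, -1, 3, -16), (1, 6, -5, 3, -15)]
  | 1, 0 => [(-1, 1, -1, 3, -16), (-1, 1, 1, 0, 5), (-1, 6, -5, 3, -15), (-1, 15, 5, 6, 15), (1, 1, 0, 0, 5), (1, 1, 0, 3, 5), (1, 6, 1, 3, 6), (1, 15, -10, 6, -27)]
  | 1, 1 => [(-1, 5, -2, 0, 1), (1, 1, 0, -3, 5), (1, 2, -1, 3, -8), (1, 5, -1, 0, 1), (1, 6, -1, -3, 6), (1, 8, -1, 3, -2), (1, 9, -2, 3, -3), (1, 13, -6, 6, -19)]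
  | 1, 2 => [(-1, 2, -1, 3, -8), (-1, 13, -6, 6, -19), (1, 3, -2, 3, -9), (1, 5, -2, 0, 1)]
  | 1, 3 => [(-1, 3, -2, 3, -9), (-1, 15, -10, 6, -27), (1, 1, -1, 3, -16), (1, 1, 1, 0, 5)]
  | 2, 0 => [(-1, 1, -1, 3, -16), (-1, 1, 2, 0, 5), (-1, 6, -5, 3, -15), (-1, 9, -11, 3, -24), (-1, 11, 5, 3, 10), (1, 1, 0, 0, 5), (1, 1, 0, 3, 5), (1, 6, 1, 3, 6), (1, 9, -2, 3, -3), (1, 11, -6, 3, -11)]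
  | 2, 1 => [(-1, 5, -2, 0, 1), (1, 1, 0, -3, 5), (1, 2, -1, 3, -8), (1, 5, -1, 0, 1), (1, 6, -1, -3, 6), (1, 12, 1, 3, 3)]
  | 2, 2 => [(-1, 2, -1, 3, -8), (-1, 10, -5, 3, -10), (1, 1, 2, 0, 5), (1, 3, -2, 3, -9), (1, 5, -2, 0, 1), (1, 6, -5, 3, -15)]
  | 2, 3 => [(-1, 3, -2, 3, -9), (-1, 11, -6, 3, -11), (1, 1, -1, 3, -16), (1, 9, -11, 3, -24)]
  | 3, 0 => [(-1, 1, -1, 3, -16), (-1, 1, 3, 0, 5), (-1, 6, -5, 3, -15), (-1, 12, -11, 3, -18), (-1, 13, -12, 3, -19), (-1, 15, 10, 3, 15), (1, 1, 0, 0, 5), (1, 1, 0, 3, 5), (1, 6, 1, 3, 6), (1, 12, 1, 3, 3), (1, 13, 1, 3, 2),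
      (1, 15, -5, 3, -6)]
  | 3, 1 => [(-1, 5, -2, 0, 1), (-1, 15, -5, 3, -6), (-1, 27, -10, 6, -15), (1, 1, 0, -3, 5), (1, 1, 3, 0, 5), (1, 2, -1, 3, -8), (1, 5, -1, 0, 1), (1, 6, -1, -3, 6)]
  | 3, 2 => [(-1, 2, -1, 3, -8), (-1, 18, -11, 3, -12), (1, 3, -2, 3, -9), (1, 12, -11, 3, -18)]
  | 3, 3 => [(-1, 3, -2, 3, -9), (1, 1, -1, 3, -16), (1, 5, -2, 0, 1), (1, 6, -5, 3, -15), (1, 13, -12, 3, -19), (1, 18, -11, 3, -12)]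

/-- Multipliers of the relations for the operators at the origin (operator, relation). -/
def MOK : Fin 8 → Fin 4 → List Tm
  | 0, 0 => []
  | 0, 1 => []
  | 0, 2 => []
  | 0, 3 => []
  | 1, 0 => [(2, 6, 1, -1, 5)]
  | 1, 1 => [(-1, 5, 0, 1, -4)]
  | 1, 2 => [(1, 2, 0, -1, -3)]
  | 1, 3 => [(-2, 5, 1, 0, -2)]
  | 2, 0 => [(-3, 3, 0, -1, 4), (3, 4, 0, 3, -1)]
  | 2, 1 => [(1, 1, 1, 1, 3), (1, 3, -3, 3, 1)]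
  | 2, 2 => [(-2, 1, 0, 1, -2), (2, 4, -1, 1, 2)]
  | 2, 3 => []
  | 3, 0 => [(-3, 3, -3, 0, 1), (-2, 4, 1, 1, 3)]
  | 3, 1 => [(-1, 4, 3, -3, 5), (1, 2, 1, -2, -5)]
  | 3, 2 => [(-1, 1, 1, 2, 1), (3, 1, -2, -1, -4)]
  | 3, 3 => [(-2, 4, 1, 0, -4)]
  | 4, 0 => [(2, 3, 0, -1, 4)]
  | 4, 1 => [(-2, 1, -3, 2, -2), (-2, 5, -2, -3, -6), (-1, 3, -3, 3, 1), (1, 4, 1, -1, 3), (3, 1, 1, 1, 3), (3, 3, 3, -1, 6)]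
  | 4, 2 => [(-3, 5, -3, 0, 6), (-1, 1, 0, 1, -2), (1, 1, -3, 1, 6), (1, 3, 2, 1, 5), (1, 4, -1, 1, 2)]
  | 4, 3 => [(-2, 2, -3, 0, 6)]
  | 5, 0 => [(-3, 2, -2, -3, 4), (-1, 3, -3, -1, 5), (-1, 6, -1, -2, 1), (1, 1, 3, 3, -2)]
  | 5, 1 => [(-3, 2, -3, -2, -6), (-3, 5, -1, 1, 3), (-2, 1, -1, -1, -4), (-2, 2, 2, 2, -5), (-2, 4, 0, -1, -3), (-1, 2, 1, -1, 5), (-1, 4, 1, 2, 4), (-1, 6, 2, 1, 5), (1, 2, -3, -1, -5), (1, 3, 2, -1, 2), (2, 6, 2, -1, 1), (3, 3, 1, 0, -5),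
      (3, 4, 1, -1, -1)]
  | 5, 2 => [(-3, 3, 3, -1, -5), (-3, 5, -3, 3, 2), (-3, 5, 3, -2, -3), (-2, 2, -3, 2, -6), (-2, 4, 0, 2, 3), (1, 2, -3, -3, -3), (1, 2, -3, 1, -5), (1, 2, 1, 0, -3), (2, 2, -1, 3, 4), (2, 3, 3, -2, 1), (2, 5, 2, -2, -2), (3, 5, 3, -2, -6)]
  | 5, 3 => [(-3, 1, -1, -1, -6)]
  | 6, 0 => [(-2, 3, -2, -2, -4), (-1, 1, 3, -3, -5), (-1, 3, -3, 1, -6)]
  | 6, 1 => [(-3, 6, 2, 1, 5), (-2, 3, 1, 3, -1), (-2, 5, 0, 0, 4), (-1, 2, 0, -3, 1), (-1, 4, 1, -1, 3), (-1, 4, 3, 2, -4), (1, 4, 1, 0, 2), (1, 5, -2, -3, -6), (2, 1, -2, -2, 2), (2, 1, -2, 0, 4), (3, 4, 1, 2, 2)]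
  | 6, 2 => [(-3, 1, 0, -3, 6), (-3, 3, -1, 1, 1), (-2, 1, -2, 1, 3), (-2, 4, -3, 1, 1), (-1, 2, 3, -2, -2), (-1, 4, -2, 1, 5), (-1, 6, -3, -1, -4), (1, 3, -1, -3, -4), (2, 1, -1, 2, -1), (2, 2, 1, -2, -6), (2, 3, -2, -3, -6),
      (3, 5, -2, -2, 6)]
  | 6, 3 => [(2, 2, 1, -1, 2), (2, 2, 3, -1, 6)]
  | 7, 0 => [(-2, 6, 0, -2, -1), (-1, 3, -2, -2, -4), (1, 5, -2, -1, 2), (1, 6, -1, 2, 4), (2, 1, 3, -3, -5), (2, 5, 3, -1, -4)]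
  | 7, 1 => [(-3, 2, -2, 2, -1), (-3, 4, 1, 2, 2), (-2, 2, 0, -3, 1), (1, 2, -1, 3, 2), (1, 5, -3, 1, -3), (1, 6, 2, -1, 6), (2, 3, 1, 3, -1), (2, 6, 2, 1, 5), (3, 1, -2, -2, 2), (3, 1, -2, 0, 4), (3, 3, -2, -2, -3), (3, 4, 1, -1, 3),
      (3, 4, 1, 0, 2), (3, 5, -2, -3, -6)]
  | 7, 2 => [(-2, 1, -1, 2, -1), (-2, 2, 1, -2, -6), (-2, 2, 3, -2, -2), (-2, 4, 0, 1, 3), (-1, 6, -1, 0, 1), (1, 1, -2, 1, 3), (2, 1, 0, -3, 6), (2, 1, 0, -2, 2), (2, 3, -2, -3, -6), (2, 4, -3, 1, 1), (2, 4, -2, 1, 5)]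
  | 7, 3 => [(-2, 6, -3, -1, -3), (1, 4, -1, 3, -2), (2, 2, 1, -1, 2), (3, 2, 3, -1, 6)]

end Pool.Agent.Helper14.TK7
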