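import Pool.Agent.Helper4.S7.Tm

/-!
# Project TK (levels `3·7^n`): row 0 of `T_29`, row 1 of `T_29`

A term `(k, a, b, c, d)` stands for `k` times the operator of `(a b; 7c d)` (`Helper4/S7/Tm.lean`; `mulL`, `sclL`, `Gd` of W7 are used unchanged). `F_f(g) = G(g e_f) - G(g 0)` with `e_0 = ∞`, `e_1 = 1/3`, `e_2 = 1/2`, `e_3 = 2/3`.
The rows of `T_l` are computed with the residues `-(l-1)/2, ..., (l-1)/2` (`0, 1` for `l = 2`).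
-/

set_option autoImplicit false

namespace Pool.Agent.Helper14.TK7

open Pool.Agent.Helper4.S7 (Tm mulT mulL sclL Gd)

/-- Row 0 of `T_29`. -/
def T29K0 : Fin 4 → List Tm
  | 0 => [(-1, 1, -2, 3, -13), (-1, 1, -1, 6, -13), (-1, 1, -1, 9, -34), (-1, 1, -1, 12, -55), (-1, 1, -1, 15, -76), (-1, 1, -1, 18, -97), (-1, 1, 1, -3, 8), (-1, 2, 1, -3, 4), (-1, 3, -5, 3, -6), (-1, 3, -4, 6, -27), (-1, 3, 1, -24, -27),
      (-1, 3, 1, -15, -6), (-1, 3, 1, -6, 15), (-1, 3, 2, -3, 15), (-1, 4, 1, -3, 2), (-1, 5, -4, 3, -11), (-1, 6, -5, 3, -3), (-1, 6, -5, 21, -108), (-1, 6, 5, -3, -3), (-1, 9, -8, 3, -9), (-1, 9, 4, -6, -9),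
      (-1, 12, -11, 3, -12), (-1, 18, -17, 3, -15), (-1, 19, 5, -3, -4), (-1, 27, 8, -3, -3), (-1, 48, 11, -3, -3), (1, 1, 0, -3, 29), (1, 1, 0, 0, 29), (1, 1, 0, 3, 29), (1, 1, 0, 6, 29), (1, 1, 0, 9, 29), (1, 1, 0, 12, 29),
      (1, 1, 0, 15, 29), (1, 1, 0, 18, 29), (1, 2, -1, -3, 25), (1, 3, -2, -24, 141), (1, 3, -2, -15, 99), (1, 3, -2, -6, 57), (1, 3, -2, 3, 15), (1, 3, -1, -3, 36), (1, 3, -1, 6, 15), (1, 4, -3, -3, 23), (1, 5, 1, 3, 10),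
      (1, 6, -1, -3, 18), (1, 6, 1, 3, 18), (1, 6, 1, 21, 39), (1, 9, -5, -6, 33), (1, 9, 1, 3, 12), (1, 12, 1, 3, 9), (1, 18, 1, 3, 6), (1, 19, -14, -3, 17), (1, 27, -19, -3, 18), (1, 29, -23, 0, 1), (1, 29, -22, 0, 1),
      (1, 29, -21, 0, 1), (1, 29, -20, 0, 1), (1, 29, -19, 0, 1), (1, 29, -18, 0, 1), (1, 29, -17, 0, 1), (1, 29, -16, 0, 1), (1, 29, -15, 0, 1), (1, 29, -14, 0, 1), (1, 29, -13, 0, 1), (1, 29, -12, 0, 1), (1, 29, -11, 0, 1),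
      (1, 29, -10, 0, 1), (1, 29, -9, 0, 1), (1, 29, -8, 0, 1), (1, 29, -7, 0, 1), (1, 29, -6, 0, 1), (1, 29, -5, 0, 1), (1, 29, -4, 0, 1), (1, 29, -3, 0, 1), (1, 29, -2, 0, 1), (1, 29, -1, 0, 1), (1, 29, 0, 0, 1),
      (1, 29, 1, 0, 1), (1, 29, 2, 0, 1), (1, 29, 3, 0, 1), (1, 29, 4, 0, 1), (1, 29, 5, 0, 1), (1, 48, -37, -3, 18)]
  | 1 => [(-1, 3, -1, -3, 36), (-1, 3, -1, 6, 15), (-1, 3, -1, 15, -6), (-1, 3, -1, 24, -27), (-1, 4, -1, 3, 2), (-1, 5, -2, -9, 31), (-1, 9, -4, 6, -9), (-1, 19, -5, 3, -4), (-1, 27, -8, 3, -3), (-1, 29, -12, 0, 1), (-1, 29, -11, 0, 1),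
      (-1, 29, -10, 0, 1), (-1, 29, -9, 0, 1), (-1, 29, -8, 0, 1), (-1, 29, -7, 0, 1), (-1, 29, -6, 0, 1), (-1, 48, -11, 3, -3), (1, 1, -1, 6, -13), (1, 1, 0, -18, 29), (1, 1, 0, -15, 29), (1, 1, 0, -12, 29), (1, 1, 1, -3, 8),
      (1, 2, -1, 9, -17), (1, 2, -1, 15, -38), (1, 2, -1, 21, -59), (1, 3, -5, 3, -6), (1, 3, 1, -6, 15), (1, 6, -1, -21, 39), (1, 9, -1, -3, 12), (1, 12, -1, -3, 9), (1, 18, -1, -3, 6), (1, 20, -9, 3, -8)]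
  | 2 => [(-1, 2, -1, 3, 4), (-1, 2, -1, 9, -17), (-1, 2, -1, 15, -38), (-1, 2, -1, 21, -59), (-1, 3, -1, -12, 57), (-1, 9, -5, -6, 33), (-1, 20, -9, 3, -8), (-1, 24, -13, -3, 15), (-1, 29, -14, 0, 1), (-1, 29, -13, 0, 1),
      (1, 1, 0, -9, 29), (1, 3, -2, 12, -27), (1, 3, -2, 21, -69), (1, 3, -2, 30, -111), (1, 3, -2, 39, -153), (1, 5, -2, -9, 31), (1, 5, -1, -3, 10), (1, 9, -8, 3, -9), (1, 12, -11, 3, -12), (1, 33, -23, 3, -12)]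
  | 3 => [(-1, 2, -1, -3, 25), (-1, 3, -2, -24, 141), (-1, 3, -2, -15, 99), (-1, 3, -2, -6, 57), (-1, 3, -2, 3, 15), (-1, 3, -2, 12, -27), (-1, 3, -2, 21, -69), (-1, 3, -2, 30, -111), (-1, 3, -2, 39, -153), (-1, 4, -3, -3, 23),
      (-1, 19, -14, -3, 17), (-1, 27, -19, -3, 18), (-1, 29, -23, 0, 1), (-1, 29, -22, 0, 1), (-1, 29, -21, 0, 1), (-1, 29, -20, 0, 1), (-1, 29, -19, 0, 1), (-1, 29, -18, 0, 1), (-1, 29, -17, 0, 1), (-1, 29, -16, 0, 1),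
      (-1, 29, -15, 0, 1), (-1, 33, -23, 3, -12), (-1, 48, -37, -3, 18), (1, 1, -2, 3, -13), (1, 1, -1, 9, -34), (1, 1, -1, 12, -55), (1, 1, -1, 15, -76), (1, 1, -1, 18, -97), (1, 1, 0, -6, 29), (1, 3, -4, 6, -27),
      (1, 3, -1, -12, 57), (1, 3, 2, -3, 15), (1, 5, -4, 3, -11), (1, 6, -5, 21, -108), (1, 18, -17, 3, -15), (1, 24, -13, -3, 15)]

/-- Row 1 of `T_29`. -/
def T29K1 : Fin 4 → List Tm
  | 0 => [(-1, 1, -2, 3, -13), (-1, 1, -1, 6, -13), (-1, 1, -1, 9, -34), (-1, 1, -1, 12, -55), (-1, 1, -1, 15, -76), (-1, 1, -1, 18, -97), (-1, 1, 1, -3, 8), (-1, 1, 9, 0, 29), (-1, 2, -3, 3, -17), (-1, 2, 1, -3, 4), (-1, 3, -8, 3, -27),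
      (-1, 3, -4, 6, -27), (-1, 3, 1, -24, -27), (-1, 3, 1, -15, -6), (-1, 3, 1, -6, 15), (-1, 3, 2, -3, 15), (-1, 4, -5, 3, -19), (-1, 4, 1, -3, 2), (-1, 5, -4, 3, -11), (-1, 6, -29, 3, -87), (-1, 6, -5, 21, -108),
      (-1, 8, 7, 3, 22), (-1, 9, 4, -6, -9), (-1, 9, 10, 3, 33), (-1, 10, 1, 3, 5), (-1, 13, -14, 6, -43), (-1, 15, 29, 6, 87), (-1, 19, 5, -3, -4), (-1, 20, -23, 9, -71), (-1, 27, -29, 12, -87), (-1, 29, 6, 0, 1),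
      (-1, 33, -31, 15, -96), (-1, 36, 29, 15, 87), (-1, 37, 11, 15, 32), (-1, 39, 7, 3, 6), (-1, 41, -37, 18, -113), (-1, 45, -41, 21, -132), (-1, 48, 11, -3, -3), (-1, 57, 29, 24, 87), (-1, 62, -51, 27, -155),
      (-1, 78, 29, 33, 87), (-1, 99, 29, 42, 87), (-1, 120, 29, 51, 87), (1, 1, 0, -3, 29), (1, 1, 0, 0, 29), (1, 1, 0, 3, 29), (1, 1, 0, 6, 29), (1, 1, 0, 9, 29), (1, 1, 0, 12, 29), (1, 1, 0, 15, 29), (1, 1, 0, 18, 29),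
      (1, 2, -1, -3, 25), (1, 2, -1, 3, 4), (1, 3, -2, -24, 141), (1, 3, -2, -15, 99), (1, 3, -2, -6, 57), (1, 3, -2, 3, 15), (1, 3, -1, -3, 36), (1, 3, -1, 6, 15), (1, 4, -3, -3, 23), (1, 4, -1, 3, 2), (1, 5, 1, 3, 10),
      (1, 6, 1, 3, 18), (1, 6, 1, 21, 39), (1, 8, -1, 3, 1), (1, 9, -5, -6, 33), (1, 9, 1, 3, 12), (1, 10, -9, 3, -16), (1, 13, -1, 6, -1), (1, 15, -1, 6, 3), (1, 19, -14, -3, 17), (1, 20, -3, 9, -8), (1, 27, -2, 12, -3),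
      (1, 29, -23, 0, 1), (1, 33, 2, 15, 9), (1, 36, -7, 15, -18), (1, 37, -26, 15, -73), (1, 39, -32, 3, -15), (1, 41, 4, 18, 13), (1, 45, 4, 21, 15), (1, 48, -37, -3, 18), (1, 57, -28, 24, -81), (1, 62, 11, 27, 34),
      (1, 78, -49, 33, -144), (1, 99, -70, 42, -207), (1, 120, -91, 51, -270)]
  | 1 => [(-1, 3, -1, -3, 36), (-1, 3, -1, 6, 15), (-1, 3, -1, 15, -6), (-1, 3, -1, 24, -27), (-1, 4, -1, 3, 2), (-1, 5, -2, -9, 31), (-1, 5, -2, 6, -11), (-1, 9, -4, 6, -9), (-1, 11, -4, 3, -5), (-1, 19, -8, 9, -25), (-1, 22, -5, 9, -13),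
      (-1, 27, -7, 15, -24), (-1, 48, -29, 21, -87), (-1, 59, -23, 24, -65), (-1, 69, -29, 30, -87), (-1, 90, -29, 39, -87), (-1, 111, -29, 48, -87), (1, 1, -2, 3, -13), (1, 1, -1, 6, -13), (1, 1, 0, -18, 29), (1, 1, 0, -15, 29),
      (1, 1, 0, -12, 29), (1, 1, 1, -3, 8), (1, 2, -1, 9, -17), (1, 2, -1, 15, -38), (1, 2, -1, 21, -59), (1, 3, -8, 3, -27), (1, 3, 1, -6, 15), (1, 3, 2, -3, 15), (1, 5, -1, -3, 10), (1, 6, -1, -21, 39), (1, 8, 7, 3, 22),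
      (1, 9, -1, -3, 12), (1, 9, 10, 3, 33), (1, 10, 1, 3, 5), (1, 12, 1, 3, 9), (1, 13, -14, 6, -43), (1, 13, -2, 3, -1), (1, 15, -2, 3, 3), (1, 26, -5, 9, -11), (1, 27, -4, 6, -3), (1, 29, 0, 12, 1), (1, 34, -21, 15, -64),
      (1, 50, -7, 21, -20), (1, 51, -11, 21, -30), (1, 55, -28, 24, -85), (1, 71, -14, 30, -41), (1, 76, -35, 33, -106), (1, 81, -13, 33, -36), (1, 97, -42, 42, -127)]
  | 2 => [(-1, 1, -2, 3, -13), (-1, 2, -1, 3, 4), (-1, 2, -1, 9, -17), (-1, 2, -1, 15, -38), (-1, 2, -1, 21, -59), (-1, 3, -1, -12, 57), (-1, 9, -5, -6, 33), (-1, 30, -17, 3, -9), (-1, 33, -14, 12, -33), (-1, 34, -21, 15, -64),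
      (-1, 39, -22, 15, -57), (-1, 55, -28, 24, -85), (-1, 57, -32, 21, -81), (-1, 57, -28, 24, -81), (-1, 76, -35, 33, -106), (-1, 97, -42, 42, -127), (1, 1, 0, -9, 29), (1, 3, -4, 6, -27), (1, 3, -2, 12, -27),
      (1, 3, -2, 21, -69), (1, 3, -2, 30, -111), (1, 3, -2, 39, -153), (1, 5, -2, -9, 31), (1, 6, -1, -3, 18), (1, 11, -4, 3, -5), (1, 22, -5, 9, -13), (1, 33, -31, 15, -96), (1, 48, -29, 21, -87), (1, 59, -23, 24, -65),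
      (1, 75, -52, 33, -159), (1, 117, -73, 51, -222), (1, 159, -94, 69, -285)]
  | 3 => [(-1, 2, -1, -3, 25), (-1, 3, -2, -24, 141), (-1, 3, -2, -15, 99), (-1, 3, -2, -6, 57), (-1, 3, -2, 3, 15), (-1, 3, -2, 12, -27), (-1, 3, -2, 21, -69), (-1, 3, -2, 30, -111), (-1, 3, -2, 39, -153), (-1, 4, -3, -3, 23),
      (-1, 10, -9, 3, -16), (-1, 19, -14, -3, 17), (-1, 29, -23, 0, 1), (-1, 37, -26, 15, -73), (-1, 39, -32, 3, -15), (-1, 48, -37, -3, 18), (-1, 48, -29, 21, -87), (-1, 75, -52, 33, -159), (-1, 78, -49, 33, -144),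
      (-1, 99, -70, 42, -207), (-1, 117, -73, 51, -222), (-1, 120, -91, 51, -270), (-1, 159, -94, 69, -285), (1, 1, -2, 3, -13), (1, 1, -1, 9, -34), (1, 1, -1, 12, -55), (1, 1, -1, 15, -76), (1, 1, -1, 18, -97), (1, 1, 0, -6, 29),
      (1, 1, 9, 0, 29), (1, 2, -3, 3, -17), (1, 3, -1, -12, 57), (1, 4, -5, 3, -19), (1, 6, -5, 21, -108), (1, 20, -23, 9, -71), (1, 30, -17, 3, -9), (1, 33, -14, 12, -33), (1, 39, -22, 15, -57), (1, 41, -37, 18, -113),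
      (1, 45, -41, 21, -132), (1, 57, -32, 21, -81), (1, 62, -51, 27, -155)]

end Pool.Agent.Helper14.TK7
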