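import Pool.Agent.Helper4.S7.Tm

/-!
# Project TK (levels `3·7^n`): row 2 of `T_41`

A term `(k, a, b, c, d)` stands for `k` times the operator of `(a b; 7c d)` (`Helper4/S7/Tm.lean`; `mulL`, `sclL`, `Gd` of W7 are used unchanged). `F_f(g) = G(g e_f) - G(g 0)` with `e_0 = ∞`, `e_1 = 1/3`, `e_2 = 1/2`, `e_3 = 2/3`.
The rows of `T_l` are computed with the residues `-(l-1)/2, ..., (l-1)/2` (`0, 1` for `l = 2`).
-/

set_option autoImplicit false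

namespace Pool.Agent.Helper14.TK7

open Pool.Agent.Helper4.S7 (Tm mulT mulL sclL Gd)

/-- Row 2 of `T_41`. -/
def T41K2 : Fin 4 → List Tm
  | 0 => [(-1, 1, -2, 3, -1), (-1, 1, -1, 6, -1), (-1, 1, -1, 9, -22), (-1, 1, -1, 12, -43), (-1, 1, -1, 15, -64), (-1, 1, -1, 18, -85), (-1, 1, -1, 21, -106), (-1, 1, -1, 24, -127), (-1, 1, 1, -6, -1), (-1, 1, 2, -3, -1),
      (-1, 1, 20, 0, 41), (-1, 2, -3, 3, -11), (-1, 2, 1, -9, -11), (-1, 2, 1, -3, 10), (-1, 3, -8, 3, -15), (-1, 3, -4, 6, -15), (-1, 3, 1, -42, -57), (-1, 3, 1, -33, -36), (-1, 3, 1, -24, -15), (-1, 3, 1, -15, 6),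
      (-1, 3, 1, -6, 27), (-1, 3, 2, -12, -15), (-1, 3, 5, -3, 6), (-1, 4, -5, 3, -16), (-1, 4, 1, -15, -16), (-1, 4, 1, -3, 5), (-1, 5, -6, 3, -17), (-1, 6, -17, 3, -39), (-1, 6, -5, 21, -102), (-1, 6, 5, -3, 3),
      (-1, 8, -13, 3, -29), (-1, 9, -47, 3, -96), (-1, 9, -10, 6, -33), (-1, 9, 2, -3, 9), (-1, 10, -41, 3, -82), (-1, 11, 3, -3, -2), (-1, 11, 41, 3, 82), (-1, 12, 37, 3, 75), (-1, 13, 3, 3, 8), (-1, 15, -19, 6, -45),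
      (-1, 15, 4, -6, -3), (-1, 15, 7, 3, 18), (-1, 18, 7, 3, 15), (-1, 29, 8, 6, 13), (-1, 30, 7, 3, 9), (-1, 31, -41, 9, -82), (-1, 32, 41, 9, 82), (-1, 34, 15, 9, 29), (-1, 38, 9, 9, 16), (-1, 39, 11, 6, 15),
      (-1, 41, -41, 12, -83), (-1, 45, 13, 12, 27), (-1, 51, -58, 15, -117), (-1, 53, 41, 15, 82), (-1, 57, 20, 15, 39), (-1, 61, -56, 18, -115), (-1, 72, -89, 21, -180), (-1, 74, 41, 21, 82), (-1, 75, 16, 21, 33),
      (-1, 81, 19, 21, 36), (-1, 87, 35, 24, 69), (-1, 95, 41, 27, 82), (-1, 116, 41, 33, 82), (-1, 135, -131, 39, -264), (-1, 137, 41, 39, 82), (-1, 158, 41, 45, 82), (-1, 179, 41, 51, 82), (-1, 198, -173, 57, -348),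
      (-1, 213, 56, 60, 111), (-1, 261, -215, 75, -432), (1, 1, 0, -6, 41), (1, 1, 0, -3, 41), (1, 1, 0, 0, 41), (1, 1, 0, 3, 41), (1, 1, 0, 6, 41), (1, 1, 0, 9, 41), (1, 1, 0, 12, 41), (1, 1, 0, 15, 41), (1, 1, 0, 18, 41),
      (1, 1, 0, 21, 41), (1, 1, 0, 24, 41), (1, 2, -1, -9, 52), (1, 2, -1, -3, 31), (1, 2, -1, 3, 10), (1, 3, -2, -42, 237), (1, 3, -2, -33, 195), (1, 3, -2, -24, 153), (1, 3, -2, -15, 111), (1, 3, -2, -6, 69), (1, 3, -2, 3, 27),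
      (1, 3, -1, -12, 69), (1, 3, -1, -3, 48), (1, 3, -1, 6, 27), (1, 4, -3, -15, 89), (1, 4, -3, -3, 26), (1, 4, -1, 3, 5), (1, 5, -1, 3, 4), (1, 6, -1, -3, 24), (1, 6, 1, 3, 24), (1, 6, 1, 21, 45), (1, 8, -5, 3, -8),
      (1, 9, -7, -3, 30), (1, 9, -2, 3, 9), (1, 9, -1, 6, 9), (1, 10, -1, 3, 2), (1, 11, -8, -3, 19), (1, 11, -3, 3, -2), (1, 12, 1, 3, 12), (1, 13, -10, 3, -13), (1, 15, -11, -6, 39), (1, 15, -8, 3, -3), (1, 15, -4, 6, -3),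
      (1, 18, -11, 3, -6), (1, 29, -21, 6, -29), (1, 30, -23, 3, -12), (1, 31, -10, 9, -19), (1, 32, -23, 9, -44), (1, 34, -19, 9, -34), (1, 38, -29, 9, -47), (1, 39, -28, 6, -27), (1, 41, 0, 12, 1), (1, 45, -32, 12, -57),
      (1, 51, -7, 15, -12), (1, 53, -12, 15, -23), (1, 57, -37, 15, -66), (1, 61, 5, 18, 11), (1, 72, -17, 21, -33), (1, 74, -33, 21, -65), (1, 75, -59, 21, -114), (1, 81, -62, 21, -111), (1, 87, -52, 24, -99),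
      (1, 95, -54, 27, -107), (1, 116, -75, 33, -149), (1, 135, 4, 39, 9), (1, 137, -96, 39, -191), (1, 158, -117, 45, -233), (1, 179, -138, 51, -275), (1, 198, 25, 57, 51), (1, 213, -157, 60, -309), (1, 261, 46, 75, 93)]
  | 1 => [(-1, 3, -4, 6, -15), (-1, 3, -2, 12, -15), (-1, 3, -1, -3, 48), (-1, 3, -1, 6, 27), (-1, 3, -1, 15, 6), (-1, 3, -1, 24, -15), (-1, 3, -1, 33, -36), (-1, 3, -1, 42, -57), (-1, 4, -1, 3, 5), (-1, 4, -1, 15, -16),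
      (-1, 5, -2, -21, 67), (-1, 5, -2, -6, 25), (-1, 8, -3, -3, 13), (-1, 9, -11, 3, -12), (-1, 9, -2, 3, 9), (-1, 11, -4, -6, 19), (-1, 11, -3, 3, -2), (-1, 13, -5, 6, -13), (-1, 15, -8, 3, -3), (-1, 15, -4, 6, -3),
      (-1, 16, -5, 3, -4), (-1, 17, -6, 3, -5), (-1, 18, -11, 3, -6), (-1, 19, -8, -3, 11), (-1, 23, -9, -3, 10), (-1, 23, -7, 6, -11), (-1, 25, -7, 9, -16), (-1, 31, -10, 9, -19), (-1, 39, -14, 12, -27), (-1, 48, -19, 15, -39),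
      (-1, 50, -21, 3, -8), (-1, 53, -12, 15, -23), (-1, 66, -17, 21, -36), (-1, 72, -17, 21, -33), (-1, 81, -34, 24, -69), (-1, 85, -22, 24, -43), (-1, 115, -41, 33, -82), (-1, 127, -43, 36, -85), (-1, 136, -41, 39, -82),
      (-1, 157, -41, 45, -82), (-1, 169, -64, 48, -127), (-1, 178, -41, 51, -82), (-1, 207, -55, 60, -111), (-1, 211, -85, 60, -169), (1, 1, -1, 9, -22), (1, 1, 0, -24, 41), (1, 1, 0, -21, 41), (1, 1, 0, -18, 41),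
      (1, 1, 0, -15, 41), (1, 2, -3, 3, -11), (1, 2, -1, 15, -32), (1, 2, -1, 21, -53), (1, 2, -1, 27, -74), (1, 2, -1, 33, -95), (1, 2, 1, -3, 10), (1, 3, 1, -6, 27), (1, 4, 1, -3, 5), (1, 5, -3, 6, -17), (1, 6, -1, -21, 45),
      (1, 12, -1, -3, 12), (1, 12, 37, 3, 75), (1, 13, 3, 3, 8), (1, 15, 7, 3, 18), (1, 16, -7, 9, -25), (1, 19, -15, 6, -31), (1, 27, -1, 6, 3), (1, 33, -10, 6, -9), (1, 37, -9, 3, -4), (1, 41, -8, 0, 1), (1, 45, -7, -3, 6),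
      (1, 51, -58, 15, -117), (1, 65, -6, 18, -11), (1, 75, 16, 21, 33), (1, 78, -17, 3, -3), (1, 92, -45, 27, -92), (1, 138, -5, 39, -9), (1, 201, -26, 57, -51), (1, 264, -47, 75, -93)]
  | 2 => [(-1, 1, -1, 9, -22), (-1, 2, -3, 3, -11), (-1, 2, -1, 3, 10), (-1, 2, -1, 9, -11), (-1, 2, -1, 15, -32), (-1, 2, -1, 21, -53), (-1, 2, -1, 27, -74), (-1, 2, -1, 33, -95), (-1, 3, -1, -21, 90), (-1, 3, -1, -12, 69),
      (-1, 5, -3, 6, -17), (-1, 8, -5, 3, -8), (-1, 9, -5, -42, 177), (-1, 9, -5, -15, 72), (-1, 9, -4, -12, 51), (-1, 15, -7, -3, 18), (-1, 16, -7, 9, -25), (-1, 19, -15, 6, -31), (-1, 29, -14, 9, -29), (-1, 39, -22, -3, 15),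
      (-1, 57, -32, 12, -45), (-1, 66, -37, 15, -57), (-1, 73, -41, 21, -82), (-1, 87, -47, 21, -78), (-1, 92, -45, 27, -92), (-1, 94, -41, 27, -82), (-1, 117, -37, 33, -72), (-1, 180, -79, 51, -156), (-1, 243, -121, 69, -240),
      (-1, 306, -163, 87, -324), (-1, 369, -205, 105, -408), (1, 1, 0, -12, 41), (1, 1, 0, -9, 41), (1, 1, 20, 0, 41), (1, 3, -4, 6, -15), (1, 3, -2, 12, -15), (1, 3, -2, 21, -57), (1, 3, -2, 30, -99), (1, 3, -2, 39, -141),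
      (1, 3, -2, 48, -183), (1, 3, -2, 57, -225), (1, 5, -2, -21, 67), (1, 5, -2, -6, 25), (1, 6, -17, 3, -39), (1, 8, -3, -3, 13), (1, 9, -11, 3, -12), (1, 9, -10, 6, -33), (1, 11, -4, -6, 19), (1, 12, -7, 15, -51),
      (1, 16, -5, 3, -4), (1, 17, -6, 3, -5), (1, 18, -11, 3, -6), (1, 19, -8, -3, 11), (1, 23, -9, -3, 10), (1, 23, -7, 6, -11), (1, 43, -1, 12, -1), (1, 50, -21, 3, -8), (1, 85, -22, 24, -43), (1, 114, -79, 33, -159),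
      (1, 127, -43, 36, -85), (1, 129, -77, 39, -162), (1, 169, -64, 48, -127), (1, 195, -122, 57, -249), (1, 211, -85, 60, -169)]
  | 3 => [(-1, 2, -1, -9, 52), (-1, 2, -1, -3, 31), (-1, 3, -2, -42, 237), (-1, 3, -2, -33, 195), (-1, 3, -2, -24, 153), (-1, 3, -2, -15, 111), (-1, 3, -2, -6, 69), (-1, 3, -2, 3, 27), (-1, 3, -2, 12, -15), (-1, 3, -2, 21, -57),
      (-1, 3, -2, 30, -99), (-1, 3, -2, 39, -141), (-1, 3, -2, 48, -183), (-1, 3, -2, 57, -225), (-1, 4, -3, -15, 89), (-1, 4, -3, -3, 26), (-1, 9, -7, -3, 30), (-1, 11, -8, -3, 19), (-1, 12, -7, 15, -51), (-1, 13, -10, 3, -13),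
      (-1, 15, -11, -6, 39), (-1, 18, -11, 3, -6), (-1, 29, -21, 6, -29), (-1, 30, -23, 3, -12), (-1, 32, -23, 9, -44), (-1, 34, -19, 9, -34), (-1, 38, -29, 9, -47), (-1, 39, -28, 6, -27), (-1, 45, -32, 12, -57),
      (-1, 52, -41, 15, -82), (-1, 57, -37, 15, -66), (-1, 74, -33, 21, -65), (-1, 75, -59, 21, -114), (-1, 81, -62, 21, -111), (-1, 87, -52, 24, -99), (-1, 95, -54, 27, -107), (-1, 114, -79, 33, -159), (-1, 116, -75, 33, -149),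
      (-1, 129, -77, 39, -162), (-1, 137, -96, 39, -191), (-1, 158, -117, 45, -233), (-1, 179, -138, 51, -275), (-1, 195, -122, 57, -249), (-1, 213, -157, 60, -309), (1, 1, -1, 9, -22), (1, 1, -1, 12, -43), (1, 1, -1, 15, -64),
      (1, 1, -1, 18, -85), (1, 1, -1, 21, -106), (1, 1, -1, 24, -127), (1, 2, -3, 3, -11), (1, 3, -1, -21, 90), (1, 4, -5, 3, -16), (1, 5, -6, 3, -17), (1, 6, -5, 21, -102), (1, 8, -13, 3, -29), (1, 9, -47, 3, -96),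
      (1, 9, -5, -42, 177), (1, 9, -5, -15, 72), (1, 9, -4, -12, 51), (1, 15, -19, 6, -45), (1, 15, -7, -3, 18), (1, 39, -22, -3, 15), (1, 41, -41, 12, -83), (1, 54, 5, 15, 12), (1, 57, -32, 12, -45), (1, 61, -56, 18, -115),
      (1, 66, -37, 15, -57), (1, 72, -89, 21, -180), (1, 87, -47, 21, -78), (1, 117, -37, 33, -72), (1, 135, -131, 39, -264), (1, 180, -79, 51, -156), (1, 198, -173, 57, -348), (1, 243, -121, 69, -240), (1, 261, -215, 75, -432),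
      (1, 306, -163, 87, -324), (1, 369, -205, 105, -408)]

end Pool.Agent.Helper14.TK7
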