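import Pool.Agent.Helper14.TK7.CevCore

/-!
# Project TK (levels `3·7^n`): the certificates of `V`, row 3, column 3
-/

set_option autoImplicit false
set_option maxRecDepth 100000

namespace Pool.Agent.Helper14.TK7

/-- The certificate of `V`, row 3, column 3. -/
theorem cev33 : TCeV 3 3 := cevOf 3 3 (by decide +kernel) (by decide +kernel)

end Pool.Agent.Helper14.TK7
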