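import Pool.Agent.Helper14.TK7.Lists
import Pool.Agent.Helper14.TL7.StD
import Pool.Agent.Helper4.S7.StD2
import Pool.Agent.Helper4.TK.StD
import Pool.Agent.Helper76.TK7.StK

/-!
# Project TK (levels `3·7^n`, `W_3 = +1`): lower bound

Models: `Pool/Agent/Helper14/TH7/StD.lean` (levels `2·7^n`, proved: modules `Pool/Agent/*/TH7/M_*.lean`, the same names) and `Pool/Agent/Helper4/TK/StD.lean` (levels `3·5^n`, modules `Pool/Agent/*/TK/M_*.lean`). The operator calculus on plane functions of W7 (`tr7`, `op7`, `opL`, `dX`, `dY`, `oW`, `om6`, `Wd7`, `Lw`, `cS`, `M9`, `bb7`, `pj`; closed theorems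
`trm`, `low0`, `nfa`, `nf`, `exp7`, `lw1`, `bb`, `opm` of `Helper84/S7/D1.lean` and `pjj`, `sta` of `Helper4/S7/D2.lean`) is used unchanged, and `TLdg`, `TOmg`, `cO` of `Helper14/TL7/StD.lean` (proved: `Pool.Agent.Helper9.TL7.hLdg`, `Pool.Agent.Helper71.TL7.hOmg`). The group: `KTy` of `Helper4/TK/Defs.lean` (determinant one and `3 ∣ c`, or determinant three
and `3 ∣ a, c, d`). There are FOUR plane functions of a symbol, `F_i(g) = G(g e_i) - G(g 0)`, `e_0 = ∞`, `e_1 = 1/3`, `e_2 = 1/2`, `e_3 = 2/3` (values on paths: `edgeK 0` of `Helper76/TK7/StK.lean`), and FOUR relations. `T = (1 1; 0 1)`, `R = (3 -1; 3 0)` (hexagon `∞ → 1 → 2/3 → 1/2 → 1/3 → 0 → ∞`), `S' = (0 -1; 3 0)`;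
`ρ = (6 -1; 21 -3)` and `τ = (18 -13; 21 -15)` (order six up to scalars, determinant three), `β = (9 -4; 21 -9)`, `α = (12 -7; 21 -12)` (order two, determinant three). The relations are `∑_{i<6} F1∘ρ^i = 0`, `(F2 - F1)(1 + β) = 0`, `(F3 - F2)(1 + α) = 0`, `∑_{i<6} k∘τ^i = 0`, `k = F0 - F0∘T - F3`
(path `2/3 → 1`). Solutions are parametrised: `F1 = a - a∘ρ`, `F2 = F1 + b - b∘β`, `F3 = F2 + c - c∘α` with ONE equation `F0 - F0∘T = F3 + e - e∘τ` (`solK`, `DfK`). The Hecke operator of level `(r, s)` is `Tl l (7^r)`, `l ≠ 3, 7` (`l = 2` is allowed). Two operators have SCALAR leading form on all four functions (modulo the relations):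
`U` (`X Y`) and `V` (`X⁷Y + 5 X⁴Y⁴ + XY⁷`); there are eight operators `O_c` at the origin. Everything was checked by machine (lists, leading forms, triangular system, ranks 4, 31).
-/

set_option autoImplicit false

namespace Pool.Agent.Helper14.TK7

open Pool.Agent.Helper14.CV (Homog EqC act Tl StFar StFex)
open Pool.Agent.Helper28.WK (Tw evw)
open Pool.Agent.Helper4.S7 (Tm mulL sclL Gd pj S7Pj)
open Pool.Agent.Helper76.TK7 (PlK rYK edgeK HPlAK HEdgK ddK7)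
open Pool.Agent.Helper84.S7
open Pool.Agent.Helper4.TK (KTy SymK SKHk SKHkS LBK)
open Pool.Agent.Helper93.TLE (DDE)

/-! ### Plane functions -/

/-- TRE (from EDG, PLA). Values on translated paths: for `γ = (a b; 7c d)` of type `KTy` the path from `γ v` to `γ u` at the point `p` is the path from `v` to `u` at `p γ`. Models: `Pool/Agent/Helper53/TH7/M_Tre.lean`, the module for TTre of `Helper4/TK/StD.lean`. -/
def TTre : Prop := ∀ (R : Type) (_ : AddCommGroup R) (r s : ℕ) (G : ℤ → ℤ → R), SymK 7 r (s + 1) G →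
  ∀ (a b c d u1 u2 v1 v2 : ℤ), KTy a b (7 * c) d → (u1 ≠ 0 ∨ u2 ≠ 0) → (v1 ≠ 0 ∨ v2 ≠ 0) →
  ∀ (x : ZMod (7 ^ r)) (y : ZMod (7 ^ s)),
  edgeK 0 (a * u1 + b * u2) (7 * c * u1 + d * u2) (a * v1 + b * v2) (7 * c * v1 + d * v2) G x y =
    tr7 a b c d (edgeK 0 u1 u2 v1 v2 G) x y

/-- The numerators of the end points `∞, 1/3, 1/2, 2/3`. -/
def n4 : Fin 4 → ℤ := ![1, 1, 1, 2]

/-- The denominators of the end points `∞, 1/3, 1/2, 2/3`. -/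
def e4 : Fin 4 → ℤ := ![0, 3, 2, 3]

/-- The four plane functions of a symbol: `F_i(g) = G(g e_i) - G(g 0)`. -/
noncomputable def pfK {R : Type} [AddCommGroup R] {q q' : ℕ} (G : ℤ → ℤ → R) (i : Fin 4) :
    ZMod q → ZMod q' → R := fun x y => edgeK 0 (n4 i) (e4 i) 0 1 G x y

/-- The function of the path from `2/3` to `1`: `k = F0 - F0∘T - F3`. -/
def kK {R : Type} [AddCommGroup R] {q q' : ℕ} (F : Fin 4 → ZMod q → ZMod q' → R) : ZMod q → ZMod q' → R :=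
  fun x y => F 0 x y - tr7 1 1 0 1 (F 0) x y - F 3 x y

/-- The sum over the powers of `ρ = (6 -1; 21 -3)` (up to scalars). -/
def nrK {R : Type} [AddCommGroup R] {q q' : ℕ} (f : ZMod q → ZMod q' → R) : ZMod q → ZMod q' → R :=
  fun x y => f x y + tr7 6 (-1) 3 (-3) f x y + tr7 5 (-1) 3 (-4) f x y + tr7 9 (-2) 6 (-9) f x y +
    tr7 4 (-1) 3 (-5) f x y + tr7 3 (-1) 3 (-6) f x y

/-- The sum over the powers of `τ = (18 -13; 21 -15)` (up to scalars). -/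
def ntK {R : Type} [AddCommGroup R] {q q' : ℕ} (f : ZMod q → ZMod q' → R) : ZMod q → ZMod q' → R :=
  fun x y => f x y + tr7 18 (-13) 3 (-15) f x y + tr7 17 (-13) 3 (-16) f x y + tr7 33 (-26) 6 (-33) f x y +
    tr7 16 (-13) 3 (-17) f x y + tr7 15 (-13) 3 (-18) f x y

/-- The relations between the four functions. -/
def RelK {R : Type} [AddCommGroup R] {q q' : ℕ} (F : Fin 4 → ZMod q → ZMod q' → R) : Prop :=
  (∀ x y, nrK (F 1) x y = 0) ∧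
  (∀ x y, F 2 x y - F 1 x y + (tr7 9 (-4) 3 (-9) (F 2) x y - tr7 9 (-4) 3 (-9) (F 1) x y) = 0) ∧
  (∀ x y, F 3 x y - F 2 x y + (tr7 12 (-7) 3 (-12) (F 3) x y - tr7 12 (-7) 3 (-12) (F 2) x y) = 0) ∧
  ∀ x y, ntK (kK F) x y = 0

/-- REL (from TRE). The plane functions of a symbol satisfy the relations (`G(v)` for the value at `g v`). All matrices have type `KTy` (up to scalars `±1, ±2, ±3`). `ρ`: `ρ³ = (9 -2; 42 -9)` etc. The path `F1(pρ^i)` goes from `ρ^i 0` to `ρ^i 1/3 = ρ^(i+1) 0` (`ρ 0 = 1/3`): the sum is a closed hexagon. `β 1/3 = 1/2`, `β 1/2 = 1/3`: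
`(F2 - F1)(p) + (F2 - F1)(pβ) = (G(½) - G(⅓)) + (G(⅓) - G(½)) = 0`. `α 1/2 = 2/3`, `α 2/3 = 1/2`: the same. `F0(p) - F0(pT) = G(1) - G(0)`, so `k(p) = G(1) - G(⅔)`, and `τ ⅔ = 1` (`(18·2 - 13·3 : 21·2 - 15·3) = (-3 : -3)`): closed hexagon. Model: `Pool/Agent/Helper51/TH7/M_Rel.lean`. -/
def TRel : Prop := ∀ (R : Type) (_ : AddCommGroup R) (r s : ℕ) (G : ℤ → ℤ → R),
  SymK 7 r (s + 1) G → RelK (fun i => (pfK G i : ZMod (7 ^ r) → ZMod (7 ^ s) → R))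

/-- EXA (from TRM). For a solution `F` of the relations a function `V` on the matrices `g = (a b; c d)` of determinant one with `3 ∣ c` (the future value `G(g∞) - G(g0)`). Definition, for `g` of type `KTy` (both types, or for all matrices with determinant prime to `7`): let `p(γ) = (b/a, c'/d)` for `γ = (a b; 7c' d)` (it does not change under scalars);
by the class `t = c/d` modulo `7` (`S'` acts by `t ↦ -3/t`, it exchanges `0, ∞`, and `3, 6`, and `1, 4` and fixes `2` and `5`): `t = 0`: `V g = F0(p(g))`; `t = 3`: `V g = F1(p(g (1 0; -3 1)))` (path `γ{0,⅓}`); `t = 2`: `V g = (F1 - F2)(p(g R²))`, `R² = (2 -1; 3 -1)` (path `γ{½,⅓}`); `t = 5`: `V g = (F2 - F3)(p(g R³))`, `R³ = (3 -2; 6 -3)`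
(path `γ{⅔,½}`); `t = 4`: `V g = -k(p(g R⁴))`, `R⁴ = (1 -1; 3 -2)` (path `γ{1,⅔}`); `t = ∞, 6, 1`: `V g = -V(g S')` (classes `0, 3, 4`). Then `V (g S') = -V g` for all `g`: `S'² = -3`, and for `t = 2`, `γ = g R²`: `g S' R² = γ R⁴ S' R² = γ β` (up to scalars): second relation; `t = 5`, `γ = g R³`: `g S' R³ = γ R³ S' R³ = γ α`: third relation.
HEXAGON RELATION `∑_{i<6} V(g R^i) = 0`: `R` acts on the classes by `0 → ∞ → 4 → 5 → 2 → 6 → 0` and fixes `1` and `3`; the relations for `g` and `g R` are the same. `t = 0`: up to scalars `R S' = T`, `R⁵ S' = (1 0; 3 1)`: the six values at `p(g)` are `F0`, `-F0∘T`, `-k`, `F2 - F3`, `F1 - F2`, `-F1`: the sum is zero by definition of `k`.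
`t = 3`, `γ = g (1 0; -3 1)`: `V(g R^i) = F1(γ ρ^i)` (`(1 0; 3 1) R (1 0; -3 1) = ρ`): first relation. `t = 1`: `V(g R^i) = -V(g R^i S') = k(g R^i S' R⁴)`, `γ = g S' R⁴`: `γ τ^i` (`(S' R⁴)⁻¹ R S' R⁴ = τ` up to scalars): fourth relation. The second statement below is the hexagon relation with `V(gR) = -V(gRS')`, `V(gR³) = -V(gR³S')`, `V(gR⁵) = -V(gR⁵S')`
(`R² = (2 -1; 3 -1)`, `R³S' = (2 1; 3 2)`, `R⁴ = (1 -1; 3 -2)`). The third and the fourth: left multiplication by the group does not change the class and the coordinates (in the fourth the matrix on the left is `γ' g S'/3`, `γ' = (3α β; 3γ 3δ)`, `g = (a b; 3c d)`). Last: definition (classes `0, 3, 2, 5`: `g0 (1 0; 3 1)`, `g0 R⁴` and `g0 R³` with `S'`; `V(g0 (2 1; 3 2)) = -V(g0 R³)`).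
Model: `Pool/Agent/Helper16/TH7/M_ExA.lean`, the module for TExA of `Helper4/TK/StD.lean` (the same statement with three functions). -/
def TExA : Prop := ∀ (R : Type) (_ : AddCommGroup R) (r s : ℕ)
  (F : Fin 4 → ZMod (7 ^ r) → ZMod (7 ^ s) → R), RelK F →
  ∃ V : ℤ → ℤ → ℤ → ℤ → R,
    (∀ a b c d : ℤ, a * d - b * c = 1 → (3 : ℤ) ∣ c → V (-a) (-b) (-c) (-d) = V a b c d) ∧
    (∀ a b c d : ℤ, a * d - b * c = 1 → (3 : ℤ) ∣ c → V a b c d - V a (a + b) c (c + d) +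
      V (2 * a + 3 * b) (-(a + b)) (2 * c + 3 * d) (-(c + d)) - V (2 * a + 3 * b) (a + 2 * b) (2 * c + 3 * d) (c + 2 * d) +
      V (a + 3 * b) (-(a + 2 * b)) (c + 3 * d) (-(c + 2 * d)) - V (a + 3 * b) b (c + 3 * d) d = 0) ∧
    (∀ α β γ δ a b c d : ℤ, α * δ - β * γ = 1 → (3 : ℤ) ∣ γ → (7 : ℤ) ^ r ∣ β → (7 : ℤ) ^ (s + 1) ∣ γ →
      a * d - b * c = 1 → (3 : ℤ) ∣ c → V (α * a + β * c) (α * b + β * d) (γ * a + δ * c) (γ * b + δ * d) = V a b c d) ∧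
    (∀ α β γ δ a b c d : ℤ, 3 * α * δ - β * γ = 1 → (7 : ℤ) ^ r ∣ β → (7 : ℤ) ^ (s + 1) ∣ γ →
      a * d - 3 * b * c = 1 → V (3 * α * b + β * d) (-(α * a + β * c)) (3 * (γ * b + δ * d)) (-(γ * a + 3 * δ * c)) =
        -V a b (3 * c) d) ∧
    (∀ (x : ZMod (7 ^ r)) (y : ZMod (7 ^ s)) (a b c d : ℤ), a * d - b * (7 * c) = 1 → (3 : ℤ) ∣ c →
      (b : ZMod (7 ^ r)) = x * a → (c : ZMod (7 ^ s)) = y * d →
      V a b (7 * c) d = F 0 x y ∧ V (a + 3 * b) b (7 * c + 3 * d) d = F 1 x y ∧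
      V (a + 3 * b) b (7 * c + 3 * d) d - V (a + 3 * b) (-(a + 2 * b)) (7 * c + 3 * d) (-(7 * c + 2 * d)) = F 2 x y ∧
      V (a + 3 * b) b (7 * c + 3 * d) d - V (a + 3 * b) (-(a + 2 * b)) (7 * c + 3 * d) (-(7 * c + 2 * d)) +
        V (2 * a + 3 * b) (a + 2 * b) (2 * (7 * c) + 3 * d) (7 * c + 2 * d) = F 3 x y)

/-- EXB (from PLA, FEX, FAR; the function `V` is given by its properties). Every solution of the relations comes from a symbol. Word for word the proof of TExB of `Helper4/TK/StD.lean` (`7` instead of `5`; the first four properties of `V` are the same). `pfK G i = F i`: last property at the standard matrix (PLA, `μ = 0`: `(1, X; 7Y, 1 + 7XY)`);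
`i = 2`: path `0 → 1/3 → 1/2`; `i = 3`: path `0 → 1/3 → 1/2 → 2/3` (`(2 1; 3 2)` maps `∞` to `2/3` and `0` to `1/2`). Model: the module for TExB of `Helper4/TK/StD.lean`, `Pool/Agent/Helper73/TH7/M_ExB.lean`. -/
def TExB : Prop := ∀ (R : Type) (_ : AddCommGroup R) (r s : ℕ)
  (F : Fin 4 → ZMod (7 ^ r) → ZMod (7 ^ s) → R) (V : ℤ → ℤ → ℤ → ℤ → R),
    (∀ a b c d : ℤ, a * d - b * c = 1 → (3 : ℤ) ∣ c → V (-a) (-b) (-c) (-d) = V a b c d) →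
    (∀ a b c d : ℤ, a * d - b * c = 1 → (3 : ℤ) ∣ c → V a b c d - V a (a + b) c (c + d) +
      V (2 * a + 3 * b) (-(a + b)) (2 * c + 3 * d) (-(c + d)) - V (2 * a + 3 * b) (a + 2 * b) (2 * c + 3 * d) (c + 2 * d) +
      V (a + 3 * b) (-(a + 2 * b)) (c + 3 * d) (-(c + 2 * d)) - V (a + 3 * b) b (c + 3 * d) d = 0) →
    (∀ α β γ δ a b c d : ℤ, α * δ - β * γ = 1 → (3 : ℤ) ∣ γ → (7 : ℤ) ^ r ∣ β → (7 : ℤ) ^ (s + 1) ∣ γ →
      a * d - b * c = 1 → (3 : ℤ) ∣ c → V (α * a + β * c) (α * b + β * d) (γ * a + δ * c) (γ * b + δ * d) = V a b c d) →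
    (∀ α β γ δ a b c d : ℤ, 3 * α * δ - β * γ = 1 → (7 : ℤ) ^ r ∣ β → (7 : ℤ) ^ (s + 1) ∣ γ →
      a * d - 3 * b * c = 1 → V (3 * α * b + β * d) (-(α * a + β * c)) (3 * (γ * b + δ * d)) (-(γ * a + 3 * δ * c)) =
        -V a b (3 * c) d) →
    (∀ (x : ZMod (7 ^ r)) (y : ZMod (7 ^ s)) (a b c d : ℤ), a * d - b * (7 * c) = 1 → (3 : ℤ) ∣ c →
      (b : ZMod (7 ^ r)) = x * a → (c : ZMod (7 ^ s)) = y * d →
      V a b (7 * c) d = F 0 x y ∧ V (a + 3 * b) b (7 * c + 3 * d) d = F 1 x y ∧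
      V (a + 3 * b) b (7 * c + 3 * d) d - V (a + 3 * b) (-(a + 2 * b)) (7 * c + 3 * d) (-(7 * c + 2 * d)) = F 2 x y ∧
      V (a + 3 * b) b (7 * c + 3 * d) d - V (a + 3 * b) (-(a + 2 * b)) (7 * c + 3 * d) (-(7 * c + 2 * d)) +
        V (2 * a + 3 * b) (a + 2 * b) (2 * (7 * c) + 3 * d) (7 * c + 2 * d) = F 3 x y) →
  ∃ G : ℤ → ℤ → R, SymK 7 r (s + 1) G ∧ ∀ i, pfK G i = F i

/-- EX (from EXA, EXB; proved below). -/
def TEx : Prop := ∀ (R : Type) (_ : AddCommGroup R) (r s : ℕ)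
  (F : Fin 4 → ZMod (7 ^ r) → ZMod (7 ^ s) → R), RelK F →
  ∃ G : ℤ → ℤ → R, SymK 7 r (s + 1) G ∧ ∀ i, pfK G i = F i

theorem hEx (ha : TExA) (hb : TExB) : TEx := by
  intro R _ r s F hF
  obtain ⟨V, h1, h2, h3, h4, h5⟩ := ha R _ r s F hF
  exact hb R _ r s F V h1 h2 h3 h4 h5

/-- UNI (from EDG, PLA, FAR). A symbol with `F0 = F1 = F2 = F3 = 0` is constant. For `γ = (a b; 7c d)` of type `KTy` (any plane point) `G` has the same value at `γ∞, γ0, γ⅓, γ½, γ⅔, γ1` (EDG; `γ1 = γT0`, `γT∞ = γ∞`). For `g` of type `KTy` this gives `G(g∞) = G(g0)` by the classes `t = c/d` modulo `7` as in EXA: `t = 0`: `γ = g`; `t = 3`: `γ = g (1 0; -3 1)`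
(`γ⅓ = g∞`); `t = 2`: `γ = g R²` (`γ⅓ = g∞`, `γ½ = g0`); `t = 5`: `γ = g R³/3` or the like (`γ½ = g∞`, `γ⅔ = g0`); `t = 4`: `γ = g R⁴` (`γ⅔ = g∞`, `γ1 = g0`); the classes `∞, 6, 1`: replace `g` by `g S'` (divided by `3` if `g` has type two), which exchanges the two ends. For an edge `(a b; c d)` of determinant one:
`3 ∣ c`: type one; `3 ∣ d`: turn it; otherwise through the mediant `(a±b)/(c±d)`. FAR. Models: `Pool/Agent/Helper70/TH7/M_Uni.lean`, the module for TUni of `Helper4/TK/StD.lean`. -/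
def TUni : Prop := ∀ (R : Type) (_ : AddCommGroup R) (r s : ℕ) (G : ℤ → ℤ → R),
  SymK 7 r (s + 1) G → (∀ i, (pfK G i : ZMod (7 ^ r) → ZMod (7 ^ s) → R) = 0) → EqC G 0

/-- HKB. Hecke sums for balanced levels `(r, s)`, from `SKHk`, `SKHkS` of `Helper4/TK/StD.lean` (both proved). Model: the module for `THkB` of `Helper4/TK/StD.lean` (the same statement for `5`), `Pool/Agent/Helper26/TH7/M_HkB.lean`. -/
def THkB : Prop := ∀ (R : Type) (_ : AddCommGroup R) (r s l : ℕ) (G : ℤ → ℤ → R), l.Prime →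
  l ≠ 7 → l ≠ 3 → SymK 7 r s G → SymK 7 r s (Tl l (7 ^ r) G) ∧
  ∀ δ : Fin (l + 1) → Matrix (Fin 2) (Fin 2) ℤ,
  (∀ P, (δ P).det = l) → (∀ P, (7 : ℤ) ^ r ∣ δ P 0 1) → (∀ P, 3 * (7 : ℤ) ^ s ∣ δ P 1 0) →
  (∀ P P', P ≠ P' → ¬ ∀ i j, (l : ℤ) ∣ (δ P * (δ P').adjugate) i j) →
  EqC (fun p q => ∑ P, G (δ P 0 0 * p + δ P 0 1 * q) (δ P 1 0 * p + δ P 1 1 * q)) (Tl l (7 ^ r) G)

/-- HKF (from HKB, EDG, PLA). Hecke formula on the plane for the path from `v` to `u`; `J` is a complete system of residues modulo `l`. Model: `Pool/Agent/Helper89/TH7/M_HkF.lean`, the module for `THkF` of `Helper4/TK/StD.lean`. -/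
def THkF : Prop := ∀ (R : Type) (_ : AddCommGroup R) (r s l : ℕ) (G : ℤ → ℤ → R) (J : Finset ℤ),
  l.Prime → l ≠ 7 → l ≠ 3 → SymK 7 r (s + 1) G → J.card = l →
  (∀ j ∈ J, ∀ j' ∈ J, (l : ℤ) ∣ j - j' → j = j') →
  ∀ (u1 u2 v1 v2 : ℤ), (u1 ≠ 0 ∨ u2 ≠ 0) → (v1 ≠ 0 ∨ v2 ≠ 0) → ∀ (x : ZMod (7 ^ r)) (y : ZMod (7 ^ s)),
  edgeK 0 u1 u2 v1 v2 (Tl l (7 ^ r) G) x y =
    tr7 1 0 0 l (edgeK 0 (l * u1) u2 (l * v1) v2 G) x y +
    ∑ j ∈ J, tr7 l (-j) 0 1 (edgeK 0 (u1 + j * u2) (l * u2) (v1 + j * v2) (l * v2) G) x y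

/-- HK `l T` (from HKF, TRE, TRM): the lists `T` are the rows of `T_l` (check `ChkN` of `Helper4/TK/GenN.lean`; done by helper14). -/
def THk (l : ℕ) (T : Fin 4 → Fin 4 → List Tm) : Prop := ∀ (r s : ℕ) (G : ℤ → ℤ → ZMod 7), SymK 7 r (s + 1) G → ∀ i : Fin 4,
  (pfK (Tl l (7 ^ r) G) i : Fn7 (7 ^ r) (7 ^ s)) = ∑ f : Fin 4, opL (T i f) (pfK G f)

/-- RLL (from TRM). The relations as operators. (`relK 3 0` contains `τ^i` and `τ^i T`; each relation is a sum of `±tr7`.) Model: `Pool/Agent/Helper66/TH7/M_Rll.lean`. -/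
def TRll : Prop := ∀ (r s : ℕ) (F : Fin 4 → Fn7 (7 ^ r) (7 ^ s)),
  RelK F → ∀ ρ : Fin 4, ∑ f : Fin 4, opL (relK ρ f) (F f) = 0

/-! ### The operators on symbols and the words -/

section

variable {R : Type} [AddCommGroup R]

/-- `C = 2 T_2 + 5 T_11 + 5 T_17 + 2 T_2²`. -/
def CoK (m : ℤ) (G : ℤ → ℤ → R) : ℤ → ℤ → R :=
  (2 : ℤ) • Tl 2 m G + (5 : ℤ) • Tl 11 m G + (5 : ℤ) • Tl 17 m G + (2 : ℤ) • Tl 2 m (Tl 2 m G)

/-- `A = T_2 + 3 T_5 + 2 T_11 + 6 T_13 + 4 T_17 + 4 T_19 + T_29 + 6 T_37 + T_2 C + 6 T_5²`. -/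
def AoK (m : ℤ) (G : ℤ → ℤ → R) : ℤ → ℤ → R :=
  Tl 2 m G + (3 : ℤ) • Tl 5 m G + (2 : ℤ) • Tl 11 m G + (6 : ℤ) • Tl 13 m G + (4 : ℤ) • Tl 17 m G +
    (4 : ℤ) • Tl 19 m G + Tl 29 m G + (6 : ℤ) • Tl 37 m G + Tl 2 m (CoK m G) + (6 : ℤ) • Tl 5 m (Tl 5 m G)

/-- `B = T_5 + 4 T_11 + 2 T_13 + T_31`. -/
def BoK (m : ℤ) (G : ℤ → ℤ → R) : ℤ → ℤ → R :=
  Tl 5 m G + (4 : ℤ) • Tl 11 m G + (2 : ℤ) • Tl 13 m G + Tl 31 m G

/-- `U = 4 + 2 T_2 + 5 T_11 + 4 T_13 + 6 T_19 + 3 T_23 + T_41 + 6 T_2² + 5 T_2 T_5`. -/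
def UoK (m : ℤ) (G : ℤ → ℤ → R) : ℤ → ℤ → R :=
  (4 : ℤ) • G + (2 : ℤ) • Tl 2 m G + (5 : ℤ) • Tl 11 m G + (4 : ℤ) • Tl 13 m G + (6 : ℤ) • Tl 19 m G +
    (3 : ℤ) • Tl 23 m G + Tl 41 m G + (6 : ℤ) • Tl 2 m (Tl 2 m G) + (5 : ℤ) • Tl 2 m (Tl 5 m G)

/-- `V = 2 T_2 + 4 T_5 + 5 T_13 + 2 T_17 + 5 T_19 + 6 T_23 + 6 T_29 + 2 T_31 + 4 T_37 + T_41 + 2 T_43 + 5 T_47 + T_2 A + T_5 B + 4 T_11²`. -/
def VoK (m : ℤ) (G : ℤ → ℤ → R) : ℤ → ℤ → R :=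
  (2 : ℤ) • Tl 2 m G + (4 : ℤ) • Tl 5 m G + (5 : ℤ) • Tl 13 m G + (2 : ℤ) • Tl 17 m G + (5 : ℤ) • Tl 19 m G +
    (6 : ℤ) • Tl 23 m G + (6 : ℤ) • Tl 29 m G + (2 : ℤ) • Tl 31 m G + (4 : ℤ) • Tl 37 m G + Tl 41 m G +
    (2 : ℤ) • Tl 43 m G + (5 : ℤ) • Tl 47 m G + Tl 2 m (AoK m G) + Tl 5 m (BoK m G) + (4 : ℤ) • Tl 11 m (Tl 11 m G)

/-- The operators at the origin (rows `OLK`). -/
def OoK (c : ℕ) (m : ℤ) (G : ℤ → ℤ → R) : ℤ → ℤ → R :=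
  if c = 0 then G
  else if c = 1 then (2 : ℤ) • G + (4 : ℤ) • Tl 2 m G
  else if c = 2 then G + (5 : ℤ) • Tl 2 m (Tl 5 m G)
  else if c = 3 then G + (5 : ℤ) • Tl 2 m G + (2 : ℤ) • Tl 5 m G + (3 : ℤ) • Tl 11 m G + (3 : ℤ) • Tl 2 m (Tl 2 m G)
  else if c = 4 then (6 : ℤ) • G + Tl 11 m G + (4 : ℤ) • Tl 29 m G + (3 : ℤ) • Tl 2 m (Tl 5 m G) +
    (3 : ℤ) • Tl 2 m (Tl 2 m (Tl 2 m G))
  else if c = 5 then (2 : ℤ) • G + Tl 2 m G + (6 : ℤ) • Tl 5 m G + Tl 11 m G + (6 : ℤ) • Tl 17 m G +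
    (3 : ℤ) • Tl 19 m G + (4 : ℤ) • Tl 29 m G + (2 : ℤ) • Tl 31 m G + (3 : ℤ) • Tl 37 m G +
    (3 : ℤ) • Tl 2 m (Tl 5 m G) + (5 : ℤ) • Tl 2 m (Tl 11 m G) + (4 : ℤ) • Tl 2 m (Tl 2 m (Tl 2 m G))
  else if c = 6 then (4 : ℤ) • G + (5 : ℤ) • Tl 2 m G + (3 : ℤ) • Tl 5 m G + (4 : ℤ) • Tl 13 m G +
    (4 : ℤ) • Tl 19 m G + (3 : ℤ) • Tl 23 m G + Tl 29 m G + (3 : ℤ) • Tl 37 m G +
    (5 : ℤ) • Tl 2 m (Tl 2 m G) + (2 : ℤ) • Tl 2 m (Tl 23 m G) + (4 : ℤ) • Tl 2 m (Tl 2 m (Tl 2 m G))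
  else (4 : ℤ) • G + (5 : ℤ) • Tl 2 m G + (3 : ℤ) • Tl 5 m G + (3 : ℤ) • Tl 11 m G + (6 : ℤ) • Tl 13 m G +
    (2 : ℤ) • Tl 17 m G + (2 : ℤ) • Tl 23 m G + (4 : ℤ) • Tl 29 m G + (3 : ℤ) • Tl 31 m G +
    (4 : ℤ) • Tl 2 m (Tl 2 m G) + (3 : ℤ) • Tl 2 m (Tl 13 m G) + (5 : ℤ) • Tl 2 m (Tl 17 m G) +
    (6 : ℤ) • Tl 2 m (Tl 19 m G) + (5 : ℤ) • Tl 2 m (Tl 2 m (Tl 5 m G))

/-- The value of the symbol of `G` at the word `O_c U^i V^j` of `{0, ∞}`. -/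
def evK (m : ℤ) (G : ℤ → ℤ → R) (c i j : ℕ) : R :=
  OoK c m ((UoK m)^[i] ((VoK m)^[j] G)) 1 0 - OoK c m ((UoK m)^[i] ((VoK m)^[j] G)) 0 1

end

/-- The exponents of the leading monomial `X^(aaK c + i + 7j) Y^(abK c + i + j)` of the word `(c, i, j)`: `(0, 0)`, `(1, 0)`, `(2, 0)`, `(3, 0)`, `(3, 1)`, `(5, 1)`, `(5, 1)`, `(6, 1)`. The bound of the index set is `aaK c + i + 7j < 7^r`. -/
def aaK (c : ℕ) : ℕ := if c ≤ 3 then c else if c = 4 then 3 else if c ≤ 6 then 5 else 6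

/-- The exponent of `Y`. -/
def abK (c : ℕ) : ℕ := if c ≤ 3 then 0 else 1

/-- The degree of the word. -/
def dgK (c i j : ℕ) : ℕ := aaK c + abK c + 2 * i + 8 * j

/-- The second coordinate of the order (`(dgK, rhK)`, lexicographic, then `7` before the other `c`). `dgK - 2 rhK` is `6j`, `1 + 6j`, `2 + 6j`, `3 + 6j`, `2 + 6j`, `4 + 6j`, `4 + 6j`, `7 + 6j` for `c = 0, ..., 7`, so `(dgK, rhK, c)` determines `(c, i, j)`. -/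
def rhK (c i j : ℕ) : ℕ := (if 4 ≤ c ∧ c ≤ 6 then 1 else 0) + i + j

/-- The degree of the functional `c` at the origin: `0, 1, 2, 3, 4, 6, 6, 7`. -/
def nOK (c : ℕ) : ℕ := aaK c + abK c

/-- The coefficient of `X^(n - i) Y^i`, `n = nOK c`, in the form of the functional `c` on `F_f` (`K = F1 - F3`): `c = 0`: `F0`; `1`: `(X + 2Y) K`; `2`: `X² F0 + (X² + 4Y²) F3`; `3`: `(X³ + Y³) K`; `4`: `XY³ F0 + (3X³Y + 5XY³) F3`; `5`: `X⁵Y F0 + (5X⁵Y + 3XY⁵) F3`; `6`: `XY⁵ F0 + (4X⁵Y + XY⁵) F3`; `7`: `(X⁷ + X⁶Y + 4XY⁶ + 2Y⁷) K`. -/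
def qOK (c f i : ℕ) : ℤ :=
  ((([[[1]], [[], [1, 2], [], [6, 5]], [[1], [], [], [1, 0, 4]], [[], [1, 0, 0, 1], [], [6, 0, 0, 6]],
    [[0, 0, 0, 1], [], [], [0, 3, 0, 5]], [[0, 1], [], [], [0, 5, 0, 0, 0, 3]], [[0, 0, 0, 0, 0, 1], [], [], [0, 4, 0, 0, 0, 1]],
    [[], [1, 1, 0, 0, 0, 0, 4, 2], [], [6, 6, 0, 0, 0, 0, 3, 5]]] : List (List (List ℤ))).getD c []).getD f []).getD i 0

/-- The functional `c` on `F_f` as an operator (the value at the origin is taken). -/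
def MoK (c f : ℕ) {q q' : ℕ} : Module.End (ZMod 7) (Fn7 q q') :=
  ∑ i ∈ Finset.range (nOK c + 1), ((qOK c f i : ℤ) : ZMod 7) • (dX ^ (nOK c - i) * dY ^ i)

/-- The leading operator of `U`. -/
def QoK {q q' : ℕ} : Module.End (ZMod 7) (Fn7 q q') := dX * dY

/-- The leading operator of `V`. -/
def LoK {q q' : ℕ} : Module.End (ZMod 7) (Fn7 q q') := dX ^ 7 * dY + (5 : ZMod 7) • (dX ^ 4 * dY ^ 4) + dX * dY ^ 7

/-! ### Certificates (finite computations, done by helper14) -/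

/-- CEG. All terms are good (they are prime to `7`). -/
def TCeG : Prop :=
  (∀ i f : Fin 4, (∀ t ∈ T2K i f, Gd t) ∧ (∀ t ∈ T5K i f, Gd t) ∧ (∀ t ∈ T11K i f, Gd t) ∧ (∀ t ∈ T13K i f, Gd t) ∧
    (∀ t ∈ T17K i f, Gd t) ∧ (∀ t ∈ T19K i f, Gd t) ∧ (∀ t ∈ T23K i f, Gd t) ∧ (∀ t ∈ T29K i f, Gd t) ∧ (∀ t ∈ T31K i f, Gd t) ∧
    (∀ t ∈ T37K i f, Gd t) ∧ (∀ t ∈ T41K i f, Gd t) ∧ (∀ t ∈ T43K i f, Gd t) ∧ (∀ t ∈ T47K i f, Gd t)) ∧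
  (∀ i f : Fin 4, (∀ t ∈ relK i f, Gd t) ∧ (∀ t ∈ MUK i f, Gd t) ∧ (∀ t ∈ MVK i f, Gd t)) ∧
  ∀ (c : Fin 8) (ρ : Fin 4), ∀ t ∈ MOK c ρ, Gd t

/-- CEU. The coefficients of `U` of weight at most `2`: `(oB-1)(oA-1)` (`w = 0`) on the diagonal. -/
def TCeU : Prop := ∀ i f : Fin 4, ∀ w : Fin 6, ∀ t ∈ M9, t.1 + 6 * t.2.1 + t.2.2 ≤ 2 →
  (7 : ℤ) ∣ cS (BUK i f) w t.1 t.2.1 t.2.2 - (if i = f ∧ w = 0 ∧ t = (1, 0, 1) then 1 else 0)

/-- CEV `i f`. The coefficients of `V` of weight at most `8`: `(oB-1)(oA-1)^7 + 5 (oB-1)^4 (oA-1)^4 + (oB-1)^7(oA-1)` (`w = 0`) on the diagonal. -/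
def TCeV (i f : Fin 4) : Prop := ∀ w : Fin 6, ∀ t ∈ M9,
  (7 : ℤ) ∣ cS (BVK i f) w t.1 t.2.1 t.2.2 -
    (if i = f ∧ w = 0 ∧ (t = (1, 0, 7) ∨ t = (7, 0, 1)) then 1 else if i = f ∧ w = 0 ∧ t = (4, 0, 4) then 5 else 0)

/-- CEO. The functionals at the origin: the sums over the classes (`cO` of `Helper14/TL7/StD.lean`). -/
def TCeO : Prop := ∀ (c : Fin 8) (f : Fin 4), ∀ t ∈ M9, (t.2.1 = 0 ∨ t.1 ≠ 0) → t.1 + 6 * t.2.1 + t.2.2 ≤ nOK c.val →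
  (7 : ℤ) ∣ Pool.Agent.Helper14.TL7.cO (BOK c f) t.1 t.2.1 t.2.2 -
    (if t.2.1 = 0 ∧ t.1 + t.2.2 = nOK c.val then qOK c.val f.val t.1 else 0)

/-! ### Leading forms -/

/-- LDU (from OPM, LOW0, LDG, RLL, CEG, CEU; `TLdg` of `Helper14/TL7/StD.lean`, `S7Opm` for products and multiples of lists). Leading forms of `U`: modulo the relations the rows are the lists `BUK` (`∑_f opL (mulL M (relK ρ f)) (F f) = opL M (∑_f opL (relK ρ f) (F f)) = 0`), and LDG with `n = 2`, `q = (0, 1, 0)` on the diagonal, `q = 0` off the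
diagonal. (`d` may be any integer.) Model: `Pool/Agent/Helper80/TH7/M_Ld.lean`. -/
def TLdU : Prop := ∀ (r s : ℕ) (d : ℤ) (F : Fin 4 → Fn7 (7 ^ r) (7 ^ s)), RelK F → (∀ f, F f ∈ Wd7 d) →
  ∀ i : Fin 4, (∑ f : Fin 4, opL (ULK i f) (F f)) - QoK (F i) ∈ Wd7 (d - 3)

/-- LDV (from OPM, LOW0, LDG, RLL, CEG, CEV). Leading forms of `V`: as LDU with `n = 8`, `q 1 = q 7 = 1`, `q 4 = 5`. -/
def TLdV : Prop := ∀ (r s : ℕ) (d : ℤ) (F : Fin 4 → Fn7 (7 ^ r) (7 ^ s)), RelK F → (∀ f, F f ∈ Wd7 d) →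
  ∀ i : Fin 4, (∑ f : Fin 4, opL (VLK i f) (F f)) - LoK (F i) ∈ Wd7 (d - 9)

/-- OM (from OPM, LOW0, OMG, RLL, CEG, CEO; `TOmg` of `Helper14/TL7/StD.lean`). The value of `O_c` at the origin, for functions of degree at most `n = nOK c`: modulo the relations the first row is `BOK c`; OMG with `n`, `q = qOK c f`. Model: `Pool/Agent/Helper80/TH7/M_Ld.lean`. -/
def TOm : Prop := ∀ (r s : ℕ) (c : Fin 8) (F : Fin 4 → Fn7 (7 ^ r) (7 ^ s)), RelK F → (∀ f, F f ∈ Wd7 (nOK c.val : ℤ)) →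
  (∑ f : Fin 4, opL (OLK c f) (F f)) 0 0 = ∑ f : Fin 4, (MoK c.val f.val (F f)) 0 0

/-- The solution with parameters `(F0, a, b, c, e)`. -/
def solK {R : Type} [AddCommGroup R] {q q' : ℕ} (u : Fin 5 → ZMod q → ZMod q' → R) (i : Fin 4) : ZMod q → ZMod q' → R :=
  fun x y => if i = 0 then u 0 x y
    else u 1 x y - tr7 6 (-1) 3 (-3) (u 1) x y + (if i = 1 then 0 else u 2 x y - tr7 9 (-4) 3 (-9) (u 2) x y) +
      (if i = 3 then u 3 x y - tr7 12 (-7) 3 (-12) (u 3) x y else 0)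

/-- The equation for the parameters: `F0 - F0∘T - (a - a∘ρ) - (b - b∘β) - (c - c∘α) - (e - e∘τ)`. -/
def DfK {R : Type} [AddCommGroup R] {q q' : ℕ} (u : Fin 5 → ZMod q → ZMod q' → R) : ZMod q → ZMod q' → R :=
  fun x y => u 0 x y - tr7 1 1 0 1 (u 0) x y - (u 1 x y - tr7 6 (-1) 3 (-3) (u 1) x y) - (u 2 x y - tr7 9 (-4) 3 (-9) (u 2) x y) -
    (u 3 x y - tr7 12 (-7) 3 (-12) (u 3) x y) - (u 4 x y - tr7 18 (-13) 3 (-15) (u 4) x y)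

/-- SOL (from TRM). (1) If `DfK u = 0` then `solK u` satisfies the relations: `(1 + ρ + ... + ρ⁵)(1 - ρ) = 1 - ρ⁶ = 0`, `(1 + β)(1 - β) = 1 - β² = 0`, and the same for `α`, `τ` (`k = F0 - F0∘T - F3 = e - e∘τ`); the powers are the matrices of `nrK`, `ntK` up to scalars. (2) Modulo `7` every solution has this form: `u 0 = F0`,
`u 1 = ∑_{i<6} i F1∘ρ^i` (`(1 - ρ) ∑ i ρ^i = ∑_{i<6} ρ^i - 6`, and `-6 = 1`), `u 2 = 4 (F2 - F1)`, `u 3 = 4 (F3 - F2)` (`(1 - β) = 2` on functions with `β = -1`, `8 = 1`), `u 4 = ∑_{i<6} i k∘τ^i`. -/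
def TSol : Prop :=
  (∀ (R : Type) (_ : AddCommGroup R) (r s : ℕ) (u : Fin 5 → ZMod (7 ^ r) → ZMod (7 ^ s) → R),
    (∀ x y, DfK u x y = 0) → RelK (solK u)) ∧
  ∀ (r s : ℕ) (F : Fin 4 → Fn7 (7 ^ r) (7 ^ s)), RelK F → ∃ u : Fin 5 → Fn7 (7 ^ r) (7 ^ s), (∀ x y, DfK u x y = 0) ∧
    ∀ i, solK u i = F i

/-- STA (from LOW0, NFA, LW1, PJ). A function `E` of degree at most `e` whose class `0` has smaller degree is `a - ρ a` up to lower degree: `ρ ≡ oW 5` modulo `Lw 1` (LW1: `oW 5` acts on the class `c` by `3^c`), `3^c ≠ 1` for `c = 1, ..., 5`: `a = ∑_{c=1}^5 (1 - 3^c)⁻¹ pj c E`. Model: `S7Sta` (`Pool/Agent/Helper66/S7/M_Sta.lean`),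
`Pool/Agent/Helper94/TH7/M_Sta.lean`. -/
def TSta : Prop := ∀ (r s : ℕ) (e : ℤ) (E : Fn7 (7 ^ r) (7 ^ s)), E ∈ Wd7 e → pj 0 E ∈ Wd7 (e - 1) →
  ∃ a : Fn7 (7 ^ r) (7 ^ s), a ∈ Wd7 e ∧ E - (a - op7 6 (-1) 3 (-3) a) ∈ Wd7 (e - 1)

/-- LWD (from TRM, LOW0, LW1). The equation up to lowering by `2`, for `γ = (a b; 7c d)` of class `w` of `om6` (`om = ad - 7bc / a²` modulo `7`): `γ ≡ oW w (1 + (b/a) X + (c/(a om)) Y)`: `T ≡ 1 + X`; `ρ ≡ oW 5 (1 + X + 6Y)` (`om = 3`, `b/a = -1/6`, `c/(a om) = 3/18`); `β ≡ oW 3 (1 + 5X + 2Y)` (`om = -1`, `-4/9`, `-3/9`);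
`α ≡ oW 3 (1 + 5Y)` (`-7/12 = 0`, `-3/12`); `τ ≡ oW 1 (1 + 2X + 4Y)` (`om = 5`, `-13/18`, `3/90`). `X = dX`, `Y = dY`. Model: `Pool/Agent/Helper94/TH7/M_Sta.lean` (`hLwd`). -/
def TLwd : Prop := ∀ (r s : ℕ) (d : ℤ) (u : Fin 5 → Fn7 (7 ^ r) (7 ^ s)), (∀ f, u f ∈ Wd7 d) →
  (DfK u : Fn7 (7 ^ r) (7 ^ s)) + dX (u 0) + (u 1 - oW 5 (u 1 + dX (u 1) + (6 : ZMod 7) • dY (u 1))) +
    (u 2 - oW 3 (u 2 + (5 : ZMod 7) • dX (u 2) + (2 : ZMod 7) • dY (u 2))) + (u 3 - oW 3 (u 3 + (5 : ZMod 7) • dY (u 3))) +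
    (u 4 - oW 1 (u 4 + (2 : ZMod 7) • dX (u 4) + (4 : ZMod 7) • dY (u 4))) ∈ Wd7 (d - 2)

/-- SUR (from TRM, LOW0, NFA, LW1, PJ, BB, STA, LWD). Solving the inhomogeneous equation below the top degree. Proof by induction (downwards until `Wd7 (-1) = 0`; `DfK` is additive): it is enough to solve up to an error in `Wd7 (e - 1)`. By BB `E = dX P + dY Q` with `P, Q ∈ Wd7 (e+1)` (`e < 7^r + 7^s - 2`). Put `P' = pj 1 P`, `Q' = pj 5 Q`,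
`u = (-P', 5 Q', 3 Q', 0, 0)`. By LWD and PJ (`oW w` acts on the class `c` by `om^c`, `om = 3, -1` for `w = 5, 3`; `3^5 = 5`, `3^4 = 4`, `3^0 = 1`) `DfK u ≡ dX P' - (1 - 5) 5 Q' - 2 · 3 Q' + (4 · 5 + 5 · 3) dX Q' + (6 · 5 + 2 · 3) dY Q' ≡ dX P' + dY Q'` modulo `Wd7 (e - 1)` (`20 - 6 = 14`, `35`, `36 = 1`).
`E' = E - dX P' - dY Q'` has `pj 0 E' ∈ Wd7 (e - 1)` (`pj 0 dX ≡ dX pj 1`, `pj 0 dY ≡ dY pj 5`), so STA for `E'` gives `a` of degree at most `e` with `E' - (a - ρ a) ∈ Wd7 (e-1)`, and `DfK (0, -a, 0, 0, 0) = a - ρ a`. Models: `Pool/Agent/Helper53/TH7/M_Sur.lean`, `Pool/Agent/Helper88/S7/M_Sur.lean`. -/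
def TSur : Prop := ∀ (r s : ℕ) (e : ℤ) (E : Fn7 (7 ^ r) (7 ^ s)), e < 7 ^ r + 7 ^ s - 2 → E ∈ Wd7 e →
  ∃ u : Fin 5 → Fn7 (7 ^ r) (7 ^ s), (∀ f, u f ∈ Wd7 (e + 1)) ∧ (DfK u : Fn7 (7 ^ r) (7 ^ s)) = E

/-- The leading parts of the solution with index `c` (`A = aaK c + i + 7j`, `B = abK c + i + j`): `(1, 0, 0, 0)`, `(4, 1, 0, 0)`, `(1, 0, 0, 0)`, `(0, 1, 0, 0)`, `(-1, 1, 1, 1)`, `(1, 0, 0, 0)`, `(2, 1, 1, 1)`, `(0, 1, 3, 0)` times `bb7 A B`, and for `c = 7` also `(-1, -2, 0, 0)` times `bb7 (A+1) (B-1)`. -/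
def tpK (c A B : ℕ) (f : Fin 4) {q q' : ℕ} : Fn7 q q' :=
  ((([[1, 0, 0, 0], [4, 1, 0, 0], [1, 0, 0, 0], [0, 1, 0, 0], [-1, 1, 1, 1], [1, 0, 0, 0], [2, 1, 1, 1], [0, 1, 3, 0]] :
    List (List (ZMod 7))).getD c []).getD f.val 0) • bb7 A B +
  (if c = 7 then (([-1, -2, 0, 0] : List (ZMod 7)).getD f.val 0) • bb7 (A + 1) (B - 1) else 0)

/-- LED (from TRM, LOW0, NFA, LW1, PJ, BB, SOL, STA, LWD, SUR). Solutions of the relations with given leading forms. Let `A = aaK c + i + 7j`, `B = abK c + i + j`, `d = A + B = dgK c i j`, `κ = A - B` modulo `6` (`0, 1, 2, 3, 2, 4, 4, 5` for `c = 0, ..., 7`), `b = pj κ (bb7 A B) ≡ bb7 A B` modulo `Wd7 (d-1)` (PJ). Take the parameters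
`u = (u 0, ..., u 4)` equal to `b` times `(1, 0, 0, 0, 0)`, `(4, 3, 3, 0, 0)`, `(1, 0, 0, 0, 0)`, `(0, 4, 3, 0, 0)`, `(-1, 6, 0, 0, 5)`, `(1, 0, 0, 0, 0)`, `(2, 2, 0, 0, 1)`, `(0, 5, 1, 2, 0)`, and for `c = 7` in addition `b' = pj 1 (bb7 (A+1) (B-1))` times `(-1, 1, 1, 0, 0)` (if `A + 1 = 7^r` then `bb7 (A+1) (B-1) = 0`). By PJ `oW w` acts on the class `κ`
by `om^κ`, `om = 3, -1, 5` for `w = 5, 3, 1`: `solK u 1 ≡ (1 - 3^κ) u 1`, `solK u 2 ≡ solK u 1 + (1 - (-1)^κ) u 2`, `solK u 3 ≡ solK u 2 + (1 - (-1)^κ) u 3` modulo `Wd7 (d-1)`: these are `tpK c A B`. The terms of degree `d` of `DfK u` (LWD) cancel: `-(1-3^κ) u 1 - (1-(-1)^κ) (u 2 + u 3) - (1-5^κ) u 4 = 0` (check: `6 - 6`, `20 - 6`,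
`6 + 15`, `6 + 1`, `20 - 2 - 4`, and `2 - 2` for `b'`). So `E = DfK u ∈ Wd7 (d - 1)` and, modulo `Wd7 (d-2)`, `E ≡ -dX (u 0) + oW 5 (dX (u 1) + 6 dY (u 1)) + oW 3 (5 dX (u 2) + 2 dY (u 2)) + oW 3 (5 dY (u 3)) + oW 1 (2 dX (u 4) + 4 dY (u 4))`; the class of `dX b` is `κ - 1`, of `dY b` is `κ + 1`, and `oW w = 1` on class `0`: so
`pj 0 E ∈ Wd7 (d - 2)`: only `κ = 1` with `dX` (`-4 + 3 + 15 = 14` for `c = 1`, `1 + 1 + 5 = 7` for `b'`) and `κ = 5` with `dY` (`30 + 2 + 10 = 42` for `c = 7`) could contribute. STA for `E` gives `a ∈ Wd7 (d-1)` with `E - (a - ρ a) ∈ Wd7 (d-2)`: add `a` to `u 1`; `d - 2 < 7^r + 7^s - 2`: subtract the solution of SUR (degree at most `d - 1`). Then `F = solK u`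
(SOL (1)). Models: `Pool/Agent/Helper67/TH7/M_Led.lean`, `S7Led` (`Pool/Agent/Helper36/S7/M_Led.lean`). -/
def TLed : Prop := ∀ (r s c i j : ℕ), c ≤ 7 → aaK c + i + 7 * j < 7 ^ r → abK c + i + j < 7 ^ s →
  ∃ F : Fin 4 → Fn7 (7 ^ r) (7 ^ s), RelK F ∧
    ∀ f : Fin 4, F f - tpK c (aaK c + i + 7 * j) (abK c + i + j) f ∈ Wd7 ((dgK c i j : ℤ) - 1)

/-- STP (from HKB, all HK, OPM of W7, PLA; `SymK.add` etc.). The operators preserve symbols, and their plane functions are given by the lists (`opL (mulL ..)`: products of rows, `mm4`; the operators `CoK`, `AoK`, `BoK` have the rows `TcK`, `TaK`, `TbK`). The value of `F0` at the point `(0,0)`: the standard matrix is `1` (`rYK 0 0 0 = 0`). Model: `Pool/Agent/Helper1/TH7/M_Stp.lean`. -/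
def TStp : Prop := ∀ (r s : ℕ) (G : ℤ → ℤ → ZMod 7), SymK 7 r (s + 1) G →
  (SymK 7 r (s + 1) (UoK (7 ^ r) G) ∧ ∀ i : Fin 4,
    (pfK (UoK (7 ^ r) G) i : Fn7 (7 ^ r) (7 ^ s)) = ∑ f : Fin 4, opL (ULK i f) (pfK G f)) ∧
  (SymK 7 r (s + 1) (VoK (7 ^ r) G) ∧ ∀ i : Fin 4,
    (pfK (VoK (7 ^ r) G) i : Fn7 (7 ^ r) (7 ^ s)) = ∑ f : Fin 4, opL (VLK i f) (pfK G f)) ∧
  (∀ c : Fin 8, (pfK (OoK c.val (7 ^ r) G) 0 : Fn7 (7 ^ r) (7 ^ s)) = ∑ f : Fin 4, opL (OLK c f) (pfK G f)) ∧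
  ∀ H : ℤ → ℤ → ZMod 7, (pfK H 0 : Fn7 (7 ^ r) (7 ^ s)) 0 0 = H 1 0 - H 0 1

/-- ITR (from REL, STP, LOW0, LDU, LDV, OM). Iteration, `m = 7^r`, for a symbol `G` modulo 7 of level `(r, s+1)` whose four functions have degree at most `d`. The functions of `U^i V^j G` have degree at most `d' = d - 2i - 8j`, and are `≡ QoK^i LoK^j F_f(G)` modulo `Wd7 (d' - 1)`. OM for `d' ≤ nOK c` (`MoK c f` kills degree `nOK c - 1`).
Model: `Pool/Agent/Helper7/TH7/M_Itr.lean` (word for word with `Fin 4`, `c ≤ 7`). -/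
def TItr : Prop := ∀ (r s : ℕ) (G : ℤ → ℤ → ZMod 7) (d : ℕ), SymK 7 r (s + 1) G →
  (∀ f : Fin 4, (pfK G f : Fn7 (7 ^ r) (7 ^ s)) ∈ Wd7 (d : ℤ)) →
  ∀ c i j : ℕ, c ≤ 7 →
  (d < dgK c i j → evK (7 ^ r) G c i j = 0) ∧
  (dgK c i j = d → evK (7 ^ r) G c i j =
    ∑ f : Fin 4, ((MoK c f.val * QoK ^ i * LoK ^ j : Module.End (ZMod 7) (Fn7 (7 ^ r) (7 ^ s))) (pfK G f)) 0 0)

/-- TRF (from LOW0, BB). The forms. (1) `MoK c f * QoK^i * LoK^j` is a form of degree `dgK c i j` in the commuting operators `dX`, `dY`, so it lowers by `dgK c i j`. (2) The value of a monomial `dX^p dY^q`, `p + q = A + B`, on `bb7 A B` at the origin is `1` if `(p, q) = (A, B)` and `0` otherwise, and `LoK^j = (XY)^j (X⁶ + 5 X³Y³ + Y⁶)^j =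
∑_x vc j x X^(7j - x) Y^(j + x)`, where `vc j x` is the coefficient of `z^x` in `(1 + 5 z³ + z⁶)^j` (so `vc j 0 = 1`, and `vc j x = 0` unless `3 ∣ x`). Model: `Pool/Agent/Helper75/TH7/M_Trf.lean`. -/
def TTrf : Prop :=
  (∀ (r s c i j : ℕ) (f : Fin 4), c ≤ 7 → Lw (MoK c f.val * QoK ^ i * LoK ^ j : Module.End (ZMod 7) (Fn7 (7 ^ r) (7 ^ s))) (dgK c i j)) ∧
  ∃ vc : ℕ → ℕ → ZMod 7, (∀ j, vc j 0 = 1) ∧ (∀ j x, ¬ 3 ∣ x → vc j x = 0) ∧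
    ∀ (r s c i j A B : ℕ) (f : Fin 4), c ≤ 7 → A < 7 ^ r → B < 7 ^ s → A + B = dgK c i j →
      ((MoK c f.val * QoK ^ i * LoK ^ j : Module.End (ZMod 7) (Fn7 (7 ^ r) (7 ^ s))) (bb7 A B)) 0 0 =
        ∑ m ∈ Finset.range (nOK c + 1), (if i + j + m ≤ B then ((qOK c f.val m : ℤ) : ZMod 7) * vc j (B - (i + j + m)) else 0)

/-- TRI (from LOW0, BB, LED, EX, ITR, TRF). Triangular system of symbols modulo 7. For `κ = (c, i, j)` take LED, the symbol `G` of EX; `A = aaK c + i + 7j`, `B = abK c + i + j`, `d = A + B`, `s = i + j`. By ITR `evK G c' i' j' = 0` if `dgK c' i' j' > d`; let `dgK c' i' j' = d`, `s' = i' + j'`: terms of lower degree are killed (TRF (1)), so the value is the sum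
over `f` of the values of TRF (2) on `tpK c A B f`. A monomial `Y^m` of the form `c'` on `F_f` contributes to `bb7 A B` only if `s' + m ≤ B` and `3 ∣ B - s' - m` (coefficient one if `s' + m = B`). Let the value be nonzero; CLAIM: `rhK κ' < rhK κ`, or `κ' = κ`, or `rhK κ' = rhK κ`, `c = 1`, `c' = 7`. By `dgK κ' = dgK κ`: `2 (s' - s) = nOK c - nOK c' + 6 (j - j')`; so
`c, c'` are both in `{0, 2, 4, 5, 6}` or both in `{1, 3, 7}`; `s' ≤ B` etc. modulo `3` decide everything (`omega`). `c = 0` (`F0`, `B = s`, `s' - s ≡ -nOK c'/2` modulo `3`): `c' = 0`: `s' ≤ s`; `c' = 2` (`Y^0`: `s - s' ≡ 1`: no), `c' = 4` (`Y³`, `s - s' ≡ 2`: no), `c' = 5` (`Y`, `s - s' ≡ 0`: no), `c' = 6` (`Y⁵`: no). `c = 2` (`F0`, `B = s`, `s' - s ≡ 1 - nOK c'/2`):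
`c' = 0, 4, 5`: no; `c' = 2`: `s' ≤ s`; `c' = 6`: `s' + 5 ≤ s`. `c = 4` (`-F0 + F3` part, `B = s + 1`, `s' - s ≡ 2 - nOK c'/2`): `c' = 0`: no; `c' = 2`: `s' - s ≡ 1`: `Y^0` on `F0` and `F3` cancel (same value), `Y²` no; `c' = 4`: only `3X³Y` on `F3`: `s' ≤ s`, value `3` for `κ' = κ`; `c' = 5`: `Y⁵` on `F3`: `s' + 4 ≤ s`; `c' = 6`: `Y⁵`: the same.
`c = 5` (`F0`, `B = s + 1`, `s' - s ≡ -nOK c'/2`): `c' = 0, 2, 6`: no; `c' = 4`: `s' + 2 ≤ s`; `c' = 5`: `s' ≤ s`. `c = 6` (`2 F0 + F3`, `B = s + 1`): `c' = 0`: no; `c' = 2`: `Y²` on `F3`: `s' + 1 ≤ s`, `rhK κ' = s' < s + 1`; `c' = 4`: `Y³`: `s' + 2 ≤ s`; `c' = 5`: `X⁵Y`: `2 · 1 + 5 = 0` cancels, `Y⁵` no; `c' = 6`: only `4X⁵Y` on `F3`: `s' ≤ s`, value `4`.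
`c = 3` (`F1`, `B = s`): `c' = 1, 7`: no; `c' = 3`: `s' ≤ s`. `c = 1` (`F1`, `B = s`; the forms have no `F0`): `c' = 3`: no; `c' = 1`: `X`: `s' ≤ s`; `c' = 7`: `X⁷`: `s' ≤ s` (`rhK κ' = s'`), `XY⁶`. `c = 7` (`F1 ≡ bb7 A B - 2 bb7 (A+1) (B-1)`, `F3 ≡ 0`, `B = s + 1`, `B - 1 = s`; `rhK κ = s`): `c' = 3`: no; `c' = 7`: `s' ≤ s` (on `bb7 A B`: `X⁶Y`; on
`bb7 (A+1) (B-1)`: `X⁷`), value `1 - 2 = -1` for `κ' = κ` (`1` if `A + 1 = 7^r`, where the second function is zero); `c' = 1`: `Y` on `bb7 A B`, `X` on `bb7 (A+1) (B-1)`: `s' ≤ s`, and for `s' = s` the value is `2 - 2 = 0`; here `j' = j + 1`, `i' = i - 1`, `A + 1 = aaK 1 + i' + 7j' < 7^r` by the hypothesis on `κ'`, so the second function is there. -/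
def TTri : Prop := ∀ (r s c i j : ℕ), c ≤ 7 → aaK c + i + 7 * j < 7 ^ r → abK c + i + j < 7 ^ s →
  ∃ G : ℤ → ℤ → ZMod 7, SymK 7 r (s + 1) G ∧ evK (7 ^ r) G c i j ≠ 0 ∧
    ∀ c' i' j' : ℕ, c' ≤ 7 → aaK c' + i' + 7 * j' < 7 ^ r → evK (7 ^ r) G c' i' j' ≠ 0 →
      (dgK c' i' j' < dgK c i j ∨ (dgK c' i' j' = dgK c i j ∧
        (rhK c' i' j' < rhK c i j ∨ (rhK c' i' j' = rhK c i j ∧ (c' = c ∨ (c = 1 ∧ c' = 7))))))

/-! ### Integral symbols and the lower bound -/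

/-- LIFP (from TRM, SOL). Lifting solutions of the relations to integers. By SOL (2) `f = solK u`; take integral lifts `U` of `u`; the defect `E = DfK U` is divisible by 7 and has total sum zero over the plane (`p ↦ pT` etc. are bijections, TRM); `E/7` has total sum zero, and every integral function with sum zero is `DfK W` of some `W`: modulo such functions
`δ_p ≡ δ_(pg)` for `g = T, ρ, β, α, τ`, so also for `B' = (1 0; 21 1) = ρ⁻¹ β α τ⁻¹ T` (up to scalars; `ρ⁻¹ ~ (3 -1; 21 -6)`, `τ⁻¹ ~ (15 -13; 21 -18)`), and the plane is connected under `T` and `B'` (`(x,y) T^z = (x + z, y/(1 + 7zy))`, `(x, y) B'^z = (x/(1 + 21zx), y + 3z)`, `3` is invertible: move to `(0, y')` and then to `(0,0)`).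
`F = solK (U - 7 W)`, SOL (1). Models: `Pool/Agent/Helper44/TH7/M_Lifp.lean`, the module for TLifp of `Helper4/TK/StD.lean`. -/
def TLifp : Prop := ∀ (r s : ℕ) (f : Fin 4 → Fn7 (7 ^ r) (7 ^ s)), RelK f →
  ∃ F : Fin 4 → ZMod (7 ^ r) → ZMod (7 ^ s) → ℤ, RelK F ∧
    ∀ i x y, ((F i x y : ℤ) : ZMod 7) = f i x y

/-- LIF (from REL, LIFP, EX, UNI). Lifting symbols: every symbol `g` modulo 7 lifts to an integral symbol `G` with the same `evK` modulo 7. Model: `Pool/Agent/Helper2/TH7/M_Lif.lean`. -/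
def TLif : Prop := ∀ (r s : ℕ) (g : ℤ → ℤ → ZMod 7), SymK 7 r (s + 1) g →
  ∃ G : ℤ → ℤ → ℤ, SymK 7 r (s + 1) G ∧
    ∀ c i j : ℕ, ((evK (7 ^ r) G c i j : ℤ) : ZMod 7) = evK (7 ^ r) g c i j

/-- UNB. Back to `Γ₀(3·7^n)` and to complex values (`Tl l 1 G0 (p,q) = Tl l (7^r) G (7^r p, q)`). Model: `Pool/Agent/Helper29/TH7/M_Unb.lean`. -/
def TUnb : Prop := ∀ (r s : ℕ) (G : ℤ → ℤ → ℤ), SymK 7 r s G →
  SymK 7 0 (r + s) (fun p q => ((G (7 ^ r * p) q : ℤ) : ℂ)) ∧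
    ∀ c i j : ℕ, evK 1 (fun p q => ((G (7 ^ r * p) q : ℤ) : ℂ)) c i j = ((evK (7 ^ r) G c i j : ℤ) : ℂ)

/-- CNT. Counting the index sets: `DDE 4 ddK7 (2k) = 4t²`, `DDE 4 ddK7 (2k+1) = 28t² + 3t`, `t = 7^(k-1)` (`k ≥ 1`; induction: `4, 31, 196, 1393`). First set (`abK c + i + j < t`): the first condition follows from the second; `t(t+1)/2` for `c = 0, 1, 2, 3` and `t(t-1)/2` for `c = 4, 5, 6, 7`. Second set (`i + 7j < 7t - aaK c`): the second condition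
follows from the first (`abK c ≤ aaK c`); `∑_{j<t} (7t - 7j - e) = 7t(t+1)/2 - e t` for `e = 0, 1, 2, 3, 3, 5, 5, 6` (sum `25`). Model: `Pool/Agent/Helper88/TH7/M_Cnt.lean`. -/
def TCnt : Prop :=
  (∀ k : ℕ, 1 ≤ k → ((Finset.range 8 ×ˢ Finset.range (7 ^ k) ×ˢ Finset.range (7 ^ k)).filter
    fun t : ℕ × ℕ × ℕ => aaK t.1 + t.2.1 + 7 * t.2.2 < 7 ^ k ∧ abK t.1 + t.2.1 + t.2.2 < 7 ^ (k - 1)).card = DDE 4 ddK7 (2 * k)) ∧
  (∀ k : ℕ, 1 ≤ k → ((Finset.range 8 ×ˢ Finset.range (7 ^ k) ×ˢ Finset.range (7 ^ k)).filter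
    fun t : ℕ × ℕ × ℕ => aaK t.1 + t.2.1 + 7 * t.2.2 < 7 ^ k ∧ abK t.1 + t.2.1 + t.2.2 < 7 ^ k).card = DDE 4 ddK7 (2 * k + 1))

/-- LB from TRI, LIF, UNB, CNT: for `n = 2k` (`k ≥ 1`) use `(r,s) = (k,k-1)`, for `n = 2k+1` use `(r,s) = (k,k)`. The matrix `evK G_κ κ'` (`κ`, `κ'` in the index set of CNT, which satisfy `aaK c' + i' + 7j' < 7^r`) is integral and triangular modulo 7 for the lexicographic order of `(dgK, rhK, o)`, `o = 0` for `c = 7` and `o = c` otherwise, which determines `κ`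
(`c = 7` and `c = 0` have degrees of different parity). The vectors `evLK 7 (G_κ)` are independent. Models: `Pool/Agent/Helper89/TH7/M_LBof.lean`, the module for TLBof of `Helper4/TK/StD.lean`. -/
def TLBof : Prop := TTri → TLif → TUnb → TCnt → LBK 7 4 ddK7

end Pool.Agent.Helper14.TK7
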